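import Pool.Agent.Conf14.Defs

/-! The relations of the pure braid group for Artin's automorphisms. -/

set_option linter.unusedSimpArgs false
set_option linter.unreachableTactic false
set_option linter.unusedTactic false

namespace Pool.Agent.Conf14

open FreeGroup (of lift lift_apply_of)

variable {n : ℕ}

theorem artin_of (i j k : Fin n) : artin i j (of k) = artinFun i j k := by
  show lift (artinFun i j) (of k) = _
  rw [lift_apply_of]

theorem artin_inv_of (i j k : Fin n) : (artin i j)⁻¹ (of k) = artinInvFun i j k := by
  show lift (artinInvFun i j) (of k) = _
  rw [lift_apply_of]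

theorem a_fst (i j : Fin n) : artin i j (of i) = (of i * of j)⁻¹ * of i * (of i * of j) := by
  rw [artin_of, artinFun, if_pos rfl]

theorem a_snd (i j : Fin n) : artin i j (of j) = (of i * of j)⁻¹ * of j * (of i * of j) := by
  rw [artin_of, artinFun]
  by_cases h : j = i
  · rw [if_pos h, h]
  · rw [if_neg h, if_pos rfl]

theorem a_mid (i j k : Fin n) (h1 : i < k) (h2 : k < j) : artin i j (of k) =
    ((of j)⁻¹ * (of i)⁻¹ * of j * of i) * of k * ((of j)⁻¹ * (of i)⁻¹ * of j * of i)⁻¹ := by
  rw [artin_of, artinFun, if_neg h1.ne', if_neg h2.ne, if_pos ⟨h1, h2⟩]

theorem a_out (i j k : Fin n) (h1 : k ≠ i) (h2 : k ≠ j) (h3 : ¬ (i < k ∧ k < j)) :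
    artin i j (of k) = of k := by
  rw [artin_of, artinFun, if_neg h1, if_neg h2, if_neg h3]

theorem a_lt (i j k : Fin n) (h : i < j) (h1 : k < i) : artin i j (of k) = of k :=
  a_out i j k h1.ne (h1.trans h).ne fun h' => lt_asymm h1 h'.1

theorem a_gt (i j k : Fin n) (h : i < j) (h1 : j < k) : artin i j (of k) = of k :=
  a_out i j k (h.trans h1).ne' h1.ne' fun h' => lt_asymm h1 h'.2

theorem b_fst (i j : Fin n) :
    (artin i j)⁻¹ (of i) = (of i * of j) * of i * (of i * of j)⁻¹ := by
  rw [artin_inv_of, artinInvFun, if_pos rfl]

theorem b_snd (i j : Fin n) :
    (artin i j)⁻¹ (of j) = (of i * of j) * of j * (of i * of j)⁻¹ := by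
  rw [artin_inv_of, artinInvFun]
  by_cases h : j = i
  · rw [if_pos h, h]
  · rw [if_neg h, if_pos rfl]

theorem b_mid (i j k : Fin n) (h1 : i < k) (h2 : k < j) : (artin i j)⁻¹ (of k) =
    (of i * of j * (of i)⁻¹ * (of j)⁻¹) * of k * (of i * of j * (of i)⁻¹ * (of j)⁻¹)⁻¹ := by
  rw [artin_inv_of, artinInvFun, if_neg h1.ne', if_neg h2.ne, if_pos ⟨h1, h2⟩]

theorem b_out (i j k : Fin n) (h1 : k ≠ i) (h2 : k ≠ j) (h3 : ¬ (i < k ∧ k < j)) :
    (artin i j)⁻¹ (of k) = of k := by
  rw [artin_inv_of, artinInvFun, if_neg h1, if_neg h2, if_neg h3]

theorem b_lt (i j k : Fin n) (h : i < j) (h1 : k < i) : (artin i j)⁻¹ (of k) = of k :=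
  b_out i j k h1.ne (h1.trans h).ne fun h' => lt_asymm h1 h'.1

theorem b_gt (i j k : Fin n) (h : i < j) (h1 : j < k) : (artin i j)⁻¹ (of k) = of k :=
  b_out i j k (h.trans h1).ne' h1.ne' fun h' => lt_asymm h1 h'.2

theorem mulAut_ext {φ ψ : MulAut (FreeGroup (Fin n))} (h : ∀ k, φ (of k) = ψ (of k)) : φ = ψ := by
  apply MulEquiv.ext
  intro g
  have : φ.toMonoidHom = ψ.toMonoidHom := FreeGroup.ext_hom _ _ h
  exact DFunLike.congr_fun this g

theorem rel_q1 {i j k l : Fin n} (h0 : i < j) (h1 : j < k) (h2 : k < l) :
    artin i j * artin k l =
      artin k l * artin i j := by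
  apply mulAut_ext
  intro m
  rcases lt_trichotomy m i with hm0 | hm0 | hm0
  · have h_m_i : m < i := by order
    have h_m_j : m < j := by order
    have h_m_k : m < k := by order
    have h_m_l : m < l := by order
    have h_i_j : i < j := by order
    have h_i_k : i < k := by order
    have h_i_l : i < l := by order
    have h_j_k : j < k := by order
    have h_j_l : j < l := by order
    have h_k_l : k < l := by order
    simp only [MulAut.mul_apply, map_mul, map_inv, a_lt i j m h_i_j h_m_i, a_fst i j, a_snd i j,
      a_gt i j k h_i_j h_j_k, a_gt i j l h_i_j h_j_l, a_lt k l m h_k_l h_m_k,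
      a_lt k l i h_k_l h_i_k, a_lt k l j h_k_l h_j_k, a_fst k l, a_snd k l]
    try group
  · rw [hm0]
    have h_i_j : i < j := by order
    have h_i_k : i < k := by order
    have h_i_l : i < l := by order
    have h_j_k : j < k := by order
    have h_j_l : j < l := by order
    have h_k_l : k < l := by order
    simp only [MulAut.mul_apply, map_mul, map_inv, a_fst i j, a_snd i j, a_gt i j k h_i_j h_j_k,
      a_gt i j l h_i_j h_j_l, a_lt k l i h_k_l h_i_k, a_lt k l j h_k_l h_j_k, a_fst k l,
      a_snd k l]
    try group
  · skip
    rcases lt_trichotomy m j with hm1 | hm1 | hm1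
    · have h_i_m : i < m := by order
      have h_i_j : i < j := by order
      have h_i_k : i < k := by order
      have h_i_l : i < l := by order
      have h_m_j : m < j := by order
      have h_m_k : m < k := by order
      have h_m_l : m < l := by order
      have h_j_k : j < k := by order
      have h_j_l : j < l := by order
      have h_k_l : k < l := by order
      simp only [MulAut.mul_apply, map_mul, map_inv, a_fst i j, a_mid i j m h_i_m h_m_j, a_snd i j,
        a_gt i j k h_i_j h_j_k, a_gt i j l h_i_j h_j_l, a_lt k l i h_k_l h_i_k,
        a_lt k l m h_k_l h_m_k, a_lt k l j h_k_l h_j_k, a_fst k l, a_snd k l]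
      try group
    · rw [hm1]
      have h_i_j : i < j := by order
      have h_i_k : i < k := by order
      have h_i_l : i < l := by order
      have h_j_k : j < k := by order
      have h_j_l : j < l := by order
      have h_k_l : k < l := by order
      simp only [MulAut.mul_apply, map_mul, map_inv, a_fst i j, a_snd i j, a_gt i j k h_i_j h_j_k,
        a_gt i j l h_i_j h_j_l, a_lt k l i h_k_l h_i_k, a_lt k l j h_k_l h_j_k, a_fst k l,
        a_snd k l]
      try group
    · skip
      rcases lt_trichotomy m k with hm2 | hm2 | hm2
      · have h_i_j : i < j := by order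
        have h_i_m : i < m := by order
        have h_i_k : i < k := by order
        have h_i_l : i < l := by order
        have h_j_m : j < m := by order
        have h_j_k : j < k := by order
        have h_j_l : j < l := by order
        have h_m_k : m < k := by order
        have h_m_l : m < l := by order
        have h_k_l : k < l := by order
        simp only [MulAut.mul_apply, map_mul, map_inv, a_fst i j, a_snd i j,
          a_gt i j m h_i_j h_j_m, a_gt i j k h_i_j h_j_k, a_gt i j l h_i_j h_j_l,
          a_lt k l i h_k_l h_i_k, a_lt k l j h_k_l h_j_k, a_lt k l m h_k_l h_m_k, a_fst k l,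
          a_snd k l]
        try group
      · rw [hm2]
        have h_i_j : i < j := by order
        have h_i_k : i < k := by order
        have h_i_l : i < l := by order
        have h_j_k : j < k := by order
        have h_j_l : j < l := by order
        have h_k_l : k < l := by order
        simp only [MulAut.mul_apply, map_mul, map_inv, a_fst i j, a_snd i j,
          a_gt i j k h_i_j h_j_k, a_gt i j l h_i_j h_j_l, a_lt k l i h_k_l h_i_k,
          a_lt k l j h_k_l h_j_k, a_fst k l, a_snd k l]
        try group
      · skip
        rcases lt_trichotomy m l with hm3 | hm3 | hm3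
        · have h_i_j : i < j := by order
          have h_i_k : i < k := by order
          have h_i_m : i < m := by order
          have h_i_l : i < l := by order
          have h_j_k : j < k := by order
          have h_j_m : j < m := by order
          have h_j_l : j < l := by order
          have h_k_m : k < m := by order
          have h_k_l : k < l := by order
          have h_m_l : m < l := by order
          simp only [MulAut.mul_apply, map_mul, map_inv, a_fst i j, a_snd i j,
            a_gt i j k h_i_j h_j_k, a_gt i j m h_i_j h_j_m, a_gt i j l h_i_j h_j_l,
            a_lt k l i h_k_l h_i_k, a_lt k l j h_k_l h_j_k, a_fst k l, a_mid k l m h_k_m h_m_l,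
            a_snd k l]
          try group
        · rw [hm3]
          have h_i_j : i < j := by order
          have h_i_k : i < k := by order
          have h_i_l : i < l := by order
          have h_j_k : j < k := by order
          have h_j_l : j < l := by order
          have h_k_l : k < l := by order
          simp only [MulAut.mul_apply, map_mul, map_inv, a_fst i j, a_snd i j,
            a_gt i j k h_i_j h_j_k, a_gt i j l h_i_j h_j_l, a_lt k l i h_k_l h_i_k,
            a_lt k l j h_k_l h_j_k, a_fst k l, a_snd k l]
          try group
        · have h_i_j : i < j := by order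
          have h_i_k : i < k := by order
          have h_i_l : i < l := by order
          have h_i_m : i < m := by order
          have h_j_k : j < k := by order
          have h_j_l : j < l := by order
          have h_j_m : j < m := by order
          have h_k_l : k < l := by order
          have h_k_m : k < m := by order
          have h_l_m : l < m := by order
          simp only [MulAut.mul_apply, map_mul, map_inv, a_fst i j, a_snd i j,
            a_gt i j k h_i_j h_j_k, a_gt i j l h_i_j h_j_l, a_gt i j m h_i_j h_j_m,
            a_lt k l i h_k_l h_i_k, a_lt k l j h_k_l h_j_k, a_fst k l, a_snd k l,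
            a_gt k l m h_k_l h_l_m]
          try group

theorem rel_q2 {i j k l : Fin n} (h0 : i < j) (h1 : j < k) (h2 : k < l) :
    artin i l * artin j k =
      artin j k * artin i l := by
  apply mulAut_ext
  intro m
  rcases lt_trichotomy m i with hm0 | hm0 | hm0
  · have h_m_i : m < i := by order
    have h_m_j : m < j := by order
    have h_m_k : m < k := by order
    have h_m_l : m < l := by order
    have h_i_j : i < j := by order
    have h_i_k : i < k := by order
    have h_i_l : i < l := by order
    have h_j_k : j < k := by order
    have h_j_l : j < l := by order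
    have h_k_l : k < l := by order
    simp only [MulAut.mul_apply, map_mul, map_inv, a_lt i l m h_i_l h_m_i, a_fst i l,
      a_mid i l j h_i_j h_j_l, a_mid i l k h_i_k h_k_l, a_snd i l, a_lt j k m h_j_k h_m_j,
      a_lt j k i h_j_k h_i_j, a_fst j k, a_snd j k, a_gt j k l h_j_k h_k_l]
    try group
  · rw [hm0]
    have h_i_j : i < j := by order
    have h_i_k : i < k := by order
    have h_i_l : i < l := by order
    have h_j_k : j < k := by order
    have h_j_l : j < l := by order
    have h_k_l : k < l := by order
    simp only [MulAut.mul_apply, map_mul, map_inv, a_fst i l, a_mid i l j h_i_j h_j_l,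
      a_mid i l k h_i_k h_k_l, a_snd i l, a_lt j k i h_j_k h_i_j, a_fst j k, a_snd j k,
      a_gt j k l h_j_k h_k_l]
    try group
  · skip
    rcases lt_trichotomy m j with hm1 | hm1 | hm1
    · have h_i_m : i < m := by order
      have h_i_j : i < j := by order
      have h_i_k : i < k := by order
      have h_i_l : i < l := by order
      have h_m_j : m < j := by order
      have h_m_k : m < k := by order
      have h_m_l : m < l := by order
      have h_j_k : j < k := by order
      have h_j_l : j < l := by order
      have h_k_l : k < l := by order
      simp only [MulAut.mul_apply, map_mul, map_inv, a_fst i l, a_mid i l m h_i_m h_m_l,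
        a_mid i l j h_i_j h_j_l, a_mid i l k h_i_k h_k_l, a_snd i l, a_lt j k i h_j_k h_i_j,
        a_lt j k m h_j_k h_m_j, a_fst j k, a_snd j k, a_gt j k l h_j_k h_k_l]
      try group
    · rw [hm1]
      have h_i_j : i < j := by order
      have h_i_k : i < k := by order
      have h_i_l : i < l := by order
      have h_j_k : j < k := by order
      have h_j_l : j < l := by order
      have h_k_l : k < l := by order
      simp only [MulAut.mul_apply, map_mul, map_inv, a_fst i l, a_mid i l j h_i_j h_j_l,
        a_mid i l k h_i_k h_k_l, a_snd i l, a_lt j k i h_j_k h_i_j, a_fst j k, a_snd j k,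
        a_gt j k l h_j_k h_k_l]
      try group
    · skip
      rcases lt_trichotomy m k with hm2 | hm2 | hm2
      · have h_i_j : i < j := by order
        have h_i_m : i < m := by order
        have h_i_k : i < k := by order
        have h_i_l : i < l := by order
        have h_j_m : j < m := by order
        have h_j_k : j < k := by order
        have h_j_l : j < l := by order
        have h_m_k : m < k := by order
        have h_m_l : m < l := by order
        have h_k_l : k < l := by order
        simp only [MulAut.mul_apply, map_mul, map_inv, a_fst i l, a_mid i l j h_i_j h_j_l,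
          a_mid i l m h_i_m h_m_l, a_mid i l k h_i_k h_k_l, a_snd i l, a_lt j k i h_j_k h_i_j,
          a_fst j k, a_mid j k m h_j_m h_m_k, a_snd j k, a_gt j k l h_j_k h_k_l]
        try group
      · rw [hm2]
        have h_i_j : i < j := by order
        have h_i_k : i < k := by order
        have h_i_l : i < l := by order
        have h_j_k : j < k := by order
        have h_j_l : j < l := by order
        have h_k_l : k < l := by order
        simp only [MulAut.mul_apply, map_mul, map_inv, a_fst i l, a_mid i l j h_i_j h_j_l,
          a_mid i l k h_i_k h_k_l, a_snd i l, a_lt j k i h_j_k h_i_j, a_fst j k, a_snd j k,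
          a_gt j k l h_j_k h_k_l]
        try group
      · skip
        rcases lt_trichotomy m l with hm3 | hm3 | hm3
        · have h_i_j : i < j := by order
          have h_i_k : i < k := by order
          have h_i_m : i < m := by order
          have h_i_l : i < l := by order
          have h_j_k : j < k := by order
          have h_j_m : j < m := by order
          have h_j_l : j < l := by order
          have h_k_m : k < m := by order
          have h_k_l : k < l := by order
          have h_m_l : m < l := by order
          simp only [MulAut.mul_apply, map_mul, map_inv, a_fst i l, a_mid i l j h_i_j h_j_l,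
            a_mid i l k h_i_k h_k_l, a_mid i l m h_i_m h_m_l, a_snd i l, a_lt j k i h_j_k h_i_j,
            a_fst j k, a_snd j k, a_gt j k m h_j_k h_k_m, a_gt j k l h_j_k h_k_l]
          try group
        · rw [hm3]
          have h_i_j : i < j := by order
          have h_i_k : i < k := by order
          have h_i_l : i < l := by order
          have h_j_k : j < k := by order
          have h_j_l : j < l := by order
          have h_k_l : k < l := by order
          simp only [MulAut.mul_apply, map_mul, map_inv, a_fst i l, a_mid i l j h_i_j h_j_l,
            a_mid i l k h_i_k h_k_l, a_snd i l, a_lt j k i h_j_k h_i_j, a_fst j k, a_snd j k,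
            a_gt j k l h_j_k h_k_l]
          try group
        · have h_i_j : i < j := by order
          have h_i_k : i < k := by order
          have h_i_l : i < l := by order
          have h_i_m : i < m := by order
          have h_j_k : j < k := by order
          have h_j_l : j < l := by order
          have h_j_m : j < m := by order
          have h_k_l : k < l := by order
          have h_k_m : k < m := by order
          have h_l_m : l < m := by order
          simp only [MulAut.mul_apply, map_mul, map_inv, a_fst i l, a_mid i l j h_i_j h_j_l,
            a_mid i l k h_i_k h_k_l, a_snd i l, a_gt i l m h_i_l h_l_m, a_lt j k i h_j_k h_i_j,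
            a_fst j k, a_snd j k, a_gt j k l h_j_k h_k_l, a_gt j k m h_j_k h_k_m]
          try group

theorem rel_q3 {i j k l : Fin n} (h0 : i < j) (h1 : j < k) (h2 : k < l) :
    artin k l * artin i k * (artin k l)⁻¹ * artin j l =
      artin j l * (artin k l * artin i k * (artin k l)⁻¹) := by
  apply mulAut_ext
  intro m
  rcases lt_trichotomy m i with hm0 | hm0 | hm0
  · have h_m_i : m < i := by order
    have h_m_j : m < j := by order
    have h_m_k : m < k := by order
    have h_m_l : m < l := by order
    have h_i_j : i < j := by order
    have h_i_k : i < k := by order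
    have h_i_l : i < l := by order
    have h_j_k : j < k := by order
    have h_j_l : j < l := by order
    have h_k_l : k < l := by order
    simp only [MulAut.mul_apply, map_mul, map_inv, a_lt k l m h_k_l h_m_k, a_lt k l i h_k_l h_i_k,
      a_lt k l j h_k_l h_j_k, a_fst k l, a_snd k l, a_lt i k m h_i_k h_m_i, a_fst i k,
      a_mid i k j h_i_j h_j_k, a_snd i k, a_gt i k l h_i_k h_k_l, b_lt k l m h_k_l h_m_k,
      b_lt k l i h_k_l h_i_k, b_lt k l j h_k_l h_j_k, b_fst k l, b_snd k l, a_lt j l m h_j_l h_m_j,
      a_lt j l i h_j_l h_i_j, a_fst j l, a_mid j l k h_j_k h_k_l, a_snd j l]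
    try group
  · rw [hm0]
    have h_i_j : i < j := by order
    have h_i_k : i < k := by order
    have h_i_l : i < l := by order
    have h_j_k : j < k := by order
    have h_j_l : j < l := by order
    have h_k_l : k < l := by order
    simp only [MulAut.mul_apply, map_mul, map_inv, a_lt k l i h_k_l h_i_k, a_lt k l j h_k_l h_j_k,
      a_fst k l, a_snd k l, a_fst i k, a_mid i k j h_i_j h_j_k, a_snd i k, a_gt i k l h_i_k h_k_l,
      b_lt k l i h_k_l h_i_k, b_lt k l j h_k_l h_j_k, b_fst k l, b_snd k l, a_lt j l i h_j_l h_i_j,
      a_fst j l, a_mid j l k h_j_k h_k_l, a_snd j l]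
    try group
  · skip
    rcases lt_trichotomy m j with hm1 | hm1 | hm1
    · have h_i_m : i < m := by order
      have h_i_j : i < j := by order
      have h_i_k : i < k := by order
      have h_i_l : i < l := by order
      have h_m_j : m < j := by order
      have h_m_k : m < k := by order
      have h_m_l : m < l := by order
      have h_j_k : j < k := by order
      have h_j_l : j < l := by order
      have h_k_l : k < l := by order
      simp only [MulAut.mul_apply, map_mul, map_inv, a_lt k l i h_k_l h_i_k,
        a_lt k l m h_k_l h_m_k, a_lt k l j h_k_l h_j_k, a_fst k l, a_snd k l, a_fst i k,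
        a_mid i k m h_i_m h_m_k, a_mid i k j h_i_j h_j_k, a_snd i k, a_gt i k l h_i_k h_k_l,
        b_lt k l i h_k_l h_i_k, b_lt k l m h_k_l h_m_k, b_lt k l j h_k_l h_j_k, b_fst k l,
        b_snd k l, a_lt j l i h_j_l h_i_j, a_lt j l m h_j_l h_m_j, a_fst j l,
        a_mid j l k h_j_k h_k_l, a_snd j l]
      try group
    · rw [hm1]
      have h_i_j : i < j := by order
      have h_i_k : i < k := by order
      have h_i_l : i < l := by order
      have h_j_k : j < k := by order
      have h_j_l : j < l := by order
      have h_k_l : k < l := by order
      simp only [MulAut.mul_apply, map_mul, map_inv, a_lt k l i h_k_l h_i_k,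
        a_lt k l j h_k_l h_j_k, a_fst k l, a_snd k l, a_fst i k, a_mid i k j h_i_j h_j_k,
        a_snd i k, a_gt i k l h_i_k h_k_l, b_lt k l i h_k_l h_i_k, b_lt k l j h_k_l h_j_k,
        b_fst k l, b_snd k l, a_lt j l i h_j_l h_i_j, a_fst j l, a_mid j l k h_j_k h_k_l,
        a_snd j l]
      try group
    · skip
      rcases lt_trichotomy m k with hm2 | hm2 | hm2
      · have h_i_j : i < j := by order
        have h_i_m : i < m := by order
        have h_i_k : i < k := by order
        have h_i_l : i < l := by order
        have h_j_m : j < m := by order
        have h_j_k : j < k := by order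
        have h_j_l : j < l := by order
        have h_m_k : m < k := by order
        have h_m_l : m < l := by order
        have h_k_l : k < l := by order
        simp only [MulAut.mul_apply, map_mul, map_inv, a_lt k l i h_k_l h_i_k,
          a_lt k l j h_k_l h_j_k, a_lt k l m h_k_l h_m_k, a_fst k l, a_snd k l, a_fst i k,
          a_mid i k j h_i_j h_j_k, a_mid i k m h_i_m h_m_k, a_snd i k, a_gt i k l h_i_k h_k_l,
          b_lt k l i h_k_l h_i_k, b_lt k l j h_k_l h_j_k, b_lt k l m h_k_l h_m_k, b_fst k l,
          b_snd k l, a_lt j l i h_j_l h_i_j, a_fst j l, a_mid j l m h_j_m h_m_l,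
          a_mid j l k h_j_k h_k_l, a_snd j l]
        try group
      · rw [hm2]
        have h_i_j : i < j := by order
        have h_i_k : i < k := by order
        have h_i_l : i < l := by order
        have h_j_k : j < k := by order
        have h_j_l : j < l := by order
        have h_k_l : k < l := by order
        simp only [MulAut.mul_apply, map_mul, map_inv, a_lt k l i h_k_l h_i_k,
          a_lt k l j h_k_l h_j_k, a_fst k l, a_snd k l, a_fst i k, a_mid i k j h_i_j h_j_k,
          a_snd i k, a_gt i k l h_i_k h_k_l, b_lt k l i h_k_l h_i_k, b_lt k l j h_k_l h_j_k,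
          b_fst k l, b_snd k l, a_lt j l i h_j_l h_i_j, a_fst j l, a_mid j l k h_j_k h_k_l,
          a_snd j l]
        try group
      · skip
        rcases lt_trichotomy m l with hm3 | hm3 | hm3
        · have h_i_j : i < j := by order
          have h_i_k : i < k := by order
          have h_i_m : i < m := by order
          have h_i_l : i < l := by order
          have h_j_k : j < k := by order
          have h_j_m : j < m := by order
          have h_j_l : j < l := by order
          have h_k_m : k < m := by order
          have h_k_l : k < l := by order
          have h_m_l : m < l := by order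
          simp only [MulAut.mul_apply, map_mul, map_inv, a_lt k l i h_k_l h_i_k,
            a_lt k l j h_k_l h_j_k, a_fst k l, a_mid k l m h_k_m h_m_l, a_snd k l, a_fst i k,
            a_mid i k j h_i_j h_j_k, a_snd i k, a_gt i k m h_i_k h_k_m, a_gt i k l h_i_k h_k_l,
            b_lt k l i h_k_l h_i_k, b_lt k l j h_k_l h_j_k, b_fst k l, b_mid k l m h_k_m h_m_l,
            b_snd k l, a_lt j l i h_j_l h_i_j, a_fst j l, a_mid j l k h_j_k h_k_l,
            a_mid j l m h_j_m h_m_l, a_snd j l]
          try group
        · rw [hm3]
          have h_i_j : i < j := by order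
          have h_i_k : i < k := by order
          have h_i_l : i < l := by order
          have h_j_k : j < k := by order
          have h_j_l : j < l := by order
          have h_k_l : k < l := by order
          simp only [MulAut.mul_apply, map_mul, map_inv, a_lt k l i h_k_l h_i_k,
            a_lt k l j h_k_l h_j_k, a_fst k l, a_snd k l, a_fst i k, a_mid i k j h_i_j h_j_k,
            a_snd i k, a_gt i k l h_i_k h_k_l, b_lt k l i h_k_l h_i_k, b_lt k l j h_k_l h_j_k,
            b_fst k l, b_snd k l, a_lt j l i h_j_l h_i_j, a_fst j l, a_mid j l k h_j_k h_k_l,
            a_snd j l]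
          try group
        · have h_i_j : i < j := by order
          have h_i_k : i < k := by order
          have h_i_l : i < l := by order
          have h_i_m : i < m := by order
          have h_j_k : j < k := by order
          have h_j_l : j < l := by order
          have h_j_m : j < m := by order
          have h_k_l : k < l := by order
          have h_k_m : k < m := by order
          have h_l_m : l < m := by order
          simp only [MulAut.mul_apply, map_mul, map_inv, a_lt k l i h_k_l h_i_k,
            a_lt k l j h_k_l h_j_k, a_fst k l, a_snd k l, a_gt k l m h_k_l h_l_m, a_fst i k,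
            a_mid i k j h_i_j h_j_k, a_snd i k, a_gt i k l h_i_k h_k_l, a_gt i k m h_i_k h_k_m,
            b_lt k l i h_k_l h_i_k, b_lt k l j h_k_l h_j_k, b_fst k l, b_snd k l,
            b_gt k l m h_k_l h_l_m, a_lt j l i h_j_l h_i_j, a_fst j l, a_mid j l k h_j_k h_k_l,
            a_snd j l, a_gt j l m h_j_l h_l_m]
          try group

theorem rel_t1 {i j k : Fin n} (h0 : i < j) (h1 : j < k) :
    (artin i j * artin i k * artin j k) * artin i k =
      artin i k * (artin i j * artin i k * artin j k) := by
  apply mulAut_ext
  intro m
  rcases lt_trichotomy m i with hm0 | hm0 | hm0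
  · have h_m_i : m < i := by order
    have h_m_j : m < j := by order
    have h_m_k : m < k := by order
    have h_i_j : i < j := by order
    have h_i_k : i < k := by order
    have h_j_k : j < k := by order
    simp only [MulAut.mul_apply, map_mul, map_inv, a_lt i j m h_i_j h_m_i, a_fst i j, a_snd i j,
      a_gt i j k h_i_j h_j_k, a_lt i k m h_i_k h_m_i, a_fst i k, a_mid i k j h_i_j h_j_k,
      a_snd i k, a_lt j k m h_j_k h_m_j, a_lt j k i h_j_k h_i_j, a_fst j k, a_snd j k]
    try group
  · rw [hm0]
    have h_i_j : i < j := by order
    have h_i_k : i < k := by order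
    have h_j_k : j < k := by order
    simp only [MulAut.mul_apply, map_mul, map_inv, a_fst i j, a_snd i j, a_gt i j k h_i_j h_j_k,
      a_fst i k, a_mid i k j h_i_j h_j_k, a_snd i k, a_lt j k i h_j_k h_i_j, a_fst j k, a_snd j k]
    try group
  · skip
    rcases lt_trichotomy m j with hm1 | hm1 | hm1
    · have h_i_m : i < m := by order
      have h_i_j : i < j := by order
      have h_i_k : i < k := by order
      have h_m_j : m < j := by order
      have h_m_k : m < k := by order
      have h_j_k : j < k := by order
      simp only [MulAut.mul_apply, map_mul, map_inv, a_fst i j, a_mid i j m h_i_m h_m_j, a_snd i j,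
        a_gt i j k h_i_j h_j_k, a_fst i k, a_mid i k m h_i_m h_m_k, a_mid i k j h_i_j h_j_k,
        a_snd i k, a_lt j k i h_j_k h_i_j, a_lt j k m h_j_k h_m_j, a_fst j k, a_snd j k]
      try group
    · rw [hm1]
      have h_i_j : i < j := by order
      have h_i_k : i < k := by order
      have h_j_k : j < k := by order
      simp only [MulAut.mul_apply, map_mul, map_inv, a_fst i j, a_snd i j, a_gt i j k h_i_j h_j_k,
        a_fst i k, a_mid i k j h_i_j h_j_k, a_snd i k, a_lt j k i h_j_k h_i_j, a_fst j k,
        a_snd j k]
      try group
    · skip
      rcases lt_trichotomy m k with hm2 | hm2 | hm2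
      · have h_i_j : i < j := by order
        have h_i_m : i < m := by order
        have h_i_k : i < k := by order
        have h_j_m : j < m := by order
        have h_j_k : j < k := by order
        have h_m_k : m < k := by order
        simp only [MulAut.mul_apply, map_mul, map_inv, a_fst i j, a_snd i j,
          a_gt i j m h_i_j h_j_m, a_gt i j k h_i_j h_j_k, a_fst i k, a_mid i k j h_i_j h_j_k,
          a_mid i k m h_i_m h_m_k, a_snd i k, a_lt j k i h_j_k h_i_j, a_fst j k,
          a_mid j k m h_j_m h_m_k, a_snd j k]
        try group
      · rw [hm2]
        have h_i_j : i < j := by order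
        have h_i_k : i < k := by order
        have h_j_k : j < k := by order
        simp only [MulAut.mul_apply, map_mul, map_inv, a_fst i j, a_snd i j,
          a_gt i j k h_i_j h_j_k, a_fst i k, a_mid i k j h_i_j h_j_k, a_snd i k,
          a_lt j k i h_j_k h_i_j, a_fst j k, a_snd j k]
        try group
      · have h_i_j : i < j := by order
        have h_i_k : i < k := by order
        have h_i_m : i < m := by order
        have h_j_k : j < k := by order
        have h_j_m : j < m := by order
        have h_k_m : k < m := by order
        simp only [MulAut.mul_apply, map_mul, map_inv, a_fst i j, a_snd i j,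
          a_gt i j k h_i_j h_j_k, a_gt i j m h_i_j h_j_m, a_fst i k, a_mid i k j h_i_j h_j_k,
          a_snd i k, a_gt i k m h_i_k h_k_m, a_lt j k i h_j_k h_i_j, a_fst j k, a_snd j k,
          a_gt j k m h_j_k h_k_m]
        try group

theorem rel_t2 {i j k : Fin n} (h0 : i < j) (h1 : j < k) :
    (artin i j * artin i k * artin j k) * artin j k =
      artin j k * (artin i j * artin i k * artin j k) := by
  apply mulAut_ext
  intro m
  rcases lt_trichotomy m i with hm0 | hm0 | hm0
  · have h_m_i : m < i := by order
    have h_m_j : m < j := by order
    have h_m_k : m < k := by order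
    have h_i_j : i < j := by order
    have h_i_k : i < k := by order
    have h_j_k : j < k := by order
    simp only [MulAut.mul_apply, map_mul, map_inv, a_lt i j m h_i_j h_m_i, a_fst i j, a_snd i j,
      a_gt i j k h_i_j h_j_k, a_lt i k m h_i_k h_m_i, a_fst i k, a_mid i k j h_i_j h_j_k,
      a_snd i k, a_lt j k m h_j_k h_m_j, a_lt j k i h_j_k h_i_j, a_fst j k, a_snd j k]
    try group
  · rw [hm0]
    have h_i_j : i < j := by order
    have h_i_k : i < k := by order
    have h_j_k : j < k := by order
    simp only [MulAut.mul_apply, map_mul, map_inv, a_fst i j, a_snd i j, a_gt i j k h_i_j h_j_k,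
      a_fst i k, a_mid i k j h_i_j h_j_k, a_snd i k, a_lt j k i h_j_k h_i_j, a_fst j k, a_snd j k]
    try group
  · skip
    rcases lt_trichotomy m j with hm1 | hm1 | hm1
    · have h_i_m : i < m := by order
      have h_i_j : i < j := by order
      have h_i_k : i < k := by order
      have h_m_j : m < j := by order
      have h_m_k : m < k := by order
      have h_j_k : j < k := by order
      simp only [MulAut.mul_apply, map_mul, map_inv, a_fst i j, a_mid i j m h_i_m h_m_j, a_snd i j,
        a_gt i j k h_i_j h_j_k, a_fst i k, a_mid i k m h_i_m h_m_k, a_mid i k j h_i_j h_j_k,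
        a_snd i k, a_lt j k i h_j_k h_i_j, a_lt j k m h_j_k h_m_j, a_fst j k, a_snd j k]
      try group
    · rw [hm1]
      have h_i_j : i < j := by order
      have h_i_k : i < k := by order
      have h_j_k : j < k := by order
      simp only [MulAut.mul_apply, map_mul, map_inv, a_fst i j, a_snd i j, a_gt i j k h_i_j h_j_k,
        a_fst i k, a_mid i k j h_i_j h_j_k, a_snd i k, a_lt j k i h_j_k h_i_j, a_fst j k,
        a_snd j k]
      try group
    · skip
      rcases lt_trichotomy m k with hm2 | hm2 | hm2
      · have h_i_j : i < j := by order
        have h_i_m : i < m := by order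
        have h_i_k : i < k := by order
        have h_j_m : j < m := by order
        have h_j_k : j < k := by order
        have h_m_k : m < k := by order
        simp only [MulAut.mul_apply, map_mul, map_inv, a_fst i j, a_snd i j,
          a_gt i j m h_i_j h_j_m, a_gt i j k h_i_j h_j_k, a_fst i k, a_mid i k j h_i_j h_j_k,
          a_mid i k m h_i_m h_m_k, a_snd i k, a_lt j k i h_j_k h_i_j, a_fst j k,
          a_mid j k m h_j_m h_m_k, a_snd j k]
        try group
      · rw [hm2]
        have h_i_j : i < j := by order
        have h_i_k : i < k := by order
        have h_j_k : j < k := by order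
        simp only [MulAut.mul_apply, map_mul, map_inv, a_fst i j, a_snd i j,
          a_gt i j k h_i_j h_j_k, a_fst i k, a_mid i k j h_i_j h_j_k, a_snd i k,
          a_lt j k i h_j_k h_i_j, a_fst j k, a_snd j k]
        try group
      · have h_i_j : i < j := by order
        have h_i_k : i < k := by order
        have h_i_m : i < m := by order
        have h_j_k : j < k := by order
        have h_j_m : j < m := by order
        have h_k_m : k < m := by order
        simp only [MulAut.mul_apply, map_mul, map_inv, a_fst i j, a_snd i j,
          a_gt i j k h_i_j h_j_k, a_gt i j m h_i_j h_j_m, a_fst i k, a_mid i k j h_i_j h_j_k,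
          a_snd i k, a_gt i k m h_i_k h_k_m, a_lt j k i h_j_k h_i_j, a_fst j k, a_snd j k,
          a_gt j k m h_j_k h_k_m]
        try group

end Pool.Agent.Conf14
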