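import Pool.Agent.Conf14.Fin

/-! Boundedness of the number of active strands of an irreducible representation. -/

namespace Pool.Agent.Conf14

variable {n : ℕ} {V : Type*} [AddCommGroup V] [Module ℂ V]

/-- scalar automorphisms -/
def IsSc (f : V ≃ₗ[ℂ] V) : Prop := ∃ c : ℂ, ∀ v, f v = c • v

theorem IsSc.commute {f : V ≃ₗ[ℂ] V} (h : IsSc f) (g : V ≃ₗ[ℂ] V) : Commute f g := by
  obtain ⟨c, hc⟩ := h
  rw [commute_iff']
  intro v
  rw [hc, hc, map_smul]

/-- an irreducible family with the pure braid relations -/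
structure IrrF (a : Fin n → Fin n → (V ≃ₗ[ℂ] V)) : Prop where
  pb : PB a
  irr : ∀ W : Submodule ℂ V, (∀ i j, i ≠ j → ∀ x ∈ W, a i j x ∈ W) → W = ⊥ ∨ W = ⊤

variable {a : Fin n → Fin n → (V ≃ₗ[ℂ] V)}

theorem IrrF.schur [FiniteDimensional ℂ V] [Nontrivial V] (h : IrrF a) {f : V ≃ₗ[ℂ] V}
    (hf : ∀ i j, i ≠ j → Commute f (a i j)) : IsSc f := by
  obtain ⟨μ, hμ⟩ := Module.End.exists_eigenvalue f.toLinearMap
  refine ⟨μ, ?_⟩
  have hE : Module.End.eigenspace f.toLinearMap μ = ⊥ ∨
      Module.End.eigenspace f.toLinearMap μ = ⊤ := by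
    apply h.irr
    intro i j hij x hx
    rw [Module.End.mem_eigenspace_iff] at hx ⊢
    have h1 := commute_iff'.mp (hf i j hij) x
    have h2 : f x = μ • x := hx
    show f (a i j x) = μ • a i j x
    rw [h1, h2, map_smul]
  have hE2 := hE.resolve_left hμ
  intro v
  have : v ∈ Module.End.eigenspace f.toLinearMap μ := hE2 ▸ Submodule.mem_top
  exact Module.End.mem_eigenspace_iff.mp this

/-- a generator which is not scalar does not commute with some generator on the same strand -/
theorem IrrF.exists_nc [FiniteDimensional ℂ V] [Nontrivial V] (h : IrrF a) {k l : Fin n}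
    (hkl : k ≠ l) (hsc : ¬ IsSc (a k l)) : ∃ j, j ≠ k ∧ ¬ Commute (a k l) (a k j) := by
  by_contra hcon
  push Not at hcon
  apply hsc
  apply h.schur
  intro i j hij
  by_cases hi : i = k
  · rw [hi]
    exact hcon j (by rw [← hi]; exact hij.symm)
  by_cases hj : j = k
  · rw [hj, h.pb.symm i k]
    exact hcon i hi
  obtain ⟨g, hg, e⟩ := (h.pb.conj (Ne.symm hi) (Ne.symm hj) hij hkl.symm).1
  have hg2 : Commute (a k l) g := by
    have : Subgroup.closure {a k i, a k j} ≤ Subgroup.centralizer {a k l} := by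
      rw [Subgroup.closure_le]
      rintro x (rfl | hx)
      · rw [SetLike.mem_coe, Subgroup.mem_centralizer_singleton_iff]
        exact (hcon i hi).eq.symm
      · rw [Set.mem_singleton_iff.mp hx, SetLike.mem_coe, Subgroup.mem_centralizer_singleton_iff]
        exact (hcon j hj).eq.symm
    have h3 := this hg
    rw [Subgroup.mem_centralizer_singleton_iff] at h3
    exact h3.symm
  have e2 : a i j * a k l * (a i j)⁻¹ = a k l := by rw [e, ← hg2.eq, mul_inv_cancel_right]
  have e3 : a i j * a k l = a k l * a i j := by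
    calc a i j * a k l = a i j * a k l * (a i j)⁻¹ * a i j := by group
      _ = _ := by rw [e2]
  exact e3.symm

/-- commuting generators on one strand -/
theorem IrrF.k1 (h : IrrF a) {s k l j : Fin n} (hsk : s ≠ k) (hsl : s ≠ l) (hkl : k ≠ l)
    (hj : j ≠ s) (hc : Commute (a s k) (a s l)) : Commute (a k l) (a s j) :=
  (h.pb.conj hsk hsl hkl hj).2 hc

/-- separated pairs commute -/
theorem IrrF.sep (h : IrrF a) {i j k l : Fin n} (hij : i ≠ j) (hkl : k ≠ l) (h1 : i < k)
    (h2 : i < l) (h3 : j < k) (h4 : j < l) : Commute (a i j) (a k l) := by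
  rcases lt_or_gt_of_ne hij with h5 | h5
  · rcases lt_or_gt_of_ne hkl with h6 | h6
    · exact h.pb.q1 i j k l h5 h3 h6
    · rw [h.pb.symm k l]
      exact h.pb.q1 i j l k h5 h4 h6
  · rw [h.pb.symm i j]
    rcases lt_or_gt_of_ne hkl with h6 | h6
    · exact h.pb.q1 j i k l h5 h1 h6
    · rw [h.pb.symm k l]
      exact h.pb.q1 j i l k h5 h2 h6

/-- the family of a representation -/
theorem irrF_of_rep [FiniteDimensional ℂ V] (ρ : Representation ℂ (PureBraid n) V)
    [ρ.IsIrreducible] : IrrF fun i j => toEq ρ (B i j) := by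
  refine ⟨pbB.map (toEq ρ), fun W hW => ?_⟩
  apply irr_sub ρ W
  let S : Subgroup (PureBraid n) :=
    { carrier := {g | ∀ x ∈ W, toEq ρ g x ∈ W}
      one_mem' := fun x hx => by rw [map_one]; exact hx
      mul_mem' := by
        intro g k hg hk x hx
        rw [map_mul]
        exact hg _ (hk x hx)
      inv_mem' := by
        intro g hg
        have := inv_mem_of_mem (toEq ρ g) W hg
        rwa [← map_inv] at this }
  have hS : S = ⊤ := by
    apply pb_top
    intro i j hij x hx
    rw [← B_lt hij]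
    exact hW i j hij.ne x hx
  intro g x hx
  have : g ∈ S := hS ▸ Subgroup.mem_top g
  exact this x hx

end Pool.Agent.Conf14
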