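import Mathlib

/-! Commuting endomorphisms with partners: there are less of them than the dimension. -/

namespace Pool.Agent.Conf14

variable {V : Type*} [AddCommGroup V] [Module ℂ V]

theorem exists_vec {ι : Type*} [Fintype ι] {W : Type*} [AddCommGroup W] [Module ℂ W]
    (z : ι → (V →ₗ[ℂ] W)) (hz : ∀ i, z i ≠ 0) : ∃ v, ∀ i, z i v ≠ 0 := by
  by_contra hcon
  push Not at hcon
  have hcov : ⋃ i, ((LinearMap.ker (z i) : Submodule ℂ V) : Set V) = Set.univ := by
    rw [Set.eq_univ_iff_forall]
    intro v
    obtain ⟨i, hi⟩ := hcon v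
    exact Set.mem_iUnion.mpr ⟨i, hi⟩
  obtain ⟨i, hi⟩ := Subspace.exists_eq_top_of_iUnion_eq_univ hcov
  exact hz i (LinearMap.ker_eq_top.mp hi)

/-- Pairwise commuting endomorphisms `x i` with partners `y i` which do not commute with them,
triangular with respect to the order given by `o`: their number is less than the dimension. -/
theorem indep_iso [FiniteDimensional ℂ V] [Nontrivial V] {ι : Type*} [Fintype ι]
    (x y : ι → (V →ₗ[ℂ] V)) (o : ι → ℕ) (hx : ∀ i j v, x i (x j v) = x j (x i v))
    (hxy : ∀ i j, i ≠ j → o i ≤ o j → ∀ v, x i (y j v) = y j (x i v))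
    (hne : ∀ i, ∃ v, x i (y i v) ≠ y i (x i v)) :
    Fintype.card ι + 1 ≤ Module.finrank ℂ V := by
  classical
  -- a generic vector and a generic functional
  obtain ⟨v, hv⟩ := exists_vec (fun i : Option ι => match i with
    | none => (LinearMap.id : V →ₗ[ℂ] V)
    | some i => x i ∘ₗ y i - y i ∘ₗ x i) (by
      intro i
      cases i with
      | none =>
          intro h
          obtain ⟨u, hu⟩ := exists_ne (0 : V)
          exact hu (LinearMap.congr_fun h u)
      | some i =>
          intro h
          obtain ⟨u, hu⟩ := hne i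
          have := LinearMap.congr_fun h u
          exact hu (sub_eq_zero.mp this))
  have hv0 : v ≠ 0 := hv none
  have hvz : ∀ i, x i (y i v) - y i (x i v) ≠ 0 := fun i => hv (some i)
  obtain ⟨φ, hφ⟩ := exists_vec (fun i : ι =>
    Module.Dual.eval ℂ V (x i (y i v) - y i (x i v))) (by
      intro i h
      apply hvz i
      rw [← Module.forall_dual_apply_eq_zero_iff ℂ]
      intro f
      exact LinearMap.congr_fun h f)
  have hφz : ∀ i, φ (x i (y i v)) - φ (y i (x i v)) ≠ 0 := by
    intro i
    rw [← map_sub]
    exact hφ i
  -- coefficients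
  let L : (Option ι → ℂ) →ₗ[ℂ] (V →ₗ[ℂ] V) :=
    Fintype.linearCombination ℂ (fun i : Option ι => match i with
      | none => (LinearMap.id : V →ₗ[ℂ] V)
      | some i => x i)
  have hL : ∀ c u, L c u = c none • u + ∑ i, c (some i) • x i u := by
    intro c u
    simp only [L, Fintype.linearCombination_apply, Fintype.sum_option, LinearMap.add_apply,
      LinearMap.smul_apply, LinearMap.id_apply, LinearMap.sum_apply]
  let T : (Option ι → ℂ) →ₗ[ℂ] V := (LinearMap.applyₗ v) ∘ₗ L
  have hT : ∀ c, T c = L c v := fun _ => rfl
  have hcomm : ∀ c d u, L c (L d u) = L d (L c u) := by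
    intro c d u
    rw [hL, hL d u, hL d (L c u), hL c u]
    simp only [map_add, map_smul, map_sum, smul_add, Finset.smul_sum, Finset.sum_add_distrib]
    have e : ∑ i, ∑ j, c (some i) • d (some j) • x i (x j u) =
        ∑ i, ∑ j, d (some i) • c (some j) • x i (x j u) := by
      rw [Finset.sum_comm]
      apply Finset.sum_congr rfl
      intro i _
      apply Finset.sum_congr rfl
      intro j _
      rw [hx j i u, smul_comm]
    rw [e]
    have e2 : c none • d none • u = d none • c none • u := smul_comm _ _ _
    have e3 : ∑ i, c none • d (some i) • x i u = ∑ i, d (some i) • c none • x i u :=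
      Finset.sum_congr rfl fun i _ => smul_comm _ _ _
    have e4 : ∑ i, c (some i) • d none • x i u = ∑ i, d none • c (some i) • x i u :=
      Finset.sum_congr rfl fun i _ => smul_comm _ _ _
    rw [e2, e3, e4]
    abel
  -- the triangular argument
  have key : ∀ c, T c = 0 → (∀ u, φ (L c u) = 0) → c = 0 := by
    intro c hc hcφ
    have h1 : ∀ i, c (some i) = 0 := by
      by_contra hcon
      push Not at hcon
      obtain ⟨i0, hi0⟩ := hcon
      obtain ⟨m, hm, hmax⟩ := Finset.exists_max_image
        (Finset.univ.filter fun i => c (some i) ≠ 0) o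
        ⟨i0, Finset.mem_filter.mpr ⟨Finset.mem_univ _, hi0⟩⟩
      have hm0 : c (some m) ≠ 0 := (Finset.mem_filter.mp hm).2
      have e1 : φ (L c (y m v)) - φ (y m (L c v)) = 0 := by
        rw [hcφ, ← hT, hc, map_zero, map_zero, sub_zero]
      rw [hL, hL] at e1
      simp only [map_add, map_smul, map_sum] at e1
      have e2 : ∑ i, c (some i) • φ (x i (y m v)) - ∑ i, c (some i) • φ (y m (x i v)) =
          c (some m) • (φ (x m (y m v)) - φ (y m (x m v))) := by
        rw [← Finset.sum_sub_distrib, Finset.sum_eq_single m, smul_sub]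
        · intro i _ him
          by_cases hci : c (some i) = 0
          · rw [hci, zero_smul, zero_smul, sub_zero]
          · rw [hxy i m him (hmax i (Finset.mem_filter.mpr ⟨Finset.mem_univ _, hci⟩)), sub_self]
        · intro h
          exact absurd (Finset.mem_univ m) h
      have e3 : c (some m) • (φ (x m (y m v)) - φ (y m (x m v))) = 0 := by
        rw [← e2, ← e1]
        abel
      exact (smul_eq_zero.mp e3).elim hm0 (hφz m)
    have h2 : c none = 0 := by
      have e1 := hc
      rw [hT, hL] at e1
      simp only [h1, zero_smul, Finset.sum_const_zero, add_zero] at e1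
      exact (smul_eq_zero.mp e1).resolve_right hv0
    funext i
    cases i with
    | none => exact h2
    | some i => exact h1 i
  -- dimension count
  let S : LinearMap.ker T →ₗ[ℂ] (LinearMap.range T).dualAnnihilator :=
    { toFun := fun c => ⟨φ ∘ₗ L c.1, by
        rw [Submodule.mem_dualAnnihilator]
        rintro _ ⟨d, rfl⟩
        show φ (L c.1 (T d)) = 0
        have hc : L c.1 v = 0 := c.2
        rw [hT, hcomm, hc, map_zero, map_zero]⟩
      map_add' := by
        intro c d
        apply Subtype.ext
        show φ ∘ₗ L (c.1 + d.1) = φ ∘ₗ L c.1 + φ ∘ₗ L d.1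
        rw [map_add, LinearMap.comp_add]
      map_smul' := by
        intro a c
        apply Subtype.ext
        show φ ∘ₗ L (a • c.1) = a • (φ ∘ₗ L c.1)
        rw [map_smul, LinearMap.comp_smul] }
  have hS : Function.Injective S := by
    rw [injective_iff_map_eq_zero]
    intro c hc
    apply Subtype.ext
    apply key c.1 c.2
    intro u
    have h1 : φ ∘ₗ L c.1 = 0 := congrArg Subtype.val hc
    exact LinearMap.congr_fun h1 u
  have h1 := LinearMap.finrank_le_finrank_of_injective hS
  have h2 := Subspace.finrank_add_finrank_dualAnnihilator_eq (LinearMap.range T)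
  have h3 := LinearMap.finrank_range_add_finrank_ker T
  have h4 : Module.finrank ℂ (Option ι → ℂ) = Fintype.card ι + 1 := by
    rw [Module.finrank_fintype_fun_eq_card, Fintype.card_option]
  omega

end Pool.Agent.Conf14
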