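import Pool.Agent.Conf14.NfThree
import Pool.Agent.Conf14.Art

/-! Families attached to representations of the pure braid group. -/

namespace Pool.Agent.Conf14

section
variable {n : ℕ} {G H : Type*} [Group G] [Group H]

theorem PB.map {a : Fin n → Fin n → G} (h : PB a) (f : G →* H) : PB fun i j => f (a i j) where
  symm i j := by rw [h.symm]
  t1 i j k h1 h2 := by simpa using (h.t1 i j k h1 h2).map f
  t2 i j k h1 h2 := by simpa using (h.t2 i j k h1 h2).map f
  q1 i j k l h1 h2 h3 := (h.q1 i j k l h1 h2 h3).map f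
  q2 i j k l h1 h2 h3 := (h.q2 i j k l h1 h2 h3).map f
  q3 i j k l h1 h2 h3 := by simpa using (h.q3 i j k l h1 h2 h3).map f

theorem central3 {z1 z2 z3 x1 x2 x3 : G} (h2 : ∀ g, Commute z2 g) (h3 : ∀ g, Commute z3 g) :
    z1 * x1 * (z2 * x2) * (z3 * x3) = z1 * z2 * z3 * (x1 * x2 * x3) := by
  calc z1 * x1 * (z2 * x2) * (z3 * x3) = z1 * (x1 * z2) * x2 * (z3 * x3) := by group
    _ = z1 * (z2 * x1) * x2 * (z3 * x3) := by rw [(h2 x1).eq]
    _ = z1 * z2 * ((x1 * x2) * z3) * x3 := by group
    _ = z1 * z2 * (z3 * (x1 * x2)) * x3 := by rw [(h3 (x1 * x2)).eq]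
    _ = _ := by group

theorem PB.central {a : Fin n → Fin n → G} (h : PB a) (z : Fin n → Fin n → G)
    (hs : ∀ i j, z i j = z j i) (hz : ∀ i j g, Commute (z i j) g) :
    PB fun i j => z i j * a i j where
  symm i j := by rw [h.symm, hs]
  t1 i j k h1 h2 := by
    rw [central3 (hz i k) (hz j k)]
    have hc : ∀ g, Commute (z i j * z i k * z j k) g := fun g =>
      ((hz i j g).mul_left (hz i k g)).mul_left (hz j k g)
    exact (hc _).mul_left (((hz i k _).symm).mul_right (h.t1 i j k h1 h2))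
  t2 i j k h1 h2 := by
    rw [central3 (hz i k) (hz j k)]
    have hc : ∀ g, Commute (z i j * z i k * z j k) g := fun g =>
      ((hz i j g).mul_left (hz i k g)).mul_left (hz j k g)
    exact (hc _).mul_left (((hz j k _).symm).mul_right (h.t2 i j k h1 h2))
  q1 i j k l h1 h2 h3 :=
    (hz i j _).mul_left (((hz k l _).symm).mul_right (h.q1 i j k l h1 h2 h3))
  q2 i j k l h1 h2 h3 :=
    (hz i l _).mul_left (((hz j k _).symm).mul_right (h.q2 i j k l h1 h2 h3))
  q3 i j k l h1 h2 h3 := by
    have e : z k l * a k l * (z i k * a i k) * (z k l * a k l)⁻¹ =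
        z i k * (a k l * a i k * (a k l)⁻¹) := by
      calc z k l * a k l * (z i k * a i k) * (z k l * a k l)⁻¹ =
          z k l * (a k l * z i k) * a i k * (a k l)⁻¹ * (z k l)⁻¹ := by group
        _ = z k l * (z i k * a k l) * a i k * (a k l)⁻¹ * (z k l)⁻¹ := by
            rw [(hz i k (a k l)).eq]
        _ = (z k l * (z i k * (a k l * a i k * (a k l)⁻¹))) * (z k l)⁻¹ := by group
        _ = ((z i k * (a k l * a i k * (a k l)⁻¹)) * z k l) * (z k l)⁻¹ := by
            rw [(hz k l (z i k * (a k l * a i k * (a k l)⁻¹))).eq]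
        _ = _ := by group
    rw [e]
    exact (hz i k _).mul_left (((hz j l _).symm).mul_right (h.q3 i j k l h1 h2 h3))

end

variable {n : ℕ}

/-- the symmetric family of the generators of the pure braid group -/
def B (i j : Fin n) : PureBraid n :=
  if h : i < j then A i j h else if h : j < i then A j i h else 1

theorem B_lt {i j : Fin n} (h : i < j) : B i j = A i j h := by rw [B, dif_pos h]

theorem B_gt {i j : Fin n} (h : i < j) : B j i = A i j h := by
  rw [B, dif_neg (lt_asymm h), dif_pos h]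

theorem B_symm (i j : Fin n) : B i j = B j i := by
  rcases lt_trichotomy i j with h | h | h
  · rw [B_lt h, B_gt h]
  · rw [h]
  · rw [B_lt h, B_gt h]

theorem pbB : PB (B : Fin n → Fin n → PureBraid n) where
  symm := B_symm
  t1 i j k h1 h2 := by
    rw [B_lt h1, B_lt (h1.trans h2), B_lt h2]
    exact Subtype.ext (rel_t1 h1 h2)
  t2 i j k h1 h2 := by
    rw [B_lt h1, B_lt (h1.trans h2), B_lt h2]
    exact Subtype.ext (rel_t2 h1 h2)
  q1 i j k l h1 h2 h3 := by
    rw [B_lt h1, B_lt h3]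
    exact Subtype.ext (rel_q1 h1 h2 h3)
  q2 i j k l h1 h2 h3 := by
    rw [B_lt h2, B_lt ((h1.trans h2).trans h3)]
    exact Subtype.ext (rel_q2 h1 h2 h3)
  q3 i j k l h1 h2 h3 := by
    rw [B_lt (h1.trans h2), B_lt (h2.trans h3), B_lt h3]
    exact Subtype.ext (rel_q3 h1 h2 h3)

/-- a subgroup containing the generators is everything -/
theorem pb_top (S : Subgroup (PureBraid n)) (h : ∀ i j (hij : i < j), A i j hij ∈ S) : S = ⊤ := by
  rw [eq_top_iff]
  have h1 : Subgroup.closure (((↑) : PureBraid n → MulAut (FreeGroup (Fin n))) ⁻¹'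
      {φ | ∃ i j : Fin n, i < j ∧ φ = artin i j}) = ⊤ := Subgroup.closure_closure_coe_preimage
  rw [← h1, Subgroup.closure_le]
  rintro β ⟨i, j, hij, hβ⟩
  have : β = A i j hij := Subtype.ext hβ
  rw [this]
  exact h i j hij

variable {k V : Type*} [Field k] [AddCommGroup V] [Module k V]

/-- the chain of the last strand -/
theorem Fam.chain [FiniteDimensional k V] {a : Fin n → Fin n → (V ≃ₗ[k] V)} {v : Fin n → Fin n → V}
    {φ : Fin n → Fin n → (V →ₗ[k] k)} (h : Fam a v φ) (h2 : 2 ≤ Module.finrank k V) {s : Fin n}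
    (hs : Supp a s) {m : ℕ} {idx : ℕ → Fin n} (hi : ∀ l, l < m → Supp a (idx l) ∧ idx l < s)
    (hmono : ∀ l l', l < l' → l' < m → idx l < idx l')
    (hsurj : ∀ j, Supp a j → j ≠ s → ∃ l, l < m ∧ idx l = j) :
    Chain m (fun l => a s (idx l)) (fun l => a (idx l) (idx (l + 1))) (fun l => v s (idx l))
      (fun l => v (idx l) (idx (l + 1))) (fun l => φ s (idx l))
      (fun l => φ (idx l) (idx (l + 1))) where
  hx l hl := h.refl s (idx l) (hi l hl).2.ne'
  hx1 l hl := h.supp_ne h2 hs (hi l hl).1 (hi l hl).2.ne'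
  hy l hl := h.refl _ _ (hmono l (l + 1) (by omega) hl).ne
  hy1 l hl := h.supp_ne h2 (hi l (by omega)).1 (hi (l + 1) hl).1
    (hmono l (l + 1) (by omega) hl).ne
  lx l l' hl hl' hne := by
    apply h.linked h2 hs (hi l hl).1 (hi l' hl').1 (hi l hl).2.ne' (hi l' hl').2.ne'
    rcases Nat.lt_or_gt_of_ne hne with h' | h'
    · exact (hmono l l' h' hl').ne
    · exact (hmono l' l h' hl).ne'
  ly l hl := by
    have h1 := hmono l (l + 1) (by omega) (by omega)
    have h3 := hmono (l + 1) (l + 2) (by omega) hl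
    rw [h.pb.symm (idx l) (idx (l + 1))]
    exact h.linked h2 (hi (l + 1) (by omega)).1 (hi l (by omega)).1 (hi (l + 2) hl).1 h1.ne' h3.ne
      (h1.trans h3).ne
  cm l l' hl hl' hne hne' := by
    have h1 := hmono l (l + 1) (by omega) hl
    have h3 : l' < l ∨ l + 1 < l' := by omega
    apply h.pb.disj (hi l (by omega)).2.ne' (hi (l + 1) hl).2.ne' h1 (hi l' hl').2.ne
    · rcases h3 with h3 | h3
      · exact (hmono l' l h3 (by omega)).ne
      · exact (h1.trans (hmono (l + 1) l' h3 hl')).ne'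
    · rcases h3 with h3 | h3
      · exact ((hmono l' l h3 (by omega)).trans h1).ne
      · exact (hmono (l + 1) l' h3 hl').ne'
    · constructor
      · rintro ⟨-, h4⟩
        exact absurd h4 (lt_asymm (hi (l + 1) hl).2)
      · rintro ⟨h4, h5⟩
        exfalso
        rcases h3 with h3 | h3
        · exact lt_asymm h4 (hmono l' l h3 (by omega))
        · exact lt_asymm h5 (hmono (l + 1) l' h3 hl')
  z0 l hl := by
    have h1 := hmono l (l + 1) (by omega) hl
    have := h.pb.t1 _ _ _ h1 (hi (l + 1) hl).2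
    rwa [h.pb.symm (idx l) s, h.pb.symm (idx (l + 1)) s] at this
  z1 l hl := by
    have h1 := hmono l (l + 1) (by omega) hl
    have := h.pb.t2 _ _ _ h1 (hi (l + 1) hl).2
    rwa [h.pb.symm (idx l) s, h.pb.symm (idx (l + 1)) s] at this
  irr W hW := by
    apply h.irr_strand hs W
    intro j hj x hx
    by_cases h1 : a s j = 1
    · rw [h1]; exact hx
    · have hj' : Supp a j := ⟨s, hj.symm, by rwa [h.pb.symm]⟩
      obtain ⟨l, hl, rfl⟩ := hsurj j hj' hj
      exact hW l hl x hx

/-- enumeration of the strands below the last one -/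
theorem exists_idx (S : Fin n → Prop) (s : Fin n) (hmax : ∀ j, S j → j ≤ s) :
    ∃ (m : ℕ) (idx : ℕ → Fin n), (∀ l, l < m → S (idx l) ∧ idx l < s) ∧
      (∀ l l', l < l' → l' < m → idx l < idx l') ∧
      (∀ j, S j → j ≠ s → ∃ l, l < m ∧ idx l = j) := by
  classical
  let T : Finset (Fin n) := Finset.univ.filter fun j => S j ∧ j ≠ s
  let e := T.orderEmbOfFin rfl
  refine ⟨T.card, fun l => if h : l < T.card then e ⟨l, h⟩ else s, ?_, ?_, ?_⟩
  · intro l hl
    beta_reduce
    rw [dif_pos hl]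
    have h1 : e ⟨l, hl⟩ ∈ T := Finset.orderEmbOfFin_mem T rfl ⟨l, hl⟩
    have h2 := (Finset.mem_filter.mp h1).2
    exact ⟨h2.1, lt_of_le_of_ne (hmax _ h2.1) h2.2⟩
  · intro l l' hll hl'
    beta_reduce
    rw [dif_pos hl', dif_pos (hll.trans hl')]
    exact e.strictMono (Fin.mk_lt_mk.mpr hll)
  · intro j hj hjs
    have h1 : j ∈ T := Finset.mem_filter.mpr ⟨Finset.mem_univ _, hj, hjs⟩
    have h2 : j ∈ Set.range e := by
      rw [Finset.range_orderEmbOfFin]
      exact h1
    obtain ⟨⟨l, hl⟩, rfl⟩ := h2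
    exact ⟨l, hl, by beta_reduce; rw [dif_pos hl]⟩

/-- there are at least two strands below the last one -/
theorem Fam.two_le [FiniteDimensional k V] {a : Fin n → Fin n → (V ≃ₗ[k] V)}
    {v : Fin n → Fin n → V} {φ : Fin n → Fin n → (V →ₗ[k] k)} (h : Fam a v φ)
    (h2 : 2 ≤ Module.finrank k V) {s : Fin n} (hs : Supp a s) {m : ℕ} {idx : ℕ → Fin n}
    (hi : ∀ l, l < m → Supp a (idx l) ∧ idx l < s)
    (hsurj : ∀ j, Supp a j → j ≠ s → ∃ l, l < m ∧ idx l = j) : 2 ≤ m := by
  by_contra hm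
  obtain ⟨j, hj, hj1⟩ := hs
  have hj' : Supp a j := ⟨s, hj.symm, by rwa [h.pb.symm]⟩
  obtain ⟨l, hl, hlj⟩ := hsurj j hj' hj
  have hm1 : m = 1 := by omega
  have hl0 : l = 0 := by omega
  subst hl0
  -- a nonzero vector in the kernel
  obtain ⟨u, hu, hu0⟩ : ∃ u : V, φ s j u = 0 ∧ u ≠ 0 := by
    by_contra hcon
    push Not at hcon
    have hker : LinearMap.ker (φ s j) = ⊥ := by
      rw [LinearMap.ker_eq_bot']
      exact hcon
    have h3 := LinearMap.finrank_range_add_finrank_ker (φ s j)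
    rw [hker, finrank_bot] at h3
    have h5 : Module.finrank k (LinearMap.range (φ s j)) ≤ 1 := by
      calc _ ≤ Module.finrank k k := Submodule.finrank_le _
        _ = 1 := Module.finrank_self k
    omega
  have hW : Submodule.span k {u} = ⊥ ∨ Submodule.span k {u} = ⊤ := by
    apply h.irr_strand ⟨j, hj, hj1⟩
    intro j' hjs' x hx
    by_cases h1 : a s j' = 1
    · rw [h1]; exact hx
    · have hj'' : Supp a j' := ⟨s, hjs'.symm, by rwa [h.pb.symm]⟩
      obtain ⟨l, hl, hlj'⟩ := hsurj j' hj'' hjs'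
      have : l = 0 := by omega
      subst this
      have hjj : j' = j := by rw [← hlj', hlj]
      subst hjj
      obtain ⟨c, rfl⟩ := Submodule.mem_span_singleton.mp hx
      rw [map_smul, h.refl s j' hjs'.symm, hu, zero_smul, add_zero]
      exact hx
  rcases hW with hW | hW
  · exact hu0 (Submodule.span_singleton_eq_bot.mp hW)
  · have h3 : Module.finrank k (Submodule.span k {u}) = 1 := finrank_span_singleton hu0
    rw [hW, finrank_top] at h3
    omega

end Pool.Agent.Conf14
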