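import Pool.Agent.Conf14.Half
import Pool.Agent.Conf14.Fam2

/-! Relabelling of the strands of the pure braid group. -/

namespace Pool.Agent.Conf14

variable {n : ℕ}

theorem val_B_lt {i j : Fin n} (h : i < j) : (B i j).1 = artin i j := by
  rw [B_lt h]
  rfl

theorem half_inv {i j : Fin n} (h0 : i ≠ j) (hij : i < j)
    (hadj : ∀ m : Fin n, ¬ (i < m ∧ m < j)) : (half h0)⁻¹ = half h0 * (B i j).1 := by
  have h1 := half_sq h0 hij hadj
  rw [val_B_lt hij]
  rw [mul_assoc] at h1
  exact inv_eq_of_mul_eq_one_right h1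

theorem half_mul_half {i j : Fin n} (h0 : i ≠ j) (hij : i < j)
    (hadj : ∀ m : Fin n, ¬ (i < m ∧ m < j)) : half h0 * half h0 = ((B i j)⁻¹ : PureBraid n).1 := by
  have h1 := half_sq h0 hij hadj
  have h2 : ((B i j)⁻¹ : PureBraid n).1 = ((B i j).1)⁻¹ := rfl
  rw [h2, val_B_lt hij]
  exact eq_inv_of_mul_eq_one_left h1

theorem conj_of_comm {G : Type*} [Group G] {s x y : G} (h : s * x = y * s) : s * x * s⁻¹ = y := by
  rw [h, mul_inv_cancel_right]

theorem conj_sq {G : Type*} [Group G] {s x y t : G} (h : s * x = y * s) (hs : s * s = t) :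
    s * y * s⁻¹ = t * x * t⁻¹ := by
  rw [← hs]
  calc s * y * s⁻¹ = s * (y * s) * s⁻¹ * s⁻¹ := by group
    _ = s * (s * x) * s⁻¹ * s⁻¹ := by rw [h]
    _ = _ := by group

/-- conjugation of the generators by a half twist of neighbours -/
theorem half_conj {i j : Fin n} (h0 : i ≠ j) (hij : i < j) (hadj : ∀ m : Fin n, ¬ (i < m ∧ m < j))
    {k l : Fin n} (hkl : k ≠ l) : ∃ g : PureBraid n, half h0 * (B k l).1 * (half h0)⁻¹ =
      (g * B (Equiv.swap i j k) (Equiv.swap i j l) * g⁻¹ : PureBraid n).1 := by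
  wlog hlt : k < l generalizing k l
  · obtain ⟨g, hg⟩ := this hkl.symm (lt_of_le_of_ne (not_lt.mp hlt) hkl.symm)
    exact ⟨g, by rw [B_symm k l, hg, B_symm]⟩
  have key : ∀ {x y : PureBraid n}, half h0 * x.1 * (half h0)⁻¹ = y.1 →
      ∃ g : PureBraid n, half h0 * x.1 * (half h0)⁻¹ = (g * y * g⁻¹ : PureBraid n).1 := by
    intro x y h
    exact ⟨1, by rw [h, one_mul, inv_one, mul_one]⟩
  have key2 : ∀ {x y : PureBraid n}, half h0 * x.1 = y.1 * half h0 →
      ∃ g : PureBraid n, half h0 * y.1 * (half h0)⁻¹ = (g * x * g⁻¹ : PureBraid n).1 := by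
    intro x y h
    exact ⟨(B i j)⁻¹, conj_sq h (half_mul_half h0 hij hadj)⟩
  by_cases hki : k = i
  · subst hki
    by_cases hlj : l = j
    · subst hlj
      rw [Equiv.swap_apply_left, Equiv.swap_apply_right]
      apply key
      rw [half_inv h0 hij hadj, B_symm l k, ← mul_assoc, mul_assoc (half h0)]
      have h1 := half_mul_half h0 hij hadj
      have h2 : ((B k l)⁻¹ : PureBraid n).1 = ((B k l).1)⁻¹ := rfl
      have h3 : (B k l).1 = (half h0 * half h0)⁻¹ := by rw [h1, h2, inv_inv]
      rw [h3]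
      group
    · have hjl : j < l := by
        rcases lt_trichotomy l j with h | h | h
        · exact absurd ⟨hlt, h⟩ (hadj l)
        · exact absurd h hlj
        · exact h
      rw [Equiv.swap_apply_left, Equiv.swap_apply_of_ne_of_ne hkl.symm hlj]
      apply key2
      rw [val_B_lt hjl, val_B_lt hlt]
      exact half_gt h0 hij hjl hadj
  by_cases hkj : k = j
  · subst hkj
    rw [Equiv.swap_apply_right, Equiv.swap_apply_of_ne_of_ne (hij.trans hlt).ne' hkl.symm]
    apply key
    apply conj_of_comm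
    rw [val_B_lt hlt, val_B_lt (hij.trans hlt)]
    exact half_gt h0 hij hlt hadj
  by_cases hli : l = i
  · subst hli
    rw [Equiv.swap_apply_left, Equiv.swap_apply_of_ne_of_ne hki hkj]
    apply key2
    rw [val_B_lt hlt, val_B_lt (hlt.trans hij)]
    exact half_lt h0 hlt hij hadj
  by_cases hlj : l = j
  · subst hlj
    have hk : k < i := by
      rcases lt_trichotomy k i with h | h | h
      · exact h
      · exact absurd h hki
      · exact absurd ⟨h, hlt⟩ (hadj k)
    rw [Equiv.swap_apply_right, Equiv.swap_apply_of_ne_of_ne hki hkj]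
    apply key
    apply conj_of_comm
    rw [val_B_lt hlt, val_B_lt hk]
    exact half_lt h0 hk hij hadj
  rw [Equiv.swap_apply_of_ne_of_ne hki hkj, Equiv.swap_apply_of_ne_of_ne hli hlj]
  apply key
  apply conj_of_comm
  rw [val_B_lt hlt]
  rcases lt_or_gt_of_ne hli with h1 | h1
  · exact half_o1 h0 hlt h1 hij hadj
  · have hjl : j < l := by
      rcases lt_trichotomy l j with h | h | h
      · exact absurd ⟨h1, h⟩ (hadj l)
      · exact absurd h hlj
      · exact h
    rcases lt_or_gt_of_ne hki with h2 | h2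
    · exact half_o2 h0 h2 hij hjl hadj
    · have hjk : j < k := by
        rcases lt_trichotomy k j with h | h | h
        · exact absurd ⟨h2, h⟩ (hadj k)
        · exact absurd h hkj
        · exact h
      exact half_o3 h0 hij hjk hlt hadj

/-- the half twists of neighbours normalise the pure braid group -/
theorem half_mem {i j : Fin n} (h0 : i ≠ j) (hij : i < j) (hadj : ∀ m : Fin n, ¬ (i < m ∧ m < j))
    (β : PureBraid n) : half h0 * β.1 * (half h0)⁻¹ ∈ PureBraid n := by
  obtain ⟨β, hβ⟩ := β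
  show half h0 * β * (half h0)⁻¹ ∈ PureBraid n
  induction hβ using Subgroup.closure_induction with
  | mem β hβ =>
      obtain ⟨k, l, hkl, rfl⟩ := hβ
      obtain ⟨g, hg⟩ := half_conj h0 hij hadj hkl.ne
      rw [val_B_lt hkl] at hg
      rw [hg]
      exact (g * B (Equiv.swap i j k) (Equiv.swap i j l) * g⁻¹ : PureBraid n).2
  | one => simp
  | mul a b _ _ ha hb =>
      have : half h0 * (a * b) * (half h0)⁻¹ =
          (half h0 * a * (half h0)⁻¹) * (half h0 * b * (half h0)⁻¹) := by group
      rw [this]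
      exact mul_mem ha hb
  | inv a _ ha =>
      have : half h0 * a⁻¹ * (half h0)⁻¹ = (half h0 * a * (half h0)⁻¹)⁻¹ := by group
      rw [this]
      exact inv_mem ha

/-- relabelling -/
def Rl (σ : Equiv.Perm (Fin n)) : Prop :=
  ∃ γ : PureBraid n →* PureBraid n, Function.Surjective γ ∧
    ∀ k l, k ≠ l → ∃ g, γ (B k l) = g * B (σ k) (σ l) * g⁻¹

theorem Rl.one : Rl (1 : Equiv.Perm (Fin n)) :=
  ⟨MonoidHom.id _, Function.surjective_id, fun k l _ => ⟨1, by simp⟩⟩

theorem Rl.mul {σ τ : Equiv.Perm (Fin n)} (h1 : Rl σ) (h2 : Rl τ) : Rl (σ * τ) := by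
  obtain ⟨γ, hγ, h1⟩ := h1
  obtain ⟨δ, hδ, h2⟩ := h2
  refine ⟨γ.comp δ, hγ.comp hδ, fun k l hkl => ?_⟩
  obtain ⟨g, hg⟩ := h2 k l hkl
  obtain ⟨h, hh⟩ := h1 (τ k) (τ l) (fun he => hkl (τ.injective he))
  refine ⟨γ g * h, ?_⟩
  rw [MonoidHom.comp_apply, hg, map_mul, map_mul, map_inv, hh]
  show _ = γ g * h * B (σ (τ k)) (σ (τ l)) * (γ g * h)⁻¹
  group

theorem Rl.swap {i j : Fin n} (hij : i < j) (hadj : ∀ m : Fin n, ¬ (i < m ∧ m < j)) :
    Rl (Equiv.swap i j) := by
  have h0 : i ≠ j := hij.ne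
  let γ : PureBraid n →* PureBraid n :=
    { toFun := fun β => ⟨half h0 * β.1 * (half h0)⁻¹, half_mem h0 hij hadj β⟩
      map_one' := by
        apply Subtype.ext
        simp
      map_mul' := by
        intro a b
        apply Subtype.ext
        show half h0 * (a.1 * b.1) * (half h0)⁻¹ =
          (half h0 * a.1 * (half h0)⁻¹) * (half h0 * b.1 * (half h0)⁻¹)
        group }
  refine ⟨γ, ?_, ?_⟩
  · intro β
    have h1 : (half h0)⁻¹ = half h0 * (B i j).1 := half_inv h0 hij hadj
    have h2 : (half h0)⁻¹ * β.1 * half h0 =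
        half h0 * (B i j * β * (B i j)⁻¹ : PureBraid n).1 * (half h0)⁻¹ := by
      have h3 : (B i j * β * (B i j)⁻¹ : PureBraid n).1 = (B i j).1 * β.1 * ((B i j).1)⁻¹ := rfl
      rw [h3]
      have h4 : half h0 = (half h0 * (B i j).1)⁻¹ := by rw [← h1, inv_inv]
      calc (half h0)⁻¹ * β.1 * half h0 = (half h0 * (B i j).1) * β.1 * (half h0 * (B i j).1)⁻¹ := by
            rw [← h1, inv_inv]
        _ = _ := by group
    have h5 : (half h0)⁻¹ * β.1 * half h0 ∈ PureBraid n := by
      rw [h2]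
      exact half_mem h0 hij hadj _
    refine ⟨⟨(half h0)⁻¹ * β.1 * half h0, h5⟩, ?_⟩
    apply Subtype.ext
    show half h0 * ((half h0)⁻¹ * β.1 * half h0) * (half h0)⁻¹ = β.1
    group
  · intro k l hkl
    obtain ⟨g, hg⟩ := half_conj h0 hij hadj hkl
    exact ⟨g, Subtype.ext hg⟩

/-- every permutation of the strands is realised -/
theorem Rl.all (σ : Equiv.Perm (Fin n)) : Rl σ := by
  cases n with
  | zero =>
      have : σ = 1 := Subsingleton.elim _ _
      rw [this]
      exact Rl.one
  | succ n =>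
      have h : σ ∈ Submonoid.closure
          (Set.range fun i : Fin n => Equiv.swap i.castSucc i.succ) := by
        rw [Equiv.Perm.mclosure_swap_castSucc_succ]
        exact Submonoid.mem_top σ
      induction h using Submonoid.closure_induction with
      | mem τ hτ =>
          obtain ⟨i, rfl⟩ := hτ
          apply Rl.swap
          · exact Fin.castSucc_lt_succ
          · rintro m ⟨h1, h2⟩
            have h3 : (i : ℕ) < m := h1
            have h4 : (m : ℕ) < i + 1 := h2
            omega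
      | one => exact Rl.one
      | mul a b _ _ ha hb => exact ha.mul hb

end Pool.Agent.Conf14
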