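import Pool.Agent.Conf14.Bd
import Pool.Agent.Conf14.Ind
import Pool.Agent.Conf14.Perm

/-! The linear bound for the number of active strands. -/

namespace Pool.Agent.Conf14

variable {n : ℕ} {V : Type*} [AddCommGroup V] [Module ℂ V]
  {a : Fin n → Fin n → (V ≃ₗ[ℂ] V)}

/-- the independence lemma for automorphisms -/
theorem card_lt [FiniteDimensional ℂ V] [Nontrivial V] {ι : Type*} [Fintype ι]
    (x y : ι → (V ≃ₗ[ℂ] V)) (o : ι → ℕ) (hx : ∀ i j, Commute (x i) (x j))
    (hxy : ∀ i j, i ≠ j → o i ≤ o j → Commute (x i) (y j)) (hne : ∀ i, ¬ Commute (x i) (y i)) :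
    Fintype.card ι + 1 ≤ Module.finrank ℂ V := by
  apply indep_iso (fun i => (x i).toLinearMap) (fun i => (y i).toLinearMap) o
  · intro i j v
    exact commute_iff'.mp (hx i j) v
  · intro i j hij ho v
    exact commute_iff'.mp (hxy i j hij ho) v
  · intro i
    by_contra hcon
    push Not at hcon
    exact hne i (commute_iff'.mpr hcon)

theorem IrrF.bound4 [FiniteDimensional ℂ V] [Nontrivial V] (h : IrrF a) (K : ℕ) (hK : 3 * K ≤ n)
    (hbad : ∀ m (hm : m < K), ¬ Commute (a ⟨3 * m + 2, by omega⟩ ⟨3 * m, by omega⟩)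
      (a ⟨3 * m + 2, by omega⟩ ⟨3 * m + 1, by omega⟩))
    (hgood : ∀ s k l : Fin n, 3 * K ≤ (s : ℕ) → 3 * K ≤ (k : ℕ) → 3 * K ≤ (l : ℕ) → s ≠ k →
      s ≠ l → k ≠ l → Commute (a s k) (a s l))
    (T : Finset (Fin n)) (hT : ∀ s ∈ T, ∃ j, j ≠ s ∧ ¬ IsSc (a s j)) :
    T.card + 4 ≤ 4 * Module.finrank ℂ V := by
  classical
  let R : Finset (Fin n) := Finset.univ.filter fun i => 3 * K ≤ (i : ℕ)
  have hRm : ∀ i, i ∈ R ↔ 3 * K ≤ (i : ℕ) := fun i => by
    rw [Finset.mem_filter]
    exact ⟨fun h => h.2, fun h => ⟨Finset.mem_univ _, h⟩⟩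
  have hcent : ∀ k l s j, k ∈ R → l ∈ R → s ∈ R → s ≠ k → s ≠ l → k ≠ l → j ≠ s →
      Commute (a k l) (a s j) := by
    intro k l s j hk hl hs hsk hsl hkl hj
    exact h.k1 hsk hsl hkl hj (hgood s k l ((hRm s).mp hs) ((hRm k).mp hk) ((hRm l).mp hl)
      hsk hsl hkl)
  -- a maximal set of disjoint pairs with generators which are not scalar
  let Valid : Finset (Fin n × Fin n) → Prop := fun S =>
    (∀ p ∈ S, p.1 ∈ R ∧ p.2 ∈ R ∧ p.1 ≠ p.2 ∧ ¬ IsSc (a p.1 p.2)) ∧
    ∀ p ∈ S, ∀ q ∈ S, p ≠ q → p.1 ≠ q.1 ∧ p.1 ≠ q.2 ∧ p.2 ≠ q.1 ∧ p.2 ≠ q.2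
  obtain ⟨S, hS, hmax⟩ := Finset.exists_max_image (Finset.univ.filter Valid) Finset.card
    ⟨∅, Finset.mem_filter.mpr ⟨Finset.mem_univ _, by
      constructor
      · intro p hp
        exact absurd hp (Finset.notMem_empty p)
      · intro p hp
        exact absurd hp (Finset.notMem_empty p)⟩⟩
  have hSv : Valid S := (Finset.mem_filter.mp hS).2
  have hex : ∀ p : S, ∃ j, j ≠ p.1.1 ∧ ¬ Commute (a p.1.1 p.1.2) (a p.1.1 j) := fun p =>
    h.exists_nc (hSv.1 p.1 p.2).2.2.1 (hSv.1 p.1 p.2).2.2.2
  choose jp hjp hncp using hex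
  -- pairs against pairs
  have hpp : ∀ p q : S, p ≠ q → ∀ j, j ≠ q.1.1 → Commute (a p.1.1 p.1.2) (a q.1.1 j) := by
    intro p q hpq j hj
    have hpq' : p.1 ≠ q.1 := fun he => hpq (Subtype.ext he)
    have h1 := hSv.2 p.1 p.2 q.1 q.2 hpq'
    have h2 := hSv.1 p.1 p.2
    have h3 := hSv.1 q.1 q.2
    exact hcent _ _ _ _ h2.1 h2.2.1 h3.1 (Ne.symm h1.1) (Ne.symm h1.2.2.1) h2.2.2.1 hj
  -- the rest
  let R0 := R \ (S.image Prod.fst ∪ S.image Prod.snd)
  have hRR : ∀ s ∈ R0, s ∈ R := fun s hs => (Finset.mem_sdiff.mp hs).1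
  have hfst : ∀ s ∈ R0, ∀ p ∈ S, s ≠ p.1 ∧ s ≠ p.2 := by
    intro s hs p hp
    have h1 := (Finset.mem_sdiff.mp hs).2
    constructor
    · rintro rfl
      exact h1 (Finset.mem_union_left _ (Finset.mem_image_of_mem _ hp))
    · rintro rfl
      exact h1 (Finset.mem_union_right _ (Finset.mem_image_of_mem _ hp))
  have hsc : ∀ k ∈ R0, ∀ l ∈ R0, k ≠ l → IsSc (a k l) := by
    intro k hk l hl hkl
    by_contra hns
    have hnot : (k, l) ∉ S := fun hin => (hfst k hk _ hin).1 rfl
    have hv : Valid (insert (k, l) S) := by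
      constructor
      · intro p hp
        rcases Finset.mem_insert.mp hp with rfl | hp
        · exact ⟨hRR k hk, hRR l hl, hkl, hns⟩
        · exact hSv.1 p hp
      · intro p hp q hq hpq
        rcases Finset.mem_insert.mp hp with rfl | hp
        · rcases Finset.mem_insert.mp hq with rfl | hq
          · exact absurd rfl hpq
          · exact ⟨(hfst k hk q hq).1, (hfst k hk q hq).2, (hfst l hl q hq).1, (hfst l hl q hq).2⟩
        · rcases Finset.mem_insert.mp hq with rfl | hq
          · exact ⟨(hfst k hk p hp).1.symm, (hfst l hl p hp).1.symm, (hfst k hk p hp).2.symm,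
              (hfst l hl p hp).2.symm⟩
          · exact hSv.2 p hp q hq hpq
    have h1 := hmax _ (Finset.mem_filter.mpr ⟨Finset.mem_univ _, hv⟩)
    rw [Finset.card_insert_of_notMem hnot] at h1
    omega
  -- the active strands of the rest
  let R' := R0 ∩ T
  have hR0 : ∀ s : R', s.1 ∈ R0 := fun s => (Finset.mem_inter.mp s.2).1
  have hex1 : ∀ s : R', ∃ j, j ≠ s.1 ∧ ¬ IsSc (a s.1 j) := fun s =>
    hT s.1 (Finset.mem_inter.mp s.2).2
  choose js hjs hns using hex1
  have hex2 : ∀ s : R', ∃ i, i ≠ s.1 ∧ ¬ Commute (a s.1 (js s)) (a s.1 i) := fun s =>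
    h.exists_nc (hjs s).symm (hns s)
  choose is his hncs using hex2
  have hss : ∀ s s' : R', s ≠ s' → ∀ j j', j ≠ s.1 → j' ≠ s'.1 →
      Commute (a s.1 j) (a s'.1 j') := by
    intro s s' hne j j' hj hj'
    have hss' : s.1 ≠ s'.1 := fun he => hne (Subtype.ext he)
    have h1 := hsc s.1 (hR0 s) s'.1 (hR0 s') hss'
    by_cases h2 : j' = s.1
    · rw [h2, h.pb.symm s'.1 s.1]
      exact (h1.commute _).symm
    · exact (h.k1 hss' (Ne.symm h2) (Ne.symm hj') hj (h1.commute _)).symm
  have hps : ∀ (p : S) (s : R') (j : Fin n), j ≠ s.1 → Commute (a p.1.1 p.1.2) (a s.1 j) := by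
    intro p s j hj
    have h2 := hSv.1 p.1 p.2
    have h3 := hfst s.1 (hR0 s) p.1 p.2
    exact hcent _ _ _ _ h2.1 h2.2.1 (hRR _ (hR0 s)) h3.1 h3.2 h2.2.2.1 hj
  -- first family: pairs and triples
  have f1 : Fintype.card (S ⊕ Fin K) + 1 ≤ Module.finrank ℂ V := by
    have hlow : ∀ (m : Fin K) (p : S), ∀ t, t < 3 → 3 * (m : ℕ) + t < (p.1.1 : ℕ) ∧
        3 * (m : ℕ) + t < (p.1.2 : ℕ) := by
      intro m p t ht
      have h2 := (hRm _).mp (hSv.1 p.1 p.2).1
      have h3 := (hRm _).mp (hSv.1 p.1 p.2).2.1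
      have := m.2
      omega
    have htp : ∀ (m : Fin K) (p : S) (t t' : ℕ) (ht : t < 3) (ht' : t' < 3), t ≠ t' →
        Commute (a ⟨3 * (m : ℕ) + t, by have := m.2; omega⟩ ⟨3 * (m : ℕ) + t', by
          have := m.2; omega⟩) (a p.1.1 p.1.2) := by
      intro m p t t' ht ht' htt
      have h2 := (hSv.1 p.1 p.2).2.2.1
      apply h.sep _ h2
      · exact Fin.lt_def.mpr (hlow m p t ht).1
      · exact Fin.lt_def.mpr (hlow m p t ht).2
      · exact Fin.lt_def.mpr (hlow m p t' ht').1
      · exact Fin.lt_def.mpr (hlow m p t' ht').2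
      · intro he
        have := congrArg Fin.val he
        simp at this
        exact htt this
    have htt : ∀ (m m' : Fin K), m ≠ m' → ∀ (t t' u u' : ℕ) (ht : t < 3) (ht' : t' < 3)
        (hu : u < 3) (hu' : u' < 3), t ≠ t' → u ≠ u' →
        Commute (a ⟨3 * (m : ℕ) + t, by have := m.2; omega⟩ ⟨3 * (m : ℕ) + t', by
          have := m.2; omega⟩) (a ⟨3 * (m' : ℕ) + u, by have := m'.2; omega⟩
            ⟨3 * (m' : ℕ) + u', by have := m'.2; omega⟩) := by
      have key : ∀ (m m' : Fin K), m < m' → ∀ (t t' u u' : ℕ) (ht : t < 3) (ht' : t' < 3)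
          (hu : u < 3) (hu' : u' < 3), t ≠ t' → u ≠ u' →
          Commute (a ⟨3 * (m : ℕ) + t, by have := m.2; omega⟩ ⟨3 * (m : ℕ) + t', by
            have := m.2; omega⟩) (a ⟨3 * (m' : ℕ) + u, by have := m'.2; omega⟩
              ⟨3 * (m' : ℕ) + u', by have := m'.2; omega⟩) := by
        intro m m' hm t t' u u' ht ht' hu hu' htt' huu'
        have hm' : (m : ℕ) < m' := hm
        apply h.sep
        · intro he
          have := congrArg Fin.val he
          simp at this
          exact htt' this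
        · intro he
          have := congrArg Fin.val he
          simp at this
          exact huu' this
        all_goals exact Fin.lt_def.mpr (by show _ < _; simp only; omega)
      intro m m' hne t t' u u' ht ht' hu hu' htt' huu'
      rcases lt_or_gt_of_ne hne with hm | hm
      · exact key m m' hm t t' u u' ht ht' hu hu' htt' huu'
      · exact (key m' m hm u u' t t' hu hu' ht ht' huu' htt').symm
    apply card_lt (fun i : S ⊕ Fin K => match i with
        | Sum.inl p => a p.1.1 p.1.2
        | Sum.inr m => a ⟨3 * (m : ℕ) + 2, by have := m.2; omega⟩ ⟨3 * (m : ℕ) + 0, by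
            have := m.2; omega⟩)
      (fun i => match i with
        | Sum.inl p => a p.1.1 (jp p)
        | Sum.inr m => a ⟨3 * (m : ℕ) + 2, by have := m.2; omega⟩ ⟨3 * (m : ℕ) + 1, by
            have := m.2; omega⟩)
      (fun i => match i with
        | Sum.inl _ => 0
        | Sum.inr _ => 1)
    · rintro (p | m) (q | m')
      · by_cases hpq : p = q
        · rw [hpq]
        · exact hpp p q hpq _ (hSv.1 q.1 q.2).2.2.1.symm
      · exact (htp m' p 2 0 (by norm_num) (by norm_num) (by norm_num)).symm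
      · exact htp m q 2 0 (by norm_num) (by norm_num) (by norm_num)
      · by_cases hmm : m = m'
        · rw [hmm]
        · exact htt m m' hmm 2 0 2 0 (by norm_num) (by norm_num) (by norm_num) (by norm_num)
            (by norm_num) (by norm_num)
    · rintro (p | m) (q | m') hne ho
      · exact hpp p q (fun he => hne (by rw [he])) _ (hjp q)
      · exact (htp m' p 2 1 (by norm_num) (by norm_num) (by norm_num)).symm
      · exact absurd ho (by simp)
      · exact htt m m' (fun he => hne (by rw [he])) 2 0 2 1 (by norm_num) (by norm_num)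
          (by norm_num) (by norm_num) (by norm_num) (by norm_num)
    · rintro (p | m)
      · exact hncp p
      · exact hbad m m.2
  -- second family: pairs and active strands
  have f2 : Fintype.card (S ⊕ R') + 1 ≤ Module.finrank ℂ V := by
    apply card_lt (fun i : S ⊕ R' => match i with
        | Sum.inl p => a p.1.1 p.1.2
        | Sum.inr s => a s.1 (js s))
      (fun i => match i with
        | Sum.inl p => a p.1.1 (jp p)
        | Sum.inr s => a s.1 (is s))
      (fun i => match i with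
        | Sum.inl _ => 0
        | Sum.inr _ => 1)
    · rintro (p | s) (q | s')
      · by_cases hpq : p = q
        · rw [hpq]
        · exact hpp p q hpq _ (hSv.1 q.1 q.2).2.2.1.symm
      · exact hps p s' _ (hjs s')
      · exact (hps q s _ (hjs s)).symm
      · by_cases hmm : s = s'
        · rw [hmm]
        · exact hss s s' hmm _ _ (hjs s) (hjs s')
    · rintro (p | s) (q | s') hne ho
      · exact hpp p q (fun he => hne (by rw [he])) _ (hjp q)
      · exact hps p s' _ (his s')
      · exact absurd ho (by simp)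
      · exact hss s s' (fun he => hne (by rw [he])) _ _ (hjs s) (his s')
    · rintro (p | s)
      · exact hncp p
      · exact hncs s
  rw [Fintype.card_sum, Fintype.card_coe, Fintype.card_fin] at f1
  rw [Fintype.card_sum, Fintype.card_coe, Fintype.card_coe] at f2
  -- count
  have hcov : T ⊆ (Finset.univ.filter fun i : Fin n => (i : ℕ) < 3 * K) ∪
      (S.image Prod.fst ∪ S.image Prod.snd) ∪ R' := by
    intro s hs
    by_cases h1 : (s : ℕ) < 3 * K
    · exact Finset.mem_union_left _ (Finset.mem_union_left _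
        (Finset.mem_filter.mpr ⟨Finset.mem_univ _, h1⟩))
    by_cases h2 : s ∈ S.image Prod.fst ∪ S.image Prod.snd
    · exact Finset.mem_union_left _ (Finset.mem_union_right _ h2)
    · apply Finset.mem_union_right
      exact Finset.mem_inter.mpr ⟨Finset.mem_sdiff.mpr ⟨(hRm s).mpr (by omega), h2⟩, hs⟩
  have hc1 : (Finset.univ.filter fun i : Fin n => (i : ℕ) < 3 * K).card ≤ 3 * K := by
    have : (Finset.univ.filter fun i : Fin n => (i : ℕ) < 3 * K).card ≤
        (Finset.range (3 * K)).card := by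
      apply Finset.card_le_card_of_injOn (fun i : Fin n => (i : ℕ))
      · intro i hi
        exact Finset.mem_coe.mpr (Finset.mem_range.mpr (Finset.mem_filter.mp hi).2)
      · intro i _ j _ hij
        exact Fin.ext hij
    rwa [Finset.card_range] at this
  have hc2 : (S.image Prod.fst ∪ S.image Prod.snd).card ≤ S.card + S.card :=
    le_trans (Finset.card_union_le _ _) (add_le_add Finset.card_image_le Finset.card_image_le)
  have hc3 := Finset.card_le_card hcov
  have hc4 := Finset.card_union_le ((Finset.univ.filter fun i : Fin n => (i : ℕ) < 3 * K) ∪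
      (S.image Prod.fst ∪ S.image Prod.snd)) R'
  have hc5 := Finset.card_union_le (Finset.univ.filter fun i : Fin n => (i : ℕ) < 3 * K)
      (S.image Prod.fst ∪ S.image Prod.snd)
  omega

end Pool.Agent.Conf14
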