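import Pool.Agent.Conf14.Bd4

/-! The linear bound: choice of the labelling. -/

namespace Pool.Agent.Conf14

section
variable {n : ℕ} {G : Type*} [Group G] {a : Fin n → Fin n → G}

/-- the group generated by the generators on the strand `s` -/
def NG (a : Fin n → Fin n → G) (s : Fin n) : Subgroup G :=
  Subgroup.closure {g | ∃ j, j ≠ s ∧ g = a s j}

theorem mem_NG {s j : Fin n} (h : j ≠ s) : a s j ∈ NG a s :=
  Subgroup.subset_closure ⟨j, h, rfl⟩

theorem PB.norm_gen (h : PB a) {s k l j : Fin n} (hsk : s ≠ k) (hsl : s ≠ l) (hkl : k ≠ l)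
    (hj : j ≠ s) : a k l * a s j * (a k l)⁻¹ ∈ NG a s ∧ (a k l)⁻¹ * a s j * a k l ∈ NG a s := by
  wlog hlt : k < l generalizing k l
  · have := this hsl hsk hkl.symm (lt_of_le_of_ne (not_lt.mp hlt) hkl.symm)
    rwa [h.symm l k] at this
  have hFN : Subgroup.closure {a s k, a s l} ≤ NG a s := by
    rw [Subgroup.closure_le]
    rintro x (rfl | hx)
    · exact mem_NG hsk.symm
    · rw [Set.mem_singleton_iff.mp hx]
      exact mem_NG hsl.symm
  obtain ⟨g, hg, e1, e2⟩ := h.conj0 hsk hsl hlt
  -- conjugation by `a k l` is inner on the closure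
  have hin : ∀ x ∈ Subgroup.closure {a s k, a s l}, a k l * x * (a k l)⁻¹ = g * x * g⁻¹ := by
    intro x hx
    induction hx using Subgroup.closure_induction with
    | mem x hx =>
        rcases hx with rfl | hx
        · exact e1
        · rw [Set.mem_singleton_iff.mp hx]
          exact e2
    | one => group
    | mul x y _ _ hx hy =>
        calc a k l * (x * y) * (a k l)⁻¹ = (a k l * x * (a k l)⁻¹) * (a k l * y * (a k l)⁻¹) := by
              group
          _ = _ := by rw [hx, hy]; group
    | inv x _ hx =>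
        calc a k l * x⁻¹ * (a k l)⁻¹ = (a k l * x * (a k l)⁻¹)⁻¹ := by group
          _ = _ := by rw [hx]; group
  have hinv : ∀ x ∈ Subgroup.closure {a s k, a s l},
      (a k l)⁻¹ * x * a k l ∈ Subgroup.closure {a s k, a s l} := by
    intro x hx
    have h1 : g⁻¹ * x * g ∈ Subgroup.closure {a s k, a s l} :=
      mul_mem (mul_mem (inv_mem hg) hx) hg
    have h2 := hin _ h1
    have h3 : (a k l)⁻¹ * x * a k l = g⁻¹ * x * g := by
      have h4 : g * (g⁻¹ * x * g) * g⁻¹ = x := by group
      rw [h4] at h2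
      calc (a k l)⁻¹ * x * a k l = (a k l)⁻¹ * (a k l * (g⁻¹ * x * g) * (a k l)⁻¹) * a k l := by
            rw [h2]
        _ = _ := by group
    rw [h3]
    exact h1
  obtain ⟨u, hu, e⟩ := (h.conj hsk hsl hkl hj).1
  constructor
  · rw [e]
    exact mul_mem (mul_mem (hFN hu) (mem_NG hj)) (inv_mem (hFN hu))
  · have h1 := hinv u hu
    have h2 : (a k l)⁻¹ * a s j * a k l =
        ((a k l)⁻¹ * u * a k l)⁻¹ * a s j * ((a k l)⁻¹ * u * a k l) := by
      calc (a k l)⁻¹ * a s j * a k l =
          (a k l)⁻¹ * u⁻¹ * (u * a s j * u⁻¹) * u * a k l := by group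
        _ = (a k l)⁻¹ * u⁻¹ * (a k l * a s j * (a k l)⁻¹) * u * a k l := by rw [← e]
        _ = _ := by group
    rw [h2]
    exact mul_mem (mul_mem (inv_mem (hFN h1)) (mem_NG hj)) (hFN h1)

/-- commutation of the three generators of a triple -/
theorem comm_of3 {P x y u v : G} (hP : Commute P x) (e : P = u * y * v) (hu : Commute u x)
    (hv : Commute v x) : Commute y x := by
  have : y = u⁻¹ * P * v⁻¹ := by rw [e]; group
  rw [this]
  exact (hu.inv_left.mul_left hP).mul_left hv.inv_left

theorem PB.triple (h : PB a) {s k l : Fin n} (hsk : s ≠ k) (hsl : s ≠ l) (hkl : k ≠ l)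
    (h1 : Commute (a k l) (a s k)) (h2 : Commute (a k l) (a s l)) :
    Commute (a s k) (a s l) := by
  wlog hlt : k < l generalizing k l
  · have := this hsl hsk hkl.symm (by rwa [h.symm l k]) (by rwa [h.symm l k])
      (lt_of_le_of_ne (not_lt.mp hlt) hkl.symm)
    exact this.symm
  apply Commute.symm
  rcases lt_or_gt_of_ne hsk with h3 | h3
  · -- s < k < l
    exact comm_of3 (h.t0 h3 hlt) (by rfl) (Commute.refl _) h1
  · rcases lt_or_gt_of_ne hsl with h4 | h4
    · -- k < s < l : a k s * a k l * a s l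
      have h5 := h.t0 h3 h4
      rw [h.symm k s] at h5
      exact comm_of3 h5 (show _ = (a s k * a k l) * a s l * 1 by rw [mul_one])
        ((Commute.refl _).mul_left h1) (Commute.one_left _)
    · -- k < l < s : a k l * a k s * a l s
      have h5 := h.t1 _ _ _ hlt h4
      rw [h.symm k s, h.symm l s] at h5
      exact comm_of3 h5 (show _ = (a k l * a s k) * a s l * 1 by rw [mul_one])
        (h1.mul_left (Commute.refl _)) (Commute.one_left _)

end

variable {n : ℕ}

/-- the group of a strand is normal in the pure braid group -/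
theorem NG_normal (s : Fin n) : (NG B s).Normal := by
  have key : ∀ k l (hkl : k < l), (∀ x ∈ NG B s, A k l hkl * x * (A k l hkl)⁻¹ ∈ NG B s) ∧
      (∀ x ∈ NG B s, (A k l hkl)⁻¹ * x * A k l hkl ∈ NG B s) := by
    intro k l hkl
    rw [← B_lt hkl]
    by_cases h1 : s = k
    · have hm : B k l ∈ NG B s := by
        rw [h1]
        exact mem_NG hkl.ne'
      exact ⟨fun x hx => mul_mem (mul_mem hm hx) (inv_mem hm),
        fun x hx => mul_mem (mul_mem (inv_mem hm) hx) hm⟩
    by_cases h2 : s = l
    · have hm : B k l ∈ NG B s := by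
        rw [h2, B_symm]
        exact mem_NG hkl.ne
      exact ⟨fun x hx => mul_mem (mul_mem hm hx) (inv_mem hm),
        fun x hx => mul_mem (mul_mem (inv_mem hm) hx) hm⟩
    constructor
    · intro x hx
      induction hx using Subgroup.closure_induction with
      | mem x hx =>
          obtain ⟨j, hj, rfl⟩ := hx
          exact (pbB.norm_gen h1 h2 hkl.ne hj).1
      | one => simp
      | mul x y _ _ hx hy =>
          have : B k l * (x * y) * (B k l)⁻¹ = (B k l * x * (B k l)⁻¹) * (B k l * y * (B k l)⁻¹) := by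
            group
          rw [this]
          exact mul_mem hx hy
      | inv x _ hx =>
          have : B k l * x⁻¹ * (B k l)⁻¹ = (B k l * x * (B k l)⁻¹)⁻¹ := by group
          rw [this]
          exact inv_mem hx
    · intro x hx
      induction hx using Subgroup.closure_induction with
      | mem x hx =>
          obtain ⟨j, hj, rfl⟩ := hx
          exact (pbB.norm_gen h1 h2 hkl.ne hj).2
      | one => simp
      | mul x y _ _ hx hy =>
          have : (B k l)⁻¹ * (x * y) * B k l = ((B k l)⁻¹ * x * B k l) * ((B k l)⁻¹ * y * B k l) := by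
            group
          rw [this]
          exact mul_mem hx hy
      | inv x _ hx =>
          have : (B k l)⁻¹ * x⁻¹ * B k l = ((B k l)⁻¹ * x * B k l)⁻¹ := by group
          rw [this]
          exact inv_mem hx
  let S : Subgroup (PureBraid n) :=
    { carrier := {g | (∀ x ∈ NG B s, g * x * g⁻¹ ∈ NG B s) ∧ ∀ x ∈ NG B s, g⁻¹ * x * g ∈ NG B s}
      one_mem' := by
        constructor <;> intro x hx <;> simpa using hx
      mul_mem' := by
        rintro g k ⟨hg, hg'⟩ ⟨hk, hk'⟩
        constructor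
        · intro x hx
          have : g * k * x * (g * k)⁻¹ = g * (k * x * k⁻¹) * g⁻¹ := by group
          rw [this]
          exact hg _ (hk x hx)
        · intro x hx
          have : (g * k)⁻¹ * x * (g * k) = k⁻¹ * (g⁻¹ * x * g) * k := by group
          rw [this]
          exact hk' _ (hg' x hx)
      inv_mem' := by
        rintro g ⟨hg, hg'⟩
        constructor
        · intro x hx
          rw [inv_inv]
          exact hg' x hx
        · intro x hx
          rw [inv_inv]
          exact hg x hx }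
  have hS : S = ⊤ := by
    apply pb_top
    intro i j hij
    exact key i j hij
  constructor
  intro x hx g
  have : g ∈ S := hS ▸ Subgroup.mem_top g
  exact this.1 x hx

variable {V : Type*} [AddCommGroup V] [Module ℂ V]

/-- `B k l` centralises the group of the strand `s` -/
def Z (R : PureBraid n →* (V ≃ₗ[ℂ] V)) (k l s : Fin n) : Prop :=
  ∀ x ∈ NG B s, Commute (R (B k l)) (R x)

theorem Z_of_comm {R : PureBraid n →* (V ≃ₗ[ℂ] V)} {s k l : Fin n} (hsk : s ≠ k) (hsl : s ≠ l)
    (hkl : k ≠ l) (h : Commute (R (B s k)) (R (B s l))) : Z R k l s := by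
  intro x hx
  induction hx using Subgroup.closure_induction with
  | mem x hx =>
      obtain ⟨j, hj, rfl⟩ := hx
      exact ((pbB.map R).conj hsk hsl hkl hj).2 h
  | one => rw [map_one]; exact Commute.one_right _
  | mul x y _ _ hx hy => rw [map_mul]; exact hx.mul_right hy
  | inv x _ hx => rw [map_inv]; exact hx.inv_right

theorem comm_of_Z {R : PureBraid n →* (V ≃ₗ[ℂ] V)} {s k l : Fin n} (hsk : s ≠ k) (hsl : s ≠ l)
    (hkl : k ≠ l) (h : Z R k l s) : Commute (R (B s k)) (R (B s l)) :=
  (pbB.map R).triple hsk hsl hkl (h _ (mem_NG hsk.symm)) (h _ (mem_NG hsl.symm))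

theorem Z_relabel {R : PureBraid n →* (V ≃ₗ[ℂ] V)} {σ : Equiv.Perm (Fin n)}
    {γ : PureBraid n →* PureBraid n}
    (h : ∀ k l, k ≠ l → ∃ g, γ (B k l) = g * B (σ k) (σ l) * g⁻¹) (hγ : Function.Surjective γ)
    {k l s : Fin n} (hkl : k ≠ l) : Z (R.comp γ) k l s ↔ Z R (σ k) (σ l) (σ s) := by
  obtain ⟨g, hg⟩ := h k l hkl
  have hconj : ∀ {x y z : PureBraid n}, Commute (R (z * x * z⁻¹)) (R y) →
      Commute (R x) (R (z⁻¹ * y * z)) := by
    intro x y z hc
    have h1 : R x = R z⁻¹ * R (z * x * z⁻¹) * R z := by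
      rw [← map_mul, ← map_mul]
      congr 1
      group
    have h2 : R (z⁻¹ * y * z) = R z⁻¹ * R y * R z := by rw [map_mul, map_mul]
    have h3 : R z * R z⁻¹ = 1 := by rw [← map_mul, mul_inv_cancel, map_one]
    rw [h1, h2]
    show _ * _ = _ * _
    calc R z⁻¹ * R (z * x * z⁻¹) * R z * (R z⁻¹ * R y * R z) =
        R z⁻¹ * R (z * x * z⁻¹) * (R z * R z⁻¹) * R y * R z := by group
      _ = R z⁻¹ * (R (z * x * z⁻¹) * R y) * R z := by rw [h3]; group
      _ = R z⁻¹ * (R y * R (z * x * z⁻¹)) * R z := by rw [hc.eq]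
      _ = R z⁻¹ * R y * (R z * R z⁻¹) * R (z * x * z⁻¹) * R z := by rw [h3]; group
      _ = _ := by group
  constructor
  · intro hZ x hx
    have hn := (NG_normal (σ s)).conj_mem x hx g
    have hmap : NG B (σ s) ≤ (NG B s).map γ := by
      rw [NG, Subgroup.closure_le]
      rintro _ ⟨m, hm, rfl⟩
      obtain ⟨j, rfl⟩ := σ.surjective m
      have hj : j ≠ s := fun he => hm (by rw [he])
      obtain ⟨u, hu⟩ := h s j hj.symm
      obtain ⟨u', rfl⟩ := hγ u
      refine ⟨u'⁻¹ * B s j * u', ?_, ?_⟩
      · have := (NG_normal s).conj_mem _ (mem_NG (a := B) hj) u'⁻¹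
        rwa [inv_inv] at this
      · rw [map_mul, map_mul, map_inv, hu]
        group
    obtain ⟨x', hx', hγx⟩ := hmap hn
    have h1 := hZ x' hx'
    rw [MonoidHom.comp_apply, MonoidHom.comp_apply, hγx, hg] at h1
    have h2 := hconj h1
    have h3 : g⁻¹ * (g * x * g⁻¹) * g = x := by group
    rwa [h3] at h2
  · intro hZ x hx
    rw [MonoidHom.comp_apply, MonoidHom.comp_apply, hg]
    have hmem : γ x ∈ NG B (σ s) := by
      have : NG B s ≤ (NG B (σ s)).comap γ := by
        rw [NG, Subgroup.closure_le]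
        rintro _ ⟨j, hj, rfl⟩
        obtain ⟨u, hu⟩ := h s j hj.symm
        show γ (B s j) ∈ NG B (σ s)
        rw [hu]
        exact (NG_normal (σ s)).conj_mem _ (mem_NG (fun he => hj (σ.injective he))) u
      exact this hx
    have h1 := hZ _ ((NG_normal (σ s)).conj_mem _ hmem g⁻¹)
    rw [inv_inv] at h1
    have h2 : Commute (R (g⁻¹ * (g * B (σ k) (σ l) * g⁻¹) * g⁻¹⁻¹)) (R (g⁻¹ * γ x * g)) := by
      have h3 : g⁻¹ * (g * B (σ k) (σ l) * g⁻¹) * g⁻¹⁻¹ = B (σ k) (σ l) := by group
      rw [h3]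
      exact h1
    have h4 := hconj h2
    have h5 : g⁻¹⁻¹ * (g⁻¹ * γ x * g) * g⁻¹ = γ x := by group
    rwa [h5] at h4

theorem isSc_conj {f g : V ≃ₗ[ℂ] V} (h : IsSc (g * f * g⁻¹)) : IsSc f := by
  obtain ⟨c, hc⟩ := h
  refine ⟨c, fun v => ?_⟩
  have h1 := hc (g v)
  have h2 : (g * f * g⁻¹) (g v) = g (f v) := by
    show g (f (g.symm (g v))) = g (f v)
    rw [g.symm_apply_apply]
  rw [h2, ← map_smul] at h1
  exact g.injective h1

/-- an irreducible homomorphism stays irreducible after relabelling -/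
theorem irrF_comp [FiniteDimensional ℂ V] {R : PureBraid n →* (V ≃ₗ[ℂ] V)}
    (h : ∀ W : Submodule ℂ V, (∀ g, ∀ x ∈ W, R g x ∈ W) → W = ⊥ ∨ W = ⊤)
    {γ : PureBraid n →* PureBraid n} (hγ : Function.Surjective γ) :
    IrrF fun i j => (R.comp γ) (B i j) := by
  refine ⟨pbB.map (R.comp γ), fun W hW => ?_⟩
  apply h W
  let S : Subgroup (PureBraid n) :=
    { carrier := {g | ∀ x ∈ W, (R.comp γ) g x ∈ W}
      one_mem' := fun x hx => by rw [map_one]; exact hx
      mul_mem' := by
        intro g k hg hk x hx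
        rw [map_mul]
        exact hg _ (hk x hx)
      inv_mem' := by
        intro g hg
        have := inv_mem_of_mem ((R.comp γ) g) W hg
        rwa [← map_inv] at this }
  have hS : S = ⊤ := by
    apply pb_top
    intro i j hij x hx
    rw [← B_lt hij]
    exact hW i j hij.ne x hx
  intro g x hx
  obtain ⟨g', rfl⟩ := hγ g
  have : g' ∈ S := hS ▸ Subgroup.mem_top g'
  exact this x hx

end Pool.Agent.Conf14
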