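import Pool.Agent.Conf14.Bd5

/-! The linear bound for the number of active strands: conclusion. -/

namespace Pool.Agent.Conf14

variable {n : ℕ}

/-- moving one point by a permutation fixing the first points -/
theorem perm_step (N : ℕ) (τ : Equiv.Perm (Fin n)) (hτ : ∀ i : Fin n, (i : ℕ) < N → τ i = i)
    (p q : Fin n) (hp : N ≤ (p : ℕ)) (hq : N ≤ (q : ℕ)) :
    ∃ τ' : Equiv.Perm (Fin n), (∀ i : Fin n, (i : ℕ) < N → τ' i = i) ∧ τ' p = q ∧
      ∀ x, x ≠ p → τ x ≠ q → τ' x = τ x := by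
  have h3 : ∀ x, x ≠ p → τ x ≠ q → (τ * Equiv.swap p (τ.symm q)) x = τ x := by
    intro x hx hxq
    have h4 : x ≠ τ.symm q := fun he => hxq (by rw [he, Equiv.apply_symm_apply])
    rw [Equiv.Perm.mul_apply, Equiv.swap_apply_of_ne_of_ne hx h4]
  refine ⟨τ * Equiv.swap p (τ.symm q), ?_, ?_, h3⟩
  · intro i hi
    rw [h3 i (fun he => by rw [he] at hi; omega)
      (fun he => by rw [hτ i hi] at he; rw [he] at hi; omega), hτ i hi]
  · rw [Equiv.Perm.mul_apply, Equiv.swap_apply_left, Equiv.apply_symm_apply]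

/-- moving three points by a permutation fixing the first points -/
theorem perm_three (N : ℕ) {p0 p1 p2 k l s : Fin n} (h0 : N ≤ (p0 : ℕ)) (h1 : N ≤ (p1 : ℕ))
    (h2 : N ≤ (p2 : ℕ)) (hk : N ≤ (k : ℕ)) (hl : N ≤ (l : ℕ)) (hs : N ≤ (s : ℕ))
    (h01 : p0 ≠ p1) (h02 : p0 ≠ p2) (h12 : p1 ≠ p2) (hkl : k ≠ l) (hks : k ≠ s) (hls : l ≠ s) :
    ∃ τ : Equiv.Perm (Fin n), (∀ i : Fin n, (i : ℕ) < N → τ i = i) ∧ τ p0 = k ∧ τ p1 = l ∧
      τ p2 = s := by
  obtain ⟨τ1, f1, e1, -⟩ := perm_step N 1 (fun i _ => rfl) p0 k h0 hk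
  obtain ⟨τ2, f2, e2, g2⟩ := perm_step N τ1 f1 p1 l h1 hl
  obtain ⟨τ3, f3, e3, g3⟩ := perm_step N τ2 f2 p2 s h2 hs
  have e21 : τ2 p0 = k := by rw [g2 p0 h01 (by rw [e1]; exact hkl), e1]
  refine ⟨τ3, f3, ?_, ?_, e3⟩
  · rw [g3 p0 h02 (by rw [e21]; exact hks), e21]
  · rw [g3 p1 h12 (by rw [e2]; exact hls), e2]

variable {V : Type*} [AddCommGroup V] [Module ℂ V]

theorem bound_main [FiniteDimensional ℂ V] [Nontrivial V] (R : PureBraid n →* (V ≃ₗ[ℂ] V))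
    (h : ∀ W : Submodule ℂ V, (∀ g, ∀ x ∈ W, R g x ∈ W) → W = ⊥ ∨ W = ⊤) :
    ∃ T : Finset (Fin n), T.card + 4 ≤ 4 * Module.finrank ℂ V ∧
      ∀ i j, i ≠ j → (i ∉ T ∨ j ∉ T) → IsSc (R (B i j)) := by
  classical
  let P : ℕ → Equiv.Perm (Fin n) → Prop := fun K σ => 3 * K ≤ n ∧ ∀ m < K,
    ∀ (p0 p1 p2 : Fin n), (p0 : ℕ) = 3 * m → (p1 : ℕ) = 3 * m + 1 → (p2 : ℕ) = 3 * m + 2 →
      ¬ Z R (σ p0) (σ p1) (σ p2)
  have hex : ∃ K, (∃ σ, P K σ) ∧ ¬ ∃ σ, P (K + 1) σ := by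
    by_contra hcon
    push Not at hcon
    have hall : ∀ K, ∃ σ, P K σ := by
      intro K
      induction K with
      | zero => exact ⟨1, by omega, fun m hm => absurd hm (Nat.not_lt_zero m)⟩
      | succ K ih => exact hcon K ih
    obtain ⟨σ, h1, -⟩ := hall (n + 1)
    omega
  obtain ⟨K, ⟨σ, hK, hσ⟩, hmax⟩ := hex
  have hgoodZ : ∀ s k l : Fin n, 3 * K ≤ (s : ℕ) → 3 * K ≤ (k : ℕ) → 3 * K ≤ (l : ℕ) → s ≠ k →
      s ≠ l → k ≠ l → Z R (σ k) (σ l) (σ s) := by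
    intro s k l hs hk hl hsk hsl hkl
    by_contra hZ
    apply hmax
    have n1 : (s : ℕ) ≠ k := fun he => hsk (Fin.ext he)
    have n2 : (s : ℕ) ≠ l := fun he => hsl (Fin.ext he)
    have n3 : (k : ℕ) ≠ l := fun he => hkl (Fin.ext he)
    have hn : 3 * K + 3 ≤ n := by
      have := s.isLt
      have := k.isLt
      have := l.isLt
      omega
    obtain ⟨τ, f, e0, e1, e2⟩ := perm_three (3 * K) (p0 := ⟨3 * K, by omega⟩)
      (p1 := ⟨3 * K + 1, by omega⟩) (p2 := ⟨3 * K + 2, by omega⟩) (k := k) (l := l) (s := s)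
      (le_refl _) (by show 3 * K ≤ 3 * K + 1; omega) (by show 3 * K ≤ 3 * K + 2; omega) hk hl hs
      (by simp) (by simp) (by simp) hkl hsk.symm hsl.symm
    refine ⟨σ * τ, by omega, ?_⟩
    intro m hm p0 p1 p2 q0 q1 q2
    rw [Equiv.Perm.mul_apply, Equiv.Perm.mul_apply, Equiv.Perm.mul_apply]
    by_cases hmK : m < K
    · rw [f p0 (by omega), f p1 (by omega), f p2 (by omega)]
      exact hσ m hmK p0 p1 p2 q0 q1 q2
    · have hm2 : m = K := by omega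
      subst hm2
      have i0 : p0 = ⟨3 * m, by omega⟩ := Fin.ext q0
      have i1 : p1 = ⟨3 * m + 1, by omega⟩ := Fin.ext q1
      have i2 : p2 = ⟨3 * m + 2, by omega⟩ := Fin.ext q2
      rw [i0, i1, i2, e0, e1, e2]
      exact hZ
  obtain ⟨γ, hγ, hc⟩ := Rl.all σ
  have hirr := irrF_comp h hγ
  let T' : Finset (Fin n) := Finset.univ.filter fun s =>
    ∃ j, j ≠ s ∧ ¬ IsSc ((R.comp γ) (B s j))
  have hb : T'.card + 4 ≤ 4 * Module.finrank ℂ V := by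
    apply hirr.bound4 K hK
    · intro m hm hcm
      have hne1 : (⟨3 * m + 2, by omega⟩ : Fin n) ≠ ⟨3 * m, by omega⟩ := by simp
      have hne2 : (⟨3 * m + 2, by omega⟩ : Fin n) ≠ ⟨3 * m + 1, by omega⟩ := by simp
      have hne3 : (⟨3 * m, by omega⟩ : Fin n) ≠ ⟨3 * m + 1, by omega⟩ := by simp
      have h1 := Z_of_comm (R := R.comp γ) hne1 hne2 hne3 hcm
      rw [Z_relabel hc hγ hne3] at h1
      exact hσ m hm _ _ _ rfl rfl rfl h1
    · intro s k l hs hk hl hsk hsl hkl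
      apply comm_of_Z (R := R.comp γ) hsk hsl hkl
      rw [Z_relabel hc hγ hkl]
      exact hgoodZ s k l hs hk hl hsk hsl hkl
    · intro s hs
      exact (Finset.mem_filter.mp hs).2
  let T : Finset (Fin n) := Finset.univ.filter fun s => ∃ j, j ≠ s ∧ ¬ IsSc (R (B s j))
  have hTT : T ⊆ T'.image σ := by
    intro s hs
    obtain ⟨-, j, hj, hsc⟩ := Finset.mem_filter.mp hs
    obtain ⟨s0, rfl⟩ := σ.surjective s
    obtain ⟨j0, rfl⟩ := σ.surjective j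
    have hj0 : j0 ≠ s0 := fun he => hj (by rw [he])
    rw [Finset.mem_image]
    refine ⟨s0, Finset.mem_filter.mpr ⟨Finset.mem_univ _, j0, hj0, ?_⟩, rfl⟩
    intro hsc2
    apply hsc
    obtain ⟨g, hg⟩ := hc s0 j0 hj0.symm
    rw [MonoidHom.comp_apply, hg, map_mul, map_mul, map_inv] at hsc2
    exact isSc_conj hsc2
  refine ⟨T, ?_, ?_⟩
  · have h1 := Finset.card_le_card hTT
    have h2 := Finset.card_image_le (s := T') (f := σ)
    omega
  · have key : ∀ i j, i ≠ j → i ∉ T → IsSc (R (B i j)) := by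
      intro i j hij hi
      by_contra hsc
      exact hi (Finset.mem_filter.mpr ⟨Finset.mem_univ _, j, hij.symm, hsc⟩)
    rintro i j hij (hi | hj)
    · exact key i j hij hi
    · rw [B_symm i j]
      exact key j i hij.symm hj

end Pool.Agent.Conf14
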