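import Pool.Agent.Conf14.Art

/-! Crossed homomorphisms of the free group, and the action of the pure braids on them. -/

namespace Pool.Agent.Conf14

open FreeGroup (of lift lift_apply_of)

variable {n : ℕ}

/-- an affine permutation of the complex numbers -/
def affPerm (a : ℂˣ) (b : ℂ) : Equiv.Perm ℂ where
  toFun z := a * z + b
  invFun z := (a⁻¹ : ℂˣ) * (z - b)
  left_inv z := by
    show ((a⁻¹ : ℂˣ) : ℂ) * (a * z + b - b) = z
    rw [add_sub_cancel_right, ← mul_assoc, ← Units.val_mul, inv_mul_cancel, Units.val_one, one_mul]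
  right_inv z := by
    show (a : ℂ) * (((a⁻¹ : ℂˣ) : ℂ) * (z - b)) + b = z
    rw [← mul_assoc, ← Units.val_mul, mul_inv_cancel, Units.val_one, one_mul, sub_add_cancel]

/-- the affine action with linear part `t` and translations `c i` of the generators -/
def crHom (t : Fin n → ℂˣ) (c : Fin n → ℂ) : FreeGroup (Fin n) →* Equiv.Perm ℂ :=
  lift fun i => affPerm (t i) (c i)

/-- the crossed homomorphism with values `c i` on the generators -/
def cr (t : Fin n → ℂˣ) (c : Fin n → ℂ) (g : FreeGroup (Fin n)) : ℂ := crHom t c g 0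

theorem crHom_apply (t : Fin n → ℂˣ) (c : Fin n → ℂ) (g : FreeGroup (Fin n)) (z : ℂ) :
    crHom t c g z = (lift t g : ℂˣ) * z + cr t c g := by
  induction g using FreeGroup.induction_on generalizing z with
  | C1 => simp [cr]
  | of i => simp [cr, crHom, affPerm]
  | inv_of i ih =>
      have h1 : crHom t c (of i)⁻¹ z = ((t i)⁻¹ : ℂˣ) * (z - c i) := by
        rw [_root_.map_inv, crHom, lift_apply_of]
        rfl
      have h2 : cr t c (of i)⁻¹ = ((t i)⁻¹ : ℂˣ) * (0 - c i) := by
        rw [cr, _root_.map_inv, crHom, lift_apply_of]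
        rfl
      rw [h1, h2, _root_.map_inv, lift_apply_of]
      ring
  | mul x y hx hy =>
      have h1 : cr t c (x * y) = (lift t x : ℂˣ) * cr t c y + cr t c x := by
        show crHom t c (x * y) 0 = _
        rw [_root_.map_mul, Equiv.Perm.mul_apply, hx]
        rfl
      rw [h1, _root_.map_mul, Equiv.Perm.mul_apply, hy, hx, _root_.map_mul, Units.val_mul]
      ring

theorem cr_of (t : Fin n → ℂˣ) (c : Fin n → ℂ) (i : Fin n) : cr t c (of i) = c i := by
  simp [cr, crHom, affPerm]

theorem cr_one (t : Fin n → ℂˣ) (c : Fin n → ℂ) : cr t c 1 = 0 := by simp [cr]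

theorem cr_mul (t : Fin n → ℂˣ) (c : Fin n → ℂ) (g h : FreeGroup (Fin n)) :
    cr t c (g * h) = cr t c g + (lift t g : ℂˣ) * cr t c h := by
  rw [cr, _root_.map_mul, Equiv.Perm.mul_apply, crHom_apply, cr, cr]
  ring

theorem cr_inv (t : Fin n → ℂˣ) (c : Fin n → ℂ) (g : FreeGroup (Fin n)) :
    cr t c g⁻¹ = -(((lift t g)⁻¹ : ℂˣ) * cr t c g) := by
  have h := cr_mul t c g⁻¹ g
  rw [inv_mul_cancel, cr_one, _root_.map_inv] at h
  linear_combination -h

/-- uniqueness of crossed homomorphisms -/
theorem cr_unique (t : Fin n → ℂˣ) (f : FreeGroup (Fin n) → ℂ)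
    (hf : ∀ g h, f (g * h) = f g + (lift t g : ℂˣ) * f h) (g : FreeGroup (Fin n)) :
    f g = cr t (fun i => f (of i)) g := by
  have h1 : f 1 = 0 := by
    have := hf 1 1
    rw [mul_one, _root_.map_one, Units.val_one, one_mul] at this
    linear_combination -this
  induction g using FreeGroup.induction_on with
  | C1 => rw [h1, cr_one]
  | of i => rw [cr_of]
  | inv_of i ih =>
      have h2 := hf (of i)⁻¹ (of i)
      rw [inv_mul_cancel, h1, _root_.map_inv] at h2
      rw [cr_inv, cr_of]
      linear_combination -h2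
  | mul x y hx hy => rw [hf, cr_mul, hx, hy]

theorem cr_add (t : Fin n → ℂˣ) (c d : Fin n → ℂ) (g : FreeGroup (Fin n)) :
    cr t (c + d) g = cr t c g + cr t d g := by
  have := cr_unique t (fun g => cr t c g + cr t d g) (fun g h => by rw [cr_mul, cr_mul]; ring) g
  rw [this]
  congr 1
  ext i
  rw [cr_of, cr_of, Pi.add_apply]

theorem cr_smul (t : Fin n → ℂˣ) (a : ℂ) (c : Fin n → ℂ) (g : FreeGroup (Fin n)) :
    cr t (a • c) g = a * cr t c g := by
  have := cr_unique t (fun g => a * cr t c g) (fun g h => by rw [cr_mul]; ring) g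
  rw [this]
  congr 1
  ext i
  rw [cr_of, Pi.smul_apply, smul_eq_mul]

/-- the functional of the pseudo-reflection `A i j` -/
def phi (t : Fin n → ℂˣ) (i j : Fin n) (c : Fin n → ℂ) : ℂ := (t j - 1) * c i - (t i - 1) * c j

/-- the root of the pseudo-reflection `A i j` -/
def root (t : Fin n → ℂˣ) (i j : Fin n) (k : Fin n) : ℂ :=
  if k = i then -t i else if k = j then 1 else if i < k ∧ k < j then 1 - t k else 0

theorem cr_comm (t : Fin n → ℂˣ) (c : Fin n → ℂ) (i j : Fin n) :
    cr t c (of i * of j * (of i)⁻¹ * (of j)⁻¹) = -phi t i j c := by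
  rw [cr_mul, cr_mul, cr_mul, cr_inv, cr_inv, cr_of, cr_of, phi]
  simp only [_root_.map_mul, _root_.map_inv, lift_apply_of]
  have h1 : (t i : ℂ) ≠ 0 := (t i).ne_zero
  have h2 : (t j : ℂ) ≠ 0 := (t j).ne_zero
  push_cast
  field_simp
  ring

theorem cr_conj (t : Fin n → ℂˣ) (c : Fin n → ℂ) (g h : FreeGroup (Fin n)) :
    cr t c (g * h * g⁻¹) = (1 - (lift t h : ℂˣ)) * cr t c g + (lift t g : ℂˣ) * cr t c h := by
  rw [cr_mul, cr_mul, cr_inv, _root_.map_mul]
  have h1 : ((lift t g : ℂˣ) : ℂ) ≠ 0 := (lift t g).ne_zero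
  push_cast
  field_simp
  ring

theorem cr_artin (t : Fin n → ℂˣ) (c : Fin n → ℂ) {i j : Fin n} (hij : i < j)
    (g : FreeGroup (Fin n)) :
    cr t c ((artin i j)⁻¹ g) = cr t (c - phi t i j c • root t i j) g := by
  have hgood : Good (artin i j)⁻¹ :=
    good_of_mem (inv_mem (Subgroup.subset_closure ⟨i, j, hij, rfl⟩))
  have := cr_unique t (fun g => cr t c ((artin i j)⁻¹ g))
    (fun g h => by rw [_root_.map_mul, cr_mul, hgood.char]) g
  rw [this]
  congr 1
  ext k
  rw [Pi.sub_apply, Pi.smul_apply, smul_eq_mul]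
  by_cases h1 : k = i
  · subst h1
    rw [b_fst, cr_conj, cr_mul, cr_of, cr_of, lift_apply_of, _root_.map_mul, lift_apply_of,
      lift_apply_of, root, if_pos rfl, phi]
    push_cast
    ring
  by_cases h2 : k = j
  · subst h2
    rw [b_snd, cr_conj, cr_mul, cr_of, cr_of, lift_apply_of, _root_.map_mul, lift_apply_of,
      lift_apply_of, root, if_neg h1, if_pos rfl, phi]
    push_cast
    ring
  by_cases h3 : i < k ∧ k < j
  · rw [b_mid i j k h3.1 h3.2, cr_conj, cr_comm, cr_of, lift_apply_of, root, if_neg h1, if_neg h2,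
      if_pos h3]
    have : lift t (of i * of j * (of i)⁻¹ * (of j)⁻¹) = 1 := by
      simp only [_root_.map_mul, _root_.map_inv, lift_apply_of]
      rw [mul_comm (t i), mul_assoc, mul_assoc, mul_inv_cancel_left, mul_inv_cancel]
    rw [this]
    push_cast
    ring
  · rw [b_out i j k h1 h2 h3, cr_of, root, if_neg h1, if_neg h2, if_neg h3]
    ring

theorem phi_add (t : Fin n → ℂˣ) (i j : Fin n) (c d : Fin n → ℂ) :
    phi t i j (c + d) = phi t i j c + phi t i j d := by
  simp only [phi, Pi.add_apply]; ring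

theorem phi_smul (t : Fin n → ℂˣ) (i j : Fin n) (a : ℂ) (c : Fin n → ℂ) :
    phi t i j (a • c) = a * phi t i j c := by
  simp only [phi, Pi.smul_apply, smul_eq_mul]; ring

theorem phi_root_self (t : Fin n → ℂˣ) {i j : Fin n} (hij : i < j) :
    phi t i j (root t i j) = 1 - t i * t j := by
  rw [phi, root, root, if_pos rfl, if_neg hij.ne', if_pos rfl]
  ring

/-- the roots on the strand `s` are pairwise related by the normal form -/
theorem phi_root_lt (t : Fin n → ℂˣ) {a b s : Fin n} (hab : a < b) (hbs : b < s) :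
    -phi t a s (root t b s) = t a - 1 := by
  rw [phi, root, root, if_neg hab.ne, if_neg (hab.trans hbs).ne,
    if_neg (fun h => lt_asymm hab h.1), if_neg hbs.ne', if_pos rfl]
  ring

theorem phi_root_gt (t : Fin n → ℂˣ) {a b s : Fin n} (hab : b < a) (has : a < s) :
    -phi t a s (root t b s) = t s * (t a - 1) := by
  rw [phi, root, root, if_neg hab.ne', if_neg has.ne, if_pos ⟨hab, has⟩, if_neg (hab.trans has).ne',
    if_pos rfl]
  ring

theorem root_sub (t : Fin n → ℂˣ) {i j s : Fin n} (hij : i < j) (hjs : j < s) :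
    root t i j = root t i s - root t j s := by
  ext k
  rw [Pi.sub_apply, root, root, root]
  rcases lt_trichotomy k i with h1 | h1 | h1
  · rw [if_neg h1.ne, if_neg (h1.trans hij).ne, if_neg (fun h => lt_asymm h1 h.1), if_neg h1.ne,
      if_neg ((h1.trans hij).trans hjs).ne, if_neg (fun h => lt_asymm h1 h.1),
      if_neg (h1.trans hij).ne, if_neg ((h1.trans hij).trans hjs).ne,
      if_neg (fun h => lt_asymm (h1.trans hij) h.1)]
    ring
  · rw [if_pos h1, if_pos h1, if_neg (h1 ▸ hij.ne), if_neg (h1 ▸ (hij.trans hjs).ne),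
      if_neg (fun h => lt_asymm hij (h1 ▸ h.1))]
    ring
  rcases lt_trichotomy k j with h2 | h2 | h2
  · rw [if_neg h1.ne', if_neg h2.ne, if_pos ⟨h1, h2⟩, if_neg h1.ne', if_neg (h2.trans hjs).ne,
      if_pos ⟨h1, h2.trans hjs⟩, if_neg h2.ne, if_neg (h2.trans hjs).ne,
      if_neg (fun h => lt_asymm h2 h.1)]
    ring
  · rw [if_neg h1.ne', if_pos h2, if_neg h1.ne', if_neg (h2 ▸ hjs.ne), if_pos ⟨h1, h2 ▸ hjs⟩,
      if_pos h2, h2]
    ring
  · rw [if_neg h1.ne', if_neg h2.ne', if_neg (fun h => lt_asymm h2 h.2), if_neg h1.ne',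
      if_neg h2.ne']
    rcases lt_trichotomy k s with h3 | h3 | h3
    · rw [if_neg h3.ne, if_pos ⟨h1, h3⟩, if_neg h3.ne, if_pos ⟨h2, h3⟩]
      ring
    · rw [if_pos h3, if_pos h3]; ring
    · rw [if_neg h3.ne', if_neg (fun h => lt_asymm h3 h.2), if_neg h3.ne',
        if_neg (fun h => lt_asymm h3 h.2)]
      ring

/-- the crossed homomorphism of a root vanishes on the loop around infinity -/
theorem cr_root_inf (t : Fin n → ℂˣ) {i j : Fin n} (hij : i < j) (ht : (t j : ℂ) ≠ 1) :
    cr t (root t i j) (xinf n) = 0 := by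
  have hinf : (artin i j)⁻¹ (xinf n) = xinf n :=
    (good_of_mem (inv_mem (Subgroup.subset_closure ⟨i, j, hij, rfl⟩) :
      (artin i j)⁻¹ ∈ PureBraid n)).inf
  have h := cr_artin t (fun k => if k = i then 1 else 0) hij (xinf n)
  rw [hinf, sub_eq_add_neg, ← neg_smul, cr_add, cr_smul] at h
  have h2 : phi t i j (fun k => if k = i then 1 else 0) = t j - 1 := by
    simp [phi, hij.ne']
  rw [h2] at h
  have h3 : (t j - 1 : ℂ) * cr t (root t i j) (xinf n) = 0 := by linear_combination h
  exact (mul_eq_zero.mp h3).resolve_left (sub_ne_zero.mpr ht)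

/-- vanishing on the loops around the punctures -/
theorem cr_peripheral (t : Fin n → ℂˣ) (c : Fin n → ℂ) (hc : ∀ i, (t i : ℂ) = 1 → c i = 0)
    (hinf : cr t c (xinf n) = 0) {g : FreeGroup (Fin n)} (hg : g ∈ ker t) (hp : Peripheral g) :
    cr t c g = 0 := by
  have hpow : ∀ (x : FreeGroup (Fin n)) (m : ℕ), ((lift t x : ℂˣ) - 1 : ℂ) * cr t c (x ^ m) =
      (((lift t x : ℂˣ) : ℂ) ^ m - 1) * cr t c x := by
    intro x m
    induction m with
    | zero => simp [cr_one]
    | succ m ih =>
        rw [pow_succ, cr_mul, mul_add, ih, _root_.map_pow, Units.val_pow_eq_pow_val]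
        ring
  obtain ⟨h, m, ⟨i, rfl⟩ | rfl⟩ := hp
  · have h1 : lift t (of i ^ m) = 1 := by
      rw [ker, MonoidHom.mem_ker, _root_.map_mul, _root_.map_mul, _root_.map_inv, mul_comm,
        inv_mul_cancel_left] at hg
      exact hg
    rw [cr_conj, h1]
    have h2 : cr t c (of i ^ m) = 0 := by
      by_cases ht : (t i : ℂ) = 1
      · have : ∀ m : ℕ, cr t c (of i ^ m) = 0 := by
          intro m
          induction m with
          | zero => simp [cr_one]
          | succ m ih => rw [pow_succ, cr_mul, ih, cr_of, hc i ht, mul_zero, add_zero]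
        exact this m
      · have h3 := hpow (of i) m
        rw [lift_apply_of] at h3
        have h4 : (t i : ℂ) ^ m = 1 := by
          rw [_root_.map_pow, lift_apply_of] at h1
          rw [← Units.val_pow_eq_pow_val, h1, Units.val_one]
        rw [h4, sub_self, zero_mul] at h3
        exact (mul_eq_zero.mp h3).resolve_left (sub_ne_zero.mpr ht)
    rw [h2]
    simp
  · have h1 : lift t (xinf n ^ m) = 1 := by
      rw [ker, MonoidHom.mem_ker, _root_.map_mul, _root_.map_mul, _root_.map_inv, mul_comm,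
        inv_mul_cancel_left] at hg
      exact hg
    rw [cr_conj, h1]
    have h2 : ∀ m : ℕ, cr t c (xinf n ^ m) = 0 := by
      intro m
      induction m with
      | zero => simp [cr_one]
      | succ m ih => rw [pow_succ, cr_mul, ih, hinf, mul_zero, add_zero]
    rw [h2]
    simp

/-- a crossed homomorphism which vanishes on `ker t` is killed by all the functionals -/
theorem phi_of_ker (t : Fin n → ℂˣ) (c : Fin n → ℂ) (h : ∀ g ∈ ker t, cr t c g = 0)
    (i j : Fin n) : phi t i j c = 0 := by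
  have h1 := h (of i * of j * (of i)⁻¹ * (of j)⁻¹) (by
    rw [ker, MonoidHom.mem_ker]
    simp only [_root_.map_mul, _root_.map_inv, lift_apply_of]
    rw [mul_comm (t i), mul_assoc, mul_assoc, mul_inv_cancel_left, mul_inv_cancel])
  rw [cr_comm] at h1
  exact neg_eq_zero.mp h1

/-- a coboundary vanishes on `ker t` -/
theorem cr_cob (t : Fin n → ℂˣ) (c : Fin n → ℂ) (u : ℂ) (hc : ∀ i, c i = (1 - t i) * u)
    {g : FreeGroup (Fin n)} (hg : g ∈ ker t) : cr t c g = 0 := by
  have h := cr_unique t (fun g => (1 - (lift t g : ℂˣ)) * u)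
    (fun g h => by rw [_root_.map_mul]; push_cast; ring) g
  have h2 : (fun i => (1 - ((lift t (of i) : ℂˣ) : ℂ)) * u) = c := by
    ext i
    rw [lift_apply_of, hc]
  rw [h2] at h
  rw [← h]
  rw [ker, MonoidHom.mem_ker] at hg
  rw [hg]
  simp

end Pool.Agent.Conf14
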