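import Mathlib

/-!
# Pure braid groups and the first cohomology of cyclic covers of the line

`artin n i j` (for `i < j`) is Artin's automorphism of the free group `F n` on `x 0, ..., x (n-1)`
given by the pure braid `A i j`; the pure braid group `PureBraid n` (fundamental group of the
ordered configuration space of `n` points of the plane) is the group of automorphisms generated
by them (Artin's representation is faithful).

For `t : Fin n → ℂˣ` let `ker t` be the kernel of `x i ↦ t i`.  If the `t i` are roots of unity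
then `ker t` is the fundamental group of the unramified cyclic cover of `ℂ` minus `n` points
`z i`, and `H1 t` is the first cohomology with complex coefficients of the smooth projective model
of this cover: the homomorphisms `ker t → ℂ` which vanish on the loops around the punctures.
-/

namespace Pool.Agent.Conf14

open FreeGroup (of lift lift_apply_of)

variable {n : ℕ}

/-- images of the generators under the automorphism `A i j` -/
def artinFun (i j k : Fin n) : FreeGroup (Fin n) :=
  if k = i then (of i * of j)⁻¹ * of i * (of i * of j)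
  else if k = j then (of i * of j)⁻¹ * of j * (of i * of j)
  else if i < k ∧ k < j then
    ((of j)⁻¹ * (of i)⁻¹ * of j * of i) * of k * ((of j)⁻¹ * (of i)⁻¹ * of j * of i)⁻¹
  else of k

/-- images of the generators under the inverse of the automorphism `A i j` -/
def artinInvFun (i j k : Fin n) : FreeGroup (Fin n) :=
  if k = i then (of i * of j) * of i * (of i * of j)⁻¹
  else if k = j then (of i * of j) * of j * (of i * of j)⁻¹
  else if i < k ∧ k < j then
    (of i * of j * (of i)⁻¹ * (of j)⁻¹) * of k * (of i * of j * (of i)⁻¹ * (of j)⁻¹)⁻¹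
  else of k

theorem artin_left (i j : Fin n) :
    (lift (artinInvFun i j)).comp (lift (artinFun i j)) = MonoidHom.id _ := by
  apply FreeGroup.ext_hom
  intro k
  have hi : lift (artinInvFun i j) (of i) = (of i * of j) * of i * (of i * of j)⁻¹ := by
    simp [artinInvFun]
  have hj : lift (artinInvFun i j) (of j) = (of i * of j) * of j * (of i * of j)⁻¹ := by
    rw [lift_apply_of, artinInvFun]
    by_cases h : j = i
    · rw [if_pos h, h]
    · rw [if_neg h, if_pos rfl]
  simp only [MonoidHom.comp_apply, lift_apply_of, MonoidHom.id_apply]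
  rw [artinFun]
  split_ifs with h1 h2 h3
  · subst h1
    simp only [map_mul, map_inv, hi, hj]
    group
  · subst h2
    simp only [map_mul, map_inv, hi, hj]
    group
  · have hk : lift (artinInvFun i j) (of k) =
        (of i * of j * (of i)⁻¹ * (of j)⁻¹) * of k * (of i * of j * (of i)⁻¹ * (of j)⁻¹)⁻¹ := by
      rw [lift_apply_of, artinInvFun, if_neg h1, if_neg h2, if_pos h3]
    simp only [map_mul, map_inv, hi, hj, hk]
    group
  · rw [lift_apply_of, artinInvFun, if_neg h1, if_neg h2, if_neg h3]

theorem artin_right (i j : Fin n) :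
    (lift (artinFun i j)).comp (lift (artinInvFun i j)) = MonoidHom.id _ := by
  apply FreeGroup.ext_hom
  intro k
  have hi : lift (artinFun i j) (of i) = (of i * of j)⁻¹ * of i * (of i * of j) := by
    simp [artinFun]
  have hj : lift (artinFun i j) (of j) = (of i * of j)⁻¹ * of j * (of i * of j) := by
    rw [lift_apply_of, artinFun]
    by_cases h : j = i
    · rw [if_pos h, h]
    · rw [if_neg h, if_pos rfl]
  simp only [MonoidHom.comp_apply, lift_apply_of, MonoidHom.id_apply]
  rw [artinInvFun]
  split_ifs with h1 h2 h3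
  · subst h1
    simp only [map_mul, map_inv, hi, hj]
    group
  · subst h2
    simp only [map_mul, map_inv, hi, hj]
    group
  · have hk : lift (artinFun i j) (of k) =
        ((of j)⁻¹ * (of i)⁻¹ * of j * of i) * of k * ((of j)⁻¹ * (of i)⁻¹ * of j * of i)⁻¹ := by
      rw [lift_apply_of, artinFun, if_neg h1, if_neg h2, if_pos h3]
    simp only [map_mul, map_inv, hi, hj, hk]
    group
  · rw [lift_apply_of, artinFun, if_neg h1, if_neg h2, if_neg h3]

/-- Artin's automorphism of the free group given by the pure braid `A i j`, `i < j` -/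
def artin (i j : Fin n) : MulAut (FreeGroup (Fin n)) :=
  MonoidHom.toMulEquiv (lift (artinFun i j)) (lift (artinInvFun i j)) (artin_left i j)
    (artin_right i j)

/-- the pure braid group on `n` strands -/
def PureBraid (n : ℕ) : Subgroup (MulAut (FreeGroup (Fin n))) :=
  Subgroup.closure {φ | ∃ i j : Fin n, i < j ∧ φ = artin i j}

/-- the pure braid `A i j` -/
def A (i j : Fin n) (h : i < j) : PureBraid n :=
  ⟨artin i j, Subgroup.subset_closure ⟨i, j, h, rfl⟩⟩

/-- the kernel of the character `x i ↦ t i` of the free group -/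
def ker (t : Fin n → ℂˣ) : Subgroup (FreeGroup (Fin n)) := (lift t).ker

/-- the product `x 0 * x 1 * ... * x (m-1)` for `m ≤ n` -/
def xprod (n : ℕ) : ℕ → FreeGroup (Fin n)
  | 0 => 1
  | m + 1 => xprod n m * if h : m < n then of ⟨m, h⟩ else 1

/-- the product `x 0 * x 1 * ... * x (n-1)`: the loop around infinity -/
def xinf (n : ℕ) : FreeGroup (Fin n) := xprod n n

/-- the loops around the punctures: conjugates of powers of the `x i` and of `xinf` -/
def Peripheral (g : FreeGroup (Fin n)) : Prop :=
  ∃ (h : FreeGroup (Fin n)) (m : ℕ), (∃ i, g = h * of i ^ m * h⁻¹) ∨ g = h * xinf n ^ m * h⁻¹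

/-- the first cohomology of the smooth projective model of the cyclic cover given by `t` -/
def H1 (t : Fin n → ℂˣ) : Submodule ℂ (ker t → ℂ) where
  carrier := {f | (∀ g h, f (g * h) = f g + f h) ∧
    ∀ g : ker t, Peripheral (g : FreeGroup (Fin n)) → f g = 0}
  zero_mem' := ⟨fun _ _ => by simp, fun _ _ => rfl⟩
  add_mem' := by
    rintro a b ⟨ha, ha'⟩ ⟨hb, hb'⟩
    refine ⟨fun g h => ?_, fun g hg => ?_⟩
    · simp only [Pi.add_apply, ha, hb]
      ring
    · simp only [Pi.add_apply, ha' g hg, hb' g hg, add_zero]
  smul_mem' := by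
    rintro c a ⟨ha, ha'⟩
    refine ⟨fun g h => ?_, fun g hg => ?_⟩
    · simp only [Pi.smul_apply, ha, smul_add]
    · simp only [Pi.smul_apply, ha' g hg, smul_zero]

/-! ### The pure braid group preserves the characters and the punctures -/

theorem lift_artinFun (t : Fin n → ℂˣ) (i j k : Fin n) : lift t (artinFun i j k) = t k := by
  unfold artinFun
  split_ifs with h1 h2 h3
  · subst h1
    simp only [_root_.map_mul, _root_.map_inv, lift_apply_of]
    rw [mul_comm, mul_assoc, mul_comm]
    group
  · subst h2
    simp only [_root_.map_mul, _root_.map_inv, lift_apply_of]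
    rw [mul_assoc, mul_comm, mul_assoc, mul_inv_cancel, mul_one]
  · simp only [_root_.map_mul, _root_.map_inv, lift_apply_of]
    rw [mul_comm, ← mul_assoc, inv_mul_cancel, one_mul]
  · exact lift_apply_of

/-- what we need about the elements of the pure braid group -/
structure Good (β : MulAut (FreeGroup (Fin n))) : Prop where
  char : ∀ (t : Fin n → ℂˣ) g, lift t (β g) = lift t g
  conj : ∀ i, ∃ y, β (of i) = y * of i * y⁻¹
  inf : β (xinf n) = xinf n

theorem artin_apply_of (i j k : Fin n) : artin i j (of k) = artinFun i j k := by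
  show lift (artinFun i j) (of k) = _
  rw [lift_apply_of]

theorem artin_xprod {i j : Fin n} (hij : i < j) (m : ℕ) (hm : m ≤ n) :
    artin i j (xprod n m) = if (i : ℕ) < m ∧ m ≤ (j : ℕ) then
      xprod n m * ((of j)⁻¹ * (of i)⁻¹ * of j * of i)⁻¹ else xprod n m := by
  induction m with
  | zero => simp [xprod]
  | succ m ih =>
      have hmn : m < n := by omega
      rw [xprod, dif_pos hmn, _root_.map_mul, ih (by omega), artin_apply_of, artinFun]
      have hij' : (i : ℕ) < j := hij
      by_cases h1 : (⟨m, hmn⟩ : Fin n) = i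
      · have hmi : m = i := by rw [← h1]
        rw [if_neg (by omega), if_pos h1, if_pos (by omega), h1]
        group
      by_cases h2 : (⟨m, hmn⟩ : Fin n) = j
      · have hmj : m = j := by rw [← h2]
        rw [if_pos (by omega), if_neg h1, if_pos h2, if_neg (by omega), h2]
        group
      have hmi : m ≠ i := fun h => h1 (Fin.ext h)
      have hmj : m ≠ j := fun h => h2 (Fin.ext h)
      rw [if_neg h1, if_neg h2]
      by_cases h3 : (i : ℕ) < m ∧ m < j
      · have h3' : i < (⟨m, hmn⟩ : Fin n) ∧ (⟨m, hmn⟩ : Fin n) < j :=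
          ⟨Fin.lt_def.mpr h3.1, Fin.lt_def.mpr h3.2⟩
        rw [if_pos (by omega), if_pos h3', if_pos (by omega)]
        group
      · have h3' : ¬ (i < (⟨m, hmn⟩ : Fin n) ∧ (⟨m, hmn⟩ : Fin n) < j) := fun h =>
          h3 ⟨Fin.lt_def.mp h.1, Fin.lt_def.mp h.2⟩
        rw [if_neg (by omega), if_neg h3', if_neg (by omega)]

theorem artin_xinf {i j : Fin n} (hij : i < j) : artin i j (xinf n) = xinf n := by
  rw [xinf, artin_xprod hij n le_rfl, if_neg]
  have := j.2
  omega

theorem good_artin {i j : Fin n} (hij : i < j) : Good (artin i j) where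
  char t g := by
    have : (lift t).comp (artin i j).toMonoidHom = lift t := by
      apply FreeGroup.ext_hom
      intro k
      show lift t (artin i j (of k)) = _
      rw [artin_apply_of, lift_artinFun, lift_apply_of]
    exact DFunLike.congr_fun this g
  conj k := by
    rw [artin_apply_of, artinFun]
    split_ifs with h1 h2 h3
    · exact ⟨(of i * of j)⁻¹, by rw [inv_inv, h1]⟩
    · exact ⟨(of i * of j)⁻¹, by rw [inv_inv, h2]⟩
    · exact ⟨_, rfl⟩
    · exact ⟨1, by simp⟩
  inf := artin_xinf hij

theorem good_of_mem {β : MulAut (FreeGroup (Fin n))} (h : β ∈ PureBraid n) : Good β := by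
  induction h using Subgroup.closure_induction with
  | mem β hβ =>
      obtain ⟨i, j, hij, rfl⟩ := hβ
      exact good_artin hij
  | one => exact ⟨fun _ _ => rfl, fun i => ⟨1, by simp⟩, rfl⟩
  | mul a b _ _ ha hb =>
      refine ⟨fun t g => ?_, fun i => ?_, ?_⟩
      · rw [MulAut.mul_apply, ha.char, hb.char]
      · obtain ⟨y, hy⟩ := hb.conj i
        obtain ⟨z, hz⟩ := ha.conj i
        refine ⟨a y * z, ?_⟩
        rw [MulAut.mul_apply, hy, _root_.map_mul, _root_.map_mul, _root_.map_inv, hz]
        group
      · rw [MulAut.mul_apply, hb.inf, ha.inf]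
  | inv a _ ha =>
      refine ⟨fun t g => ?_, fun i => ?_, ?_⟩
      · rw [← ha.char t (a⁻¹ g), MulAut.apply_inv_self]
      · obtain ⟨y, hy⟩ := ha.conj i
        refine ⟨(a⁻¹ y)⁻¹, ?_⟩
        have h1 : a⁻¹ (a (of i)) = a⁻¹ (y * of i * y⁻¹) := by rw [hy]
        rw [MulAut.inv_apply_self, _root_.map_mul, _root_.map_mul, _root_.map_inv] at h1
        rw [inv_inv]
        calc a⁻¹ (of i) = (a⁻¹ y)⁻¹ * (a⁻¹ y * a⁻¹ (of i) * (a⁻¹ y)⁻¹) * a⁻¹ y := by group
          _ = _ := by rw [← h1]
      · calc a⁻¹ (xinf n) = a⁻¹ (a (xinf n)) := by rw [ha.inf]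
          _ = xinf n := MulAut.inv_apply_self _ a _

theorem Good.peripheral {β : MulAut (FreeGroup (Fin n))} (hβ : Good β) {g : FreeGroup (Fin n)}
    (hg : Peripheral g) : Peripheral (β g) := by
  obtain ⟨h, m, ⟨i, rfl⟩ | rfl⟩ := hg
  · obtain ⟨y, hy⟩ := hβ.conj i
    refine ⟨β h * y, m, Or.inl ⟨i, ?_⟩⟩
    rw [_root_.map_mul, _root_.map_mul, _root_.map_inv, _root_.map_pow, hy, conj_pow]
    group
  · refine ⟨β h, m, Or.inr ?_⟩
    rw [_root_.map_mul, _root_.map_mul, _root_.map_inv, _root_.map_pow, hβ.inf]

theorem Good.mem_ker {β : MulAut (FreeGroup (Fin n))} (hβ : Good β) {t : Fin n → ℂˣ}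
    {g : FreeGroup (Fin n)} (hg : g ∈ ker t) : β g ∈ ker t := by
  rw [ker, MonoidHom.mem_ker] at hg ⊢
  rw [hβ.char, hg]

/-- the action of a pure braid on the functions on `ker t`: `f ↦ f ∘ β⁻¹` -/
def funRep (t : Fin n → ℂˣ) : Representation ℂ (PureBraid n) (ker t → ℂ) where
  toFun β :=
    { toFun := fun f g => f ⟨((β⁻¹ : PureBraid n) : MulAut (FreeGroup (Fin n))) g.1,
        (good_of_mem (β⁻¹).2).mem_ker g.2⟩
      map_add' := fun _ _ => rfl
      map_smul' := fun _ _ => rfl }
  map_one' := by
    ext f g
    simp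
  map_mul' a b := by
    ext f g
    simp only [LinearMap.coe_mk, AddHom.coe_mk, Module.End.mul_apply]
    congr 1

/-- the action of the pure braid group on the cohomology of the cyclic cover -/
def cohRep (t : Fin n → ℂˣ) : Representation ℂ (PureBraid n) (H1 t) where
  toFun β := (funRep t β).restrict (p := H1 t) (q := H1 t) (by
    rintro f ⟨h1, h2⟩
    refine ⟨fun g h => ?_, fun g hg => ?_⟩
    · show f ⟨_, _⟩ = f ⟨_, _⟩ + f ⟨_, _⟩
      rw [← h1]
      congr 1
      apply Subtype.ext
      exact _root_.map_mul ((β⁻¹ : PureBraid n) : MulAut (FreeGroup (Fin n))) _ _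
    · exact h2 _ ((good_of_mem (β⁻¹).2).peripheral hg))
  map_one' := by
    ext f g
    simp
  map_mul' a b := by
    ext f g
    simp

end Pool.Agent.Conf14
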