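import Pool.Agent.Conf14.Fam2
import Pool.Agent.Conf14.Crs

/-! The embedding of a representation in normal form into the cohomology of a cyclic cover. -/

namespace Pool.Agent.Conf14

open FreeGroup (of lift lift_apply_of)

variable {n : ℕ} {V : Type*} [AddCommGroup V] [Module ℂ V]

/-- a normal form, matched with the roots of the crossed homomorphisms -/
structure Emb (t : Fin n → ℂˣ) (s : Fin n) (m : ℕ) (idx : ℕ → Fin n) (c : ℕ → ℂ) (w : ℕ → V)
    (ψ : ℕ → (V →ₗ[ℂ] ℂ)) : Prop where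
  lt : ∀ l, l < m → idx l < s
  c0 : ∀ l, l < m → c l ≠ 0
  nf : ∀ l l', l < m → l' < m → ψ l (w l') * c l' = c l * -phi t (idx l) s (root t (idx l') s)
  ts : (t s : ℂ) ≠ 1
  out : ∀ k, k ≠ s → (∀ l, l < m → idx l ≠ k) → (t k : ℂ) = 1
  ins : ∀ l, l < m → (t (idx l) : ℂ) ≠ 1
  fix : ∀ u, (∀ l, l < m → ψ l u = 0) → u = 0
  span : Submodule.span ℂ (w '' Set.Iio m) = ⊤

/-- the parametrisation of the representation space -/
noncomputable def Lam (m : ℕ) (c : ℕ → ℂ) (w : ℕ → V) : (Fin m → ℂ) →ₗ[ℂ] V :=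
  Fintype.linearCombination ℂ (fun l : Fin m => c l • w l)

/-- the parametrisation of the crossed homomorphisms -/
noncomputable def Ee (t : Fin n → ℂˣ) (s : Fin n) (m : ℕ) (idx : ℕ → Fin n) :
    (Fin m → ℂ) →ₗ[ℂ] (Fin n → ℂ) :=
  Fintype.linearCombination ℂ (fun l : Fin m => root t (idx l) s)

theorem phi_sum (t : Fin n → ℂˣ) (i j : Fin n) {ι : Type*} (S : Finset ι) (f : ι → Fin n → ℂ) :
    phi t i j (∑ l ∈ S, f l) = ∑ l ∈ S, phi t i j (f l) := by
  simp only [phi, Finset.sum_apply, Finset.mul_sum, Finset.sum_sub_distrib]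

variable {t : Fin n → ℂˣ} {s : Fin n} {m : ℕ} {idx : ℕ → Fin n} {c : ℕ → ℂ} {w : ℕ → V}
  {ψ : ℕ → (V →ₗ[ℂ] ℂ)}

theorem Emb.psi_Lam (h : Emb t s m idx c w ψ) {l : ℕ} (hl : l < m) (ξ : Fin m → ℂ) :
    ψ l (Lam m c w ξ) = -(c l * phi t (idx l) s (Ee t s m idx ξ)) := by
  rw [Lam, Ee, Fintype.linearCombination_apply, Fintype.linearCombination_apply, phi_sum, map_sum,
    Finset.mul_sum, ← Finset.sum_neg_distrib]
  apply Finset.sum_congr rfl
  intro l' _
  rw [map_smul, map_smul, phi_smul, smul_eq_mul, smul_eq_mul]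
  linear_combination ξ l' * h.nf l l' hl l'.2

/-- the crossed homomorphisms vanish on the other generators -/
theorem Emb.E_out (h : Emb t s m idx c w ψ) (ξ : Fin m → ℂ) {k : Fin n} (hk : k ≠ s)
    (hk2 : ∀ l, l < m → idx l ≠ k) : Ee t s m idx ξ k = 0 := by
  rw [Ee, Fintype.linearCombination_apply, Finset.sum_apply]
  apply Finset.sum_eq_zero
  intro l _
  rw [Pi.smul_apply, root, if_neg (hk2 l l.2).symm, if_neg hk, h.out k hk hk2]
  split_ifs <;> simp

theorem Emb.phi_out (h : Emb t s m idx c w ψ) (ξ : Fin m → ℂ) {k : Fin n} (hk : k ≠ s)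
    (hk2 : ∀ l, l < m → idx l ≠ k) (j : Fin n) :
    phi t k j (Ee t s m idx ξ) = 0 ∧ phi t j k (Ee t s m idx ξ) = 0 := by
  constructor
  · rw [phi, h.E_out ξ hk hk2, h.out k hk hk2]; ring
  · rw [phi, h.E_out ξ hk hk2, h.out k hk hk2]; ring

/-- the kernel of the parametrisation gives coboundaries -/
theorem Emb.F1 (h : Emb t s m idx c w ψ) {ξ : Fin m → ℂ} (hξ : Lam m c w ξ = 0)
    {g : FreeGroup (Fin n)} (hg : g ∈ ker t) : cr t (Ee t s m idx ξ) g = 0 := by
  have hts : (1 - t s : ℂ) ≠ 0 := sub_ne_zero.mpr h.ts.symm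
  apply cr_cob t _ (Ee t s m idx ξ s / (1 - t s)) _ hg
  intro k
  by_cases hk : k = s
  · subst hk
    rw [mul_div_cancel₀ _ hts]
  by_cases hk2 : ∀ l, l < m → idx l ≠ k
  · rw [h.E_out ξ hk hk2, h.out k hk hk2]
    ring
  · push Not at hk2
    obtain ⟨l, hl, rfl⟩ := hk2
    have h1 := h.psi_Lam hl ξ
    rw [hξ, map_zero] at h1
    have h2 : phi t (idx l) s (Ee t s m idx ξ) = 0 := by
      have h3 : c l * phi t (idx l) s (Ee t s m idx ξ) = 0 := by linear_combination h1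
      exact (mul_eq_zero.mp h3).resolve_left (h.c0 l hl)
    rw [phi] at h2
    field_simp
    linear_combination -h2

/-- the kernel of the parametrisation contains the coboundaries -/
theorem Emb.F2 (h : Emb t s m idx c w ψ) {ξ : Fin m → ℂ}
    (hg : ∀ g ∈ ker t, cr t (Ee t s m idx ξ) g = 0) : Lam m c w ξ = 0 := by
  apply h.fix
  intro l hl
  rw [h.psi_Lam hl, phi_of_ker t _ hg, mul_zero, neg_zero]

theorem Emb.Lam_surj (h : Emb t s m idx c w ψ) : Function.Surjective (Lam m c w) := by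
  rw [← LinearMap.range_eq_top, Lam, Fintype.range_linearCombination, eq_top_iff, ← h.span,
    Submodule.span_le]
  rintro _ ⟨l, hl, rfl⟩
  have hl' : l < m := hl
  have h1 : c l • w l ∈ Submodule.span ℂ (Set.range fun l : Fin m => c l • w l) :=
    Submodule.subset_span ⟨⟨l, hl'⟩, rfl⟩
  exact (Submodule.smul_mem_iff _ (h.c0 l hl')).mp h1

theorem Emb.exists_sigma (h : Emb t s m idx c w ψ) :
    ∃ σ : V →ₗ[ℂ] (Fin m → ℂ), ∀ v, Lam m c w (σ v) = v := by
  obtain ⟨σ, hσ⟩ := (Lam m c w).exists_rightInverse_of_surjective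
    (LinearMap.range_eq_top.mpr h.Lam_surj)
  exact ⟨σ, fun v => LinearMap.congr_fun hσ v⟩

theorem cr_mem_H1 (t : Fin n → ℂˣ) (d : Fin n → ℂ) (hd : ∀ i, (t i : ℂ) = 1 → d i = 0)
    (hinf : cr t d (xinf n) = 0) : (fun g : ker t => cr t d g) ∈ H1 t := by
  refine ⟨fun g h => ?_, fun g hg => cr_peripheral t d hd hinf g.2 hg⟩
  have hg : lift t (g : FreeGroup (Fin n)) = 1 := g.2
  show cr t d ((g : FreeGroup (Fin n)) * h) = _
  rw [cr_mul, hg, Units.val_one, one_mul]

theorem Emb.cr_E_inf (h : Emb t s m idx c w ψ) (ξ : Fin m → ℂ) :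
    cr t (Ee t s m idx ξ) (xinf n) = 0 := by
  rw [Ee, Fintype.linearCombination_apply]
  have key : ∀ S : Finset (Fin m), cr t (∑ l ∈ S, ξ l • root t (idx l) s) (xinf n) = 0 := by
    classical
    intro S
    induction S using Finset.induction_on with
    | empty =>
        rw [Finset.sum_empty]
        have := cr_smul t 0 (0 : Fin n → ℂ) (xinf n)
        rwa [zero_smul, zero_mul] at this
    | insert l S hl ih =>
        rw [Finset.sum_insert hl, cr_add, cr_smul, cr_root_inf t (h.lt l l.2) h.ts, mul_zero, ih,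
          add_zero]
  exact key _

theorem Emb.E_mem (h : Emb t s m idx c w ψ) (ξ : Fin m → ℂ) :
    (fun g : ker t => cr t (Ee t s m idx ξ) g) ∈ H1 t := by
  apply cr_mem_H1
  · intro k hk
    apply h.E_out
    · rintro rfl
      exact h.ts hk
    · rintro l hl rfl
      exact h.ins l hl hk
  · exact h.cr_E_inf ξ

/-- the embedding -/
theorem Emb.exists_iota (h : Emb t s m idx c w ψ) :
    ∃ ι : V →ₗ[ℂ] H1 t, Function.Injective ι ∧
      ∀ (ξ : Fin m → ℂ) (g : ker t), (ι (Lam m c w ξ) : ker t → ℂ) g = cr t (Ee t s m idx ξ) g := by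
  obtain ⟨σ, hσ⟩ := h.exists_sigma
  let ι : V →ₗ[ℂ] H1 t :=
    { toFun := fun v => ⟨fun g : ker t => cr t (Ee t s m idx (σ v)) g, h.E_mem _⟩
      map_add' := by
        intro x y
        apply Subtype.ext
        funext g
        show cr t (Ee t s m idx (σ (x + y))) g = cr t (Ee t s m idx (σ x)) g +
          cr t (Ee t s m idx (σ y)) g
        rw [map_add, map_add, cr_add]
      map_smul' := by
        intro a x
        apply Subtype.ext
        funext g
        show cr t (Ee t s m idx (σ (a • x))) g = a * cr t (Ee t s m idx (σ x)) g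
        rw [map_smul, map_smul, cr_smul] }
  have hι : ∀ v (g : ker t), (ι v : ker t → ℂ) g = cr t (Ee t s m idx (σ v)) g := fun _ _ => rfl
  refine ⟨ι, ?_, ?_⟩
  · rw [injective_iff_map_eq_zero]
    intro v hv
    rw [← hσ v]
    apply h.F2
    intro g hg
    rw [← hι v ⟨g, hg⟩, hv]
    rfl
  · intro ξ g
    rw [hι]
    have h1 : Lam m c w (σ (Lam m c w ξ) - ξ) = 0 := by rw [map_sub, hσ, sub_self]
    have h2 := h.F1 h1 g.2
    have h3 : Ee t s m idx (σ (Lam m c w ξ)) = Ee t s m idx ξ +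
        Ee t s m idx (σ (Lam m c w ξ) - ξ) := by rw [← map_add, add_sub_cancel]
    rw [h3, cr_add, h2, add_zero]

/-- the action of the generators on the functions -/
theorem coh_artin {i j : Fin n} (hij : i < j) (f : H1 t) (d : Fin n → ℂ)
    (hf : ∀ g : ker t, (f : ker t → ℂ) g = cr t d g) (g : ker t) :
    (cohRep t (A i j hij) f : ker t → ℂ) g = cr t (d - phi t i j d • root t i j) g := by
  rw [← cr_artin t d hij]
  show (f : ker t → ℂ) _ = _
  rw [hf]
  rfl

theorem Lam_single (l : Fin m) (a : ℂ) :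
    Lam m c w (Pi.single l a) = (a * c l) • w l := by
  rw [Lam, Fintype.linearCombination_apply_single, smul_smul]

theorem Ee_single (l : Fin m) (a : ℂ) :
    Ee t s m idx (Pi.single l a) = a • root t (idx l) s := by
  rw [Ee, Fintype.linearCombination_apply_single]

/-- generators on the last strand -/
theorem Emb.act_s (h : Emb t s m idx c w ψ) {ι : V →ₗ[ℂ] H1 t}
    (hι : ∀ (ξ : Fin m → ℂ) (g : ker t), (ι (Lam m c w ξ) : ker t → ℂ) g =
      cr t (Ee t s m idx ξ) g) {l : ℕ} (hl : l < m) (x : V ≃ₗ[ℂ] V) (hx : IsRefl x (w l) (ψ l))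
    (v : V) : cohRep t (A (idx l) s (h.lt l hl)) (ι v) = ι (x v) := by
  obtain ⟨ξ, rfl⟩ := h.Lam_surj v
  have e : x (Lam m c w ξ) = Lam m c w (ξ - Pi.single ⟨l, hl⟩
      (phi t (idx l) s (Ee t s m idx ξ))) := by
    rw [hx, h.psi_Lam hl, map_sub, Lam_single, sub_eq_add_neg, ← neg_smul, mul_comm]
  apply Subtype.ext
  funext g
  rw [e, hι, coh_artin (h.lt l hl) _ _ (hι ξ), map_sub, Ee_single]

/-- the other generators -/
theorem Emb.act_out (h : Emb t s m idx c w ψ) {ι : V →ₗ[ℂ] H1 t}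
    (hι : ∀ (ξ : Fin m → ℂ) (g : ker t), (ι (Lam m c w ξ) : ker t → ℂ) g =
      cr t (Ee t s m idx ξ) g) {k : Fin n} (hk : k ≠ s) (hk2 : ∀ l, l < m → idx l ≠ k)
    {i j : Fin n} (hij : i < j) (hk3 : k = i ∨ k = j) (v : V) :
    cohRep t (A i j hij) (ι v) = ι v := by
  obtain ⟨ξ, rfl⟩ := h.Lam_surj v
  apply Subtype.ext
  funext g
  have h1 : phi t i j (Ee t s m idx ξ) = 0 := by
    rcases hk3 with rfl | rfl
    · exact (h.phi_out ξ hk hk2 j).1
    · exact (h.phi_out ξ hk hk2 i).2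
  rw [hι, coh_artin hij _ _ (hι ξ), h1, zero_smul, sub_zero]

/-- the image is invariant -/
theorem Emb.act_in (h : Emb t s m idx c w ψ) {ι : V →ₗ[ℂ] H1 t}
    (hι : ∀ (ξ : Fin m → ℂ) (g : ker t), (ι (Lam m c w ξ) : ker t → ℂ) g =
      cr t (Ee t s m idx ξ) g) {i j : Fin n} (hij : i < j) (hi : i ≠ s) (hj : j ≠ s)
    (v : V) : ∃ v', cohRep t (A i j hij) (ι v) = ι v' := by
  by_cases hi2 : ∀ l, l < m → idx l ≠ i
  · exact ⟨v, h.act_out hι hi hi2 hij (Or.inl rfl) v⟩
  by_cases hj2 : ∀ l, l < m → idx l ≠ j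
  · exact ⟨v, h.act_out hι hj hj2 hij (Or.inr rfl) v⟩
  push Not at hi2 hj2
  obtain ⟨l, hl, rfl⟩ := hi2
  obtain ⟨l', hl', rfl⟩ := hj2
  obtain ⟨ξ, rfl⟩ := h.Lam_surj v
  refine ⟨Lam m c w (ξ - (Pi.single ⟨l, hl⟩ (phi t (idx l) (idx l') (Ee t s m idx ξ)) -
    Pi.single ⟨l', hl'⟩ (phi t (idx l) (idx l') (Ee t s m idx ξ)))), ?_⟩
  apply Subtype.ext
  funext g
  rw [hι, coh_artin hij _ _ (hι ξ), map_sub, map_sub, Ee_single, Ee_single, ← smul_sub,
    root_sub t hij (h.lt l' hl')]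

end Pool.Agent.Conf14
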