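import Pool.Agent.Conf14.Main

/-! Reading the family off a representation, and the finite order of the characters. -/

namespace Pool.Agent.Conf14

variable {n : ℕ} {V : Type*} [AddCommGroup V] [Module ℂ V]

/-- a linear map of rank at most one -/
theorem exists_rank_one (f : V →ₗ[ℂ] V) [FiniteDimensional ℂ V]
    (h : Module.finrank ℂ (LinearMap.range f) ≤ 1) :
    ∃ (v : V) (φ : V →ₗ[ℂ] ℂ), ∀ x, f x = φ x • v := by
  obtain ⟨v, hv⟩ := finrank_le_one_iff.mp h
  have hv' : ∀ x, ∃ c : ℂ, f x = c • (v : V) := by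
    intro x
    obtain ⟨c, hc⟩ := hv ⟨f x, x, rfl⟩
    exact ⟨c, (congrArg Subtype.val hc).symm⟩
  by_cases hv0 : (v : V) = 0
  · refine ⟨0, 0, fun x => ?_⟩
    obtain ⟨c, hc⟩ := hv' x
    rw [hc, hv0, smul_zero, smul_zero]
  · obtain ⟨g, hg⟩ : ∃ g : V →ₗ[ℂ] ℂ, g v ≠ 0 := by
      by_contra hcon
      push Not at hcon
      exact hv0 ((Module.forall_dual_apply_eq_zero_iff ℂ (v : V)).mp hcon)
    refine ⟨v, (g v)⁻¹ • (g ∘ₗ f), fun x => ?_⟩
    obtain ⟨c, hc⟩ := hv' x
    rw [LinearMap.smul_apply, LinearMap.comp_apply, hc, map_smul, smul_eq_mul, smul_eq_mul]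
    congr 1
    field_simp

theorem exists_ker [FiniteDimensional ℂ V] (h2 : 2 ≤ Module.finrank ℂ V) (f : V →ₗ[ℂ] ℂ) :
    ∃ u, f u = 0 ∧ u ≠ 0 := by
  by_contra hcon
  push Not at hcon
  have hker : LinearMap.ker f = ⊥ := by
    rw [LinearMap.ker_eq_bot']
    exact hcon
  have h3 := LinearMap.finrank_range_add_finrank_ker f
  rw [hker, finrank_bot] at h3
  have h5 : Module.finrank ℂ (LinearMap.range f) ≤ 1 := by
    calc _ ≤ Module.finrank ℂ ℂ := Submodule.finrank_le _
      _ = 1 := Module.finrank_self ℂ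
  omega

/-- a representation as a homomorphism to the linear automorphisms -/
noncomputable def toEq (ρ : Representation ℂ (PureBraid n) V) : PureBraid n →* (V ≃ₗ[ℂ] V) :=
  (LinearMap.GeneralLinearGroup.generalLinearEquiv ℂ V).toMonoidHom.comp
    (MonoidHom.toHomUnits ρ)

theorem toEq_apply (ρ : Representation ℂ (PureBraid n) V) (g : PureBraid n) (x : V) :
    toEq ρ g x = ρ g x := rfl

/-- scalar automorphisms -/
noncomputable def sc (z : ℂˣ) : V ≃ₗ[ℂ] V := LinearEquiv.smulOfUnit z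

theorem sc_apply (z : ℂˣ) (x : V) : (sc z : V ≃ₗ[ℂ] V) x = (z : ℂ) • x := rfl

theorem sc_commute (z : ℂˣ) (g : V ≃ₗ[ℂ] V) : Commute (sc z) g := by
  rw [commute_iff']
  intro x
  rw [sc_apply, sc_apply, map_smul]

theorem irr_sub (ρ : Representation ℂ (PureBraid n) V) [ρ.IsIrreducible] (W : Submodule ℂ V)
    (h : ∀ g, ∀ x ∈ W, ρ g x ∈ W) : W = ⊥ ∨ W = ⊤ := by
  have h1 := eq_bot_or_eq_top (⟨W, fun g x hx => h g x hx⟩ : Subrepresentation ρ)
  rcases h1 with h1 | h1
  · exact Or.inl (congrArg Subrepresentation.toSubmodule h1)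
  · exact Or.inr (congrArg Subrepresentation.toSubmodule h1)

/-- the family of pseudo-reflections of a representation -/
theorem exists_fam [FiniteDimensional ℂ V] (ρ : Representation ℂ (PureBraid n) V)
    [ρ.IsIrreducible] (h2 : 2 ≤ Module.finrank ℂ V)
    (hr : ∀ (i j : Fin n) (h : i < j), ∃ c : ℂ,
      Module.finrank ℂ (LinearMap.range (ρ (A i j h) - c • LinearMap.id)) ≤ 1) :
    ∃ (a : Fin n → Fin n → (V ≃ₗ[ℂ] V)) (v : Fin n → Fin n → V)
      (φ : Fin n → Fin n → (V →ₗ[ℂ] ℂ)), Fam a v φ ∧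
      ∀ i j, i ≠ j → ∃ z : ℂˣ, ∀ v, toEq ρ (B i j) v = (z : ℂ) • a i j v := by
  choose c hc using hr
  have hc0 : ∀ i j h, c i j h ≠ 0 := by
    intro i j h h0
    have h1 := hc i j h
    rw [h0, zero_smul, sub_zero] at h1
    have h3 : LinearMap.range (ρ (A i j h)) = ⊤ := by
      rw [LinearMap.range_eq_top]
      intro x
      exact ⟨ρ (A i j h)⁻¹ x, by
        show (ρ (A i j h) * ρ (A i j h)⁻¹) x = x
        rw [← map_mul, mul_inv_cancel, map_one]; rfl⟩
    rw [h3, finrank_top] at h1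
    omega
  let z : Fin n → Fin n → ℂˣ := fun i j => if h : i < j then Units.mk0 (c i j h) (hc0 i j h) else
    if h : j < i then Units.mk0 (c j i h) (hc0 j i h) else 1
  have hz : ∀ i j (h : i < j), z i j = Units.mk0 (c i j h) (hc0 i j h) := by
    intro i j h
    show (if h : i < j then Units.mk0 (c i j h) (hc0 i j h) else _) = _
    rw [dif_pos h]
  have hzs : ∀ i j, z i j = z j i := by
    intro i j
    rcases lt_trichotomy i j with h | h | h
    · rw [hz i j h]
      show _ = (if h : j < i then Units.mk0 (c j i h) (hc0 j i h) else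
        if h : i < j then Units.mk0 (c i j h) (hc0 i j h) else 1)
      rw [dif_neg (lt_asymm h), dif_pos h]
    · rw [h]
    · rw [hz j i h]
      show (if h : i < j then Units.mk0 (c i j h) (hc0 i j h) else
        if h : j < i then Units.mk0 (c j i h) (hc0 j i h) else 1) = _
      rw [dif_neg (lt_asymm h), dif_pos h]
  have hrefl : ∀ i j, i ≠ j → ∃ (v : V) (φ : V →ₗ[ℂ] ℂ),
      IsRefl (sc (z i j)⁻¹ * toEq ρ (B i j)) v φ := by
    have key : ∀ i j (h : i < j), ∃ (v : V) (φ : V →ₗ[ℂ] ℂ),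
        IsRefl (sc (z i j)⁻¹ * toEq ρ (B i j)) v φ := by
      intro i j h
      obtain ⟨v, φ, hv⟩ := exists_rank_one _ (hc i j h)
      refine ⟨((z i j)⁻¹ : ℂˣ) • v, φ, fun x => ?_⟩
      have h1 : ρ (A i j h) x = c i j h • x + φ x • v := by
        have := hv x
        rw [LinearMap.sub_apply, LinearMap.smul_apply, LinearMap.id_apply] at this
        rw [← this]
        abel
      show ((z i j)⁻¹ : ℂˣ) • (toEq ρ (B i j) x) = _
      rw [toEq_apply, B_lt h, h1, smul_add, smul_comm _ (φ x) v]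
      congr 1
      rw [hz i j h, ← Units.smul_mk0 (hc0 i j h), smul_smul, inv_mul_cancel, one_smul]
    intro i j hij
    rcases lt_or_gt_of_ne hij with h | h
    · exact key i j h
    · rw [hzs, B_symm]
      exact key j i h
  have hvφ : ∀ i j, ∃ (v : V) (φ : V →ₗ[ℂ] ℂ), i ≠ j →
      IsRefl (sc (z i j)⁻¹ * toEq ρ (B i j)) v φ := by
    intro i j
    by_cases hij : i = j
    · exact ⟨0, 0, fun h => absurd hij h⟩
    · obtain ⟨v, φ, h⟩ := hrefl i j hij
      exact ⟨v, φ, fun _ => h⟩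
  choose v φ hvφ using hvφ
  have hRa : ∀ i j x, toEq ρ (B i j) x =
      (z i j : ℂ) • (sc (z i j)⁻¹ * toEq ρ (B i j) : V ≃ₗ[ℂ] V) x := by
    intro i j x
    show _ = (z i j : ℂ) • (((z i j)⁻¹ : ℂˣ) : ℂ) • toEq ρ (B i j) x
    rw [smul_smul, ← Units.val_mul, mul_inv_cancel, Units.val_one, one_smul]
  refine ⟨fun i j => sc (z i j)⁻¹ * toEq ρ (B i j), v, φ, ⟨?_, hvφ, ?_⟩, fun i j _ =>
    ⟨z i j, hRa i j⟩⟩
  · exact (pbB.map (toEq ρ)).central (fun i j => sc (z i j)⁻¹)
      (fun i j => by rw [hzs]) (fun i j g => sc_commute _ g)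
  · intro W hW
    apply irr_sub ρ W
    let S : Subgroup (PureBraid n) :=
      { carrier := {g | ∀ x ∈ W, toEq ρ g x ∈ W}
        one_mem' := fun x hx => by rw [map_one]; exact hx
        mul_mem' := by
          intro g k hg hk x hx
          rw [map_mul]
          exact hg _ (hk x hx)
        inv_mem' := by
          intro g hg
          have := inv_mem_of_mem (toEq ρ g) W hg
          rwa [← map_inv] at this }
    have hS : S = ⊤ := by
      apply pb_top
      intro i j hij x hx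
      rw [← B_lt hij, hRa]
      exact W.smul_mem _ (hW i j hij.ne x hx)
    intro g x hx
    have : g ∈ S := hS ▸ Subgroup.mem_top g
    exact this x hx

/-- in dimension two every element is a scalar plus a map of rank at most one -/
theorem rank_two [FiniteDimensional ℂ V] (h2 : Module.finrank ℂ V = 2) (f : V →ₗ[ℂ] V) :
    ∃ c : ℂ, Module.finrank ℂ (LinearMap.range (f - c • LinearMap.id)) ≤ 1 := by
  have : Nontrivial V := Module.nontrivial_of_finrank_pos (R := ℂ) (by omega)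
  obtain ⟨μ, hμ⟩ := Module.End.exists_eigenvalue f
  refine ⟨μ, ?_⟩
  obtain ⟨x, hx⟩ := hμ.exists_hasEigenvector
  have h3 := LinearMap.finrank_range_add_finrank_ker (f - μ • LinearMap.id)
  have h4 : x ∈ LinearMap.ker (f - μ • LinearMap.id) := by
    rw [LinearMap.mem_ker, LinearMap.sub_apply, hx.apply_eq_smul]
    simp
  have h5 : 0 < Module.finrank ℂ (LinearMap.ker (f - μ • LinearMap.id)) := by
    rw [Module.finrank_pos_iff]
    exact ⟨⟨x, h4⟩, 0, fun h => hx.2 (congrArg Subtype.val h)⟩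
  omega

/-! ### Finite order -/

theorem fin_of_three {x y z : ℂˣ} (h1 : IsOfFinOrder (x * y)) (h2 : IsOfFinOrder (x * z))
    (h3 : IsOfFinOrder (y * z)) : IsOfFinOrder x := by
  have h4 : x ^ 2 = (x * y) * (x * z) * (y * z)⁻¹ := by
    rw [mul_mul_mul_comm, mul_inv_cancel_right, sq]
  apply IsOfFinOrder.of_pow (n := 2) _ (by norm_num)
  rw [h4]
  exact (h1.mul h2).mul h3.inv

variable {t : Fin n → ℂˣ} {s : Fin n} {m : ℕ} {idx : ℕ → Fin n} {c : ℕ → ℂ} {w : ℕ → V}
  {ψ : ℕ → (V →ₗ[ℂ] ℂ)}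

/-- fixed vectors of the generators -/
theorem Emb.exists_fixed [FiniteDimensional ℂ V] (h : Emb t s m idx c w ψ)
    (h2 : 2 ≤ Module.finrank ℂ V) {ι : V →ₗ[ℂ] H1 t}
    (hι : ∀ (ξ : Fin m → ℂ) (g : ker t), (ι (Lam m c w ξ) : ker t → ℂ) g =
      cr t (Ee t s m idx ξ) g) {i j : Fin n} (hij : i < j) :
    ∃ x : V, x ≠ 0 ∧ cohRep t (A i j hij) (ι x) = ι x := by
  obtain ⟨σ, hσ⟩ := h.exists_sigma
  let f : V →ₗ[ℂ] ℂ :=
    { toFun := fun x => phi t i j (Ee t s m idx (σ x))
      map_add' := fun x y => by rw [map_add, map_add, phi_add]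
      map_smul' := fun a x => by rw [map_smul, map_smul, phi_smul]; rfl }
  obtain ⟨x, hx, hx0⟩ := exists_ker h2 f
  have hx' : phi t i j (Ee t s m idx (σ x)) = 0 := hx
  refine ⟨x, hx0, ?_⟩
  apply Subtype.ext
  funext g
  have h3 := coh_artin hij (ι (Lam m c w (σ x))) _ (hι (σ x)) g
  rw [hx', zero_smul, sub_zero, ← hι, hσ] at h3
  exact h3

/-- eigenvectors of the generators -/
theorem Emb.root_eig (h : Emb t s m idx c w ψ) {ι : V →ₗ[ℂ] H1 t}
    (hι : ∀ (ξ : Fin m → ℂ) (g : ker t), (ι (Lam m c w ξ) : ker t → ℂ) g =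
      cr t (Ee t s m idx ξ) g) {i j : Fin n} (hij : i < j) {ξ : Fin m → ℂ}
    (hξ : Ee t s m idx ξ = root t i j) : (t i * t j : ℂ) = 1 ∨
      (Lam m c w ξ ≠ 0 ∧ cohRep t (A i j hij) (ι (Lam m c w ξ)) =
        (t i * t j : ℂ) • ι (Lam m c w ξ)) := by
  by_cases h0 : Lam m c w ξ = 0
  · left
    have h1 : ∀ g ∈ ker t, cr t (root t i j) g = 0 := by
      intro g hg
      rw [← hξ]
      exact h.F1 h0 hg
    have h3 := phi_of_ker t _ h1 i j
    rw [phi_root_self t hij] at h3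
    linear_combination -h3
  · right
    refine ⟨h0, ?_⟩
    apply Subtype.ext
    funext g
    have h1 : Ee t s m idx ξ - phi t i j (Ee t s m idx ξ) • root t i j =
        (t i * t j : ℂ) • Ee t s m idx ξ := by
      rw [hξ, phi_root_self t hij]
      ext k
      simp only [Pi.sub_apply, Pi.smul_apply, smul_eq_mul]
      ring
    rw [coh_artin hij _ _ (hι ξ), h1, cr_smul, ← hι]
    rfl

end Pool.Agent.Conf14
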