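import Pool.Agent.Conf14.Fin

/-! The characters have finite order if the eigenvalues are roots of unity. -/

namespace Pool.Agent.Conf14

variable {n : ℕ} {V : Type*} [AddCommGroup V] [Module ℂ V]

/-- the eigenvalues of the generators `A i j` are roots of unity -/
def LocalRoots (ρ : Representation ℂ (PureBraid n) V) : Prop :=
  ∀ (i j : Fin n) (h : i < j) (μ : ℂ), Module.End.HasEigenvalue (ρ (A i j h)) μ →
    ∃ k : ℕ, 0 < k ∧ μ ^ k = 1

variable {t : Fin n → ℂˣ} {s : Fin n} {m : ℕ} {idx : ℕ → Fin n} {c : ℕ → ℂ} {w : ℕ → V}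
  {ψ : ℕ → (V →ₗ[ℂ] ℂ)}

theorem fin_of_eig {ρ : Representation ℂ (PureBraid n) V} (hroot : LocalRoots ρ)
    {ι : V →ₗ[ℂ] H1 t} (hinj : Function.Injective ι) {χ : PureBraid n →* ℂˣ}
    (hχ : ∀ g x, ι (ρ g x) = (χ g : ℂ) • cohRep t g (ι x)) {i j : Fin n} (hij : i < j)
    {x : V} (hx : x ≠ 0) (z : ℂˣ) (hz : cohRep t (A i j hij) (ι x) = (z : ℂ) • ι x) :
    IsOfFinOrder (χ (A i j hij) * z) := by
  have h1 : ρ (A i j hij) x = ((χ (A i j hij) * z : ℂˣ) : ℂ) • x := by
    apply hinj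
    rw [hχ, hz, smul_smul, map_smul, Units.val_mul]
  have h2 : Module.End.HasEigenvalue (ρ (A i j hij)) ((χ (A i j hij) * z : ℂˣ) : ℂ) :=
    Module.End.hasEigenvalue_of_hasEigenvector ⟨Module.End.mem_eigenspace_iff.mpr h1, hx⟩
  obtain ⟨k, hk, h3⟩ := hroot i j hij _ h2
  rw [isOfFinOrder_iff_pow_eq_one]
  refine ⟨k, hk, Units.ext ?_⟩
  rw [Units.val_pow_eq_pow_val, h3, Units.val_one]

theorem Emb.chi_fin [FiniteDimensional ℂ V] (h : Emb t s m idx c w ψ)
    (h2 : 2 ≤ Module.finrank ℂ V) {ι : V →ₗ[ℂ] H1 t} (hinj : Function.Injective ι)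
    (hι : ∀ (ξ : Fin m → ℂ) (g : ker t), (ι (Lam m c w ξ) : ker t → ℂ) g =
      cr t (Ee t s m idx ξ) g) {ρ : Representation ℂ (PureBraid n) V} (hroot : LocalRoots ρ)
    {χ : PureBraid n →* ℂˣ} (hχ : ∀ g x, ι (ρ g x) = (χ g : ℂ) • cohRep t g (ι x))
    {i j : Fin n} (hij : i < j) : IsOfFinOrder (χ (A i j hij)) := by
  obtain ⟨x, hx, h1⟩ := h.exists_fixed h2 hι hij
  have h3 := fin_of_eig hroot hinj hχ hij hx 1 (by rw [h1, Units.val_one, one_smul])
  rwa [mul_one] at h3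

theorem Emb.pair_fin [FiniteDimensional ℂ V] (h : Emb t s m idx c w ψ)
    (h2 : 2 ≤ Module.finrank ℂ V) {ι : V →ₗ[ℂ] H1 t} (hinj : Function.Injective ι)
    (hι : ∀ (ξ : Fin m → ℂ) (g : ker t), (ι (Lam m c w ξ) : ker t → ℂ) g =
      cr t (Ee t s m idx ξ) g) {ρ : Representation ℂ (PureBraid n) V} (hroot : LocalRoots ρ)
    {χ : PureBraid n →* ℂˣ} (hχ : ∀ g x, ι (ρ g x) = (χ g : ℂ) • cohRep t g (ι x))
    {i j : Fin n} (hij : i < j) {ξ : Fin m → ℂ} (hξ : Ee t s m idx ξ = root t i j) :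
    IsOfFinOrder (t i * t j) := by
  rcases h.root_eig hι hij hξ with h3 | ⟨h3, h4⟩
  · have : t i * t j = 1 := Units.ext (by rw [Units.val_mul, h3, Units.val_one])
    rw [this]
    exact IsOfFinOrder.one
  · have h5 := fin_of_eig hroot hinj hχ hij h3 (t i * t j) (by rw [h4, Units.val_mul])
    have h6 := h.chi_fin h2 hinj hι hroot hχ hij
    have h7 : t i * t j = (χ (A i j hij))⁻¹ * (χ (A i j hij) * (t i * t j)) := by
      rw [inv_mul_cancel_left]
    rw [h7]
    exact h6.inv.mul h5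

theorem Emb.t_fin [FiniteDimensional ℂ V] (h : Emb t s m idx c w ψ) (hm : 2 ≤ m)
    (hmono : ∀ l l', l < l' → l' < m → idx l < idx l')
    (hout : ∀ j, j ≠ s → (∀ l, l < m → idx l ≠ j) → t j = 1)
    (h2 : 2 ≤ Module.finrank ℂ V) {ι : V →ₗ[ℂ] H1 t} (hinj : Function.Injective ι)
    (hι : ∀ (ξ : Fin m → ℂ) (g : ker t), (ι (Lam m c w ξ) : ker t → ℂ) g =
      cr t (Ee t s m idx ξ) g) {ρ : Representation ℂ (PureBraid n) V} (hroot : LocalRoots ρ)
    {χ : PureBraid n →* ℂˣ} (hχ : ∀ g x, ι (ρ g x) = (χ g : ℂ) • cohRep t g (ι x))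
    (i : Fin n) : IsOfFinOrder (t i) := by
  have hs : ∀ l, l < m → IsOfFinOrder (t (idx l) * t s) := by
    intro l hl
    apply h.pair_fin h2 hinj hι hroot hχ (h.lt l hl) (ξ := Pi.single ⟨l, hl⟩ 1)
    rw [Ee_single, one_smul]
  have hp' : ∀ l l', l < l' → l' < m → IsOfFinOrder (t (idx l) * t (idx l')) := by
    intro l l' hll hl'
    apply h.pair_fin h2 hinj hι hroot hχ (hmono l l' hll hl')
      (ξ := Pi.single ⟨l, hll.trans hl'⟩ 1 - Pi.single ⟨l', hl'⟩ 1)
    rw [map_sub, Ee_single, Ee_single, one_smul, one_smul,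
      root_sub t (hmono l l' hll hl') (h.lt l' hl')]
  have hp : ∀ l l', l < m → l' < m → l ≠ l' → IsOfFinOrder (t (idx l) * t (idx l')) := by
    intro l l' hl hl' hne
    rcases lt_or_gt_of_ne hne with h1 | h1
    · exact hp' l l' h1 hl'
    · rw [mul_comm]
      exact hp' l' l h1 hl
  by_cases his : i = s
  · subst his
    apply fin_of_three (y := t (idx 0)) (z := t (idx 1))
    · rw [mul_comm]; exact hs 0 (by omega)
    · rw [mul_comm]; exact hs 1 (by omega)
    · exact hp 0 1 (by omega) (by omega) (by norm_num)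
  by_cases hi : ∀ l, l < m → idx l ≠ i
  · rw [hout i his hi]
    exact IsOfFinOrder.one
  · push Not at hi
    obtain ⟨l, hl, rfl⟩ := hi
    obtain ⟨l', hl', hne⟩ : ∃ l', l' < m ∧ l ≠ l' := by
      by_cases h0 : l = 0
      · exact ⟨1, by omega, by omega⟩
      · exact ⟨0, by omega, h0⟩
    exact fin_of_three (hp l l' hl hl' hne) (hs l hl) (hs l' hl')

/-- a common exponent -/
theorem common_exp {t : Fin n → ℂˣ} {χ : PureBraid n →* ℂˣ} (ht : ∀ i, IsOfFinOrder (t i))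
    (hχ : ∀ i j h, IsOfFinOrder (χ (A i j h))) :
    ∃ N : ℕ, 0 < N ∧ (∀ i, t i ^ N = 1) ∧ ∀ g, χ g ^ N = 1 := by
  classical
  have hB : ∀ i j, IsOfFinOrder (χ (B i j)) := by
    intro i j
    rcases lt_trichotomy i j with h | h | h
    · rw [B_lt h]; exact hχ i j h
    · rw [B, dif_neg (by rw [h]; exact lt_irrefl _), dif_neg (by rw [h]; exact lt_irrefl _),
        map_one]
      exact IsOfFinOrder.one
    · rw [B_gt h]; exact hχ j i h
  let N1 : ℕ := ∏ i, orderOf (t i)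
  let N2 : ℕ := ∏ i, ∏ j, orderOf (χ (B i j))
  have h1 : 0 < N1 := Finset.prod_pos fun i _ => (ht i).orderOf_pos
  have h2 : 0 < N2 := Finset.prod_pos fun i _ => Finset.prod_pos fun j _ => (hB i j).orderOf_pos
  refine ⟨N1 * N2, Nat.mul_pos h1 h2, fun i => ?_, fun g => ?_⟩
  · apply orderOf_dvd_iff_pow_eq_one.mp
    exact Dvd.dvd.mul_right (Finset.dvd_prod_of_mem _ (Finset.mem_univ i)) _
  · let S : Subgroup (PureBraid n) :=
      { carrier := {g | χ g ^ (N1 * N2) = 1}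
        one_mem' := by
          show χ 1 ^ (N1 * N2) = 1
          rw [map_one, one_pow]
        mul_mem' := by
          intro g k hg hk
          have hg' : χ g ^ (N1 * N2) = 1 := hg
          have hk' : χ k ^ (N1 * N2) = 1 := hk
          show χ (g * k) ^ (N1 * N2) = 1
          rw [map_mul, mul_pow, hg', hk', one_mul]
        inv_mem' := by
          intro g hg
          have hg' : χ g ^ (N1 * N2) = 1 := hg
          show χ g⁻¹ ^ (N1 * N2) = 1
          rw [map_inv, inv_pow, hg', inv_one] }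
    have hS : S = ⊤ := by
      apply pb_top
      intro i j hij
      show χ (A i j hij) ^ (N1 * N2) = 1
      rw [← B_lt hij]
      apply orderOf_dvd_iff_pow_eq_one.mp
      apply Dvd.dvd.mul_left
      exact (Finset.dvd_prod_of_mem (fun j => orderOf (χ (B i j))) (Finset.mem_univ j)).trans
        (Finset.dvd_prod_of_mem (fun i => ∏ j, orderOf (χ (B i j))) (Finset.mem_univ i))
    have hg : g ∈ S := hS ▸ Subgroup.mem_top g
    exact hg

/-- the theorem in dimension at least two -/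
theorem main_two [FiniteDimensional ℂ V] (ρ : Representation ℂ (PureBraid n) V)
    [ρ.IsIrreducible] (h2 : 2 ≤ Module.finrank ℂ V)
    (hr : ∀ (i j : Fin n) (h : i < j), ∃ c : ℂ,
      Module.finrank ℂ (LinearMap.range (ρ (A i j h) - c • LinearMap.id)) ≤ 1) :
    ∃ (t : Fin n → ℂˣ) (χ : PureBraid n →* ℂˣ) (ι : V →ₗ[ℂ] H1 t), Function.Injective ι ∧
      (∀ g x, ι (ρ g x) = (χ g : ℂ) • cohRep t g (ι x)) ∧
      (LocalRoots ρ → ∃ N : ℕ, 0 < N ∧ (∀ i, t i ^ N = 1) ∧ ∀ g, χ g ^ N = 1) := by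
  have hnt : Nontrivial V := Module.nontrivial_of_finrank_pos (R := ℂ) (by omega)
  obtain ⟨a, v, φ, hF, hR⟩ := exists_fam ρ h2 hr
  obtain ⟨t, s, m, idx, c, ι, hm, hmono, hout, hE, hinj, hι, htop⟩ := exists_main hF h2 hR
  obtain ⟨χ, hχ⟩ := exists_char hinj htop
  refine ⟨t, χ, ι, hinj, hχ, fun hroot => ?_⟩
  exact common_exp (hE.t_fin hm hmono hout h2 hinj hι hroot hχ)
    (fun i j h => hE.chi_fin h2 hinj hι hroot hχ h)

/-- in dimension one -/
theorem main_one [FiniteDimensional ℂ V] (ρ : Representation ℂ (PureBraid n) V)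
    (h1 : Module.finrank ℂ V = 1) (hroot : LocalRoots ρ) :
    ∃ N : ℕ, 0 < N ∧ ∀ g, ρ g ^ N = 1 := by
  classical
  have hnt : Nontrivial V := Module.nontrivial_of_finrank_pos (R := ℂ) (by omega)
  obtain ⟨u, hu⟩ := exists_ne (0 : V)
  have hall : ∀ x : V, ∃ c : ℂ, c • u = x := (finrank_eq_one_iff_of_nonzero' u hu).mp h1
  have hpow : ∀ i j, ∃ k : ℕ, 0 < k ∧ ρ (B i j) ^ k = 1 := by
    have key : ∀ i j (h : i < j), ∃ k : ℕ, 0 < k ∧ ρ (A i j h) ^ k = 1 := by
      intro i j h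
      obtain ⟨c, hc⟩ := hall (ρ (A i j h) u)
      have hE : ρ (A i j h) = c • (1 : V →ₗ[ℂ] V) := by
        ext x
        obtain ⟨d, rfl⟩ := hall x
        rw [map_smul, ← hc]
        show d • c • u = c • d • u
        rw [smul_comm]
      obtain ⟨k, hk, h3⟩ := hroot i j h c (Module.End.hasEigenvalue_of_hasEigenvector
        ⟨Module.End.mem_eigenspace_iff.mpr hc.symm, hu⟩)
      refine ⟨k, hk, ?_⟩
      rw [hE, smul_pow, h3, one_pow, one_smul]
    intro i j
    rcases lt_trichotomy i j with h | h | h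
    · rw [B_lt h]; exact key i j h
    · refine ⟨1, one_pos, ?_⟩
      rw [B, dif_neg (by rw [h]; exact lt_irrefl _), dif_neg (by rw [h]; exact lt_irrefl _),
        map_one, one_pow]
    · rw [B_gt h]; exact key j i h
  choose k hk hk2 using hpow
  let N : ℕ := ∏ i, ∏ j, k i j
  have hN : 0 < N := Finset.prod_pos fun i _ => Finset.prod_pos fun j _ => hk i j
  refine ⟨N, hN, fun g => ?_⟩
  have hcomm : ∀ g k : PureBraid n, Commute (ρ g) (ρ k) := by
    intro g k
    apply LinearMap.ext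
    intro x
    obtain ⟨d, rfl⟩ := hall x
    obtain ⟨c, hc⟩ := hall (ρ g u)
    obtain ⟨e, he⟩ := hall (ρ k u)
    show ρ g (ρ k (d • u)) = ρ k (ρ g (d • u))
    rw [map_smul, map_smul, map_smul, map_smul, ← hc, ← he, map_smul, map_smul, ← hc, ← he,
      smul_comm c e]
  let S : Subgroup (PureBraid n) :=
    { carrier := {g | ρ g ^ N = 1}
      one_mem' := by
        show ρ 1 ^ N = 1
        rw [map_one, one_pow]
      mul_mem' := by
        intro g k hg hk
        have hg' : ρ g ^ N = 1 := hg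
        have hk' : ρ k ^ N = 1 := hk
        show ρ (g * k) ^ N = 1
        rw [map_mul, (hcomm g k).mul_pow, hg', hk', one_mul]
      inv_mem' := by
        intro g hg
        have hg' : ρ g ^ N = 1 := hg
        show ρ g⁻¹ ^ N = 1
        have h3 : ρ g⁻¹ ^ N * ρ g ^ N = 1 := by
          rw [← (hcomm g⁻¹ g).mul_pow, ← map_mul, inv_mul_cancel, map_one, one_pow]
        rwa [hg', mul_one] at h3 }
  have hS : S = ⊤ := by
    apply pb_top
    intro i j hij
    show ρ (A i j hij) ^ N = 1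
    rw [← B_lt hij]
    obtain ⟨q, hq⟩ : k i j ∣ N :=
      (Finset.dvd_prod_of_mem (fun j => k i j) (Finset.mem_univ j)).trans
        (Finset.dvd_prod_of_mem (fun i => ∏ j, k i j) (Finset.mem_univ i))
    rw [hq, pow_mul, hk2, one_pow]
  have hg : g ∈ S := hS ▸ Subgroup.mem_top g
  exact hg

end Pool.Agent.Conf14
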