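import Pool.Agent.Conf14.Art

/-! Half twists and their action on the pure braids. -/

set_option linter.unusedSimpArgs false
set_option linter.unreachableTactic false
set_option linter.unusedTactic false
set_option linter.unusedVariables false

namespace Pool.Agent.Conf14

open FreeGroup (of lift lift_apply_of)

variable {n : ℕ}

/-- images of the generators under the half twist -/
def halfFun (i j k : Fin n) : FreeGroup (Fin n) :=
  if k = i then of i * of j * (of i)⁻¹ else if k = j then of i else of k

/-- images of the generators under the inverse half twist -/
def halfInvFun (i j k : Fin n) : FreeGroup (Fin n) :=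
  if k = i then of j else if k = j then (of j)⁻¹ * of i * of j else of k

theorem half_left {i j : Fin n} (h : i ≠ j) :
    (lift (halfInvFun i j)).comp (lift (halfFun i j)) = MonoidHom.id _ := by
  apply FreeGroup.ext_hom
  intro k
  have hi : lift (halfInvFun i j) (of i) = of j := by simp [halfInvFun]
  have hj : lift (halfInvFun i j) (of j) = (of j)⁻¹ * of i * of j := by
    rw [lift_apply_of, halfInvFun, if_neg h.symm, if_pos rfl]
  simp only [MonoidHom.comp_apply, lift_apply_of, MonoidHom.id_apply]
  rw [halfFun]
  split_ifs with h1 h2
  · subst h1
    simp only [_root_.map_mul, _root_.map_inv, hi, hj]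
    group
  · subst h2
    exact hi
  · rw [lift_apply_of, halfInvFun, if_neg h1, if_neg h2]

theorem half_right {i j : Fin n} (h : i ≠ j) :
    (lift (halfFun i j)).comp (lift (halfInvFun i j)) = MonoidHom.id _ := by
  apply FreeGroup.ext_hom
  intro k
  have hi : lift (halfFun i j) (of i) = of i * of j * (of i)⁻¹ := by simp [halfFun]
  have hj : lift (halfFun i j) (of j) = of i := by
    rw [lift_apply_of, halfFun, if_neg h.symm, if_pos rfl]
  simp only [MonoidHom.comp_apply, lift_apply_of, MonoidHom.id_apply]
  rw [halfInvFun]
  split_ifs with h1 h2
  · subst h1
    exact hj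
  · subst h2
    simp only [_root_.map_mul, _root_.map_inv, hi, hj]
    group
  · rw [lift_apply_of, halfFun, if_neg h1, if_neg h2]

/-- the half twist of the strands `i` and `j` -/
def half {i j : Fin n} (h : i ≠ j) : MulAut (FreeGroup (Fin n)) :=
  MonoidHom.toMulEquiv (lift (halfFun i j)) (lift (halfInvFun i j)) (half_left h) (half_right h)

theorem half_of {i j : Fin n} (h : i ≠ j) (k : Fin n) : half h (of k) = halfFun i j k := by
  show lift (halfFun i j) (of k) = _
  rw [lift_apply_of]

theorem half_i {i j : Fin n} (h : i ≠ j) : half h (of i) = of i * of j * (of i)⁻¹ := by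
  rw [half_of, halfFun, if_pos rfl]

theorem half_j {i j : Fin n} (h : i ≠ j) : half h (of j) = of i := by
  rw [half_of, halfFun, if_neg h.symm, if_pos rfl]

theorem half_o {i j k : Fin n} (h : i ≠ j) (h1 : k ≠ i) (h2 : k ≠ j) : half h (of k) = of k := by
  rw [half_of, halfFun, if_neg h1, if_neg h2]

theorem half_sq {i j : Fin n} (h0 : i ≠ j) (hij : i < j) (hadj : ∀ m : Fin n,
  ¬ (i < m ∧ m < j)) :
    half h0 * half h0 * artin i j = 1 := by
  apply mulAut_ext
  intro m
  rcases lt_trichotomy m i with hm0 | hm0 | hm0
  · have h_m_i : m < i := by order
    have h_m_j : m < j := by order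
    have h_i_j : i < j := by order
    simp only [MulAut.mul_apply, MulAut.one_apply, map_mul, map_inv, a_lt i j m h_i_j h_m_i, a_fst i j,
      a_snd i j, half_o h0 h_m_i.ne h_m_j.ne, half_i h0, half_j h0]
    try group
  · rw [hm0]
    have h_i_j : i < j := by order
    simp only [MulAut.mul_apply, MulAut.one_apply, map_mul, map_inv, a_fst i j, a_snd i j, half_i h0, half_j h0]
    try group
  · skip
    rcases lt_trichotomy m j with hm1 | hm1 | hm1
    · exact absurd ⟨hm0, hm1⟩ (hadj m)
    · rw [hm1]
      have h_i_j : i < j := by order
      simp only [MulAut.mul_apply, MulAut.one_apply, map_mul, map_inv, a_fst i j, a_snd i j, half_i h0, half_j h0]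
      try group
    · have h_i_j : i < j := by order
      have h_i_m : i < m := by order
      have h_j_m : j < m := by order
      simp only [MulAut.mul_apply, MulAut.one_apply, map_mul, map_inv, a_fst i j, a_snd i j,
        a_gt i j m h_i_j h_j_m, half_i h0, half_j h0, half_o h0 h_i_m.ne' h_j_m.ne']
      try group

theorem half_gt {i j k : Fin n} (h0 : i ≠ j) (hij : i < j) (hjk : j < k) (hadj : ∀ m : Fin n,
  ¬ (i < m ∧ m < j)) :
    half h0 * artin j k = artin i k * half h0 := by
  apply mulAut_ext
  intro m
  rcases lt_trichotomy m i with hm0 | hm0 | hm0
  · have h_m_i : m < i := by order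
    have h_m_j : m < j := by order
    have h_m_k : m < k := by order
    have h_i_j : i < j := by order
    have h_i_k : i < k := by order
    have h_j_k : j < k := by order
    simp only [MulAut.mul_apply, map_mul, map_inv, a_lt j k m h_j_k h_m_j,
      a_lt j k i h_j_k h_i_j, a_fst j k, a_snd j k, a_lt i k m h_i_k h_m_i, a_fst i k,
      a_mid i k j h_i_j h_j_k, a_snd i k, half_o h0 h_m_i.ne h_m_j.ne, half_i h0, half_j h0,
      half_o h0 h_i_k.ne' h_j_k.ne']
    try group
  · rw [hm0]
    have h_i_j : i < j := by order
    have h_i_k : i < k := by order
    have h_j_k : j < k := by order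
    simp only [MulAut.mul_apply, map_mul, map_inv, a_lt j k i h_j_k h_i_j, a_fst j k,
      a_snd j k, a_fst i k, a_mid i k j h_i_j h_j_k, a_snd i k, half_i h0, half_j h0,
      half_o h0 h_i_k.ne' h_j_k.ne']
    try group
  · skip
    rcases lt_trichotomy m j with hm1 | hm1 | hm1
    · exact absurd ⟨hm0, hm1⟩ (hadj m)
    · rw [hm1]
      have h_i_j : i < j := by order
      have h_i_k : i < k := by order
      have h_j_k : j < k := by order
      simp only [MulAut.mul_apply, map_mul, map_inv, a_lt j k i h_j_k h_i_j, a_fst j k,
        a_snd j k, a_fst i k, a_mid i k j h_i_j h_j_k, a_snd i k, half_i h0, half_j h0,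
        half_o h0 h_i_k.ne' h_j_k.ne']
      try group
    · skip
      rcases lt_trichotomy m k with hm2 | hm2 | hm2
      · have h_i_j : i < j := by order
        have h_i_m : i < m := by order
        have h_i_k : i < k := by order
        have h_j_m : j < m := by order
        have h_j_k : j < k := by order
        have h_m_k : m < k := by order
        simp only [MulAut.mul_apply, map_mul, map_inv, a_lt j k i h_j_k h_i_j, a_fst j k,
          a_mid j k m h_j_m h_m_k, a_snd j k, a_fst i k, a_mid i k j h_i_j h_j_k,
          a_mid i k m h_i_m h_m_k, a_snd i k, half_i h0, half_j h0,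
          half_o h0 h_i_m.ne' h_j_m.ne', half_o h0 h_i_k.ne' h_j_k.ne']
        try group
      · rw [hm2]
        have h_i_j : i < j := by order
        have h_i_k : i < k := by order
        have h_j_k : j < k := by order
        simp only [MulAut.mul_apply, map_mul, map_inv, a_lt j k i h_j_k h_i_j, a_fst j k,
          a_snd j k, a_fst i k, a_mid i k j h_i_j h_j_k, a_snd i k, half_i h0, half_j h0,
          half_o h0 h_i_k.ne' h_j_k.ne']
        try group
      · have h_i_j : i < j := by order
        have h_i_k : i < k := by order
        have h_i_m : i < m := by order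
        have h_j_k : j < k := by order
        have h_j_m : j < m := by order
        have h_k_m : k < m := by order
        simp only [MulAut.mul_apply, map_mul, map_inv, a_lt j k i h_j_k h_i_j, a_fst j k,
          a_snd j k, a_gt j k m h_j_k h_k_m, a_fst i k, a_mid i k j h_i_j h_j_k, a_snd i k,
          a_gt i k m h_i_k h_k_m, half_i h0, half_j h0, half_o h0 h_i_k.ne' h_j_k.ne',
          half_o h0 h_i_m.ne' h_j_m.ne']
        try group

theorem half_lt {i j k : Fin n} (h0 : i ≠ j) (hki : k < i) (hij : i < j) (hadj : ∀ m : Fin n,
  ¬ (i < m ∧ m < j)) :
    half h0 * artin k j = artin k i * half h0 := by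
  apply mulAut_ext
  intro m
  rcases lt_trichotomy m k with hm0 | hm0 | hm0
  · have h_m_k : m < k := by order
    have h_m_i : m < i := by order
    have h_m_j : m < j := by order
    have h_k_i : k < i := by order
    have h_k_j : k < j := by order
    have h_i_j : i < j := by order
    simp only [MulAut.mul_apply, map_mul, map_inv, a_lt k j m h_k_j h_m_k, a_fst k j,
      a_mid k j i h_k_i h_i_j, a_snd k j, a_lt k i m h_k_i h_m_k, a_fst k i, a_snd k i,
      a_gt k i j h_k_i h_i_j, half_o h0 h_m_i.ne h_m_j.ne, half_o h0 h_k_i.ne h_k_j.ne,
      half_i h0, half_j h0]
    try group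
  · rw [hm0]
    have h_k_i : k < i := by order
    have h_k_j : k < j := by order
    have h_i_j : i < j := by order
    simp only [MulAut.mul_apply, map_mul, map_inv, a_fst k j, a_mid k j i h_k_i h_i_j,
      a_snd k j, a_fst k i, a_snd k i, a_gt k i j h_k_i h_i_j, half_o h0 h_k_i.ne h_k_j.ne,
      half_i h0, half_j h0]
    try group
  · skip
    rcases lt_trichotomy m i with hm1 | hm1 | hm1
    · have h_k_m : k < m := by order
      have h_k_i : k < i := by order
      have h_k_j : k < j := by order
      have h_m_i : m < i := by order
      have h_m_j : m < j := by order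
      have h_i_j : i < j := by order
      simp only [MulAut.mul_apply, map_mul, map_inv, a_fst k j, a_mid k j m h_k_m h_m_j,
        a_mid k j i h_k_i h_i_j, a_snd k j, a_fst k i, a_mid k i m h_k_m h_m_i, a_snd k i,
        a_gt k i j h_k_i h_i_j, half_o h0 h_k_i.ne h_k_j.ne, half_o h0 h_m_i.ne h_m_j.ne,
        half_i h0, half_j h0]
      try group
    · rw [hm1]
      have h_k_i : k < i := by order
      have h_k_j : k < j := by order
      have h_i_j : i < j := by order
      simp only [MulAut.mul_apply, map_mul, map_inv, a_fst k j, a_mid k j i h_k_i h_i_j,
        a_snd k j, a_fst k i, a_snd k i, a_gt k i j h_k_i h_i_j, half_o h0 h_k_i.ne h_k_j.ne,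
        half_i h0, half_j h0]
      try group
    · skip
      rcases lt_trichotomy m j with hm2 | hm2 | hm2
      · exact absurd ⟨hm1, hm2⟩ (hadj m)
      · rw [hm2]
        have h_k_i : k < i := by order
        have h_k_j : k < j := by order
        have h_i_j : i < j := by order
        simp only [MulAut.mul_apply, map_mul, map_inv, a_fst k j, a_mid k j i h_k_i h_i_j,
          a_snd k j, a_fst k i, a_snd k i, a_gt k i j h_k_i h_i_j, half_o h0 h_k_i.ne h_k_j.ne,
          half_i h0, half_j h0]
        try group
      · have h_k_i : k < i := by order
        have h_k_j : k < j := by order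
        have h_k_m : k < m := by order
        have h_i_j : i < j := by order
        have h_i_m : i < m := by order
        have h_j_m : j < m := by order
        simp only [MulAut.mul_apply, map_mul, map_inv, a_fst k j, a_mid k j i h_k_i h_i_j,
          a_snd k j, a_gt k j m h_k_j h_j_m, a_fst k i, a_snd k i, a_gt k i j h_k_i h_i_j,
          a_gt k i m h_k_i h_i_m, half_o h0 h_k_i.ne h_k_j.ne, half_i h0, half_j h0,
          half_o h0 h_i_m.ne' h_j_m.ne']
        try group

theorem half_o1 {i j k l : Fin n} (h0 : i ≠ j) (hkl : k < l) (hli : l < i) (hij : i < j) (hadj : ∀ m : Fin n,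
  ¬ (i < m ∧ m < j)) :
    half h0 * artin k l = artin k l * half h0 := by
  apply mulAut_ext
  intro m
  rcases lt_trichotomy m k with hm0 | hm0 | hm0
  · have h_m_k : m < k := by order
    have h_m_l : m < l := by order
    have h_m_i : m < i := by order
    have h_m_j : m < j := by order
    have h_k_l : k < l := by order
    have h_k_i : k < i := by order
    have h_k_j : k < j := by order
    have h_l_i : l < i := by order
    have h_l_j : l < j := by order
    have h_i_j : i < j := by order
    simp only [MulAut.mul_apply, map_mul, map_inv, a_lt k l m h_k_l h_m_k, a_fst k l,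
      a_snd k l, a_gt k l i h_k_l h_l_i, a_gt k l j h_k_l h_l_j, half_o h0 h_m_i.ne h_m_j.ne,
      half_o h0 h_k_i.ne h_k_j.ne, half_o h0 h_l_i.ne h_l_j.ne, half_i h0, half_j h0]
    try group
  · rw [hm0]
    have h_k_l : k < l := by order
    have h_k_i : k < i := by order
    have h_k_j : k < j := by order
    have h_l_i : l < i := by order
    have h_l_j : l < j := by order
    have h_i_j : i < j := by order
    simp only [MulAut.mul_apply, map_mul, map_inv, a_fst k l, a_snd k l,
      a_gt k l i h_k_l h_l_i, a_gt k l j h_k_l h_l_j, half_o h0 h_k_i.ne h_k_j.ne,
      half_o h0 h_l_i.ne h_l_j.ne, half_i h0, half_j h0]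
    try group
  · skip
    rcases lt_trichotomy m l with hm1 | hm1 | hm1
    · have h_k_m : k < m := by order
      have h_k_l : k < l := by order
      have h_k_i : k < i := by order
      have h_k_j : k < j := by order
      have h_m_l : m < l := by order
      have h_m_i : m < i := by order
      have h_m_j : m < j := by order
      have h_l_i : l < i := by order
      have h_l_j : l < j := by order
      have h_i_j : i < j := by order
      simp only [MulAut.mul_apply, map_mul, map_inv, a_fst k l, a_mid k l m h_k_m h_m_l,
        a_snd k l, a_gt k l i h_k_l h_l_i, a_gt k l j h_k_l h_l_j, half_o h0 h_k_i.ne h_k_j.ne,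
        half_o h0 h_m_i.ne h_m_j.ne, half_o h0 h_l_i.ne h_l_j.ne, half_i h0, half_j h0]
      try group
    · rw [hm1]
      have h_k_l : k < l := by order
      have h_k_i : k < i := by order
      have h_k_j : k < j := by order
      have h_l_i : l < i := by order
      have h_l_j : l < j := by order
      have h_i_j : i < j := by order
      simp only [MulAut.mul_apply, map_mul, map_inv, a_fst k l, a_snd k l,
        a_gt k l i h_k_l h_l_i, a_gt k l j h_k_l h_l_j, half_o h0 h_k_i.ne h_k_j.ne,
        half_o h0 h_l_i.ne h_l_j.ne, half_i h0, half_j h0]
      try group
    · skip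
      rcases lt_trichotomy m i with hm2 | hm2 | hm2
      · have h_k_l : k < l := by order
        have h_k_m : k < m := by order
        have h_k_i : k < i := by order
        have h_k_j : k < j := by order
        have h_l_m : l < m := by order
        have h_l_i : l < i := by order
        have h_l_j : l < j := by order
        have h_m_i : m < i := by order
        have h_m_j : m < j := by order
        have h_i_j : i < j := by order
        simp only [MulAut.mul_apply, map_mul, map_inv, a_fst k l, a_snd k l,
          a_gt k l m h_k_l h_l_m, a_gt k l i h_k_l h_l_i, a_gt k l j h_k_l h_l_j,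
          half_o h0 h_k_i.ne h_k_j.ne, half_o h0 h_l_i.ne h_l_j.ne,
          half_o h0 h_m_i.ne h_m_j.ne, half_i h0, half_j h0]
        try group
      · rw [hm2]
        have h_k_l : k < l := by order
        have h_k_i : k < i := by order
        have h_k_j : k < j := by order
        have h_l_i : l < i := by order
        have h_l_j : l < j := by order
        have h_i_j : i < j := by order
        simp only [MulAut.mul_apply, map_mul, map_inv, a_fst k l, a_snd k l,
          a_gt k l i h_k_l h_l_i, a_gt k l j h_k_l h_l_j, half_o h0 h_k_i.ne h_k_j.ne,
          half_o h0 h_l_i.ne h_l_j.ne, half_i h0, half_j h0]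
        try group
      · skip
        rcases lt_trichotomy m j with hm3 | hm3 | hm3
        · exact absurd ⟨hm2, hm3⟩ (hadj m)
        · rw [hm3]
          have h_k_l : k < l := by order
          have h_k_i : k < i := by order
          have h_k_j : k < j := by order
          have h_l_i : l < i := by order
          have h_l_j : l < j := by order
          have h_i_j : i < j := by order
          simp only [MulAut.mul_apply, map_mul, map_inv, a_fst k l, a_snd k l,
            a_gt k l i h_k_l h_l_i, a_gt k l j h_k_l h_l_j, half_o h0 h_k_i.ne h_k_j.ne,
            half_o h0 h_l_i.ne h_l_j.ne, half_i h0, half_j h0]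
          try group
        · have h_k_l : k < l := by order
          have h_k_i : k < i := by order
          have h_k_j : k < j := by order
          have h_k_m : k < m := by order
          have h_l_i : l < i := by order
          have h_l_j : l < j := by order
          have h_l_m : l < m := by order
          have h_i_j : i < j := by order
          have h_i_m : i < m := by order
          have h_j_m : j < m := by order
          simp only [MulAut.mul_apply, map_mul, map_inv, a_fst k l, a_snd k l,
            a_gt k l i h_k_l h_l_i, a_gt k l j h_k_l h_l_j, a_gt k l m h_k_l h_l_m,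
            half_o h0 h_k_i.ne h_k_j.ne, half_o h0 h_l_i.ne h_l_j.ne, half_i h0, half_j h0,
            half_o h0 h_i_m.ne' h_j_m.ne']
          try group

theorem half_o2 {i j k l : Fin n} (h0 : i ≠ j) (hki : k < i) (hij : i < j) (hjl : j < l) (hadj : ∀ m : Fin n,
  ¬ (i < m ∧ m < j)) :
    half h0 * artin k l = artin k l * half h0 := by
  apply mulAut_ext
  intro m
  rcases lt_trichotomy m k with hm0 | hm0 | hm0
  · have h_m_k : m < k := by order
    have h_m_i : m < i := by order
    have h_m_j : m < j := by order
    have h_m_l : m < l := by order
    have h_k_i : k < i := by order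
    have h_k_j : k < j := by order
    have h_k_l : k < l := by order
    have h_i_j : i < j := by order
    have h_i_l : i < l := by order
    have h_j_l : j < l := by order
    simp only [MulAut.mul_apply, map_mul, map_inv, a_lt k l m h_k_l h_m_k, a_fst k l,
      a_mid k l i h_k_i h_i_l, a_mid k l j h_k_j h_j_l, a_snd k l, half_o h0 h_m_i.ne h_m_j.ne,
      half_o h0 h_k_i.ne h_k_j.ne, half_i h0, half_j h0, half_o h0 h_i_l.ne' h_j_l.ne']
    try group
  · rw [hm0]
    have h_k_i : k < i := by order
    have h_k_j : k < j := by order
    have h_k_l : k < l := by order
    have h_i_j : i < j := by order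
    have h_i_l : i < l := by order
    have h_j_l : j < l := by order
    simp only [MulAut.mul_apply, map_mul, map_inv, a_fst k l, a_mid k l i h_k_i h_i_l,
      a_mid k l j h_k_j h_j_l, a_snd k l, half_o h0 h_k_i.ne h_k_j.ne, half_i h0, half_j h0,
      half_o h0 h_i_l.ne' h_j_l.ne']
    try group
  · skip
    rcases lt_trichotomy m i with hm1 | hm1 | hm1
    · have h_k_m : k < m := by order
      have h_k_i : k < i := by order
      have h_k_j : k < j := by order
      have h_k_l : k < l := by order
      have h_m_i : m < i := by order
      have h_m_j : m < j := by order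
      have h_m_l : m < l := by order
      have h_i_j : i < j := by order
      have h_i_l : i < l := by order
      have h_j_l : j < l := by order
      simp only [MulAut.mul_apply, map_mul, map_inv, a_fst k l, a_mid k l m h_k_m h_m_l,
        a_mid k l i h_k_i h_i_l, a_mid k l j h_k_j h_j_l, a_snd k l,
        half_o h0 h_k_i.ne h_k_j.ne, half_o h0 h_m_i.ne h_m_j.ne, half_i h0, half_j h0,
        half_o h0 h_i_l.ne' h_j_l.ne']
      try group
    · rw [hm1]
      have h_k_i : k < i := by order
      have h_k_j : k < j := by order
      have h_k_l : k < l := by order
      have h_i_j : i < j := by order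
      have h_i_l : i < l := by order
      have h_j_l : j < l := by order
      simp only [MulAut.mul_apply, map_mul, map_inv, a_fst k l, a_mid k l i h_k_i h_i_l,
        a_mid k l j h_k_j h_j_l, a_snd k l, half_o h0 h_k_i.ne h_k_j.ne, half_i h0, half_j h0,
        half_o h0 h_i_l.ne' h_j_l.ne']
      try group
    · skip
      rcases lt_trichotomy m j with hm2 | hm2 | hm2
      · exact absurd ⟨hm1, hm2⟩ (hadj m)
      · rw [hm2]
        have h_k_i : k < i := by order
        have h_k_j : k < j := by order
        have h_k_l : k < l := by order
        have h_i_j : i < j := by order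
        have h_i_l : i < l := by order
        have h_j_l : j < l := by order
        simp only [MulAut.mul_apply, map_mul, map_inv, a_fst k l, a_mid k l i h_k_i h_i_l,
          a_mid k l j h_k_j h_j_l, a_snd k l, half_o h0 h_k_i.ne h_k_j.ne, half_i h0,
          half_j h0, half_o h0 h_i_l.ne' h_j_l.ne']
        try group
      · skip
        rcases lt_trichotomy m l with hm3 | hm3 | hm3
        · have h_k_i : k < i := by order
          have h_k_j : k < j := by order
          have h_k_m : k < m := by order
          have h_k_l : k < l := by order
          have h_i_j : i < j := by order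
          have h_i_m : i < m := by order
          have h_i_l : i < l := by order
          have h_j_m : j < m := by order
          have h_j_l : j < l := by order
          have h_m_l : m < l := by order
          simp only [MulAut.mul_apply, map_mul, map_inv, a_fst k l, a_mid k l i h_k_i h_i_l,
            a_mid k l j h_k_j h_j_l, a_mid k l m h_k_m h_m_l, a_snd k l,
            half_o h0 h_k_i.ne h_k_j.ne, half_i h0, half_j h0, half_o h0 h_i_m.ne' h_j_m.ne',
            half_o h0 h_i_l.ne' h_j_l.ne']
          try group
        · rw [hm3]
          have h_k_i : k < i := by order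
          have h_k_j : k < j := by order
          have h_k_l : k < l := by order
          have h_i_j : i < j := by order
          have h_i_l : i < l := by order
          have h_j_l : j < l := by order
          simp only [MulAut.mul_apply, map_mul, map_inv, a_fst k l, a_mid k l i h_k_i h_i_l,
            a_mid k l j h_k_j h_j_l, a_snd k l, half_o h0 h_k_i.ne h_k_j.ne, half_i h0,
            half_j h0, half_o h0 h_i_l.ne' h_j_l.ne']
          try group
        · have h_k_i : k < i := by order
          have h_k_j : k < j := by order
          have h_k_l : k < l := by order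
          have h_k_m : k < m := by order
          have h_i_j : i < j := by order
          have h_i_l : i < l := by order
          have h_i_m : i < m := by order
          have h_j_l : j < l := by order
          have h_j_m : j < m := by order
          have h_l_m : l < m := by order
          simp only [MulAut.mul_apply, map_mul, map_inv, a_fst k l, a_mid k l i h_k_i h_i_l,
            a_mid k l j h_k_j h_j_l, a_snd k l, a_gt k l m h_k_l h_l_m,
            half_o h0 h_k_i.ne h_k_j.ne, half_i h0, half_j h0, half_o h0 h_i_l.ne' h_j_l.ne',
            half_o h0 h_i_m.ne' h_j_m.ne']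
          try group

theorem half_o3 {i j k l : Fin n} (h0 : i ≠ j) (hij : i < j) (hjk : j < k) (hkl : k < l) (hadj : ∀ m : Fin n,
  ¬ (i < m ∧ m < j)) :
    half h0 * artin k l = artin k l * half h0 := by
  apply mulAut_ext
  intro m
  rcases lt_trichotomy m i with hm0 | hm0 | hm0
  · have h_m_i : m < i := by order
    have h_m_j : m < j := by order
    have h_m_k : m < k := by order
    have h_m_l : m < l := by order
    have h_i_j : i < j := by order
    have h_i_k : i < k := by order
    have h_i_l : i < l := by order
    have h_j_k : j < k := by order
    have h_j_l : j < l := by order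
    have h_k_l : k < l := by order
    simp only [MulAut.mul_apply, map_mul, map_inv, a_lt k l m h_k_l h_m_k,
      a_lt k l i h_k_l h_i_k, a_lt k l j h_k_l h_j_k, a_fst k l, a_snd k l,
      half_o h0 h_m_i.ne h_m_j.ne, half_i h0, half_j h0, half_o h0 h_i_k.ne' h_j_k.ne',
      half_o h0 h_i_l.ne' h_j_l.ne']
    try group
  · rw [hm0]
    have h_i_j : i < j := by order
    have h_i_k : i < k := by order
    have h_i_l : i < l := by order
    have h_j_k : j < k := by order
    have h_j_l : j < l := by order
    have h_k_l : k < l := by order
    simp only [MulAut.mul_apply, map_mul, map_inv, a_lt k l i h_k_l h_i_k,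
      a_lt k l j h_k_l h_j_k, a_fst k l, a_snd k l, half_i h0, half_j h0,
      half_o h0 h_i_k.ne' h_j_k.ne', half_o h0 h_i_l.ne' h_j_l.ne']
    try group
  · skip
    rcases lt_trichotomy m j with hm1 | hm1 | hm1
    · exact absurd ⟨hm0, hm1⟩ (hadj m)
    · rw [hm1]
      have h_i_j : i < j := by order
      have h_i_k : i < k := by order
      have h_i_l : i < l := by order
      have h_j_k : j < k := by order
      have h_j_l : j < l := by order
      have h_k_l : k < l := by order
      simp only [MulAut.mul_apply, map_mul, map_inv, a_lt k l i h_k_l h_i_k,
        a_lt k l j h_k_l h_j_k, a_fst k l, a_snd k l, half_i h0, half_j h0,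
        half_o h0 h_i_k.ne' h_j_k.ne', half_o h0 h_i_l.ne' h_j_l.ne']
      try group
    · skip
      rcases lt_trichotomy m k with hm2 | hm2 | hm2
      · have h_i_j : i < j := by order
        have h_i_m : i < m := by order
        have h_i_k : i < k := by order
        have h_i_l : i < l := by order
        have h_j_m : j < m := by order
        have h_j_k : j < k := by order
        have h_j_l : j < l := by order
        have h_m_k : m < k := by order
        have h_m_l : m < l := by order
        have h_k_l : k < l := by order
        simp only [MulAut.mul_apply, map_mul, map_inv, a_lt k l i h_k_l h_i_k,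
          a_lt k l j h_k_l h_j_k, a_lt k l m h_k_l h_m_k, a_fst k l, a_snd k l, half_i h0,
          half_j h0, half_o h0 h_i_m.ne' h_j_m.ne', half_o h0 h_i_k.ne' h_j_k.ne',
          half_o h0 h_i_l.ne' h_j_l.ne']
        try group
      · rw [hm2]
        have h_i_j : i < j := by order
        have h_i_k : i < k := by order
        have h_i_l : i < l := by order
        have h_j_k : j < k := by order
        have h_j_l : j < l := by order
        have h_k_l : k < l := by order
        simp only [MulAut.mul_apply, map_mul, map_inv, a_lt k l i h_k_l h_i_k,
          a_lt k l j h_k_l h_j_k, a_fst k l, a_snd k l, half_i h0, half_j h0,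
          half_o h0 h_i_k.ne' h_j_k.ne', half_o h0 h_i_l.ne' h_j_l.ne']
        try group
      · skip
        rcases lt_trichotomy m l with hm3 | hm3 | hm3
        · have h_i_j : i < j := by order
          have h_i_k : i < k := by order
          have h_i_m : i < m := by order
          have h_i_l : i < l := by order
          have h_j_k : j < k := by order
          have h_j_m : j < m := by order
          have h_j_l : j < l := by order
          have h_k_m : k < m := by order
          have h_k_l : k < l := by order
          have h_m_l : m < l := by order
          simp only [MulAut.mul_apply, map_mul, map_inv, a_lt k l i h_k_l h_i_k,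
            a_lt k l j h_k_l h_j_k, a_fst k l, a_mid k l m h_k_m h_m_l, a_snd k l, half_i h0,
            half_j h0, half_o h0 h_i_k.ne' h_j_k.ne', half_o h0 h_i_m.ne' h_j_m.ne',
            half_o h0 h_i_l.ne' h_j_l.ne']
          try group
        · rw [hm3]
          have h_i_j : i < j := by order
          have h_i_k : i < k := by order
          have h_i_l : i < l := by order
          have h_j_k : j < k := by order
          have h_j_l : j < l := by order
          have h_k_l : k < l := by order
          simp only [MulAut.mul_apply, map_mul, map_inv, a_lt k l i h_k_l h_i_k,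
            a_lt k l j h_k_l h_j_k, a_fst k l, a_snd k l, half_i h0, half_j h0,
            half_o h0 h_i_k.ne' h_j_k.ne', half_o h0 h_i_l.ne' h_j_l.ne']
          try group
        · have h_i_j : i < j := by order
          have h_i_k : i < k := by order
          have h_i_l : i < l := by order
          have h_i_m : i < m := by order
          have h_j_k : j < k := by order
          have h_j_l : j < l := by order
          have h_j_m : j < m := by order
          have h_k_l : k < l := by order
          have h_k_m : k < m := by order
          have h_l_m : l < m := by order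
          simp only [MulAut.mul_apply, map_mul, map_inv, a_lt k l i h_k_l h_i_k,
            a_lt k l j h_k_l h_j_k, a_fst k l, a_snd k l, a_gt k l m h_k_l h_l_m, half_i h0,
            half_j h0, half_o h0 h_i_k.ne' h_j_k.ne', half_o h0 h_i_l.ne' h_j_l.ne',
            half_o h0 h_i_m.ne' h_j_m.ne']
          try group

end Pool.Agent.Conf14
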