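import Pool.Agent.Conf14.Norm

/-! Compatibility of the embedding with the whole pure braid group. -/

namespace Pool.Agent.Conf14

variable {n : ℕ} {V : Type*} [AddCommGroup V] [Module ℂ V]

/-- the elements which act compatibly up to a scalar -/
def Cp (t : Fin n → ℂˣ) (ι : V →ₗ[ℂ] H1 t) (R : PureBraid n →* (V ≃ₗ[ℂ] V)) :
    Subgroup (PureBraid n) where
  carrier := {β | ∃ z : ℂˣ, ∀ v, cohRep t β (ι v) = (z : ℂ) • ι (R β v)}
  one_mem' := ⟨1, fun v => by
    rw [map_one, map_one, Units.val_one, one_smul]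
    rfl⟩
  mul_mem' := by
    rintro a b ⟨z, hz⟩ ⟨y, hy⟩
    refine ⟨z * y, fun v => ?_⟩
    have h1 : cohRep t (a * b) (ι v) = cohRep t a (cohRep t b (ι v)) := by rw [map_mul]; rfl
    have h2 : R (a * b) v = R a (R b v) := by rw [map_mul]; rfl
    rw [h1, h2, hy, map_smul, hz, smul_smul, Units.val_mul, mul_comm]
  inv_mem' := by
    rintro a ⟨z, hz⟩
    refine ⟨z⁻¹, fun v => ?_⟩
    have h1 : ∀ f : H1 t, cohRep t a⁻¹ (cohRep t a f) = f := by
      intro f
      have : cohRep t (a⁻¹ * a) f = f := by rw [inv_mul_cancel, map_one]; rfl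
      rwa [map_mul] at this
    have h2 : R a (R a⁻¹ v) = v := by
      have : R (a * a⁻¹) v = v := by rw [mul_inv_cancel, map_one]; rfl
      rwa [map_mul] at this
    have h3 := hz (R a⁻¹ v)
    rw [h2] at h3
    have h4 := congrArg (cohRep t a⁻¹) h3
    rw [h1, map_smul] at h4
    rw [h4, smul_smul, ← Units.val_mul, inv_mul_cancel, Units.val_one, one_smul]

theorem mem_Cp {t : Fin n → ℂˣ} {ι : V →ₗ[ℂ] H1 t} {R : PureBraid n →* (V ≃ₗ[ℂ] V)}
    {β : PureBraid n} : β ∈ Cp t ι R ↔ ∃ z : ℂˣ, ∀ v, cohRep t β (ι v) = (z : ℂ) • ι (R β v) :=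
  Iff.rfl

/-- conjugates have the same scalar -/
theorem Cp_conj {t : Fin n → ℂˣ} {ι : V →ₗ[ℂ] H1 t} {R : PureBraid n →* (V ≃ₗ[ℂ] V)}
    {g b : PureBraid n} {z : ℂˣ} (hg : g ∈ Cp t ι R)
    (hb : ∀ v, cohRep t b (ι v) = (z : ℂ) • ι (R b v)) (v : V) :
    cohRep t (g * b * g⁻¹) (ι v) = (z : ℂ) • ι (R (g * b * g⁻¹) v) := by
  obtain ⟨y, hy⟩ := hg
  have h1 : ∀ f : H1 t, cohRep t g⁻¹ (cohRep t g f) = f := by
    intro f
    have : cohRep t (g⁻¹ * g) f = f := by rw [inv_mul_cancel, map_one]; rfl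
    rwa [map_mul] at this
  have h2 : R g (R g⁻¹ v) = v := by
    have : R (g * g⁻¹) v = v := by rw [mul_inv_cancel, map_one]; rfl
    rwa [map_mul] at this
  have h3 := hy (R g⁻¹ v)
  rw [h2] at h3
  have h4 := congrArg (cohRep t g⁻¹) h3
  rw [h1, map_smul] at h4
  have h5 : cohRep t (g * b * g⁻¹) (ι v) = cohRep t g (cohRep t b (cohRep t g⁻¹ (ι v))) := by
    rw [map_mul, map_mul]; rfl
  have h6 : R (g * b * g⁻¹) v = R g (R b (R g⁻¹ v)) := by rw [map_mul, map_mul]; rfl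
  have h7 : cohRep t g⁻¹ (ι v) = ((y⁻¹ : ℂˣ) : ℂ) • ι (R g⁻¹ v) := by
    rw [h4, smul_smul, ← Units.val_mul, inv_mul_cancel, Units.val_one, one_smul]
  rw [h5, h7, map_smul, hb, map_smul, map_smul, hy, h6, smul_smul, smul_smul]
  congr 1
  have : (y : ℂ) ≠ 0 := y.ne_zero
  push_cast
  field_simp

/-- the last step: the other generators are compatible as well -/
theorem Cp_rest [FiniteDimensional ℂ V] {a : Fin n → Fin n → (V ≃ₗ[ℂ] V)} {v : Fin n → Fin n → V}
    {φ : Fin n → Fin n → (V →ₗ[ℂ] ℂ)} (h : Fam a v φ) {t : Fin n → ℂˣ} {ι : V →ₗ[ℂ] H1 t}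
    (hinj : Function.Injective ι) {R : PureBraid n →* (V ≃ₗ[ℂ] V)}
    (hR : ∀ i j, i ≠ j → ∃ z : ℂˣ, ∀ v, R (B i j) v = (z : ℂ) • a i j v)
    {s : Fin n} (hs : Supp a s) (hin : ∀ j, j ≠ s → B s j ∈ Cp t ι R) {i j : Fin n}
    (hi : i ≠ s) (hj : j ≠ s) (hij : i ≠ j)
    (him : ∀ v, ∃ v', cohRep t (B i j) (ι v) = ι v') : B i j ∈ Cp t ι R := by
  -- the action on the image
  have hnt : Nontrivial V := by
    obtain ⟨j0, hj0, h1⟩ := hs
    by_contra hcon
    rw [not_nontrivial_iff_subsingleton] at hcon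
    exact h1 (LinearEquiv.ext fun x => Subsingleton.elim _ _)
  have e1 : ∀ x, ((cohRep t (B i j)) ∘ₗ ι) x ∈ LinearMap.range ι := by
    intro x
    obtain ⟨v', hv'⟩ := him x
    exact ⟨v', hv'.symm⟩
  let f0 : V →ₗ[ℂ] LinearMap.range ι := ((cohRep t (B i j)) ∘ₗ ι).codRestrict _ e1
  let f : V →ₗ[ℂ] V := (LinearEquiv.ofInjective ι hinj).symm.toLinearMap ∘ₗ f0
  have hf : ∀ x, ι (f x) = cohRep t (B i j) (ι x) := by
    intro x
    have h1 : LinearEquiv.ofInjective ι hinj (f x) = f0 x :=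
      (LinearEquiv.ofInjective ι hinj).apply_symm_apply (f0 x)
    have h2 := congrArg Subtype.val h1
    exact h2
  have hβ1 : ∀ x, R (B i j)⁻¹ (R (B i j) x) = x := by
    intro x
    have : R ((B i j)⁻¹ * B i j) x = x := by rw [inv_mul_cancel, map_one]; rfl
    rwa [map_mul] at this
  have hβ2 : ∀ x, R (B i j) (R (B i j)⁻¹ x) = x := by
    intro x
    have : R (B i j * (B i j)⁻¹) x = x := by rw [mul_inv_cancel, map_one]; rfl
    rwa [map_mul] at this
  -- compatibility with the last strand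
  have hcomm : ∀ l, l ≠ s → ∀ x, f (R (B s l) x) =
      R (B i j) (R (B s l) (R (B i j)⁻¹ (f x))) := by
    intro l hl x
    obtain ⟨z, hz⟩ := hin l hl
    obtain ⟨g, hg, e⟩ := (pbB.conj hi.symm hj.symm hij hl).1
    have hgC : g ∈ Cp t ι R := by
      have : Subgroup.closure {B s i, B s j} ≤ Cp t ι R := by
        rw [Subgroup.closure_le]
        rintro x (rfl | hx)
        · exact hin i hi
        · rw [Set.mem_singleton_iff.mp hx]
          exact hin j hj
      exact this hg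
    have h1 : cohRep t (B i j) (cohRep t (B s l) (ι x)) =
        cohRep t (g * B s l * g⁻¹) (cohRep t (B i j) (ι x)) := by
      have h2 : B i j * B s l = g * B s l * g⁻¹ * B i j := by rw [← e]; group
      have h3 : cohRep t (B i j * B s l) (ι x) = cohRep t (g * B s l * g⁻¹ * B i j) (ι x) := by
        rw [h2]
      rwa [map_mul (cohRep t) (B i j), map_mul (cohRep t) _ (B i j)] at h3
    rw [hz, map_smul, ← hf, ← hf, Cp_conj hgC hz, ← e] at h1
    have h2 : ι (f (R (B s l) x)) = ι (R (B i j * B s l * (B i j)⁻¹) (f x)) :=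
      (IsUnit.smul_left_cancel z.isUnit).mp h1
    have h3 := hinj h2
    rw [h3, map_mul, map_mul]
    rfl
  let C : V →ₗ[ℂ] V := (R (B i j)⁻¹).toLinearMap ∘ₗ f
  have hC : ∀ x, C x = R (B i j)⁻¹ (f x) := fun _ => rfl
  have hCc : ∀ l, l ≠ s → ∀ x, C (R (B s l) x) = R (B s l) (C x) := by
    intro l hl x
    rw [hC, hC, hcomm l hl, hβ1]
  obtain ⟨μ, hμ⟩ := Module.End.exists_eigenvalue C
  have hE : Module.End.eigenspace C μ = ⊥ ∨ Module.End.eigenspace C μ = ⊤ := by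
    apply h.irr_strand hs
    intro l hl x hx
    rw [Module.End.mem_eigenspace_iff] at hx ⊢
    obtain ⟨z, hz⟩ := hR s l hl.symm
    have h1 := hCc l hl x
    rw [hz, hz, map_smul, hx, map_smul, smul_comm (z : ℂ) μ] at h1
    have h2 : (z : ℂ) • C (a s l x) = (z : ℂ) • μ • a s l x := by
      rw [h1, smul_comm]
    exact (IsUnit.smul_left_cancel z.isUnit).mp h2
  have hE2 : Module.End.eigenspace C μ = ⊤ := hE.resolve_left hμ
  have hCμ : ∀ x, C x = μ • x := by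
    intro x
    have : x ∈ Module.End.eigenspace C μ := hE2 ▸ Submodule.mem_top
    exact Module.End.mem_eigenspace_iff.mp this
  have hfμ : ∀ x, f x = μ • R (B i j) x := by
    intro x
    rw [← hβ2 (f x), ← hC, hCμ, map_smul]
  have hμ0 : μ ≠ 0 := by
    rintro rfl
    obtain ⟨u, hu⟩ := exists_ne (0 : V)
    have h1 : cohRep t (B i j) (ι u) = 0 := by rw [← hf, hfμ, zero_smul, map_zero]
    have h2 : cohRep t ((B i j)⁻¹ * B i j) (ι u) = ι u := by rw [inv_mul_cancel, map_one]; rfl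
    rw [map_mul] at h2
    have h3 : cohRep t (B i j)⁻¹ (cohRep t (B i j) (ι u)) = ι u := h2
    rw [h1, map_zero] at h3
    exact hu (hinj (by rw [← h3, map_zero]))
  refine ⟨Units.mk0 μ hμ0, fun x => ?_⟩
  rw [← hf, hfμ, map_smul]
  rfl

/-- the data of the theorem, with the scalars -/
theorem exists_main [FiniteDimensional ℂ V] {a : Fin n → Fin n → (V ≃ₗ[ℂ] V)}
    {v : Fin n → Fin n → V} {φ : Fin n → Fin n → (V →ₗ[ℂ] ℂ)} (h : Fam a v φ)
    (h2 : 2 ≤ Module.finrank ℂ V) {R : PureBraid n →* (V ≃ₗ[ℂ] V)}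
    (hR : ∀ i j, i ≠ j → ∃ z : ℂˣ, ∀ v, R (B i j) v = (z : ℂ) • a i j v) :
    ∃ (t : Fin n → ℂˣ) (s : Fin n) (m : ℕ) (idx : ℕ → Fin n) (c : ℕ → ℂ) (ι : V →ₗ[ℂ] H1 t),
      2 ≤ m ∧ (∀ l l', l < l' → l' < m → idx l < idx l') ∧
      (∀ j, j ≠ s → (∀ l, l < m → idx l ≠ j) → t j = 1) ∧
      Emb t s m idx c (fun l => v s (idx l)) (fun l => φ s (idx l)) ∧
      Function.Injective ι ∧
      (∀ (ξ : Fin m → ℂ) (g : ker t), (ι (Lam m c (fun l => v s (idx l)) ξ) : ker t → ℂ) g =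
        cr t (Ee t s m idx ξ) g) ∧ Cp t ι R = ⊤ := by
  obtain ⟨t, s, m, idx, c, hm, hs, hsi, hout, hmono, hE⟩ := h.exists_emb h2
  obtain ⟨ι, hinj, hι⟩ := hE.exists_iota
  refine ⟨t, s, m, idx, c, ι, hm, hmono, fun j hj hj2 => (hout j hj hj2).2, hE, hinj, hι, ?_⟩
  have hin : ∀ j, j ≠ s → B s j ∈ Cp t ι R := by
    intro j hj
    obtain ⟨z, hz⟩ := hR s j hj.symm
    refine ⟨z⁻¹, fun x => ?_⟩
    rw [hz, map_smul, smul_smul, ← Units.val_mul, inv_mul_cancel, Units.val_one, one_smul]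
    by_cases hj2 : ∀ l, l < m → idx l ≠ j
    · rw [(hout j hj hj2).1]
      show _ = ι x
      rcases lt_or_gt_of_ne hj with h1 | h1
      · rw [B_symm, B_lt h1]
        exact hE.act_out hι hj hj2 h1 (Or.inl rfl) x
      · rw [B_lt h1]
        exact hE.act_out hι hj hj2 h1 (Or.inr rfl) x
    · push Not at hj2
      obtain ⟨l, hl, rfl⟩ := hj2
      rw [B_symm, B_lt (hE.lt l hl)]
      exact hE.act_s hι hl _ (h.refl s (idx l) hj.symm) x
  apply pb_top
  intro i j hij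
  rw [← B_lt hij]
  by_cases hi : i = s
  · rw [hi]
    exact hin j (by rw [← hi]; exact hij.ne')
  by_cases hj : j = s
  · rw [hj, B_symm]
    exact hin i hi
  apply Cp_rest h hinj hR hs hin hi hj hij.ne
  rw [B_lt hij]
  exact hE.act_in hι hij hi hj

/-- the scalars form a character -/
theorem exists_char {t : Fin n → ℂˣ} {ι : V →ₗ[ℂ] H1 t} {R : PureBraid n →* (V ≃ₗ[ℂ] V)}
    [Nontrivial V] (hinj : Function.Injective ι) (htop : Cp t ι R = ⊤) :
    ∃ χ : PureBraid n →* ℂˣ, ∀ g x, ι (R g x) = (χ g : ℂ) • cohRep t g (ι x) := by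
  have hex : ∀ g : PureBraid n, ∃ z : ℂˣ, ∀ x, ι (R g x) = (z : ℂ) • cohRep t g (ι x) := by
    intro g
    have : g ∈ Cp t ι R := htop ▸ Subgroup.mem_top g
    obtain ⟨z, hz⟩ := this
    refine ⟨z⁻¹, fun x => ?_⟩
    rw [hz, smul_smul, ← Units.val_mul, inv_mul_cancel, Units.val_one, one_smul]
  choose χ hχ using hex
  obtain ⟨u, hu⟩ := exists_ne (0 : V)
  have huniq : ∀ (g : PureBraid n) (z y : ℂˣ), ι (R g u) = (z : ℂ) • cohRep t g (ι u) →
      ι (R g u) = (y : ℂ) • cohRep t g (ι u) → z = y := by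
    intro g z y hz hy
    have h1 : ι (R g u) ≠ 0 := by
      intro h0
      apply hu
      apply (R g).injective
      apply hinj
      rw [h0, map_zero, map_zero]
    have h2 : cohRep t g (ι u) ≠ 0 := by
      intro h0
      rw [h0, smul_zero] at hz
      exact h1 hz
    have h3 : (z : ℂ) • cohRep t g (ι u) = (y : ℂ) • cohRep t g (ι u) := by rw [← hz, ← hy]
    exact Units.ext (smul_left_injective ℂ h2 h3)
  refine ⟨{ toFun := χ, map_one' := ?_, map_mul' := ?_ }, hχ⟩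
  · apply huniq 1 _ _ (hχ 1 u)
    rw [map_one, map_one, Units.val_one, one_smul]
    rfl
  · intro g k
    apply huniq (g * k) _ _ (hχ _ u)
    have h1 : R (g * k) u = R g (R k u) := by rw [map_mul]; rfl
    have h2 : cohRep t (g * k) (ι u) = cohRep t g (cohRep t k (ι u)) := by rw [map_mul]; rfl
    rw [h1, h2, hχ, hχ, map_smul, smul_smul, Units.val_mul]

end Pool.Agent.Conf14
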