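import Pool.Agent.Conf14.Refl

/-! Normal form of the last strand: basic facts. -/

namespace Pool.Agent.Conf14

variable {k V : Type*} [Field k] [AddCommGroup V] [Module k V]

/-- the matrix of the normal form -/
def Mt (t : ℕ → k) (κ : k) (i j : ℕ) : k :=
  if i < j then t i - 1 else if j < i then κ * (t i - 1) else κ * t i - 1

/-- the relations between the generators on the last strand (`x`) and the generators of
neighbouring strands (`y`) -/
structure Chain (m : ℕ) (x y : ℕ → (V ≃ₗ[k] V)) (w v : ℕ → V) (ψ φ : ℕ → (V →ₗ[k] k)) :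
    Prop where
  hx : ∀ i, i < m → IsRefl (x i) (w i) (ψ i)
  hx1 : ∀ i, i < m → x i ≠ 1
  hy : ∀ i, i + 1 < m → IsRefl (y i) (v i) (φ i)
  hy1 : ∀ i, i + 1 < m → y i ≠ 1
  lx : ∀ i j, i < m → j < m → i ≠ j → ¬ Commute (x i) (x j)
  ly : ∀ i, i + 2 < m → ¬ Commute (y i) (y (i + 1))
  cm : ∀ i l, i + 1 < m → l < m → l ≠ i → l ≠ i + 1 → Commute (y i) (x l)
  z0 : ∀ i, i + 1 < m → Commute (y i * x i * x (i + 1)) (x i)
  z1 : ∀ i, i + 1 < m → Commute (y i * x i * x (i + 1)) (x (i + 1))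
  irr : ∀ W : Submodule k V, (∀ i, i < m → ∀ u ∈ W, x i u ∈ W) → W = ⊥ ∨ W = ⊤

/-- the stabiliser of a line -/
def LineStab (u : V) (hu : u ≠ 0) : Subgroup (V ≃ₗ[k] V) where
  carrier := {g | ∃ c : k, g u = c • u}
  one_mem' := ⟨1, by rw [one_smul]; rfl⟩
  mul_mem' := by
    rintro a b ⟨c, hc⟩ ⟨d, hd⟩
    exact ⟨d * c, by show a (b u) = _; rw [hd, map_smul, hc, smul_smul]⟩
  inv_mem' := by
    rintro a ⟨c, hc⟩
    refine ⟨c⁻¹, ?_⟩
    have hc0 : c ≠ 0 := by
      rintro rfl
      rw [zero_smul] at hc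
      exact hu ((LinearEquiv.map_eq_zero_iff a).mp hc)
    show a.symm u = _
    rw [LinearEquiv.symm_apply_eq, map_smul, hc, smul_smul, inv_mul_cancel₀ hc0, one_smul]

theorem mem_lineStab {u : V} {hu : u ≠ 0} {g : V ≃ₗ[k] V} :
    g ∈ LineStab u hu ↔ ∃ c : k, g u = c • u := Iff.rfl

variable {m : ℕ} {x y : ℕ → (V ≃ₗ[k] V)} {w v : ℕ → V} {ψ φ : ℕ → (V →ₗ[k] k)}

theorem Chain.w_ne (h : Chain m x y w v ψ φ) {i : ℕ} (hi : i < m) : w i ≠ 0 :=
  (h.hx i hi).v_ne (h.hx1 i hi)

theorem Chain.psi_ne (h : Chain m x y w v ψ φ) {i : ℕ} (hi : i < m) : ψ i ≠ 0 :=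
  (h.hx i hi).phi_ne (h.hx1 i hi)

/-- there is no invariant line -/
theorem Chain.no_line (h : Chain m x y w v ψ φ) (hm : 2 ≤ m) {u : V} (hu : u ≠ 0)
    (hl : ∀ i, i < m → x i ∈ LineStab u hu) : False := by
  have hW : Submodule.span k {u} = ⊥ ∨ Submodule.span k {u} = ⊤ := by
    apply h.irr
    intro i hi z hz
    obtain ⟨c, hc⟩ := hl i hi
    obtain ⟨d, rfl⟩ := Submodule.mem_span_singleton.mp hz
    rw [map_smul, hc]
    exact Submodule.smul_mem _ _ (Submodule.smul_mem _ _ (Submodule.mem_span_singleton_self u))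
  rcases hW with hW | hW
  · exact hu (Submodule.span_singleton_eq_bot.mp hW)
  · apply h.lx 0 1 (by omega) (by omega) (by norm_num)
    rw [commute_iff']
    intro z
    have hz : z ∈ Submodule.span k {u} := hW ▸ Submodule.mem_top
    obtain ⟨d, rfl⟩ := Submodule.mem_span_singleton.mp hz
    obtain ⟨c0, hc0⟩ := hl 0 (by omega)
    obtain ⟨c1, hc1⟩ := hl 1 (by omega)
    simp only [map_smul, hc0, hc1, smul_smul]
    congr 1
    ring

/-- there is no invariant hyperplane -/
theorem Chain.no_coline (h : Chain m x y w v ψ φ) (hm : 2 ≤ m) {f : V →ₗ[k] k} (hf : f ≠ 0)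
    (hl : ∀ i, i < m → ∃ c : k, ∀ u, f (x i u) = c * f u) : False := by
  have hW : LinearMap.ker f = ⊥ ∨ LinearMap.ker f = ⊤ := by
    apply h.irr
    intro i hi z hz
    obtain ⟨c, hc⟩ := hl i hi
    rw [LinearMap.mem_ker] at hz ⊢
    rw [hc, hz, mul_zero]
  rcases hW with hW | hW
  · have hinj := LinearMap.ker_eq_bot.mp hW
    apply h.lx 0 1 (by omega) (by omega) (by norm_num)
    rw [commute_iff']
    intro z
    obtain ⟨c0, hc0⟩ := hl 0 (by omega)
    obtain ⟨c1, hc1⟩ := hl 1 (by omega)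
    apply hinj
    rw [hc0, hc1, hc1, hc0]
    ring
  · exact hf (LinearMap.ker_eq_top.mp hW)

/-- a vector killed by all the functionals is zero -/
theorem Chain.fix_zero (h : Chain m x y w v ψ φ) (hm : 2 ≤ m) {u : V}
    (hu : ∀ i, i < m → ψ i u = 0) : u = 0 := by
  by_contra hne
  apply h.no_line hm hne
  intro i hi
  exact ⟨1, by rw [h.hx i hi, hu i hi, zero_smul, add_zero, one_smul]⟩

/-- the roots span -/
theorem Chain.span_w (h : Chain m x y w v ψ φ) (hm : 2 ≤ m) :
    Submodule.span k (w '' Set.Iio m) = ⊤ := by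
  have hW : Submodule.span k (w '' Set.Iio m) = ⊥ ∨ Submodule.span k (w '' Set.Iio m) = ⊤ := by
    apply h.irr
    intro i hi u hu
    rw [h.hx i hi]
    exact Submodule.add_mem _ hu (Submodule.smul_mem _ _ (Submodule.subset_span ⟨i, hi, rfl⟩))
  rcases hW with hW | hW
  · exfalso
    have : w 0 ∈ Submodule.span k (w '' Set.Iio m) :=
      Submodule.subset_span ⟨0, by simp only [Set.mem_Iio]; omega, rfl⟩
    rw [hW, Submodule.mem_bot] at this
    exact h.w_ne (by omega) this
  · exact hW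

/-- a functional killing all the roots is zero -/
theorem Chain.fun_zero (h : Chain m x y w v ψ φ) (hm : 2 ≤ m) {f : V →ₗ[k] k}
    (hf : ∀ i, i < m → f (w i) = 0) : f = 0 := by
  have h1 : Submodule.span k (w '' Set.Iio m) ≤ LinearMap.ker f := by
    rw [Submodule.span_le]
    rintro _ ⟨i, hi, rfl⟩
    exact hf i hi
  rw [h.span_w hm] at h1
  exact LinearMap.ker_eq_top.mp (top_le_iff.mp h1)

/-- stabiliser of a subspace under one element, for the pair of neighbouring roots -/
theorem Chain.y_mem [FiniteDimensional k V] (h : Chain m x y w v ψ φ) {i : ℕ} (hi : i + 1 < m)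
    {u : V} (hu : u ∈ Submodule.span k {w i, w (i + 1)}) :
    y i u ∈ Submodule.span k {w i, w (i + 1)} := by
  set S := Submodule.span k {w i, w (i + 1)} with hS
  have m0 : w i ∈ S := Submodule.subset_span (by simp)
  have m1 : w (i + 1) ∈ S := Submodule.subset_span (by simp)
  have sx0 : ∀ u ∈ S, x i u ∈ S := by
    intro u hu
    rw [h.hx i (by omega)]
    exact S.add_mem hu (S.smul_mem _ m0)
  have sx1 : ∀ u ∈ S, x (i + 1) u ∈ S := by
    intro u hu
    rw [h.hx (i + 1) hi]
    exact S.add_mem hu (S.smul_mem _ m1)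
  obtain ⟨μ0, h0, -⟩ := comm_eig (h.hx i (by omega)) (h.hx1 i (by omega)) (h.z0 i hi)
  obtain ⟨μ1, h1, -⟩ := comm_eig (h.hx (i + 1) hi) (h.hx1 (i + 1) hi) (h.z1 i hi)
  have sz : ∀ u ∈ S, (y i * x i * x (i + 1)) u ∈ S := by
    have : S ≤ S.comap (y i * x i * x (i + 1)).toLinearMap := by
      rw [hS, Submodule.span_le, ← hS]
      rintro z (rfl | hz)
      · show (y i * x i * x (i + 1)) (w i) ∈ S
        rw [h0]
        exact S.smul_mem _ m0
      · rw [Set.mem_singleton_iff.mp hz]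
        show (y i * x i * x (i + 1)) (w (i + 1)) ∈ S
        rw [h1]
        exact S.smul_mem _ m1
    exact fun u hu => this hu
  have e : y i u = (y i * x i * x (i + 1)) ((x (i + 1))⁻¹ ((x i)⁻¹ u)) := by
    show y i u = y i (x i (x (i + 1) ((x (i + 1)).symm ((x i).symm u))))
    rw [LinearEquiv.apply_symm_apply, LinearEquiv.apply_symm_apply]
  rw [e]
  exact sz _ (inv_mem_of_mem _ S sx1 _ (inv_mem_of_mem _ S sx0 _ hu))

/-- the product of the two neighbouring generators commutes with `y i` -/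
theorem Chain.y_comm2 (h : Chain m x y w v ψ φ) {i : ℕ} (hi : i + 1 < m) :
    Commute (y i) (x i * x (i + 1)) := by
  have h1 : Commute (y i * (x i * x (i + 1))) (x i * x (i + 1)) := by
    rw [← mul_assoc]
    exact (h.z0 i hi).mul_right (h.z1 i hi)
  have h2 := h1.mul_left (Commute.refl (x i * x (i + 1))).inv_left
  rwa [mul_inv_cancel_right] at h2

/-- product of the first generators -/
def Pr (x : ℕ → (V ≃ₗ[k] V)) : ℕ → (V ≃ₗ[k] V)
  | 0 => 1
  | i + 1 => Pr x i * x i

theorem Chain.y_commPr (h : Chain m x y w v ψ φ) {i : ℕ} (hi : i + 1 < m) :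
    (∀ j, j ≤ i → Commute (y i) (Pr x j)) ∧ ∀ j, j ≤ m → i + 2 ≤ j → Commute (y i) (Pr x j) := by
  have h1 : ∀ j, j ≤ i → Commute (y i) (Pr x j) := by
    intro j
    induction j with
    | zero => exact fun _ => Commute.one_right _
    | succ j ih =>
        intro hj
        exact (ih (by omega)).mul_right (h.cm i j hi (by omega) (by omega) (by omega))
  refine ⟨h1, fun j hj hij => ?_⟩
  induction j, hij using Nat.le_induction with
  | base =>
      have : Pr x (i + 2) = Pr x i * (x i * x (i + 1)) := by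
        show Pr x i * x i * x (i + 1) = _
        rw [mul_assoc]
      rw [this]
      exact (h1 i le_rfl).mul_right (h.y_comm2 hi)
  | succ j hij ih =>
      exact (ih (by omega)).mul_right (h.cm i j hi (by omega) (by omega) (by omega))

end Pool.Agent.Conf14
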