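import Pool.Agent.Conf14.Nf

/-! Normal form of the last strand: the general case. -/

namespace Pool.Agent.Conf14

variable {k V : Type*} [Field k] [AddCommGroup V] [Module k V]

/-- the roots and functionals can be scaled to the normal form -/
def NFc (m : ℕ) (w : ℕ → V) (ψ : ℕ → (V →ₗ[k] k)) : Prop :=
  ∃ (c t : ℕ → k) (κ : k), (∀ i, i < m → c i ≠ 0 ∧ t i ≠ 0 ∧ t i ≠ 1) ∧ κ ≠ 0 ∧ κ ≠ 1 ∧
    ∀ i j, i < m → j < m → ψ i (w j) * c j = c i * Mt t κ i j

variable {m : ℕ} {x y : ℕ → (V ≃ₗ[k] V)} {w v : ℕ → V} {ψ φ : ℕ → (V →ₗ[k] k)}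

theorem Chain.n1 (h : Chain m x y w v ψ φ) (hm : 2 ≤ m) {i : ℕ} (hi : i + 1 < m)
    (hO : ∀ l, l < m → l ≠ i → l ≠ i + 1 → ψ l (v i) = 0) : ¬ ∃ c : k, v i = c • w i := by
  rintro ⟨c, hc⟩
  have hw := h.w_ne (show i < m by omega)
  have hc0 : c ≠ 0 := by
    rintro rfl
    rw [zero_smul] at hc
    exact (h.hy i hi).v_ne (h.hy1 i hi) hc
  have sy : y i ∈ LineStab (w i) hw :=
    ⟨1 + φ i (w i) * c, by rw [h.hy i hi, hc, add_smul, one_smul, mul_smul]⟩
  have sx : x i ∈ LineStab (w i) hw :=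
    ⟨1 + ψ i (w i), by rw [h.hx i (by omega), add_smul, one_smul]⟩
  have sz : y i * x i * x (i + 1) ∈ LineStab (w i) hw := by
    obtain ⟨μ, h1, -⟩ := comm_eig (h.hx i (by omega)) (h.hx1 i (by omega)) (h.z0 i hi)
    exact ⟨μ, h1⟩
  have sx1 : x (i + 1) ∈ LineStab (w i) hw := by
    have : x (i + 1) = (y i * x i)⁻¹ * (y i * x i * x (i + 1)) := by group
    rw [this]
    exact mul_mem (inv_mem (mul_mem sy sx)) sz
  apply h.no_line hm hw
  intro l hl
  by_cases h1 : l = i
  · rw [h1]; exact sx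
  by_cases h2 : l = i + 1
  · rw [h2]; exact sx1
  have h3 := hO l hl h1 h2
  rw [hc, map_smul, smul_eq_mul] at h3
  have h4 := (mul_eq_zero.mp h3).resolve_left hc0
  exact ⟨1, by rw [h.hx l hl, h4, zero_smul, add_zero, one_smul]⟩

theorem Chain.n2 (h : Chain m x y w v ψ φ) (hm : 2 ≤ m) {i : ℕ} (hi : i + 1 < m)
    (hO : ∀ l, l < m → l ≠ i → l ≠ i + 1 → ψ l (v i) = 0) :
    ¬ ∃ c : k, v i = c • w (i + 1) := by
  rintro ⟨c, hc⟩
  have hw := h.w_ne hi
  have hc0 : c ≠ 0 := by
    rintro rfl
    rw [zero_smul] at hc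
    exact (h.hy i hi).v_ne (h.hy1 i hi) hc
  have sy : y i ∈ LineStab (w (i + 1)) hw :=
    ⟨1 + φ i (w (i + 1)) * c, by rw [h.hy i hi, hc, add_smul, one_smul, mul_smul]⟩
  have sx : x (i + 1) ∈ LineStab (w (i + 1)) hw :=
    ⟨1 + ψ (i + 1) (w (i + 1)), by rw [h.hx (i + 1) hi, add_smul, one_smul]⟩
  have sz : y i * x i * x (i + 1) ∈ LineStab (w (i + 1)) hw := by
    obtain ⟨μ, h1, -⟩ := comm_eig (h.hx (i + 1) hi) (h.hx1 (i + 1) hi) (h.z1 i hi)
    exact ⟨μ, h1⟩
  have sx1 : x i ∈ LineStab (w (i + 1)) hw := by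
    have : x i = (y i)⁻¹ * (y i * x i * x (i + 1)) * (x (i + 1))⁻¹ := by group
    rw [this]
    exact mul_mem (mul_mem (inv_mem sy) sz) (inv_mem sx)
  apply h.no_line hm hw
  intro l hl
  by_cases h1 : l = i
  · rw [h1]; exact sx1
  by_cases h2 : l = i + 1
  · rw [h2]; exact sx
  have h3 := hO l hl h1 h2
  rw [hc, map_smul, smul_eq_mul] at h3
  have h4 := (mul_eq_zero.mp h3).resolve_left hc0
  exact ⟨1, by rw [h.hx l hl, h4, zero_smul, add_zero, one_smul]⟩

theorem Chain.v_mem [FiniteDimensional k V] (h : Chain m x y w v ψ φ) (hm : 2 ≤ m) {i : ℕ}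
    (hi : i + 1 < m) (hO : ∀ l, l < m → l ≠ i → l ≠ i + 1 → φ i (w l) = 0) :
    v i ∈ Submodule.span k {w i, w (i + 1)} := by
  by_contra hv
  have h1 : ∀ u ∈ Submodule.span k {w i, w (i + 1)}, φ i u = 0 := by
    intro u hu
    by_contra hne
    have h2 := h.y_mem hi hu
    rw [h.hy i hi] at h2
    have h3 := Submodule.sub_mem _ h2 hu
    rw [add_sub_cancel_left] at h3
    exact hv ((Submodule.smul_mem_iff _ hne).mp h3)
  apply (h.hy i hi).phi_ne (h.hy1 i hi)
  apply h.fun_zero hm
  intro l hl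
  by_cases e1 : l = i
  · rw [e1]; exact h1 _ (Submodule.subset_span (by simp))
  by_cases e2 : l = i + 1
  · rw [e2]; exact h1 _ (Submodule.subset_span (by simp))
  exact hO l hl e1 e2

/-- the scaling factors -/
private def cs (α β : ℕ → k) : ℕ → k
  | 0 => 1
  | i + 1 => -(cs α β i * β i / α i)

theorem Chain.gen [FiniteDimensional k V] (h : Chain m x y w v ψ φ) (hm : 3 ≤ m)
    (hO : ∀ i l, i + 1 < m → l < m → l ≠ i → l ≠ i + 1 → φ i (w l) = 0 ∧ ψ l (v i) = 0) :
    NFc m w ψ := by
  have hm2 : 2 ≤ m := by omega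
  have N1 : ∀ i, i + 1 < m → ¬ ∃ c : k, v i = c • w i := fun i hi =>
    h.n1 hm2 hi fun l hl h1 h2 => (hO i l hi hl h1 h2).2
  have N2 : ∀ i, i + 1 < m → ¬ ∃ c : k, v i = c • w (i + 1) := fun i hi =>
    h.n2 hm2 hi fun l hl h1 h2 => (hO i l hi hl h1 h2).2
  have hex : ∀ i, ∃ a b : k, i + 1 < m → a • w i + b • w (i + 1) = v i := by
    intro i
    by_cases hi : i + 1 < m
    · obtain ⟨a, b, hab⟩ := Submodule.mem_span_pair.mp
        (h.v_mem hm2 hi fun l hl h1 h2 => (hO i l hi hl h1 h2).1)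
      exact ⟨a, b, fun _ => hab⟩
    · exact ⟨0, 0, fun h' => absurd h' hi⟩
  choose α β hαβ using hex
  have hα : ∀ i, i + 1 < m → α i ≠ 0 := by
    intro i hi h0
    have := hαβ i hi
    rw [h0, zero_smul, zero_add] at this
    exact N2 i hi ⟨_, this.symm⟩
  have hβ : ∀ i, i + 1 < m → β i ≠ 0 := by
    intro i hi h0
    have := hαβ i hi
    rw [h0, zero_smul, add_zero] at this
    exact N1 i hi ⟨_, this.symm⟩
  have indep : ∀ i, i + 1 < m → ∀ p q : k, p • w i + q • w (i + 1) = 0 → p = 0 ∧ q = 0 := by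
    intro i hi p q hpq
    have hq : q = 0 := by
      by_contra hq
      have e : w (i + 1) = (-(q⁻¹ * p)) • w i := by
        have e1 : q • w (i + 1) = -(p • w i) := eq_neg_of_add_eq_zero_right hpq
        rw [neg_smul, mul_smul, ← smul_neg, ← e1, smul_smul, inv_mul_cancel₀ hq, one_smul]
      have e2 := hαβ i hi
      rw [e, smul_smul, ← add_smul] at e2
      exact N1 i hi ⟨_, e2.symm⟩
    refine ⟨?_, hq⟩
    rw [hq, zero_smul, add_zero, smul_eq_zero] at hpq
    exact hpq.resolve_right (h.w_ne (by omega))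
  obtain ⟨c, hc0, hcs⟩ : ∃ c : ℕ → k, c 0 = 1 ∧ ∀ i, c (i + 1) = -(c i * β i / α i) :=
    ⟨cs α β, rfl, fun _ => rfl⟩
  have hc : ∀ i, i < m → c i ≠ 0 := by
    intro i
    induction i with
    | zero => intro _; rw [hc0]; exact one_ne_zero
    | succ i ih =>
        intro hi
        rw [hcs]
        exact neg_ne_zero.mpr (div_ne_zero (mul_ne_zero (ih (by omega)) (hβ i hi)) (hα i hi))
  have hD : ∀ i, i + 1 < m → v i = (α i / c i) • (c i • w i - c (i + 1) • w (i + 1)) := by
    intro i hi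
    have h1 := hα i hi
    have h2 := hc i (by omega)
    rw [← hαβ i hi, smul_sub, smul_smul, smul_smul, hcs, sub_eq_add_neg, ← neg_smul]
    congr 2
    · field_simp
    · field_simp
  have hd : ∀ i, i + 1 < m → α i / c i ≠ 0 := fun i hi =>
    div_ne_zero (hα i hi) (hc i (by omega))
  have hψD : ∀ i l, i + 1 < m → l < m → l ≠ i → l ≠ i + 1 →
      ψ l (c i • w i - c (i + 1) • w (i + 1)) = 0 := by
    intro i l hi hl h1 h2
    have h3 := (hO i l hi hl h1 h2).2
    rw [hD i hi, map_smul, smul_eq_mul] at h3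
    exact (mul_eq_zero.mp h3).resolve_left (hd i hi)
  have hN : ∀ i l, i + 1 < m → l < m → l ≠ i → l ≠ i + 1 →
      ψ l (w i) * c i = ψ l (w (i + 1)) * c (i + 1) := by
    intro i l hi hl h1 h2
    have h3 := hψD i l hi hl h1 h2
    rw [map_sub, map_smul, map_smul, smul_eq_mul, smul_eq_mul] at h3
    linear_combination h3
  have hlow : ∀ l, l < m → ∀ j, j < l → ψ l (w j) * c j = ψ l (w (l - 1)) * c (l - 1) := by
    intro l hl j hj
    obtain ⟨d, hd'⟩ : ∃ d, l - 1 = j + d := ⟨l - 1 - j, by omega⟩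
    induction d generalizing j with
    | zero =>
        have : l - 1 = j := by omega
        rw [this]
    | succ d ih =>
        rw [hN j l (by omega) hl (by omega) (by omega)]
        exact ih (j + 1) (by omega) (by omega)
  have hhigh : ∀ l, l < m → ∀ j, l < j → j < m → ψ l (w j) * c j = ψ l (w (l + 1)) * c (l + 1) := by
    intro l hl j hj hjm
    induction j, hj using Nat.le_induction with
    | base => rfl
    | succ j hj ih =>
        rw [← hN j l (by omega) hl (by omega) (by omega)]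
        exact ih (by omega)
  -- the product of all generators
  have hκex : ∀ i, ∃ κ : k, i + 1 < m → Pr x m (v i) = κ • v i ∧
      ∀ u, φ i (Pr x m u) = κ * φ i u := by
    intro i
    by_cases hi : i + 1 < m
    · obtain ⟨κ, h1, h2⟩ := comm_eig (h.hy i hi) (h.hy1 i hi)
        ((h.y_commPr hi).2 m le_rfl (by omega)).symm
      exact ⟨κ, fun _ => ⟨h1, h2⟩⟩
    · exact ⟨0, fun h' => absurd h' hi⟩
  choose κs hκs using hκex
  have hκeq : ∀ i, i + 2 < m → κs i = κs (i + 1) := by
    intro i hi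
    obtain ⟨h1, h2⟩ := hκs i (by omega)
    obtain ⟨h3, h4⟩ := hκs (i + 1) (by omega)
    have hnc := h.ly i hi
    by_contra hne
    apply hnc
    apply commute_of_orth (h.hy i (by omega)) (h.hy (i + 1) (by omega))
    · have h5 := h2 (v (i + 1))
      rw [h3, map_smul, smul_eq_mul] at h5
      have h6 : (κs i - κs (i + 1)) * φ i (v (i + 1)) = 0 := by linear_combination -h5
      exact (mul_eq_zero.mp h6).resolve_left (sub_ne_zero.mpr hne)
    · have h5 := h4 (v i)
      rw [h1, map_smul, smul_eq_mul] at h5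
      have h6 : (κs i - κs (i + 1)) * φ (i + 1) (v i) = 0 := by linear_combination h5
      exact (mul_eq_zero.mp h6).resolve_left (sub_ne_zero.mpr hne)
  obtain ⟨κ, hκ⟩ : ∃ κ : k, κ = κs 0 := ⟨_, rfl⟩
  have hκall : ∀ i, i + 1 < m → κs i = κ := by
    intro i
    induction i with
    | zero => intro _; exact hκ.symm
    | succ i ih =>
        intro hi
        rw [← hκeq i (by omega)]
        exact ih (by omega)
  have hXD : ∀ i, i + 1 < m → Pr x m (c i • w i - c (i + 1) • w (i + 1)) =
      κ • (c i • w i - c (i + 1) • w (i + 1)) := by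
    intro i hi
    have h1 := (hκs i hi).1
    rw [hκall i hi, hD i hi, map_smul, smul_comm] at h1
    exact smul_right_injective V (hd i hi) h1
  -- evaluation of the product
  have hfixlow : ∀ u : V, ∀ j, j ≤ m → (∀ l, l < j → ψ l u = 0) → Pr x j u = u := by
    intro u j
    induction j with
    | zero => exact fun _ _ => rfl
    | succ j ih =>
        intro hj hu
        show Pr x j (x j u) = u
        rw [h.hx j (by omega), hu j (by omega), zero_smul, add_zero]
        exact ih (by omega) fun l hl => hu l (by omega)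
  have hfixhigh : ∀ i, i + 1 < m → ∀ j, i + 2 ≤ j → j ≤ m →
      Pr x j (c i • w i - c (i + 1) • w (i + 1)) =
      Pr x (i + 2) (c i • w i - c (i + 1) • w (i + 1)) := by
    intro i hi j hj
    induction j, hj using Nat.le_induction with
    | base => exact fun _ => rfl
    | succ j hj ih =>
        intro hjm
        show Pr x j (x j _) = _
        rw [h.hx j (by omega), hψD i j hi (by omega) (by omega) (by omega), zero_smul, add_zero]
        exact ih (by omega)
  have hAB : ∀ i, i + 1 < m →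
      ψ (i + 1) (w (i + 1)) * c (i + 1) = c (i + 1) * (κ - 1) + ψ (i + 1) (w i) * c i ∧
      ψ i (w i) * c i = c i * (κ - 1) + κ * (ψ i (w (i + 1)) * c (i + 1)) := by
    intro i hi
    have hci := hc i (by omega)
    have hci1 := hc (i + 1) hi
    obtain ⟨B, hB⟩ : ∃ B : k, c (i + 1) * B = c (i + 1) + ψ (i + 1) (w (i + 1)) * c (i + 1) -
        ψ (i + 1) (w i) * c i := ⟨_, mul_div_cancel₀ _ hci1⟩
    obtain ⟨A, hA⟩ : ∃ A : k, c i * A = c i + ψ i (w i) * c i -
        B * (ψ i (w (i + 1)) * c (i + 1)) := ⟨_, mul_div_cancel₀ _ hci⟩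
    have e1 : x (i + 1) (c i • w i - c (i + 1) • w (i + 1)) =
        c i • w i - (c (i + 1) * B) • w (i + 1) := by
      rw [h.hx (i + 1) hi, map_sub, map_smul, map_smul, hB]
      simp only [smul_eq_mul, sub_smul, add_smul, mul_comm (c i), mul_comm (c (i + 1))]
      abel
    have e2 : x i (c i • w i - (c (i + 1) * B) • w (i + 1)) =
        (c i * A) • w i - (c (i + 1) * B) • w (i + 1) := by
      rw [h.hx i (by omega), map_sub, map_smul, map_smul, hA]
      have : c i * ψ i (w i) - c (i + 1) * B * ψ i (w (i + 1)) =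
        ψ i (w i) * c i - B * (ψ i (w (i + 1)) * c (i + 1)) := by ring
      simp only [smul_eq_mul]
      rw [this]
      simp only [sub_smul, add_smul]
      abel
    have e3 : Pr x i ((c i * A) • w i - (c (i + 1) * B) • w (i + 1)) =
        κ • (c i • w i - c (i + 1) • w (i + 1)) := by
      rw [← e2, ← e1, ← hXD i hi, hfixhigh i hi m (by omega) le_rfl]
      rfl
    have e4 : Pr x i (κ • (c i • w i - c (i + 1) • w (i + 1))) =
        κ • (c i • w i - c (i + 1) • w (i + 1)) := by
      apply hfixlow _ i (by omega)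
      intro l hl
      rw [map_smul, hψD i l hi (by omega) (by omega) (by omega), smul_zero]
    have e5 := (Pr x i).injective (e3.trans e4.symm)
    have e6 : (c i * A - κ * c i) • w i + (κ * c (i + 1) - c (i + 1) * B) • w (i + 1) = 0 := by
      have e7 := sub_eq_zero.mpr e5
      rw [smul_sub, smul_smul, smul_smul] at e7
      rw [← e7]
      simp only [sub_smul]
      abel
    obtain ⟨e8, e9⟩ := indep i hi _ _ e6
    have hBκ : B = κ := by
      have : c (i + 1) * (κ - B) = 0 := by linear_combination e9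
      have := (mul_eq_zero.mp this).resolve_left hci1
      exact (sub_eq_zero.mp this).symm
    refine ⟨?_, ?_⟩
    · rw [hBκ] at hB
      linear_combination -hB
    · rw [hBκ] at hA
      linear_combination -hA + e8
  have hκ0 : κ ≠ 0 := by
    rintro hz
    have h1 := hXD 0 (by omega)
    rw [hz, zero_smul] at h1
    have h2 := (LinearEquiv.map_eq_zero_iff _).mp h1
    have h3 : c 0 • w 0 + (-c 1) • w 1 = 0 := by rw [neg_smul, ← sub_eq_add_neg]; exact h2
    exact hc 0 (by omega) (indep 0 (by omega) _ _ h3).1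
  -- the parameters
  obtain ⟨t, ht⟩ : ∃ t : ℕ → k, ∀ l, t l = if l + 1 < m then 1 + ψ l (w (l + 1)) * c (l + 1) / c l
      else 1 + ψ l (w (l - 1)) * c (l - 1) / (κ * c l) := ⟨_, fun _ => rfl⟩
  have hM : ∀ i j, i < m → j < m → ψ i (w j) * c j = c i * Mt t κ i j := by
    intro i j hi hj
    have hci := hc i hi
    by_cases hl : i + 1 < m
    · have ht' : c i * (t i - 1) = ψ i (w (i + 1)) * c (i + 1) := by
        rw [ht, if_pos hl]; field_simp; ring
      have hd' : ψ i (w i) * c i = c i * (κ * t i - 1) := by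
        rw [(hAB i hl).2, ← ht']; ring
      unfold Mt
      split_ifs with h1 h2
      · rw [hhigh i hi j h1 hj, ht']
      · rw [hlow i hi j h2]
        obtain ⟨i', rfl⟩ : ∃ i', i = i' + 1 := ⟨i - 1, by omega⟩
        have h3 := (hAB i' (by omega)).1
        rw [Nat.add_sub_cancel]
        linear_combination hd' - h3
      · have : j = i := by omega
        rw [this, hd']
    · have hi0 : 1 ≤ i := by omega
      obtain ⟨i', rfl⟩ : ∃ i', i = i' + 1 := ⟨i - 1, by omega⟩
      have ht' : c (i' + 1) * (κ * (t (i' + 1) - 1)) = ψ (i' + 1) (w i') * c i' := by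
        rw [ht, if_neg hl, Nat.add_sub_cancel]; field_simp; ring
      unfold Mt
      split_ifs with h1 h2
      · omega
      · rw [hlow _ hi j h2, Nat.add_sub_cancel, ht']
      · have : j = i' + 1 := by omega
        rw [this, (hAB i' hi).1, ← ht']
        ring
  refine ⟨c, t, κ, fun i hi => ⟨hc i hi, ?_, ?_⟩, hκ0, ?_, hM⟩
  · intro h0
    have h1 := hM i i hi hi
    unfold Mt at h1
    rw [if_neg (lt_irrefl _), if_neg (lt_irrefl _), h0, mul_zero, zero_sub] at h1
    have h2 : ψ i (w i) = -1 := by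
      apply mul_right_cancel₀ (hc i hi)
      rw [h1]; ring
    have h3 : x i (w i) = 0 := by rw [h.hx i hi, h2, neg_smul, one_smul, add_neg_cancel]
    exact h.w_ne hi ((LinearEquiv.map_eq_zero_iff _).mp h3)
  · intro h0
    apply h.no_coline hm2 (h.psi_ne hi)
    intro j hj
    by_cases hji : j = i
    · subst hji
      refine ⟨1 + ψ j (w j), fun u => ?_⟩
      rw [h.hx j hj, map_add, map_smul, smul_eq_mul]
      ring
    · refine ⟨1, fun u => ?_⟩
      have h1 := hM i j hi hj
      have h2 : Mt t κ i j = 0 := by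
        unfold Mt
        rw [h0]
        split_ifs with h3 h4
        · ring
        · ring
        · omega
      rw [h2, mul_zero] at h1
      have h3 := (mul_eq_zero.mp h1).resolve_right (hc j hj)
      rw [h.hx j hj, map_add, map_smul, h3, smul_zero, add_zero, one_mul]
  · intro h1
    have h2 : c 0 • w 0 - c 1 • w 1 = 0 := by
      apply h.fix_zero hm2
      intro i hi
      rw [map_sub, map_smul, map_smul, smul_eq_mul, smul_eq_mul]
      have h3 := hM i 0 hi (by omega)
      have h4 := hM i 1 hi (by omega)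
      have h5 : Mt t κ i 0 = Mt t κ i 1 := by
        unfold Mt
        rw [h1]
        split_ifs <;> ring
      linear_combination h3 - h4 + c i * h5
    have h3 : c 0 • w 0 + (-c 1) • w 1 = 0 := by rw [neg_smul, ← sub_eq_add_neg]; exact h2
    exact hc 0 (by omega) (indep 0 (by omega) _ _ h3).1

end Pool.Agent.Conf14
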