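import Pool.Agent.Conf14.NfTwo

/-! Normal form of the last strand: the two-dimensional case of four strands; conclusion. -/

namespace Pool.Agent.Conf14

variable {k V : Type*} [Field k] [AddCommGroup V] [Module k V]

variable {m : ℕ} {x y : ℕ → (V ≃ₗ[k] V)} {w v : ℕ → V} {ψ φ : ℕ → (V →ₗ[k] k)}

/-- neighbouring roots are independent if `m = 3` -/
theorem Chain.indep3 [FiniteDimensional k V] (h : Chain 3 x y w v ψ φ) {i l : ℕ} (hi : i + 1 < 3)
    (hl : l < 3) (h1 : l ≠ i) (h2 : l ≠ i + 1) : ¬ ∃ c : k, w (i + 1) = c • w i := by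
  rintro ⟨c, hc⟩
  have hw := h.w_ne (show i < 3 by omega)
  have hS : Submodule.span k {w i, w (i + 1)} = Submodule.span k {w i} := by
    rw [hc]
    apply le_antisymm
    · rw [Submodule.span_le]
      rintro z (rfl | hz)
      · exact Submodule.mem_span_singleton_self _
      · rw [Set.mem_singleton_iff.mp hz]
        exact Submodule.smul_mem _ _ (Submodule.mem_span_singleton_self _)
    · exact Submodule.span_mono (by simp)
  have sy : ∃ d : k, d • w i = y i (w i) := by
    have := h.y_mem hi (u := w i) (Submodule.subset_span (by simp))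
    rw [hS] at this
    exact Submodule.mem_span_singleton.mp this
  obtain ⟨d, hd⟩ := sy
  rw [h.hy i hi] at hd
  have hφv : φ i (w i) • v i = (d - 1) • w i := by rw [sub_smul, one_smul, hd]; abel
  have cov : ∀ j, j < 3 → j = i ∨ j = i + 1 ∨ j = l := by
    intro j hj; omega
  apply h.no_line (by norm_num) hw
  intro j hj
  rcases cov j hj with rfl | rfl | rfl
  · exact ⟨1 + ψ j (w j), by rw [h.hx j hj, add_smul, one_smul]⟩
  · exact ⟨1 + ψ (i + 1) (w i) * c, by rw [h.hx (i + 1) hj, hc, add_smul, one_smul, mul_smul]⟩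
  · rcases refl_dichotomy (h.hy i hi) (h.hx j hj) (h.hy1 i hi) (h.hx1 j hj)
      (h.cm i j hi hj h1 h2) with ⟨h3, h4⟩ | ⟨⟨c', -, hc'⟩, d', -, hd'⟩
    · by_cases h5 : φ i (w i) = 0
      · exfalso
        apply (h.hy i hi).phi_ne (h.hy1 i hi)
        apply h.fun_zero (by norm_num)
        intro l' hl'
        rcases cov l' hl' with rfl | rfl | rfl
        · exact h5
        · rw [hc, map_smul, h5, smul_zero]
        · exact h3
      · have h6 : v i = ((φ i (w i))⁻¹ * (d - 1)) • w i := by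
          rw [mul_smul, ← hφv, smul_smul, inv_mul_cancel₀ h5, one_smul]
        have h7 : (φ i (w i))⁻¹ * (d - 1) ≠ 0 := by
          intro h0
          rw [h0, zero_smul] at h6
          exact (h.hy i hi).v_ne (h.hy1 i hi) h6
        rw [h6, map_smul, smul_eq_mul] at h4
        have h8 := (mul_eq_zero.mp h4).resolve_left h7
        exact ⟨1, by rw [h.hx j hj, h8, zero_smul, add_zero, one_smul]⟩
    · refine ⟨1 + d' * c' * (d - 1), ?_⟩
      rw [h.hx j hj, hd', hc', LinearMap.smul_apply, smul_eq_mul, smul_smul, add_smul, one_smul,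
        mul_smul _ (d - 1), ← hφv, smul_smul]
      congr 2
      ring

/-- orthogonality for at least five strands -/
theorem Chain.orth4 (h : Chain m x y w v ψ φ) (hm : 4 ≤ m) (i l : ℕ) (hi : i + 1 < m) (hl : l < m)
    (h1 : l ≠ i) (h2 : l ≠ i + 1) : φ i (w l) = 0 ∧ ψ l (v i) = 0 := by
  rcases refl_dichotomy (h.hy i hi) (h.hx l hl) (h.hy1 i hi) (h.hx1 l hl)
    (h.cm i l hi hl h1 h2) with h3 | ⟨⟨c, -, hc⟩, d, -, hd⟩
  · exact h3
  · exfalso
    obtain ⟨j, hj, hj1, hj2, hj3⟩ : ∃ j, j < m ∧ j ≠ i ∧ j ≠ i + 1 ∧ j ≠ l := by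
      by_contra hcon
      push Not at hcon
      have a0 := hcon 0 (by omega)
      have a1 := hcon 1 (by omega)
      have a2 := hcon 2 (by omega)
      have a3 := hcon 3 (by omega)
      omega
    exact h.lx j l hj hl hj3 (commute_of_parallel (h.hy i hi) (h.hx l hl) (h.hy1 i hi) hc hd
      (h.cm i j hi hj hj1 hj2).symm)

/-- orthogonality for four strands in dimension at least three -/
theorem Chain.orth3 [FiniteDimensional k V] (h : Chain 3 x y w v ψ φ)
    (hfin : 3 ≤ Module.finrank k V) (i l : ℕ) (hi : i + 1 < 3) (hl : l < 3)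
    (h1 : l ≠ i) (h2 : l ≠ i + 1) : φ i (w l) = 0 ∧ ψ l (v i) = 0 := by
  rcases refl_dichotomy (h.hy i hi) (h.hx l hl) (h.hy1 i hi) (h.hx1 l hl)
    (h.cm i l hi hl h1 h2) with h3 | ⟨⟨c, hc0, hc⟩, d, hd0, hd⟩
  · exact h3
  · exfalso
    have cov : ∀ j, j < 3 → j = i ∨ j = i + 1 ∨ j = l := by
      intro j hj; omega
    have hwl : w l ∉ Submodule.span k {w i, w (i + 1)} := by
      intro hmem
      have h4 : Submodule.span k {w i, w (i + 1)} = ⊤ := by
        rw [eq_top_iff, ← h.span_w (by norm_num), Submodule.span_le]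
        rintro _ ⟨j, hj, rfl⟩
        rcases cov j hj with rfl | rfl | rfl
        · exact Submodule.subset_span (by simp)
        · exact Submodule.subset_span (by simp)
        · exact hmem
      have h5 : Module.finrank k (Submodule.span k ({w i, w (i + 1)} : Set V)) ≤ 2 := by
        classical
        have := finrank_span_le_card (R := k) ({w i, w (i + 1)} : Set V)
        refine le_trans this ?_
        rw [Set.toFinset_card]
        refine le_trans (le_of_eq ?_) (Finset.card_le_two (a := w i) (b := w (i + 1)))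
        rw [← Set.toFinset_card]
        congr 1
        ext z
        simp
      rw [h4, finrank_top] at h5
      omega
    have hvl : v i ∉ Submodule.span k {w i, w (i + 1)} := by
      intro hmem
      apply hwl
      rw [hc]
      exact Submodule.smul_mem _ _ hmem
    have h4 : ∀ u ∈ Submodule.span k {w i, w (i + 1)}, φ i u = 0 := by
      intro u hu
      by_contra hne
      have h5 := h.y_mem hi hu
      rw [h.hy i hi] at h5
      have h6 := Submodule.sub_mem _ h5 hu
      rw [add_sub_cancel_left] at h6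
      exact hvl ((Submodule.smul_mem_iff _ hne).mp h6)
    apply h.no_coline (by norm_num) (h.psi_ne hl)
    intro j hj
    rcases cov j hj with rfl | rfl | rfl
    · refine ⟨1, fun u => ?_⟩
      rw [h.hx j hj, map_add, map_smul, hd, LinearMap.smul_apply, LinearMap.smul_apply,
        h4 (w j) (Submodule.subset_span (by simp))]
      simp
    · refine ⟨1, fun u => ?_⟩
      rw [h.hx (i + 1) hj, map_add, map_smul, hd, LinearMap.smul_apply, LinearMap.smul_apply,
        h4 (w (i + 1)) (Submodule.subset_span (by simp))]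
      simp
    · refine ⟨1 + ψ j (w j), fun u => ?_⟩
      rw [h.hx j hj, map_add, map_smul, smul_eq_mul]
      ring

theorem span2 [FiniteDimensional k V] (hfin : Module.finrank k V = 2) {a b : V}
    (indep : ∀ p q : k, p • a + q • b = 0 → p = 0 ∧ q = 0) (u : V) :
    ∃ p q : k, p • a + q • b = u := by
  have hli : LinearIndependent k ![a, b] := LinearIndependent.pair_iff.mpr indep
  have hspan := hli.span_eq_top_of_card_eq_finrank' (by rw [hfin]; simp)
  have hu : u ∈ Submodule.span k (Set.range ![a, b]) := hspan ▸ Submodule.mem_top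
  rw [Matrix.range_cons, Matrix.range_cons, Matrix.range_empty, Set.union_empty,
    Set.singleton_union] at hu
  exact Submodule.mem_span_pair.mp hu

theorem Chain.three [FiniteDimensional k V] (h : Chain 3 x y w v ψ φ)
    (hfin : Module.finrank k V = 2) : NFc 3 w ψ := by
  have l0 : 0 < 3 := by norm_num
  have l1 : 1 < 3 := by norm_num
  have l2 : 2 < 3 := by norm_num
  have ind01 := indep_of (h.w_ne l0) (h.indep3 (i := 0) (l := 2) l1 l2 (by norm_num) (by norm_num))
  have ind12 := indep_of (h.w_ne l1) (h.indep3 (i := 1) (l := 0) l2 l0 (by norm_num) (by norm_num))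
  obtain ⟨δ0, d00, d01⟩ := h.eig01 l0 l1 (by norm_num) (h.z0 0 l1) (h.z1 0 l1)
  obtain ⟨δ1, d11, d12⟩ := h.eig01 l1 l2 (by norm_num) (h.z0 1 l2) (h.z1 1 l2)
  have hz0 : ∀ u, y 0 (x 0 (x 1 u)) = δ0 • u := by
    intro u
    obtain ⟨p, q, rfl⟩ := span2 hfin ind01 u
    show (y 0 * x 0 * x 1) (p • w 0 + q • w 1) = _
    rw [map_add, map_smul, map_smul, d00, d01]
    module
  have hz1 : ∀ u, y 1 (x 1 (x 2 u)) = δ1 • u := by
    intro u
    obtain ⟨p, q, rfl⟩ := span2 hfin ind12 u
    show (y 1 * x 1 * x 2) (p • w 1 + q • w 2) = _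
    rw [map_add, map_smul, map_smul, d11, d12]
    module
  have cy02 := commute_iff'.mp (h.cm 0 2 l1 l2 (by norm_num) (by norm_num))
  have cy10 := commute_iff'.mp (h.cm 1 0 l2 l0 (by norm_num) (by norm_num))
  -- x 0 x 1 commutes with x 2
  have c012 : ∀ u, x 2 (x 0 (x 1 u)) = x 0 (x 1 (x 2 u)) := by
    intro u
    apply (y 0).injective
    rw [cy02, hz0, hz0, map_smul]
  have c120 : ∀ u, x 0 (x 1 (x 2 u)) = x 1 (x 2 (x 0 u)) := by
    intro u
    apply (y 1).injective
    rw [cy10, hz1, hz1, map_smul]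
  have cX0 : Commute (x 0 * x 1 * x 2) (x 0) := by
    rw [commute_iff']
    intro u
    show x 0 (x 1 (x 2 (x 0 u))) = x 0 (x 0 (x 1 (x 2 u)))
    rw [← c120]
  have cy0X : ∀ u, y 0 (x 0 (x 1 (x 2 u))) = x 0 (x 1 (x 2 (y 0 u))) := by
    have h1 : Commute (y 0) (x 0 * x 1 * x 2) :=
      (h.y_comm2 l1).mul_right (h.cm 0 2 l1 l2 (by norm_num) (by norm_num))
    exact commute_iff'.mp h1
  have cX1 : Commute (x 0 * x 1 * x 2) (x 1) := by
    rw [commute_iff']
    intro u
    apply (x 0).injective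
    apply (y 0).injective
    show y 0 (x 0 (x 0 (x 1 (x 2 (x 1 u))))) = y 0 (x 0 (x 1 (x 0 (x 1 (x 2 u)))))
    rw [hz0 (x 0 (x 1 (x 2 u)))]
    have e1 : x 0 (x 0 (x 1 (x 2 (x 1 u)))) = x 0 (x 1 (x 2 (x 0 (x 1 u)))) := by
      rw [← c120]
    rw [e1, cy0X, hz0, map_smul, map_smul, map_smul]
  obtain ⟨κ, k0, k1⟩ := h.eig01 l0 l1 (by norm_num) cX0 cX1
  have hX : ∀ u, x 0 (x 1 (x 2 u)) = κ • u := by
    intro u
    obtain ⟨p, q, rfl⟩ := span2 hfin ind01 u
    show (x 0 * x 1 * x 2) (p • w 0 + q • w 1) = _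
    rw [map_add, map_smul, map_smul, k0, k1]
    module
  have hκ0 : κ ≠ 0 := by
    rintro rfl
    rw [zero_smul] at k0
    exact h.w_ne l0 ((LinearEquiv.map_eq_zero_iff _).mp k0)
  have h01 : ψ 0 (w 1) ≠ 0 := by
    intro h0
    apply h.no_line (by norm_num) (h.w_ne l1)
    have s0 : x 0 ∈ LineStab (w 1) (h.w_ne l1) :=
      ⟨1, by rw [h.hx 0 l0, h0, zero_smul, add_zero, one_smul]⟩
    have s1 : x 1 ∈ LineStab (w 1) (h.w_ne l1) :=
      ⟨1 + ψ 1 (w 1), by rw [h.hx 1 l1, add_smul, one_smul]⟩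
    have sX : x 0 * x 1 * x 2 ∈ LineStab (w 1) (h.w_ne l1) := ⟨κ, k1⟩
    intro i hi
    interval_cases i
    · exact s0
    · exact s1
    · have : x 2 = (x 0 * x 1)⁻¹ * (x 0 * x 1 * x 2) := by group
      rw [this]
      exact mul_mem (inv_mem (mul_mem s0 s1)) sX
  have h10 : ψ 1 (w 0) ≠ 0 := by
    intro h0
    apply h.no_line (by norm_num) (h.w_ne l0)
    have s1 : x 1 ∈ LineStab (w 0) (h.w_ne l0) :=
      ⟨1, by rw [h.hx 1 l1, h0, zero_smul, add_zero, one_smul]⟩
    have s0 : x 0 ∈ LineStab (w 0) (h.w_ne l0) :=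
      ⟨1 + ψ 0 (w 0), by rw [h.hx 0 l0, add_smul, one_smul]⟩
    have sX : x 0 * x 1 * x 2 ∈ LineStab (w 0) (h.w_ne l0) := ⟨κ, k0⟩
    intro i hi
    interval_cases i
    · exact s0
    · exact s1
    · have : x 2 = (x 0 * x 1)⁻¹ * (x 0 * x 1 * x 2) := by group
      rw [this]
      exact mul_mem (inv_mem (mul_mem s0 s1)) sX
  -- a fixed vector of `x 2`
  have hpq : ψ 2 (w 1) ≠ 0 ∨ -ψ 2 (w 0) ≠ 0 := by
    by_contra hcon
    push Not at hcon
    apply h.psi_ne l2
    ext u
    obtain ⟨p, q, rfl⟩ := span2 hfin ind01 u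
    rw [map_add, map_smul, map_smul, hcon.1, neg_eq_zero.mp hcon.2]
    simp
  have hk := key2 (h.hx 0 l0) (h.hx 1 l1) ind01 (p := ψ 2 (w 1)) (q := -ψ 2 (w 0)) (δ := κ) hpq h10
    (by
      rw [← hX]
      have : x 2 (ψ 2 (w 1) • w 0 + (-ψ 2 (w 0)) • w 1) =
          ψ 2 (w 1) • w 0 + (-ψ 2 (w 0)) • w 1 := by
        rw [h.hx 2 l2]
        have : ψ 2 (ψ 2 (w 1) • w 0 + (-ψ 2 (w 0)) • w 1) = 0 := by
          rw [map_add, map_smul, map_smul, smul_eq_mul, smul_eq_mul]; ring
        rw [this, zero_smul, add_zero]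
      rw [this])
  obtain ⟨c1, t0, t1, hc1, ht0, ht01, ht1, ht11, e00, e11, e01, e10⟩ :=
    fin2 h01 h10 hκ0 (h.lam_ne l0) (h.lam_ne l1) hk
  -- the difference of the scaled roots
  have hD : ψ 2 (w 0) = ψ 2 (w 1) * c1 := by
    have g1 : x 1 (w 0 - c1 • w 1) = w 0 - (κ * c1) • w 1 := by
      rw [h.hx 1 l1, map_sub, map_smul, smul_eq_mul, e10, e11]
      module
    have g0 : x 0 (w 0 - (κ * c1) • w 1) = κ • (w 0 - c1 • w 1) := by
      rw [h.hx 0 l0, map_sub, map_smul, smul_eq_mul, e00]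
      have : κ * t0 - 1 - κ * c1 * ψ 0 (w 1) = κ - 1 := by linear_combination (-κ) * e01
      rw [this]
      module
    have g2 : x 2 (w 0 - c1 • w 1) = w 0 - c1 • w 1 := by
      apply (x 1).injective
      apply (x 0).injective
      rw [hX, g1, g0]
    rw [h.hx 2 l2, map_sub, map_smul, smul_eq_mul] at g2
    have g3 : (ψ 2 (w 0) - c1 * ψ 2 (w 1)) • w 2 = 0 := by
      have := sub_eq_zero.mpr g2
      rwa [add_sub_cancel_left] at this
    have g4 := (smul_eq_zero.mp g3).resolve_right (h.w_ne l2)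
    linear_combination g4
  obtain ⟨r, hr⟩ : ∃ r, r = ψ 2 (w 0) := ⟨_, rfl⟩
  have hr1 : ψ 2 (w 1) * c1 = r := by rw [hr, hD]
  have hr0 : r ≠ 0 := by
    intro h0
    rcases hpq with h' | h'
    · apply h'
      rw [h0] at hr1
      exact (mul_eq_zero.mp hr1).resolve_right hc1
    · apply h'
      rw [← hr, h0, neg_zero]
  obtain ⟨L, hL⟩ : ∃ L, L = 1 + ψ 2 (w 2) := ⟨_, rfl⟩
  have hL0 : L ≠ 0 := hL ▸ h.lam_ne l2
  have hw2 : r • w 2 = (-(L * t1 * (t0 - 1))) • w 0 + (-(L * (t1 - 1) * c1)) • w 1 := by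
    have g1 : x 2 (w 2) = L • w 2 := by rw [h.hx 2 l2, hL, add_smul, one_smul]
    have g2 : L • x 0 (x 1 (w 2)) = κ • w 2 := by
      rw [← hX, g1, map_smul, map_smul]
    have g3 : x 2 (c1 • w 1) = c1 • w 1 + r • w 2 := by
      rw [h.hx 2 l2, map_smul, smul_eq_mul, mul_comm, hr1]
    have g4 : x 0 (x 1 (c1 • w 1)) = (κ * t1 * (t0 - 1)) • w 0 + (κ * t1 * c1) • w 1 := by
      have g5 : x 1 (c1 • w 1) = (κ * t1 * c1) • w 1 := by
        rw [h.hx 1 l1, map_smul, smul_eq_mul, e11]
        module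
      rw [g5, map_smul, h.hx 0 l0, smul_add, smul_smul]
      have : κ * t1 * c1 * ψ 0 (w 1) = κ * t1 * (t0 - 1) := by linear_combination κ * t1 * e01
      rw [this]
      abel
    have g6 := hX (c1 • w 1)
    rw [g3, map_add, map_add, g4, map_smul, map_smul] at g6
    have g7 : L • (r • x 0 (x 1 (w 2))) = r • (κ • w 2) := by
      rw [smul_comm L r, g2]
    have g8 : r • x 0 (x 1 (w 2)) = (κ * c1) • w 1 -
        ((κ * t1 * (t0 - 1)) • w 0 + (κ * t1 * c1) • w 1) := by
      rw [mul_smul, ← g6]; abel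
    rw [g8] at g7
    have g9 : κ • (r • w 2) = κ • ((-(L * t1 * (t0 - 1))) • w 0 + (-(L * (t1 - 1) * c1)) • w 1) := by
      rw [smul_comm κ r, ← g7]
      module
    exact smul_right_injective V hκ0 g9
  -- the three values on `w 2`
  have v2 : L * t0 * t1 = 1 := by
    have g := congrArg (ψ 2) hw2
    rw [map_smul, map_add, map_smul, map_smul] at g
    simp only [smul_eq_mul] at g
    have g1 : r * (ψ 2 (w 2)) = r * (-(L * (t0 * t1 - 1))) := by
      rw [← hr] at g
      linear_combination g - (L * (t1 - 1)) * hr1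
    have g2 := mul_left_cancel₀ hr0 g1
    linear_combination g2 + hL
  have v0 : r * ψ 0 (w 2) = -(L * (t0 - 1) * (κ * t0 * t1 - 1)) := by
    have g := congrArg (ψ 0) hw2
    rw [map_smul, map_add, map_smul, map_smul] at g
    simp only [smul_eq_mul] at g
    rw [e00] at g
    linear_combination g - (L * (t1 - 1)) * e01
  have v1 : r * ψ 1 (w 2) = -(L * c1 * (t1 - 1) * (κ * t0 * t1 - 1)) := by
    have g := congrArg (ψ 1) hw2
    rw [map_smul, map_add, map_smul, map_smul] at g
    simp only [smul_eq_mul] at g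
    rw [e10, e11] at g
    linear_combination g
  have hE : κ * t0 * t1 - 1 ≠ 0 := by
    intro h0
    rw [h0, mul_zero, neg_zero] at v0 v1
    have v0' := (mul_eq_zero.mp v0).resolve_left hr0
    have v1' := (mul_eq_zero.mp v1).resolve_left hr0
    apply h.no_line (by norm_num) (h.w_ne l2)
    intro i hi
    interval_cases i
    · exact ⟨1, by rw [h.hx 0 l0, v0', zero_smul, add_zero, one_smul]⟩
    · exact ⟨1, by rw [h.hx 1 l1, v1', zero_smul, add_zero, one_smul]⟩
    · exact ⟨1 + ψ 2 (w 2), by rw [h.hx 2 l2, add_smul, one_smul]⟩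
  obtain ⟨c2, hc2⟩ : ∃ c2, c2 = -(r / (L * (κ * t0 * t1 - 1))) := ⟨_, rfl⟩
  have hc20 : c2 ≠ 0 := by
    rw [hc2]
    exact neg_ne_zero.mpr (div_ne_zero hr0 (mul_ne_zero hL0 hE))
  have hc2r : r = -(c2 * (L * (κ * t0 * t1 - 1))) := by
    rw [hc2]; field_simp
  have f02 : ψ 0 (w 2) * c2 = t0 - 1 := by
    rw [hc2r] at v0
    have : (L * (κ * t0 * t1 - 1)) * (ψ 0 (w 2) * c2) = (L * (κ * t0 * t1 - 1)) * (t0 - 1) := by
      linear_combination -v0
    exact mul_left_cancel₀ (mul_ne_zero hL0 hE) this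
  have f12 : ψ 1 (w 2) * c2 = c1 * (t1 - 1) := by
    rw [hc2r] at v1
    have : (L * (κ * t0 * t1 - 1)) * (ψ 1 (w 2) * c2) =
        (L * (κ * t0 * t1 - 1)) * (c1 * (t1 - 1)) := by
      linear_combination -v1
    exact mul_left_cancel₀ (mul_ne_zero hL0 hE) this
  have hκL : κ - L ≠ 0 := by
    intro h0
    apply hE
    have : L * (κ * t0 * t1 - 1) = 0 := by linear_combination κ * v2 + h0
    exact (mul_eq_zero.mp this).resolve_left hL0
  have f20 : ψ 2 (w 0) = c2 * (κ * (L / κ - 1)) := by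
    rw [← hr, hc2r]
    have : κ * (L / κ - 1) = L - κ := by field_simp
    rw [this]
    linear_combination (-c2 * κ) * v2
  have f21 : ψ 2 (w 1) * c1 = c2 * (κ * (L / κ - 1)) := by rw [hr1, hr, f20]
  have f22 : ψ 2 (w 2) = κ * (L / κ) - 1 := by
    have : κ * (L / κ) = L := by field_simp
    rw [this, hL]; ring
  have hM : ∀ i j, i < 3 → j < 3 → ψ i (w j) * (if j = 0 then 1 else if j = 1 then c1 else c2) =
      (if i = 0 then 1 else if i = 1 then c1 else c2) *
        Mt (fun l => if l = 0 then t0 else if l = 1 then t1 else L / κ) κ i j := by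
    intro i j hi hj
    interval_cases i <;> interval_cases j <;>
      simp [Mt, e00, e11, e01, e10, f02, f12, f20, f21, f22]
    · ring
    · ring
  refine ⟨fun i => if i = 0 then 1 else if i = 1 then c1 else c2,
    fun l => if l = 0 then t0 else if l = 1 then t1 else L / κ, κ, ?_, hκ0, ?_, hM⟩
  · intro i hi
    interval_cases i
    · simp [ht0, ht01]
    · simp [hc1, ht1, ht11]
    · have : L / κ ≠ 1 := by
        intro h0
        rw [div_eq_one_iff_eq hκ0] at h0
        exact hκL (by rw [h0, sub_self])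
      simp [hc20, hL0, hκ0, this]
  · intro hh
    have g2 : (1 : k) • w 0 + (-c1) • w 1 = 0 := by
      apply h.fix_zero (by norm_num)
      intro i hi
      rw [map_add, map_smul, map_smul, smul_eq_mul, smul_eq_mul]
      interval_cases i
      · rw [e00, hh]; linear_combination -e01
      · rw [e10, e11, hh]; ring
      · rw [hD]; ring
    exact one_ne_zero (ind01 _ _ g2).1

/-- the normal form of the last strand -/
theorem Chain.nf [FiniteDimensional k V] (h : Chain m x y w v ψ φ) (hm : 2 ≤ m) : NFc m w ψ := by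
  by_cases h2 : m = 2
  · subst h2; exact h.two
  by_cases h3 : m = 3
  · subst h3
    by_cases hfin : 3 ≤ Module.finrank k V
    · exact h.gen le_rfl (h.orth3 hfin)
    · have hle : 2 ≤ Module.finrank k V := by
        by_contra hlt
        have hle1 : Module.finrank k V ≤ 1 := by omega
        obtain ⟨u, hu⟩ := finrank_le_one_iff.mp hle1
        apply h.lx 0 1 (by norm_num) (by norm_num) (by norm_num)
        rw [commute_iff']
        intro z
        obtain ⟨c, hc⟩ := hu z
        obtain ⟨c0, hc0⟩ := hu (x 0 u)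
        obtain ⟨c1, hc1⟩ := hu (x 1 u)
        rw [← hc]
        simp only [map_smul, ← hc0, ← hc1, smul_smul]
        congr 1
        ring
      exact h.three (by omega)
  · exact h.gen (by omega) (h.orth4 (by omega))

end Pool.Agent.Conf14
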