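import Pool.Agent.Conf14.NfGen

/-! Normal form of the last strand: three strands, and the two-dimensional case of four strands. -/

namespace Pool.Agent.Conf14

variable {k V : Type*} [Field k] [AddCommGroup V] [Module k V]

variable {m : ℕ} {x y : ℕ → (V ≃ₗ[k] V)} {w v : ℕ → V} {ψ φ : ℕ → (V →ₗ[k] k)}

/-- eigenvectors of the product of two reflections -/
theorem key2 {a b : V ≃ₗ[k] V} {w0 w1 : V} {f0 f1 : V →ₗ[k] k} (ha : IsRefl a w0 f0)
    (hb : IsRefl b w1 f1) (indep : ∀ p q : k, p • w0 + q • w1 = 0 → p = 0 ∧ q = 0) {p q δ : k}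
    (hpq : p ≠ 0 ∨ q ≠ 0) (h1 : f1 w0 ≠ 0) (he : a (b (p • w0 + q • w1)) = δ • (p • w0 + q • w1)) :
    δ * (f0 w1 * f1 w0) = (δ - (1 + f0 w0)) * (δ - (1 + f1 w1)) := by
  rw [hb, ha] at he
  simp only [map_add, map_smul, smul_eq_mul] at he
  obtain ⟨r, hr⟩ : ∃ r, r = q + (p * f1 w0 + q * f1 w1) := ⟨_, rfl⟩
  have e : (p + (p * f0 w0 + r * f0 w1) - δ * p) • w0 + (r - δ * q) • w1 = 0 := by
    have e1 := sub_eq_zero.mpr he
    rw [← e1, hr]
    module
  obtain ⟨e1, e2⟩ := indep _ _ e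
  have hq : q ≠ 0 := by
    rintro rfl
    have hr0 : r = 0 := by linear_combination e2
    have : p * f1 w0 = 0 := by rw [hr] at hr0; linear_combination hr0
    rcases mul_eq_zero.mp this with h | h
    · rcases hpq with h' | h'
      · exact h' h
      · exact h' rfl
    · exact h1 h
  have hr2 : r = δ * q := by linear_combination e2
  have e3 : p * f1 w0 = (δ - (1 + f1 w1)) * q := by rw [hr] at hr2; linear_combination hr2
  have e4 : δ * q * f0 w1 = (δ - (1 + f0 w0)) * p := by rw [hr2] at e1; linear_combination e1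
  apply mul_right_cancel₀ hq
  linear_combination e4 * f1 w0 + (δ - (1 + f0 w0)) * e3

/-- the normal form of two reflections from the parameter `κ` -/
theorem fin2 {w0 w1 : V} {f0 f1 : V →ₗ[k] k} {κ : k} (h0 : f0 w1 ≠ 0) (h1 : f1 w0 ≠ 0)
    (hκ : κ ≠ 0) (l0 : 1 + f0 w0 ≠ 0) (l1 : 1 + f1 w1 ≠ 0)
    (he : κ * (f0 w1 * f1 w0) = (κ - (1 + f0 w0)) * (κ - (1 + f1 w1))) :
    ∃ c1 t0 t1 : k, c1 ≠ 0 ∧ t0 ≠ 0 ∧ t0 ≠ 1 ∧ t1 ≠ 0 ∧ t1 ≠ 1 ∧ f0 w0 = κ * t0 - 1 ∧
      f1 w1 = κ * t1 - 1 ∧ f0 w1 * c1 = t0 - 1 ∧ f1 w0 = c1 * (κ * (t1 - 1)) := by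
  have hne : κ * (f0 w1 * f1 w0) ≠ 0 := mul_ne_zero hκ (mul_ne_zero h0 h1)
  rw [he] at hne
  have ha := left_ne_zero_of_mul hne
  have hb := right_ne_zero_of_mul hne
  have t0ne : (1 + f0 w0) / κ - 1 ≠ 0 := by
    intro h
    apply ha
    have : (1 + f0 w0) / κ = 1 := by linear_combination h
    rw [div_eq_one_iff_eq hκ] at this
    rw [this, sub_self]
  refine ⟨((1 + f0 w0) / κ - 1) / f0 w1, (1 + f0 w0) / κ, (1 + f1 w1) / κ,
    div_ne_zero t0ne h0, div_ne_zero l0 hκ, fun h => t0ne (by rw [h, sub_self]),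
    div_ne_zero l1 hκ, fun h => ?_, ?_, ?_, ?_, ?_⟩
  · apply hb
    rw [div_eq_one_iff_eq hκ] at h
    rw [h, sub_self]
  · field_simp; ring
  · field_simp; ring
  · field_simp
  · field_simp
    linear_combination he

theorem Chain.psi01 (h : Chain m x y w v ψ φ) {i j : ℕ} (hi : i < m) (hj : j < m) (hij : i ≠ j) :
    ¬ (ψ i (w j) = 0 ∧ ψ j (w i) = 0) := fun h' =>
  h.lx i j hi hj hij (commute_of_orth (h.hx i hi) (h.hx j hj) h'.1 h'.2)

theorem Chain.lam_ne (h : Chain m x y w v ψ φ) {i : ℕ} (hi : i < m) : 1 + ψ i (w i) ≠ 0 := by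
  intro h0
  have h3 : x i (w i) = 0 := by
    rw [h.hx i hi]
    have : w i + ψ i (w i) • w i = (1 + ψ i (w i)) • w i := by rw [add_smul, one_smul]
    rw [this, h0, zero_smul]
  exact h.w_ne hi ((LinearEquiv.map_eq_zero_iff _).mp h3)

theorem Chain.eig01 (h : Chain m x y w v ψ φ) {i j : ℕ} (hi : i < m) (hj : j < m) (hij : i ≠ j)
    {g : V ≃ₗ[k] V} (c1 : Commute g (x i)) (c2 : Commute g (x j)) :
    ∃ δ : k, g (w i) = δ • w i ∧ g (w j) = δ • w j := by
  obtain ⟨a, ha, ha'⟩ := comm_eig (h.hx i hi) (h.hx1 i hi) c1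
  obtain ⟨b, hb, hb'⟩ := comm_eig (h.hx j hj) (h.hx1 j hj) c2
  have hab : a = b := by
    by_contra hne
    apply h.psi01 hi hj hij
    constructor
    · have h1 := ha' (w j)
      rw [hb, map_smul, smul_eq_mul] at h1
      have h2 : (b - a) * ψ i (w j) = 0 := by linear_combination h1
      exact (mul_eq_zero.mp h2).resolve_left (sub_ne_zero.mpr (Ne.symm hne))
    · have h1 := hb' (w i)
      rw [ha, map_smul, smul_eq_mul] at h1
      have h2 : (a - b) * ψ j (w i) = 0 := by linear_combination h1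
      exact (mul_eq_zero.mp h2).resolve_left (sub_ne_zero.mpr hne)
  exact ⟨a, ha, hab ▸ hb⟩

theorem indep_of {a b : V} (ha : a ≠ 0) (hb : ¬ ∃ c : k, b = c • a) :
    ∀ p q : k, p • a + q • b = 0 → p = 0 ∧ q = 0 := by
  intro p q h
  have hq : q = 0 := by
    by_contra hq
    apply hb
    refine ⟨-(q⁻¹ * p), ?_⟩
    have e1 : q • b = -(p • a) := eq_neg_of_add_eq_zero_right h
    rw [neg_smul, mul_smul, ← smul_neg, ← e1, smul_smul, inv_mul_cancel₀ hq, one_smul]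
  refine ⟨?_, hq⟩
  rw [hq, zero_smul, add_zero, smul_eq_zero] at h
  exact h.resolve_right ha

theorem Chain.two (h : Chain 2 x y w v ψ φ) : NFc 2 w ψ := by
  have l0 : 0 < 2 := by norm_num
  have l1 : 1 < 2 := by norm_num
  have h01 : ψ 0 (w 1) ≠ 0 := by
    intro h0
    apply h.no_line le_rfl (h.w_ne l1)
    intro i hi
    interval_cases i
    · exact ⟨1, by rw [h.hx 0 l0, h0, zero_smul, add_zero, one_smul]⟩
    · exact ⟨1 + ψ 1 (w 1), by rw [h.hx 1 l1, add_smul, one_smul]⟩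
  have h10 : ψ 1 (w 0) ≠ 0 := by
    intro h0
    apply h.no_line le_rfl (h.w_ne l0)
    intro i hi
    interval_cases i
    · exact ⟨1 + ψ 0 (w 0), by rw [h.hx 0 l0, add_smul, one_smul]⟩
    · exact ⟨1, by rw [h.hx 1 l1, h0, zero_smul, add_zero, one_smul]⟩
  have indep : ∀ p q : k, p • w 0 + q • w 1 = 0 → p = 0 ∧ q = 0 := by
    apply indep_of (h.w_ne l0)
    rintro ⟨c, hc⟩
    apply h.no_line le_rfl (h.w_ne l0)
    intro i hi
    interval_cases i
    · exact ⟨1 + ψ 0 (w 0), by rw [h.hx 0 l0, add_smul, one_smul]⟩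
    · exact ⟨1 + ψ 1 (w 0) * c, by rw [h.hx 1 l1, hc, add_smul, one_smul, mul_smul]⟩
  obtain ⟨δ, d0, d1⟩ := h.eig01 l0 l1 (by norm_num) (h.z0 0 l1) (h.z1 0 l1)
  have hδ : δ ≠ 0 := by
    rintro rfl
    rw [zero_smul] at d0
    exact h.w_ne l0 ((LinearEquiv.map_eq_zero_iff _).mp d0)
  -- a fixed vector of `y 0`
  have hpq : φ 0 (w 1) ≠ 0 ∨ -φ 0 (w 0) ≠ 0 := by
    by_contra hcon
    push Not at hcon
    apply (h.hy 0 l1).phi_ne (h.hy1 0 l1)
    apply h.fun_zero le_rfl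
    intro i hi
    interval_cases i
    · exact neg_eq_zero.mp hcon.2
    · exact hcon.1
  set p := φ 0 (w 1) with hp
  set q := -φ 0 (w 0) with hq
  have hz : ∀ a b : k, (y 0 * x 0 * x 1) (a • w 0 + b • w 1) = δ • (a • w 0 + b • w 1) := by
    intro a b
    rw [map_add, map_smul, map_smul, d0, d1]
    module
  have hy : y 0 (p • w 0 + q • w 1) = p • w 0 + q • w 1 := by
    rw [h.hy 0 l1]
    have : φ 0 (p • w 0 + q • w 1) = 0 := by
      rw [map_add, map_smul, map_smul, smul_eq_mul, smul_eq_mul, hp, hq]; ring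
    rw [this, zero_smul, add_zero]
  have hxx : x 0 (x 1 (p • w 0 + q • w 1)) = δ • (p • w 0 + q • w 1) := by
    apply (y 0).injective
    rw [map_smul, hy]
    exact hz p q
  have hk := key2 (h.hx 0 l0) (h.hx 1 l1) indep hpq h10 hxx
  set L0 := 1 + ψ 0 (w 0) with hL0
  set L1 := 1 + ψ 1 (w 1) with hL1
  have nL0 : L0 ≠ 0 := h.lam_ne l0
  have nL1 : L1 ≠ 0 := h.lam_ne l1
  have hk2 : (L0 * L1 / δ) * (ψ 0 (w 1) * ψ 1 (w 0)) =
      (L0 * L1 / δ - L0) * (L0 * L1 / δ - L1) := by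
    field_simp
    linear_combination hk
  obtain ⟨c1, t0, t1, hc1, ht0, ht01, ht1, ht11, e00, e11, e01, e10⟩ :=
    fin2 h01 h10 (div_ne_zero (mul_ne_zero nL0 nL1) hδ) nL0 nL1 hk2
  set κ := L0 * L1 / δ with hκ
  have hκ0 : κ ≠ 0 := div_ne_zero (mul_ne_zero nL0 nL1) hδ
  have hM : ∀ i j, i < 2 → j < 2 → ψ i (w j) * (if j = 0 then 1 else c1) =
      (if i = 0 then 1 else c1) * Mt (fun l => if l = 0 then t0 else t1) κ i j := by
    intro i j hi hj
    interval_cases i <;> interval_cases j <;> simp [Mt, e00, e11, e01, e10]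
    ring
  refine ⟨fun i => if i = 0 then 1 else c1, fun l => if l = 0 then t0 else t1, κ, ?_, hκ0, ?_, hM⟩
  · intro i hi
    interval_cases i
    · simp [ht0, ht01]
    · simp [hc1, ht1, ht11]
  · intro h1
    have h2 : (1 : k) • w 0 + (-c1) • w 1 = 0 := by
      apply h.fix_zero le_rfl
      intro i hi
      rw [map_add, map_smul, map_smul, smul_eq_mul, smul_eq_mul]
      interval_cases i
      · rw [e00, h1]; linear_combination -e01
      · rw [e10, e11, h1]; ring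
    exact one_ne_zero (indep _ _ h2).1

end Pool.Agent.Conf14
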