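import Pool.Agent.Conf14.Emb

/-! From an irreducible family of pseudo-reflections to the embedding data. -/

namespace Pool.Agent.Conf14

variable {n : ℕ} {V : Type*} [AddCommGroup V] [Module ℂ V]

theorem Fam.exists_supp [FiniteDimensional ℂ V] {a : Fin n → Fin n → (V ≃ₗ[ℂ] V)}
    {v : Fin n → Fin n → V} {φ : Fin n → Fin n → (V →ₗ[ℂ] ℂ)} (h : Fam a v φ)
    (h2 : 2 ≤ Module.finrank ℂ V) : ∃ s, Supp a s := by
  by_contra hcon
  have h1 : ∀ i j, i ≠ j → a i j = 1 := by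
    intro i j hij
    by_contra hne
    exact hcon ⟨i, j, hij.symm, hne⟩
  have : Nontrivial V := Module.nontrivial_of_finrank_pos (R := ℂ) (by omega)
  obtain ⟨u, hu⟩ := exists_ne (0 : V)
  have hW : Submodule.span ℂ {u} = ⊥ ∨ Submodule.span ℂ {u} = ⊤ := by
    apply h.irr
    intro i j hij x hx
    rw [h1 i j hij]
    exact hx
  rcases hW with hW | hW
  · exact hu (Submodule.span_singleton_eq_bot.mp hW)
  · have h3 : Module.finrank ℂ (Submodule.span ℂ {u}) = 1 := finrank_span_singleton hu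
    rw [hW, finrank_top] at h3
    omega

theorem Fam.exists_last [FiniteDimensional ℂ V] {a : Fin n → Fin n → (V ≃ₗ[ℂ] V)}
    {v : Fin n → Fin n → V} {φ : Fin n → Fin n → (V →ₗ[ℂ] ℂ)} (h : Fam a v φ)
    (h2 : 2 ≤ Module.finrank ℂ V) : ∃ s, Supp a s ∧ ∀ j, Supp a j → j ≤ s := by
  classical
  obtain ⟨s0, hs0⟩ := h.exists_supp h2
  obtain ⟨s, hs, hmax⟩ := Finset.exists_max_image (Finset.univ.filter fun j => Supp a j) id
    ⟨s0, Finset.mem_filter.mpr ⟨Finset.mem_univ _, hs0⟩⟩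
  exact ⟨s, (Finset.mem_filter.mp hs).2, fun j hj =>
    hmax j (Finset.mem_filter.mpr ⟨Finset.mem_univ _, hj⟩)⟩

/-- the data of the embedding exist for every irreducible family -/
theorem Fam.exists_emb [FiniteDimensional ℂ V] {a : Fin n → Fin n → (V ≃ₗ[ℂ] V)}
    {v : Fin n → Fin n → V} {φ : Fin n → Fin n → (V →ₗ[ℂ] ℂ)} (h : Fam a v φ)
    (h2 : 2 ≤ Module.finrank ℂ V) :
    ∃ (t : Fin n → ℂˣ) (s : Fin n) (m : ℕ) (idx : ℕ → Fin n) (c : ℕ → ℂ),
      2 ≤ m ∧ Supp a s ∧ (∀ l, l < m → Supp a (idx l)) ∧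
      (∀ j, j ≠ s → (∀ l, l < m → idx l ≠ j) → a s j = 1 ∧ t j = 1) ∧
      (∀ l l', l < l' → l' < m → idx l < idx l') ∧
      Emb t s m idx c (fun l => v s (idx l)) (fun l => φ s (idx l)) := by
  classical
  obtain ⟨s, hs, hmax⟩ := h.exists_last h2
  obtain ⟨m, idx, hi, hmono, hsurj⟩ := exists_idx (Supp a) s hmax
  have hm := h.two_le h2 hs hi hsurj
  have hch := h.chain h2 hs hi hmono hsurj
  obtain ⟨c, t', κ, h1, hκ0, hκ1, hnf⟩ := hch.nf hm
  let T : ℕ → ℂˣ := fun l => if h : t' l ≠ 0 then Units.mk0 (t' l) h else 1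
  have hT : ∀ l, l < m → (T l : ℂ) = t' l := by
    intro l hl
    show ((if h : t' l ≠ 0 then Units.mk0 (t' l) h else 1 : ℂˣ) : ℂ) = t' l
    rw [dif_pos (h1 l hl).2.1]
    rfl
  let t : Fin n → ℂˣ := fun k => if k = s then Units.mk0 κ hκ0 else
    if h : ∃ l, l < m ∧ idx l = k then T h.choose else 1
  have hinj : ∀ l l', l < m → l' < m → idx l = idx l' → l = l' := by
    intro l l' hl hl' he
    rcases lt_trichotomy l l' with h3 | h3 | h3
    · exact absurd he (hmono l l' h3 hl').ne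
    · exact h3
    · exact absurd he (hmono l' l h3 hl).ne'
  have hts : (t s : ℂ) = κ := by
    show ((if s = s then Units.mk0 κ hκ0 else _ : ℂˣ) : ℂ) = κ
    rw [if_pos rfl]
    rfl
  have hti : ∀ l, l < m → (t (idx l) : ℂ) = t' l := by
    intro l hl
    have hex : ∃ l', l' < m ∧ idx l' = idx l := ⟨l, hl, rfl⟩
    show ((if idx l = s then Units.mk0 κ hκ0 else
      if h : ∃ l', l' < m ∧ idx l' = idx l then T h.choose else 1 : ℂˣ) : ℂ) = t' l
    rw [if_neg (hi l hl).2.ne, dif_pos hex]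
    have h3 := hex.choose_spec
    have h4 := hinj _ _ h3.1 hl h3.2
    rw [h4]
    exact hT l hl
  have hto : ∀ k, k ≠ s → (∀ l, l < m → idx l ≠ k) → t k = 1 := by
    intro k hk hk2
    show (if k = s then Units.mk0 κ hκ0 else
      if h : ∃ l', l' < m ∧ idx l' = k then T h.choose else 1 : ℂˣ) = 1
    rw [if_neg hk, dif_neg]
    rintro ⟨l, hl, he⟩
    exact hk2 l hl he
  refine ⟨t, s, m, idx, c, hm, hs, fun l hl => (hi l hl).1, ?_, hmono, ?_⟩
  · intro j hj hj2
    refine ⟨?_, hto j hj hj2⟩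
    by_contra hne
    have hj' : Supp a j := ⟨s, hj.symm, by rwa [h.pb.symm]⟩
    obtain ⟨l, hl, he⟩ := hsurj j hj' hj
    exact hj2 l hl he
  · refine ⟨fun l hl => (hi l hl).2, fun l hl => (h1 l hl).1, ?_, by rw [hts]; exact hκ1, ?_, ?_,
      fun u hu => hch.fix_zero hm hu, hch.span_w hm⟩
    · intro l l' hl hl'
      rw [hnf l l' hl hl']
      congr 1
      rw [Mt]
      rcases lt_trichotomy l l' with h3 | h3 | h3
      · rw [if_pos h3, phi_root_lt t (hmono l l' h3 hl') (hi l' hl').2, hti l hl]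
      · subst h3
        rw [if_neg (lt_irrefl _), if_neg (lt_irrefl _), phi_root_self t (hi l hl).2, hti l hl, hts]
        ring
      · rw [if_neg (lt_asymm h3), if_pos h3, phi_root_gt t (hmono l' l h3 hl) (hi l hl).2, hti l hl,
          hts]
    · intro k hk hk2
      rw [hto k hk hk2, Units.val_one]
    · intro l hl
      rw [hti l hl]
      exact (h1 l hl).2.2

end Pool.Agent.Conf14
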