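import Pool.Agent.Conf14.Bd6
import Pool.Agent.Conf14.Fin2

/-! One strand suffices: if the generators on one active strand are scalars plus maps of rank at
most one then so are all generators. -/

namespace Pool.Agent.Conf14

variable {n : ℕ} {V : Type*} [AddCommGroup V] [Module ℂ V]
  {a : Fin n → Fin n → (V ≃ₗ[ℂ] V)}

/-- a subspace stable under the generators on a strand is stable under their group -/
theorem NG_stable [FiniteDimensional ℂ V] {s : Fin n} {W : Submodule ℂ V}
    (hW : ∀ j, j ≠ s → ∀ x ∈ W, a s j x ∈ W) {g : V ≃ₗ[ℂ] V} (hg : g ∈ NG a s) :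
    ∀ x ∈ W, g x ∈ W := by
  induction hg using Subgroup.closure_induction with
  | mem g hg =>
      obtain ⟨j, hj, rfl⟩ := hg
      exact hW j hj
  | one => exact fun x hx => hx
  | mul g k _ _ hg hk => exact fun x hx => hg _ (hk x hx)
  | inv g _ hg => exact inv_mem_of_mem g W hg

/-- conjugation by a generator preserves the group of a strand -/
theorem PB.norm_all (h : PB a) {s k l : Fin n} (hkl : k ≠ l) {g : V ≃ₗ[ℂ] V}
    (hg : g ∈ NG a s) : a k l * g * (a k l)⁻¹ ∈ NG a s := by
  by_cases h1 : s = k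
  · have hm : a k l ∈ NG a s := by
      rw [h1]
      exact mem_NG hkl.symm
    exact mul_mem (mul_mem hm hg) (inv_mem hm)
  by_cases h2 : s = l
  · have hm : a k l ∈ NG a s := by
      rw [h2, h.symm]
      exact mem_NG hkl
    exact mul_mem (mul_mem hm hg) (inv_mem hm)
  induction hg using Subgroup.closure_induction with
  | mem x hx =>
      obtain ⟨j, hj, rfl⟩ := hx
      exact (h.norm_gen h1 h2 hkl hj).1
  | one => simp
  | mul x y _ _ hx hy =>
      have : a k l * (x * y) * (a k l)⁻¹ = (a k l * x * (a k l)⁻¹) * (a k l * y * (a k l)⁻¹) := by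
        group
      rw [this]
      exact mul_mem hx hy
  | inv x _ hx =>
      have : a k l * x⁻¹ * (a k l)⁻¹ = (a k l * x * (a k l)⁻¹)⁻¹ := by group
      rw [this]
      exact inv_mem hx

/-- the generators act on the common eigenvectors of the group of a strand -/
theorem IrrF.chi_top [FiniteDimensional ℂ V] (h : IrrF a) {s : Fin n} (χ : Fin n → ℂ) {v : V}
    (hv : v ≠ 0) (hχ : ∀ m, m ≠ s → a s m v = χ m • v) : ∀ m, m ≠ s → ∀ x, a s m x = χ m • x := by
  let W : Submodule ℂ V :=
    { carrier := {x | ∀ m, m ≠ s → a s m x = χ m • x}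
      add_mem' := fun {x y} hx hy m hm => by rw [map_add, hx m hm, hy m hm, smul_add]
      zero_mem' := fun m hm => by rw [map_zero, smul_zero]
      smul_mem' := fun c x hx m hm => by rw [map_smul, hx m hm, smul_comm] }
  have hsc : ∀ g ∈ NG a s, ∃ c : ℂ, ∀ x ∈ W, g x = c • x := by
    intro g hg
    induction hg using Subgroup.closure_induction with
    | mem g hg =>
        obtain ⟨m, hm, rfl⟩ := hg
        exact ⟨χ m, fun x hx => hx m hm⟩
    | one => exact ⟨1, fun x _ => by rw [one_smul]; rfl⟩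
    | mul g k _ _ hg hk =>
        obtain ⟨c, hc⟩ := hg
        obtain ⟨d, hd⟩ := hk
        refine ⟨c * d, fun x hx => ?_⟩
        show g (k x) = _
        rw [hd x hx, map_smul, hc x hx, smul_smul, mul_comm]
    | inv g _ hg =>
        obtain ⟨c, hc⟩ := hg
        refine ⟨c⁻¹, fun x hx => ?_⟩
        have h1 : (g⁻¹ : V ≃ₗ[ℂ] V) (g x) = x := g.symm_apply_apply x
        by_cases hc0 : c = 0
        · have h2 := hc x hx
          rw [hc0, zero_smul] at h2
          have hx0 : x = 0 := g.injective (by rw [h2, map_zero])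
          rw [hx0, map_zero, smul_zero]
        · rw [hc x hx, map_smul] at h1
          calc (g⁻¹ : V ≃ₗ[ℂ] V) x = c⁻¹ • c • (g⁻¹ : V ≃ₗ[ℂ] V) x := by
                rw [smul_smul, inv_mul_cancel₀ hc0, one_smul]
            _ = _ := by rw [h1]
  have hst : ∀ k l, k ≠ l → ∀ x ∈ W, a k l x ∈ W := by
    intro k l hkl
    by_cases h1 : s = k
    · intro x hx
      rw [← h1, hx l (by rw [h1]; exact hkl.symm)]
      exact W.smul_mem _ hx
    by_cases h2 : s = l
    · intro x hx
      rw [h.pb.symm, ← h2, hx k (fun he => h1 he.symm)]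
      exact W.smul_mem _ hx
    have key : ∀ x ∈ W, ((a k l)⁻¹ : V ≃ₗ[ℂ] V) x ∈ W := by
      intro x hx m hm
      obtain ⟨g, hg, e⟩ := (h.pb.conj h1 h2 hkl hm).1
      have hg' : g ∈ NG a s := by
        have : Subgroup.closure {a s k, a s l} ≤ NG a s := by
          rw [Subgroup.closure_le]
          rintro x (rfl | hx)
          · exact mem_NG (fun he => h1 he.symm)
          · rw [Set.mem_singleton_iff.mp hx]
            exact mem_NG (fun he => h2 he.symm)
        exact this hg
      obtain ⟨c, hc⟩ := hsc g⁻¹ (inv_mem hg')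
      have e1 : (a k l)⁻¹ * g * a s m * g⁻¹ = a s m * (a k l)⁻¹ := by
        calc (a k l)⁻¹ * g * a s m * g⁻¹ = (a k l)⁻¹ * (g * a s m * g⁻¹) := by group
          _ = (a k l)⁻¹ * (a k l * a s m * (a k l)⁻¹) := by rw [e]
          _ = _ := by group
      have e2 : a s m (((a k l)⁻¹ : V ≃ₗ[ℂ] V) x) =
          ((a k l)⁻¹ : V ≃ₗ[ℂ] V) (g (a s m ((g⁻¹ : V ≃ₗ[ℂ] V) x))) :=
        (LinearEquiv.congr_fun e1 x).symm
      have e3 : g ((g⁻¹ : V ≃ₗ[ℂ] V) x) = x := g.apply_symm_apply x
      have e4 : a s m ((g⁻¹ : V ≃ₗ[ℂ] V) x) = χ m • (g⁻¹ : V ≃ₗ[ℂ] V) x := by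
        rw [hc x hx, map_smul, hx m hm, smul_comm]
      rw [e2, e4, map_smul, e3, map_smul]
    have := inv_mem_of_mem ((a k l)⁻¹) W key
    rwa [inv_inv] at this
  have htop : W = ⊤ := by
    rcases h.irr W hst with h1 | h1
    · exact absurd ((Submodule.mem_bot ℂ).mp (h1 ▸ (show v ∈ W from hχ))) hv
    · exact h1
  intro m hm x
  have : x ∈ W := htop ▸ Submodule.mem_top
  exact this m hm

section
variable {s : Fin n} {v : Fin n → V} {φ : Fin n → (V →ₗ[ℂ] ℂ)}

/-- the group of the strand is irreducible -/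
theorem IrrF.irr_strand [FiniteDimensional ℂ V] (h : IrrF a)
    (hr : ∀ j, j ≠ s → IsRefl (a s j) (v j) (φ j)) (hs : ∃ j, j ≠ s ∧ a s j ≠ 1)
    (W : Submodule ℂ V) (hW : ∀ j, j ≠ s → ∀ x ∈ W, a s j x ∈ W) : W = ⊥ ∨ W = ⊤ := by
  by_cases hbot : W = ⊥
  · exact Or.inl hbot
  right
  obtain ⟨w, hwW, hw⟩ := Submodule.exists_mem_ne_zero_of_ne_bot hbot
  by_cases hex : ∃ j, j ≠ s ∧ a s j ≠ 1 ∧ v j ∈ W
  · obtain ⟨j, hj, hj1, hvj⟩ := hex
    let S : Submodule ℂ V := Submodule.span ℂ {x | ∃ g ∈ NG a s, x = g (v j)}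
    have hSW : S ≤ W := by
      rw [Submodule.span_le]
      rintro _ ⟨g, hg, rfl⟩
      exact NG_stable hW hg _ hvj
    have hvS : v j ∈ S := Submodule.subset_span ⟨1, one_mem _, rfl⟩
    have hSst : ∀ k l, k ≠ l → ∀ x ∈ S, a k l x ∈ S := by
      intro k l hkl x hx
      induction hx using Submodule.span_induction with
      | zero => rw [map_zero]; exact S.zero_mem
      | add x y _ _ hx hy => rw [map_add]; exact S.add_mem hx hy
      | smul c x _ hx => rw [map_smul]; exact S.smul_mem c hx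
      | mem x hx =>
          obtain ⟨g, hg, rfl⟩ := hx
          by_cases h1 : s = k
          · have hm : a k l ∈ NG a s := by
              rw [h1]
              exact mem_NG hkl.symm
            exact Submodule.subset_span ⟨a k l * g, mul_mem hm hg, rfl⟩
          by_cases h2 : s = l
          · have hm : a k l ∈ NG a s := by
              rw [h2, h.pb.symm]
              exact mem_NG hkl
            exact Submodule.subset_span ⟨a k l * g, mul_mem hm hg, rfl⟩
          have hn := h.pb.norm_all hkl hg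
          obtain ⟨g', hg', e⟩ := (h.pb.conj h1 h2 hkl hj).1
          have hg2 : g' ∈ NG a s := by
            have : Subgroup.closure {a s k, a s l} ≤ NG a s := by
              rw [Subgroup.closure_le]
              rintro x (rfl | hx)
              · exact mem_NG (fun he => h1 he.symm)
              · rw [Set.mem_singleton_iff.mp hx]
                exact mem_NG (fun he => h2 he.symm)
            exact this hg'
          obtain ⟨c, hc⟩ := conj_line (hr j hj) ((hr j hj).conj g') hj1 e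
          have e2 : a k l (g (v j)) = (a k l * g * (a k l)⁻¹) (a k l (v j)) := by
            show _ = a k l (g ((a k l).symm (a k l (v j))))
            rw [(a k l).symm_apply_apply]
          rw [e2, hc, map_smul]
          exact S.smul_mem c (Submodule.subset_span
            ⟨(a k l * g * (a k l)⁻¹) * g', mul_mem hn hg2, rfl⟩)
    rcases h.irr S hSst with h1 | h1
    · exact absurd ((Submodule.mem_bot ℂ).mp (h1 ▸ hvS)) ((hr j hj).v_ne hj1)
    · exact top_le_iff.mp (h1 ▸ hSW)
  · exfalso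
    push Not at hex
    have hfix : ∀ m, m ≠ s → a s m w = (1 : ℂ) • w := by
      intro m hm
      rw [one_smul]
      by_cases h1 : a s m = 1
      · rw [h1]; rfl
      · have h2 := hW m hm w hwW
        rw [hr m hm w] at h2
        have h3 : φ m w • v m ∈ W := by
          have := W.sub_mem h2 hwW
          rwa [add_sub_cancel_left] at this
        have h4 : φ m w = 0 := by
          by_contra hne
          apply hex m hm h1
          have := W.smul_mem (φ m w)⁻¹ h3
          rwa [smul_smul, inv_mul_cancel₀ hne, one_smul] at this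
        rw [hr m hm w, h4, zero_smul, add_zero]
    have h5 := h.chi_top (fun _ => 1) hw hfix
    obtain ⟨j, hj, hj1⟩ := hs
    apply hj1
    ext x
    rw [h5 j hj x, one_smul]
    rfl

/-- no two of the reflections on the strand commute -/
theorem IrrF.no_comm [FiniteDimensional ℂ V] (h : IrrF a) (h2 : 2 ≤ Module.finrank ℂ V)
    (hr : ∀ j, j ≠ s → IsRefl (a s j) (v j) (φ j)) {j k : Fin n} (hj : j ≠ s) (hk : k ≠ s)
    (hjk : j ≠ k) (hj1 : a s j ≠ 1) (hk1 : a s k ≠ 1) : ¬ Commute (a s j) (a s k) := by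
  intro hc
  have hnt : Nontrivial V := Module.nontrivial_of_finrank_pos (R := ℂ) (by omega)
  -- the generator `a j k` is scalar
  have hsc : IsSc (a j k) := by
    obtain ⟨μ, hμ⟩ := Module.End.exists_eigenvalue (a j k).toLinearMap
    have hE : Module.End.eigenspace (a j k).toLinearMap μ = ⊥ ∨
        Module.End.eigenspace (a j k).toLinearMap μ = ⊤ := by
      apply h.irr_strand hr ⟨j, hj, hj1⟩
      intro m hm x hx
      rw [Module.End.mem_eigenspace_iff] at hx ⊢
      have h1 := commute_iff'.mp (h.k1 hj.symm hk.symm hjk hm hc) x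
      have h2 : a j k x = μ • x := hx
      show a j k (a s m x) = μ • a s m x
      rw [h1, h2, map_smul]
    refine ⟨μ, fun x => ?_⟩
    have : x ∈ Module.End.eigenspace (a j k).toLinearMap μ :=
      (hE.resolve_left hμ) ▸ Submodule.mem_top
    exact Module.End.mem_eigenspace_iff.mp this
  -- the groups of the strands `j` and `k` commute
  have hcomm : ∀ m, m ≠ k → Commute (a k m) (a s j) := by
    intro m hm
    by_cases hmj : m = j
    · rw [hmj, h.pb.symm k j]
      exact hsc.commute _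
    · have := h.k1 hjk (Ne.symm hmj) (Ne.symm hm) hj.symm (hsc.commute (a j m))
      rwa [h.pb.symm j s] at this
  have hex : ∀ m, ∃ c : ℂ, m ≠ k → a k m (v j) = c • v j := by
    intro m
    by_cases hm : m = k
    · exact ⟨0, fun h => absurd hm h⟩
    · obtain ⟨μ, h1, -⟩ := comm_eig (hr j hj) hj1 (hcomm m hm)
      exact ⟨μ, fun _ => h1⟩
  choose χ hχ using hex
  have h5 := h.chi_top χ ((hr j hj).v_ne hj1) hχ s hk.symm
  apply hk1
  obtain ⟨u, hu, hu0⟩ := exists_ker h2 (φ k)
  have h6 := h5 u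
  rw [h.pb.symm k s, hr k hk u, hu, zero_smul, add_zero] at h6
  have h7 : χ s = 1 := by
    have h8 : (χ s - 1) • u = 0 := by rw [sub_smul, one_smul, ← h6, sub_self]
    rcases smul_eq_zero.mp h8 with h9 | h9
    · linear_combination h9
    · exact absurd h9 hu0
  ext x
  rw [h.pb.symm s k, h5 x, h7, one_smul]
  rfl

/-- the generators adjacent to the strand are scalars plus maps of rank at most one -/
theorem IrrF.adj [FiniteDimensional ℂ V] (h : IrrF a) (h3 : 3 ≤ Module.finrank ℂ V)
    (hr : ∀ j, j ≠ s → IsRefl (a s j) (v j) (φ j)) (hs : ∃ j, j ≠ s ∧ a s j ≠ 1)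
    (hv0 : ∀ j, j ≠ s → a s j = 1 → v j = 0) {k l : Fin n} (hks : k ≠ s) (hls : l ≠ s)
    (hkl : k ≠ l) (hsep : ∀ j, j ≠ s → j ≠ k → j ≠ l → Commute (a k l) (a s j)) :
    ∃ μ : ℂ, Module.finrank ℂ (LinearMap.range ((a k l).toLinearMap - μ • LinearMap.id)) ≤ 1 := by
  classical
  have hnt : Nontrivial V := Module.nontrivial_of_finrank_pos (R := ℂ) (by omega)
  let D := a k l
  -- the roots span
  have hspan : Submodule.span ℂ {x | ∃ j, j ≠ s ∧ x = v j} = ⊤ := by
    rcases h.irr_strand hr hs (Submodule.span ℂ {x | ∃ j, j ≠ s ∧ x = v j}) (by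
      intro j hj x hx
      rw [hr j hj x]
      exact Submodule.add_mem _ hx (Submodule.smul_mem _ _
        (Submodule.subset_span ⟨j, hj, rfl⟩))) with h1 | h1
    · obtain ⟨j, hj, hj1⟩ := hs
      have : v j ∈ Submodule.span ℂ {x | ∃ j, j ≠ s ∧ x = v j} :=
        Submodule.subset_span ⟨j, hj, rfl⟩
      rw [h1] at this
      exact absurd ((Submodule.mem_bot ℂ).mp this) ((hr j hj).v_ne hj1)
    · exact h1
  let S : Submodule ℂ V := Submodule.span ℂ {v k, v l}
  have hkS : v k ∈ S := Submodule.subset_span (by simp)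
  have hlS : v l ∈ S := Submodule.subset_span (by simp)
  have hSdim : Module.finrank ℂ S ≤ 2 := by
    have h1 := finrank_span_finset_le_card (R := ℂ) ({v k, v l} : Finset V)
    rw [Finset.coe_insert, Finset.coe_singleton] at h1
    exact le_trans h1 Finset.card_le_two
  have hSk : ∀ x ∈ S, a s k x ∈ S := fun x hx => by
    rw [hr k hks x]
    exact S.add_mem hx (S.smul_mem _ hkS)
  have hSl : ∀ x ∈ S, a s l x ∈ S := fun x hx => by
    rw [hr l hls x]
    exact S.add_mem hx (S.smul_mem _ hlS)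
  have hcl : ∀ g ∈ Subgroup.closure {a s k, a s l}, ∀ x ∈ S, g x ∈ S := by
    intro g hg
    induction hg using Subgroup.closure_induction with
    | mem g hg =>
        rcases hg with rfl | hg
        · exact hSk
        · rw [Set.mem_singleton_iff.mp hg]
          exact hSl
    | one => exact fun x hx => hx
    | mul g k _ _ hg hk => exact fun x hx => hg _ (hk x hx)
    | inv g _ hg => exact inv_mem_of_mem g S hg
  have hDS : ∀ j, (j = k ∨ j = l) → D (v j) ∈ S := by
    intro j hj
    have hjs : j ≠ s := by rcases hj with rfl | rfl <;> assumption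
    have hjS : v j ∈ S := by rcases hj with rfl | rfl <;> assumption
    by_cases h1 : a s j = 1
    · rw [hv0 j hjs h1, map_zero]
      exact S.zero_mem
    · obtain ⟨g, hg, e⟩ := (h.pb.conj hks.symm hls.symm hkl hjs).1
      obtain ⟨c, hc⟩ := conj_line (hr j hjs) ((hr j hjs).conj g) h1 e
      show a k l (v j) ∈ S
      rw [hc]
      exact S.smul_mem c (hcl g hg _ hjS)
  -- the common eigenvalue
  have hμ : ∃ μ : ℂ, ∀ j, j ≠ s → j ≠ k → j ≠ l → a s j ≠ 1 →
      D (v j) = μ • v j ∧ ∀ x, φ j (D x) = μ * φ j x := by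
    by_cases hex : ∃ j, j ≠ s ∧ j ≠ k ∧ j ≠ l ∧ a s j ≠ 1
    · obtain ⟨j0, hj0, hj0k, hj0l, hj01⟩ := hex
      obtain ⟨μ, e1, e2⟩ := comm_eig (hr j0 hj0) hj01 (hsep j0 hj0 hj0k hj0l)
      refine ⟨μ, fun j hj hjk hjl hj1 => ?_⟩
      obtain ⟨ν, e3, e4⟩ := comm_eig (hr j hj) hj1 (hsep j hj hjk hjl)
      by_cases hjj : j = j0
      · subst hjj
        exact ⟨e1, e2⟩
      have hnc := h.no_comm (by omega) hr hj hj0 hjj hj1 hj01
      have hν : ν = μ := by
        by_contra hne
        apply hnc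
        apply commute_of_orth (hr j hj) (hr j0 hj0)
        · have h5 := e4 (v j0)
          rw [show D (v j0) = μ • v j0 from e1, map_smul, smul_eq_mul] at h5
          have h6 : (μ - ν) * φ j (v j0) = 0 := by linear_combination h5
          rcases mul_eq_zero.mp h6 with h7 | h7
          · exact absurd (by linear_combination -h7) hne
          · exact h7
        · have h5 := e2 (v j)
          rw [show D (v j) = ν • v j from e3, map_smul, smul_eq_mul] at h5
          have h6 : (ν - μ) * φ j0 (v j) = 0 := by linear_combination h5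
          rcases mul_eq_zero.mp h6 with h7 | h7
          · exact absurd (by linear_combination h7) hne
          · exact h7
      rw [← hν]
      exact ⟨e3, e4⟩
    · push Not at hex
      exact ⟨0, fun j hj hjk hjl hj1 => absurd (hex j hj hjk hjl) hj1⟩
  obtain ⟨μ, hμ⟩ := hμ
  refine ⟨μ, ?_⟩
  have hrange : LinearMap.range (D.toLinearMap - μ • LinearMap.id) ≤ S := by
    rintro _ ⟨x, rfl⟩
    have hx : x ∈ Submodule.span ℂ {x | ∃ j, j ≠ s ∧ x = v j} := hspan ▸ Submodule.mem_top
    induction hx using Submodule.span_induction with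
    | zero => rw [map_zero]; exact S.zero_mem
    | add x y _ _ hx hy => rw [map_add]; exact S.add_mem hx hy
    | smul c x _ hx => rw [map_smul]; exact S.smul_mem c hx
    | mem x hx =>
        obtain ⟨j, hj, rfl⟩ := hx
        show D (v j) - μ • v j ∈ S
        by_cases h1 : j = k
        · subst h1
          exact S.sub_mem (hDS j (Or.inl rfl)) (S.smul_mem _ hkS)
        by_cases h2 : j = l
        · subst h2
          exact S.sub_mem (hDS j (Or.inr rfl)) (S.smul_mem _ hlS)
        by_cases h4 : a s j = 1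
        · rw [hv0 j hj h4, map_zero, smul_zero, sub_zero]
          exact S.zero_mem
        · rw [(hμ j hj h1 h2 h4).1, sub_self]
          exact S.zero_mem
  by_contra hcon
  have hge : 2 ≤ Module.finrank ℂ (LinearMap.range (D.toLinearMap - μ • LinearMap.id)) := by
    by_contra hlt
    apply hcon
    show Module.finrank ℂ (LinearMap.range (D.toLinearMap - μ • LinearMap.id)) ≤ 1
    omega
  have heq : LinearMap.range (D.toLinearMap - μ • LinearMap.id) = S :=
    Submodule.eq_of_le_of_finrank_le hrange (le_trans hSdim hge)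
  have hSst : ∀ m, m ≠ s → ∀ x ∈ S, a s m x ∈ S := by
    intro m hm x hx
    by_cases h1 : m = k
    · rw [h1]; exact hSk x hx
    by_cases h2 : m = l
    · rw [h2]; exact hSl x hx
    by_cases h4 : a s m = 1
    · rw [h4]; exact hx
    · have hx' := hx
      rw [← heq] at hx'
      obtain ⟨y, rfl⟩ := hx'
      have h5 : φ m ((D.toLinearMap - μ • LinearMap.id : V →ₗ[ℂ] V) y) = 0 := by
        show φ m (D y - μ • y) = 0
        rw [map_sub, map_smul, (hμ m hm h1 h2 h4).2 y, smul_eq_mul, sub_self]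
      rw [hr m hm, h5, zero_smul, add_zero]
      exact hx
  rcases h.irr_strand hr hs S hSst with h5 | h5
  · rw [heq, h5, finrank_bot] at hge
    omega
  · rw [h5, finrank_top] at hSdim
    omega

end

/-- a scalar plus a map of rank at most one -/
def RkOne (f : V ≃ₗ[ℂ] V) : Prop :=
  ∃ c : ℂ, Module.finrank ℂ (LinearMap.range (f.toLinearMap - c • LinearMap.id)) ≤ 1

theorem rkOne_of_form {f : V ≃ₗ[ℂ] V} {c : ℂ} {v : V} {φ : V →ₗ[ℂ] ℂ}
    (h : ∀ x, f x = c • x + φ x • v) : RkOne f := by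
  classical
  refine ⟨c, ?_⟩
  have hle : LinearMap.range (f.toLinearMap - c • LinearMap.id) ≤
      Submodule.span ℂ (({v} : Finset V) : Set V) := by
    rintro _ ⟨x, rfl⟩
    show f x - c • x ∈ _
    rw [h x, add_sub_cancel_left]
    exact Submodule.smul_mem _ _ (Submodule.subset_span (by simp))
  have h1 := Submodule.finrank_mono hle
  have h2 := finrank_span_finset_le_card (R := ℂ) ({v} : Finset V)
  rw [Finset.card_singleton] at h2
  exact le_trans h1 h2

theorem RkOne.form [FiniteDimensional ℂ V] {f : V ≃ₗ[ℂ] V} (h : RkOne f) :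
    ∃ (c : ℂ) (v : V) (φ : V →ₗ[ℂ] ℂ), ∀ x, f x = c • x + φ x • v := by
  obtain ⟨c, hc⟩ := h
  obtain ⟨v, φ, h1⟩ := exists_rank_one _ hc
  refine ⟨c, v, φ, fun x => ?_⟩
  rw [← h1 x]
  show f x = c • x + (f x - c • x)
  abel

theorem RkOne.conj [FiniteDimensional ℂ V] {f : V ≃ₗ[ℂ] V} (h : RkOne f) (g : V ≃ₗ[ℂ] V) :
    RkOne (g * f * g⁻¹) := by
  obtain ⟨c, v, φ, h1⟩ := h.form
  apply rkOne_of_form (c := c) (v := g v) (φ := φ ∘ₗ (g⁻¹ : V ≃ₗ[ℂ] V).toLinearMap)
  intro x
  show g (f ((g⁻¹ : V ≃ₗ[ℂ] V) x)) = _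
  rw [h1, map_add, map_smul, map_smul]
  congr 2
  exact g.apply_symm_apply x

theorem RkOne.refl [FiniteDimensional ℂ V] {f : V ≃ₗ[ℂ] V} (h : RkOne f)
    (h2 : 2 ≤ Module.finrank ℂ V) : ∃ (z : ℂˣ) (v : V) (φ : V →ₗ[ℂ] ℂ),
      IsRefl (sc z⁻¹ * f) v φ ∧ (sc z⁻¹ * f = 1 → v = 0) := by
  obtain ⟨c, v, φ, h1⟩ := h.form
  have hc : c ≠ 0 := by
    rintro rfl
    obtain ⟨u, hu, hu0⟩ := exists_ker h2 φ
    have := h1 u
    rw [hu, zero_smul, zero_smul, add_zero] at this
    exact hu0 (f.injective (by rw [this, map_zero]))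
  have key : ∀ x, (sc (Units.mk0 c hc)⁻¹ * f : V ≃ₗ[ℂ] V) x = x + φ x • (c⁻¹ • v) := by
    intro x
    show (((Units.mk0 c hc)⁻¹ : ℂˣ) : ℂ) • f x = _
    rw [Units.val_inv_eq_inv_val, Units.val_mk0, h1 x, smul_add, smul_smul,
      inv_mul_cancel₀ hc, one_smul, smul_comm]
  by_cases h3 : sc (Units.mk0 c hc)⁻¹ * f = 1
  · refine ⟨Units.mk0 c hc, 0, 0, fun x => ?_, fun _ => rfl⟩
    rw [h3, smul_zero, add_zero]
    rfl
  · exact ⟨Units.mk0 c hc, c⁻¹ • v, φ, key, fun he => absurd he h3⟩

/-- multiplying by scalars -/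
theorem IrrF.scale (h : IrrF a) (z : Fin n → Fin n → ℂˣ) (hz : ∀ i j, z i j = z j i) :
    IrrF fun i j => sc (z i j)⁻¹ * a i j := by
  refine ⟨h.pb.central (fun i j => sc (z i j)⁻¹) (fun i j => by rw [hz])
    (fun i j g => sc_commute _ g), fun W hW => h.irr W fun i j hij x hx => ?_⟩
  have h1 := W.smul_mem ((z i j : ℂˣ) : ℂ) (hW i j hij x hx)
  have h2 : ((z i j : ℂˣ) : ℂ) • (sc (z i j)⁻¹ * a i j : V ≃ₗ[ℂ] V) x = a i j x := by
    show ((z i j : ℂˣ) : ℂ) • (((z i j)⁻¹ : ℂˣ) : ℂ) • a i j x = a i j x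
    rw [smul_smul, ← Units.val_mul, mul_inv_cancel, Units.val_one, one_smul]
  rwa [h2] at h1

/-- the one strand theorem -/
theorem one_strand [FiniteDimensional ℂ V] {R : PureBraid n →* (V ≃ₗ[ℂ] V)}
    (h : ∀ W : Submodule ℂ V, (∀ g, ∀ x ∈ W, R g x ∈ W) → W = ⊥ ∨ W = ⊤)
    (h3 : 3 ≤ Module.finrank ℂ V) {s : Fin n} (hs : ∃ j, j ≠ s ∧ ¬ IsSc (R (B s j)))
    (hr : ∀ j, j ≠ s → RkOne (R (B s j))) {k l : Fin n} (hkl : k ≠ l) : RkOne (R (B k l)) := by
  classical
  by_cases hks : k = s
  · rw [hks]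
    exact hr l (by rw [← hks]; exact hkl.symm)
  by_cases hls : l = s
  · rw [hls, B_symm]
    exact hr k hks
  have n1 : (s : ℕ) ≠ k := fun he => hks (Fin.ext he).symm
  have n2 : (s : ℕ) ≠ l := fun he => hls (Fin.ext he).symm
  have n3 : (k : ℕ) ≠ l := fun he => hkl (Fin.ext he)
  have hn : 3 ≤ n := by
    have := s.isLt
    have := k.isLt
    have := l.isLt
    omega
  let p0 : Fin n := ⟨0, by omega⟩
  let p1 : Fin n := ⟨1, by omega⟩
  let q : Fin n := ⟨n - 1, by omega⟩
  have hp01 : p0 ≠ p1 := by simp [p0, p1]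
  have hp0q : p0 ≠ q := by
    intro he
    have := congrArg Fin.val he
    simp only [p0, q] at this
    omega
  have hp1q : p1 ≠ q := by
    intro he
    have := congrArg Fin.val he
    simp only [p1, q] at this
    omega
  obtain ⟨τ, -, e0, e1, e2⟩ := perm_three 0 (p0 := p0) (p1 := p1) (p2 := q) (k := k) (l := l)
    (s := s) (Nat.zero_le _) (Nat.zero_le _) (Nat.zero_le _) (Nat.zero_le _) (Nat.zero_le _)
    (Nat.zero_le _) hp01 hp0q hp1q hkl hks hls
  obtain ⟨γ, hγ, hc⟩ := Rl.all τ
  have hI := irrF_comp h hγ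
  let a : Fin n → Fin n → (V ≃ₗ[ℂ] V) := fun i j => (R.comp γ) (B i j)
  have ha : ∀ i j, i ≠ j → ∃ g : V ≃ₗ[ℂ] V, a i j = g * R (B (τ i) (τ j)) * g⁻¹ := by
    intro i j hij
    obtain ⟨g, hg⟩ := hc i j hij
    refine ⟨R g, ?_⟩
    show R (γ (B i j)) = _
    rw [hg, map_mul, map_mul, map_inv]
  have hrk : ∀ j, j ≠ q → RkOne (a q j) := by
    intro j hj
    obtain ⟨g, hg⟩ := ha q j hj.symm
    rw [hg, e2]
    exact (hr (τ j) (fun he => hj (τ.injective (he.trans e2.symm)))).conj g
  have hex : ∀ j, ∃ (z : ℂˣ) (v : V) (φ : V →ₗ[ℂ] ℂ), j ≠ q →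
      IsRefl (sc z⁻¹ * a q j) v φ ∧ (sc z⁻¹ * a q j = 1 → v = 0) := by
    intro j
    by_cases hj : j = q
    · exact ⟨1, 0, 0, fun he => absurd hj he⟩
    · obtain ⟨z, v, φ, h1⟩ := (hrk j hj).refl (by omega)
      exact ⟨z, v, φ, fun _ => h1⟩
  choose z v φ hz using hex
  let Z : Fin n → Fin n → ℂˣ := fun i j => if i = q then z j else if j = q then z i else 1
  have hZs : ∀ i j, Z i j = Z j i := by
    intro i j
    show (if i = q then z j else if j = q then z i else 1) =
      (if j = q then z i else if i = q then z j else 1)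
    by_cases h1 : i = q
    · by_cases h2 : j = q
      · rw [if_pos h1, if_pos h2, h1, h2]
      · rw [if_pos h1, if_neg h2, if_pos h1]
    · rw [if_neg h1, if_neg h1]
  have hZq : ∀ j, Z q j = z j := fun j => if_pos rfl
  have hJ := hI.scale Z hZs
  obtain ⟨μ, hμ⟩ := hJ.adj h3 (s := q) (v := v) (φ := φ)
    (fun j hj => by
      show IsRefl (sc (Z q j)⁻¹ * a q j) (v j) (φ j)
      rw [hZq]
      exact (hz j hj).1)
    (by
      obtain ⟨j, hj, hsc⟩ := hs
      obtain ⟨j0, rfl⟩ := τ.surjective j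
      have hj0 : j0 ≠ q := fun he => hj (by rw [he, e2])
      refine ⟨j0, hj0, ?_⟩
      show sc (Z q j0)⁻¹ * a q j0 ≠ 1
      rw [hZq]
      intro he
      apply hsc
      obtain ⟨g, hg⟩ := ha q j0 hj0.symm
      rw [e2] at hg
      apply isSc_conj (g := g)
      rw [← hg]
      refine ⟨z j0, fun x => ?_⟩
      have h5 := LinearEquiv.congr_fun he x
      have h6 : (((z j0)⁻¹ : ℂˣ) : ℂ) • a q j0 x = x := h5
      calc a q j0 x = ((z j0 : ℂˣ) : ℂ) • (((z j0)⁻¹ : ℂˣ) : ℂ) • a q j0 x := by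
            rw [smul_smul, ← Units.val_mul, mul_inv_cancel, Units.val_one, one_smul]
        _ = _ := by rw [h6])
    (fun j hj he => (hz j hj).2 (by rw [← hZq j]; exact he))
    (k := p0) (l := p1) hp0q hp1q hp01
    (fun j hjq hj0 hj1 => by
      have hj0' : (j : ℕ) ≠ 0 := fun he => hj0 (Fin.ext he)
      have hj1' : (j : ℕ) ≠ 1 := fun he => hj1 (Fin.ext he)
      apply hJ.sep hp01 hjq.symm
      · exact Fin.lt_def.mpr (by show 0 < n - 1; omega)
      · exact Fin.lt_def.mpr (by show 0 < (j : ℕ); omega)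
      · exact Fin.lt_def.mpr (by show 1 < n - 1; omega)
      · exact Fin.lt_def.mpr (by show 1 < (j : ℕ); omega))
  have h7 : RkOne (a p0 p1) := by
    refine ⟨μ, ?_⟩
    have h8 : sc (Z p0 p1)⁻¹ * a p0 p1 = a p0 p1 := by
      have h9 : Z p0 p1 = 1 := by
        show (if p0 = q then z p1 else if p1 = q then z p0 else 1) = 1
        rw [if_neg hp0q, if_neg hp1q]
      rw [h9]
      ext x
      show (((1 : ℂˣ)⁻¹ : ℂˣ) : ℂ) • a p0 p1 x = a p0 p1 x
      rw [inv_one, Units.val_one, one_smul]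
    rw [← h8]
    exact hμ
  obtain ⟨g, hg⟩ := ha p0 p1 hp01
  rw [hg, e0, e1] at h7
  have h10 := h7.conj g⁻¹
  have h11 : g⁻¹ * (g * R (B k l) * g⁻¹) * g⁻¹⁻¹ = R (B k l) := by group
  rwa [h11] at h10

end Pool.Agent.Conf14
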