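import Pool.Agent.Conf14.Rel

/-! Pseudo-reflections, and irreducibility of the subgroups of the strands. -/

namespace Pool.Agent.Conf14

variable {k V : Type*} [Field k] [AddCommGroup V] [Module k V]

/-- `a` is the identity plus the rank one map `φ ⊗ v` -/
def IsRefl (a : V ≃ₗ[k] V) (v : V) (φ : V →ₗ[k] k) : Prop := ∀ x, a x = x + φ x • v

theorem IsRefl.v_ne {a : V ≃ₗ[k] V} {v : V} {φ : V →ₗ[k] k} (h : IsRefl a v φ) (ha : a ≠ 1) :
    v ≠ 0 := by
  rintro rfl
  exact ha (LinearEquiv.ext fun x => by rw [h x, smul_zero, add_zero]; rfl)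

theorem IsRefl.phi_ne {a : V ≃ₗ[k] V} {v : V} {φ : V →ₗ[k] k} (h : IsRefl a v φ) (ha : a ≠ 1) :
    φ ≠ 0 := by
  rintro rfl
  exact ha (LinearEquiv.ext fun x => by rw [h x]; simp)

theorem exists_one {φ : V →ₗ[k] k} (h : φ ≠ 0) : ∃ x, φ x = 1 := by
  obtain ⟨x, hx⟩ : ∃ x, φ x ≠ 0 := by
    by_contra hcon
    push Not at hcon
    exact h (LinearMap.ext hcon)
  exact ⟨(φ x)⁻¹ • x, by rw [map_smul, smul_eq_mul, inv_mul_cancel₀ hx]⟩

theorem commute_iff' {a b : V ≃ₗ[k] V} : Commute a b ↔ ∀ x, a (b x) = b (a x) :=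
  ⟨fun h x => LinearEquiv.congr_fun h.eq x, fun h => LinearEquiv.ext h⟩

theorem comm_eig {a b : V ≃ₗ[k] V} {v : V} {φ : V →ₗ[k] k} (h : IsRefl b v φ) (hb : b ≠ 1)
    (hc : Commute a b) : ∃ μ : k, a v = μ • v ∧ ∀ x, φ (a x) = μ * φ x := by
  have hc' := commute_iff'.mp hc
  have key : ∀ x, φ x • a v = φ (a x) • v := by
    intro x
    have := hc' x
    rw [h x, h (a x), map_add, map_smul] at this
    exact add_left_cancel this
  obtain ⟨x0, hx0⟩ := exists_one (h.phi_ne hb)
  have h1 := key x0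
  rw [hx0, one_smul] at h1
  refine ⟨φ (a x0), h1, fun x => ?_⟩
  have h2 := key x
  rw [h1, smul_smul] at h2
  have h3 := sub_eq_zero.mpr h2
  rw [← sub_smul, smul_eq_zero] at h3
  rcases h3 with h3 | h3
  · linear_combination -h3
  · exact absurd h3 (h.v_ne hb)

theorem commute_of_eig {a b : V ≃ₗ[k] V} {v : V} {φ : V →ₗ[k] k} (h : IsRefl b v φ) {μ : k}
    (h1 : a v = μ • v) (h2 : ∀ x, φ (a x) = μ * φ x) : Commute a b := by
  rw [commute_iff']
  intro x
  rw [h x, h (a x), map_add, map_smul, h1, h2 x, smul_smul, mul_comm]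

theorem IsRefl.conj {b : V ≃ₗ[k] V} {v : V} {φ : V →ₗ[k] k} (h : IsRefl b v φ) (g : V ≃ₗ[k] V) :
    IsRefl (g * b * g⁻¹) (g v) (φ ∘ₗ (g⁻¹ : V ≃ₗ[k] V).toLinearMap) := by
  intro x
  show g (b ((g⁻¹ : V ≃ₗ[k] V) x)) = _
  rw [h, map_add, map_smul]
  congr 1
  show g (g.symm x) = x
  exact g.apply_symm_apply x

theorem conj_line {a b b' : V ≃ₗ[k] V} {v v' : V} {φ φ' : V →ₗ[k] k} (h : IsRefl b v φ)
    (h' : IsRefl b' v' φ') (hb : b ≠ 1) (hc : a * b * a⁻¹ = b') : ∃ c : k, a v = c • v' := by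
  obtain ⟨x0, hx0⟩ := exists_one (h.phi_ne hb)
  have e : a (b x0) = b' (a x0) := by
    rw [← hc]
    show a (b x0) = a (b (a.symm (a x0)))
    rw [a.symm_apply_apply]
  rw [h x0, h' (a x0), map_add, map_smul, hx0, one_smul] at e
  exact ⟨φ' (a x0), add_left_cancel e⟩

theorem commute_of_orth {a b : V ≃ₗ[k] V} {v w : V} {φ ψ : V →ₗ[k] k} (ha : IsRefl a v φ)
    (hb : IsRefl b w ψ) (h1 : φ w = 0) (h2 : ψ v = 0) : Commute a b := by
  rw [commute_iff']
  intro x
  rw [hb x, ha x, ha, hb]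
  simp only [map_add, map_smul, h1, h2, smul_eq_mul, mul_zero, add_zero]
  abel

theorem refl_dichotomy {a b : V ≃ₗ[k] V} {v w : V} {φ ψ : V →ₗ[k] k} (ha : IsRefl a v φ)
    (hb : IsRefl b w ψ) (ha1 : a ≠ 1) (hb1 : b ≠ 1) (hc : Commute a b) :
    (φ w = 0 ∧ ψ v = 0) ∨ (∃ c : k, c ≠ 0 ∧ w = c • v) ∧ ∃ d : k, d ≠ 0 ∧ ψ = d • φ := by
  obtain ⟨μ, h1, h2⟩ := comm_eig hb hb1 hc
  obtain ⟨ν, h3, h4⟩ := comm_eig ha ha1 hc.symm
  rw [ha w] at h1
  rw [hb v] at h3
  -- φ w • v = (μ - 1) • w, ψ v • w = (ν - 1) • v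
  have e1 : φ w • v = (μ - 1) • w := by rw [sub_smul, one_smul, ← h1]; abel
  have e3 : ψ v • w = (ν - 1) • v := by rw [sub_smul, one_smul, ← h3]; abel
  have e2 : ∀ x, φ x * ψ v = (μ - 1) * ψ x := by
    intro x
    have := h2 x
    rw [ha x, map_add, map_smul, smul_eq_mul] at this
    linear_combination this
  have e4 : ∀ x, ψ x * φ w = (ν - 1) * φ x := by
    intro x
    have := h4 x
    rw [hb x, map_add, map_smul, smul_eq_mul] at this
    linear_combination this
  by_cases hμ : μ = 1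
  · left
    rw [hμ, sub_self, zero_smul, smul_eq_zero] at e1
    have hw : φ w = 0 := by
      rcases e1 with h | h
      · exact h
      · exact absurd h (ha.v_ne ha1)
    refine ⟨hw, ?_⟩
    obtain ⟨x0, hx0⟩ := exists_one (ha.phi_ne ha1)
    have := e2 x0
    rw [hμ, sub_self, zero_mul, hx0, one_mul] at this
    exact this
  · right
    have hμ' : μ - 1 ≠ 0 := sub_ne_zero.mpr hμ
    have hw : φ w ≠ 0 := by
      intro h
      rw [h, zero_smul] at e1
      rcases smul_eq_zero.mp e1.symm with h' | h'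
      · exact hμ' h'
      · exact hb.v_ne hb1 h'
    have hv : ψ v ≠ 0 := by
      intro h
      apply hb.phi_ne hb1
      ext x
      have := e2 x
      rw [h, mul_zero] at this
      rcases mul_eq_zero.mp this.symm with h' | h'
      · exact absurd h' hμ'
      · rw [h']; rfl
    refine ⟨⟨(μ - 1)⁻¹ * φ w, mul_ne_zero (inv_ne_zero hμ') hw, ?_⟩,
      (μ - 1)⁻¹ * ψ v, mul_ne_zero (inv_ne_zero hμ') hv, ?_⟩
    · rw [mul_smul, e1, smul_smul, inv_mul_cancel₀ hμ', one_smul]
    · ext x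
      rw [LinearMap.smul_apply, smul_eq_mul]
      have := e2 x
      field_simp
      linear_combination -this

theorem commute_of_parallel {a b g : V ≃ₗ[k] V} {v w : V} {φ ψ : V →ₗ[k] k} (ha : IsRefl a v φ)
    (hb : IsRefl b w ψ) (ha1 : a ≠ 1) {c d : k} (hw : w = c • v) (hψ : ψ = d • φ)
    (hc : Commute g a) : Commute g b := by
  obtain ⟨μ, h1, h2⟩ := comm_eig ha ha1 hc
  refine commute_of_eig hb (μ := μ) ?_ ?_
  · rw [hw, map_smul, h1, smul_comm]
  · intro x
    rw [hψ, LinearMap.smul_apply, LinearMap.smul_apply, h2, smul_eq_mul, smul_eq_mul]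
    ring

theorem inv_mem_of_mem [FiniteDimensional k V] (f : V ≃ₗ[k] V) (W : Submodule k V)
    (h : ∀ x ∈ W, f x ∈ W) : ∀ x ∈ W, (f⁻¹ : V ≃ₗ[k] V) x ∈ W := by
  have h1 : W.map f.toLinearMap ≤ W := by
    rintro _ ⟨x, hx, rfl⟩
    exact h x hx
  have h2 : W.map f.toLinearMap = W :=
    Submodule.eq_of_le_of_finrank_eq h1 (LinearEquiv.finrank_map_eq f W)
  intro x hx
  rw [← h2] at hx
  obtain ⟨y, hy, rfl⟩ := hx
  show f.symm (f y) ∈ W
  rw [f.symm_apply_apply]
  exact hy

theorem closure_mem [FiniteDimensional k V] (S : Set (V ≃ₗ[k] V)) (W : Submodule k V)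
    (h : ∀ f ∈ S, ∀ x ∈ W, f x ∈ W) : ∀ g ∈ Subgroup.closure S, ∀ x ∈ W, g x ∈ W := by
  intro g hg
  induction hg using Subgroup.closure_induction with
  | mem f hf => exact h f hf
  | one => exact fun x hx => hx
  | mul a b _ _ iha ihb => exact fun x hx => iha _ (ihb x hx)
  | inv a _ iha => exact inv_mem_of_mem a W iha

theorem closure_fix (S : Set (V ≃ₗ[k] V)) (x : V)
    (h : ∀ f ∈ S, f x = x) : ∀ g ∈ Subgroup.closure S, g x = x := by
  intro g hg
  induction hg using Subgroup.closure_induction with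
  | mem f hf => exact h f hf
  | one => rfl
  | mul a b _ _ iha ihb => show a (b x) = x; rw [ihb, iha]
  | inv a _ iha => show a.symm x = x; rw [LinearEquiv.symm_apply_eq]; exact iha.symm

/-- a family of pseudo-reflections with the pure braid relations, irreducible -/
structure Fam {n : ℕ} (a : Fin n → Fin n → (V ≃ₗ[k] V)) (v : Fin n → Fin n → V)
    (φ : Fin n → Fin n → (V →ₗ[k] k)) : Prop where
  pb : PB a
  refl : ∀ i j, i ≠ j → IsRefl (a i j) (v i j) (φ i j)
  irr : ∀ W : Submodule k V, (∀ i j, i ≠ j → ∀ x ∈ W, a i j x ∈ W) → W = ⊥ ∨ W = ⊤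

variable {n : ℕ} {a : Fin n → Fin n → (V ≃ₗ[k] V)} {v : Fin n → Fin n → V}
  {φ : Fin n → Fin n → (V →ₗ[k] k)}

/-- the group generated by the generators on the strand `s` -/
def NS (a : Fin n → Fin n → (V ≃ₗ[k] V)) (s : Fin n) : Subgroup (V ≃ₗ[k] V) :=
  Subgroup.closure {g | ∃ j, j ≠ s ∧ g = a s j}

theorem mem_NS {s j : Fin n} (h : j ≠ s) : a s j ∈ NS a s :=
  Subgroup.subset_closure ⟨j, h, rfl⟩

theorem Fam.conj_mem (h : Fam a v φ) {s i j l : Fin n} (hi : s ≠ i) (hl : s ≠ l) (hil : i ≠ l)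
    (hj : j ≠ s) : ∃ g ∈ NS a s, a i l * a s j * (a i l)⁻¹ = g * a s j * g⁻¹ := by
  obtain ⟨g, hg, e⟩ := (h.pb.conj hi hl hil hj).1
  refine ⟨g, ?_, e⟩
  have : Subgroup.closure {a s i, a s l} ≤ NS a s := by
    rw [Subgroup.closure_le]
    rintro x (rfl | hx)
    · exact mem_NS hi.symm
    · rw [Set.mem_singleton_iff.mp hx]
      exact mem_NS hl.symm
  exact this hg

theorem Fam.conj_NS (h : Fam a v φ) {s i l : Fin n} (hi : s ≠ i) (hl : s ≠ l) (hil : i ≠ l) :
    ∀ g ∈ NS a s, a i l * g * (a i l)⁻¹ ∈ NS a s := by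
  intro g hg
  induction hg using Subgroup.closure_induction with
  | mem f hf =>
      obtain ⟨j, hj, rfl⟩ := hf
      obtain ⟨g, hg, e⟩ := h.conj_mem hi hl hil hj
      rw [e]
      exact mul_mem (mul_mem hg (mem_NS hj)) (inv_mem hg)
  | one => simp
  | mul x y _ _ hx hy =>
      have : a i l * (x * y) * (a i l)⁻¹ = (a i l * x * (a i l)⁻¹) * (a i l * y * (a i l)⁻¹) := by
        group
      rw [this]
      exact mul_mem hx hy
  | inv x _ hx =>
      have : a i l * x⁻¹ * (a i l)⁻¹ = (a i l * x * (a i l)⁻¹)⁻¹ := by group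
      rw [this]
      exact inv_mem hx

/-- the subgroup of a strand acts irreducibly as soon as it is nontrivial -/
theorem Fam.irr_strand [FiniteDimensional k V] (h : Fam a v φ) {s : Fin n}
    (hs : ∃ j, j ≠ s ∧ a s j ≠ 1) (W : Submodule k V)
    (hW : ∀ j, j ≠ s → ∀ x ∈ W, a s j x ∈ W) : W = ⊥ ∨ W = ⊤ := by
  classical
  -- invariance under all generators from invariance under the two kinds
  have split : ∀ U : Submodule k V, (∀ j, j ≠ s → ∀ x ∈ U, a s j x ∈ U) →
      (∀ i l, s ≠ i → s ≠ l → i ≠ l → ∀ x ∈ U, a i l x ∈ U) → U = ⊥ ∨ U = ⊤ := by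
    intro U h1 h2
    apply h.irr
    intro i l hil x hx
    by_cases hi : s = i
    · subst hi
      exact h1 l hil.symm x hx
    by_cases hl : s = l
    · subst hl
      rw [h.pb.symm]
      exact h1 i hil x hx
    exact h2 i l hi hl hil x hx
  -- the span of the orbits of the roots lying in W
  let U : Submodule k V := Submodule.span k {y | ∃ g ∈ NS a s, ∃ j, j ≠ s ∧ a s j ≠ 1 ∧
    v s j ∈ W ∧ y = g (v s j)}
  have hUinv : U = ⊥ ∨ U = ⊤ := by
    apply split
    · intro j hj x hx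
      have : U ≤ U.comap (a s j).toLinearMap := by
        rw [Submodule.span_le]
        rintro _ ⟨g, hg, j', hj', h1, h2, rfl⟩
        exact Submodule.subset_span ⟨a s j * g, mul_mem (mem_NS hj) hg, j', hj', h1, h2, rfl⟩
      exact this hx
    · intro i l hi hl hil x hx
      have : U ≤ U.comap (a i l).toLinearMap := by
        rw [Submodule.span_le]
        rintro _ ⟨g, hg, j', hj', h1, h2, rfl⟩
        obtain ⟨g', hg', e⟩ := h.conj_mem hi hl hil hj'
        obtain ⟨c, hc⟩ := conj_line (h.refl s j' hj'.symm) ((h.refl s j' hj'.symm).conj g') h1 e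
        have e2 : a i l (g (v s j')) = c • (a i l * g * (a i l)⁻¹ * g') (v s j') := by
          have e3 : (a i l * g * (a i l)⁻¹ * g') (v s j') =
            (a i l) (g ((a i l)⁻¹ (g' (v s j')))) := rfl
          rw [e3, ← map_smul, ← map_smul, ← map_smul, ← hc]
          congr 2
          show v s j' = (a i l).symm (a i l (v s j'))
          rw [LinearEquiv.symm_apply_apply]
        show a i l (g (v s j')) ∈ U
        rw [e2]
        exact U.smul_mem c (Submodule.subset_span ⟨_, mul_mem (h.conj_NS hi hl hil g hg) hg', j',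
          hj', h1, h2, rfl⟩)
      exact this hx
  have hUW : U ≤ W := by
    rw [Submodule.span_le]
    rintro _ ⟨g, hg, j, hj, -, h2, rfl⟩
    exact closure_mem _ W (by rintro f ⟨j, hj, rfl⟩; exact hW j hj) g hg _ h2
  by_cases hWtop : W = ⊤
  · exact Or.inr hWtop
  left
  have hUbot : U = ⊥ := by
    rcases hUinv with h1 | h1
    · exact h1
    · exact absurd (top_le_iff.mp (h1 ▸ hUW)) hWtop
  have hfix : ∀ x ∈ W, ∀ j, j ≠ s → a s j x = x := by
    intro x hx j hj
    by_cases h1 : a s j = 1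
    · rw [h1]; rfl
    have hv : v s j ∉ W := by
      intro hv
      have : v s j ∈ U := Submodule.subset_span ⟨1, one_mem _, j, hj, h1, hv, rfl⟩
      rw [hUbot, Submodule.mem_bot] at this
      exact (h.refl s j hj.symm).v_ne h1 this
    have h2 := hW j hj x hx
    have h3 := h.refl s j hj.symm x
    rw [h3]
    have h4 : φ s j x • v s j ∈ W := by
      have := W.sub_mem h2 hx
      rwa [h3, add_sub_cancel_left] at this
    have h5 : φ s j x = 0 := by
      by_contra h6
      exact hv ((W.smul_mem_iff h6).mp h4)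
    rw [h5, zero_smul, add_zero]
  -- the fixed space
  let F : Submodule k V :=
    { carrier := {x | ∀ j, j ≠ s → a s j x = x}
      add_mem' := fun {x y} hx hy j hj => by rw [map_add, hx j hj, hy j hj]
      zero_mem' := fun j _ => map_zero _
      smul_mem' := fun c x hx j hj => by rw [map_smul, hx j hj] }
  have hF : F = ⊥ ∨ F = ⊤ := by
    apply split
    · intro j hj x hx
      rw [hx j hj]
      exact hx
    · intro i l hi hl hil
      have h1 : ∀ x ∈ F, ((a i l)⁻¹ : V ≃ₗ[k] V) x ∈ F := by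
        intro x hx j hj
        have h2 := closure_fix _ x (by rintro f ⟨j, hj, rfl⟩; exact hx j hj) _
          (h.conj_NS hi hl hil _ (mem_NS hj))
        have h3 : (a i l) (a s j (((a i l)⁻¹ : V ≃ₗ[k] V) x)) = x := h2
        have h4 : (a i l) (((a i l)⁻¹ : V ≃ₗ[k] V) x) = x := (a i l).apply_symm_apply x
        exact (a i l).injective (h3.trans h4.symm)
      have h2 := inv_mem_of_mem _ F h1
      rwa [inv_inv] at h2
  rcases hF with hF | hF
  · rw [eq_bot_iff, ← hF]
    exact fun x hx => hfix x hx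
  · exfalso
    obtain ⟨j, hj, h1⟩ := hs
    apply h1
    apply LinearEquiv.ext
    intro x
    have : x ∈ F := hF ▸ Submodule.mem_top
    exact this j hj

/-- the strand `s` is not forgotten -/
def Supp (a : Fin n → Fin n → (V ≃ₗ[k] V)) (s : Fin n) : Prop := ∃ j, j ≠ s ∧ a s j ≠ 1

theorem Fam.scalar [FiniteDimensional k V] (h : Fam a v φ) (h2 : 2 ≤ Module.finrank k V)
    {s i l : Fin n} (hs : Supp a s) (hil : i ≠ l) (hc : ∀ j, j ≠ s → Commute (a i l) (a s j)) :
    a i l = 1 := by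
  by_contra hne
  let W : Submodule k V := LinearMap.ker (φ i l)
  have hW : W = ⊥ ∨ W = ⊤ := by
    apply h.irr_strand hs
    intro j hj x hx
    obtain ⟨μ, -, h4⟩ := comm_eig (h.refl i l hil) hne (hc j hj).symm
    rw [LinearMap.mem_ker] at hx ⊢
    rw [h4, hx, mul_zero]
  rcases hW with hW | hW
  · have h3 := LinearMap.finrank_range_add_finrank_ker (φ i l)
    have h4 : Module.finrank k (LinearMap.ker (φ i l)) = 0 := by
      have : LinearMap.ker (φ i l) = ⊥ := hW
      rw [this]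
      exact finrank_bot k V
    have h5 : Module.finrank k (LinearMap.range (φ i l)) ≤ 1 := by
      calc _ ≤ Module.finrank k k := Submodule.finrank_le _
        _ = 1 := Module.finrank_self k
    omega
  · exact (h.refl i l hil).phi_ne hne (LinearMap.ker_eq_top.mp hW)

theorem Fam.supp_ne [FiniteDimensional k V] (h : Fam a v φ) (h2 : 2 ≤ Module.finrank k V)
    {s i : Fin n} (hs : Supp a s) (hi : Supp a i) (hsi : s ≠ i) : a s i ≠ 1 := by
  intro h1
  obtain ⟨l, hl, hne⟩ := hi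
  by_cases hls : l = s
  · subst hls
    rw [h.pb.symm] at hne
    exact hne h1
  · apply hne
    apply h.scalar h2 hs hl.symm
    intro j hj
    exact (h.pb.conj hsi (Ne.symm hls) hl.symm hj).2 (by rw [h1]; exact Commute.one_left _)

theorem Fam.linked [FiniteDimensional k V] (h : Fam a v φ) (h2 : 2 ≤ Module.finrank k V)
    {s i l : Fin n} (hs : Supp a s) (hi : Supp a i) (hl : Supp a l) (hsi : s ≠ i) (hsl : s ≠ l)
    (hil : i ≠ l) : ¬ Commute (a s i) (a s l) := fun hc =>
  h.supp_ne h2 hi hl hil (h.scalar h2 hs hil fun _ hj => (h.pb.conj hsi hsl hil hj).2 hc)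

end Pool.Agent.Conf14
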