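import Mathlib

/-! Families satisfying the pure braid relations: conjugation of the generators on one strand. -/

namespace Pool.Agent.Conf14

/-- the relations of the pure braid group for a symmetric family -/
structure PB {n : ℕ} {G : Type*} [Group G] (a : Fin n → Fin n → G) : Prop where
  symm : ∀ i j, a i j = a j i
  t1 : ∀ i j k, i < j → j < k → Commute (a i j * a i k * a j k) (a i k)
  t2 : ∀ i j k, i < j → j < k → Commute (a i j * a i k * a j k) (a j k)
  q1 : ∀ i j k l, i < j → j < k → k < l → Commute (a i j) (a k l)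
  q2 : ∀ i j k l, i < j → j < k → k < l → Commute (a i l) (a j k)
  q3 : ∀ i j k l, i < j → j < k → k < l → Commute (a k l * a i k * (a k l)⁻¹) (a j l)

section
variable {G : Type*} [Group G]

theorem g_comm {x y c : G} (h : Commute c (x * y)) (h2 : Commute c y) : Commute c x := by
  have := h.mul_right h2.inv_right
  rwa [mul_inv_cancel_right] at this

theorem g1 {x y z w : G} (h : Commute (x * y * z) w) :
    z * w * z⁻¹ = (x * y)⁻¹ * w * ((x * y)⁻¹)⁻¹ := by
  have h' : x * y * z * w = w * (x * y * z) := h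
  have : z * w = (x * y)⁻¹ * (w * (x * y * z)) := by rw [← h']; group
  rw [this]; group

theorem g2 {x y z w : G} (h : Commute (x * y * z) w) (hz : Commute (x * y * z) z) :
    y * w * y⁻¹ = (z * x)⁻¹ * w * ((z * x)⁻¹)⁻¹ := by
  obtain ⟨c, hc⟩ : ∃ c, c = x * y * z := ⟨_, rfl⟩
  rw [← hc] at h hz
  have hy : y = x⁻¹ * c * z⁻¹ := by rw [hc]; group
  have h3 : Commute c (z⁻¹ * w * z) := (hz.inv_right.mul_right h).mul_right hz
  have h4 : c * (z⁻¹ * w * z) = (z⁻¹ * w * z) * c := h3
  calc y * w * y⁻¹ = x⁻¹ * (c * (z⁻¹ * w * z)) * c⁻¹ * x := by rw [hy]; group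
    _ = _ := by rw [h4]; group

theorem g3 {x y z w : G} (h : Commute (x * y * z) w) (hy : Commute (x * y * z) y)
    (hz : Commute (x * y * z) z) :
    x * w * x⁻¹ = (y * z)⁻¹ * w * ((y * z)⁻¹)⁻¹ := by
  obtain ⟨c, hc⟩ : ∃ c, c = x * y * z := ⟨_, rfl⟩
  rw [← hc] at h hz hy
  have hx : x = c * (y * z)⁻¹ := by rw [hc]; group
  have h3 : Commute c ((y * z)⁻¹ * w * (y * z)) :=
    ((hy.mul_right hz).inv_right.mul_right h).mul_right (hy.mul_right hz)
  have h4 : c * ((y * z)⁻¹ * w * (y * z)) = ((y * z)⁻¹ * w * (y * z)) * c := h3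
  calc x * w * x⁻¹ = (c * ((y * z)⁻¹ * w * (y * z))) * c⁻¹ := by rw [hx]; group
    _ = _ := by rw [h4]; group

theorem g4 {x b c b' : G} (h : Commute x (b * c * b⁻¹)) (e : x * b * x⁻¹ = b') :
    x * c * x⁻¹ = (b'⁻¹ * b) * c * (b'⁻¹ * b)⁻¹ := by
  have h' : x * (b * c * b⁻¹) = b * c * b⁻¹ * x := h
  calc x * c * x⁻¹ = x * b⁻¹ * x⁻¹ * (x * (b * c * b⁻¹) * x⁻¹) * x * b * x⁻¹ := by group
    _ = x * b⁻¹ * x⁻¹ * (b * c * b⁻¹ * x * x⁻¹) * x * b * x⁻¹ := by rw [h']
    _ = _ := by rw [← e]; group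

theorem g5 {x b c b' : G} (h : Commute x (b⁻¹ * c * b)) (e : x * b * x⁻¹ = b') :
    x * c * x⁻¹ = (b' * b⁻¹) * c * (b' * b⁻¹)⁻¹ := by
  have h' : x * (b⁻¹ * c * b) = b⁻¹ * c * b * x := h
  calc x * c * x⁻¹ = x * b * x⁻¹ * (x * (b⁻¹ * c * b) * x⁻¹) * x * b⁻¹ * x⁻¹ := by group
    _ = x * b * x⁻¹ * (b⁻¹ * c * b * x * x⁻¹) * x * b⁻¹ * x⁻¹ := by rw [h']
    _ = _ := by rw [← e]; group

end

variable {n : ℕ} {G : Type*} [Group G] {a : Fin n → Fin n → G}

theorem PB.t0 (h : PB a) {i j k : Fin n} (hij : i < j) (hjk : j < k) :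
    Commute (a i j * a i k * a j k) (a i j) := by
  have h1 := h.t1 i j k hij hjk
  have h2 := h.t2 i j k hij hjk
  have h3 : Commute (a i j * a i k * a j k) (a i j * (a i k * a j k)) := by
    rw [← mul_assoc]
  exact g_comm h3 (h1.mul_right h2)

/-- the elements of the closure of two commuting elements commute with both -/
theorem closure_comm {x y g : G} (hg : g ∈ Subgroup.closure {x, y}) (h : Commute x y) :
    Commute g x ∧ Commute g y := by
  induction hg using Subgroup.closure_induction with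
  | mem z hz =>
      rcases hz with rfl | hz
      · exact ⟨Commute.refl _, h⟩
      · rw [Set.mem_singleton_iff.mp hz]
        exact ⟨h.symm, Commute.refl _⟩
  | one => exact ⟨Commute.one_left _, Commute.one_left _⟩
  | mul u v _ _ hu hv => exact ⟨hu.1.mul_left hv.1, hu.2.mul_left hv.2⟩
  | inv u _ hu => exact ⟨hu.1.inv_left, hu.2.inv_left⟩

/-- conjugation of `a s k` and `a s l` by `a k l` -/
theorem PB.conj0 (h : PB a) {s k l : Fin n} (hsk : s ≠ k) (hsl : s ≠ l) (hkl : k < l) :
    ∃ g ∈ Subgroup.closure {a s k, a s l},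
      a k l * a s k * (a k l)⁻¹ = g * a s k * g⁻¹ ∧ a k l * a s l * (a k l)⁻¹ = g * a s l * g⁻¹ := by
  have mk : a s k ∈ Subgroup.closure {a s k, a s l} := Subgroup.subset_closure (by simp)
  have ml : a s l ∈ Subgroup.closure {a s k, a s l} := Subgroup.subset_closure (by simp)
  rcases lt_or_gt_of_ne hsk with h1 | h1
  · -- s < k < l
    exact ⟨(a s k * a s l)⁻¹, inv_mem (mul_mem mk ml), g1 (h.t0 h1 hkl), g1 (h.t1 _ _ _ h1 hkl)⟩
  · rcases lt_or_gt_of_ne hsl with h2 | h2
    · -- k < s < l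
      have e1 := h.symm s k
      refine ⟨(a s l * a s k)⁻¹, inv_mem (mul_mem ml mk), ?_, ?_⟩
      · have := g2 (h.t0 h1 h2) (h.t2 _ _ _ h1 h2)
        rwa [← e1] at this
      · have := g2 (h.t2 _ _ _ h1 h2) (h.t2 _ _ _ h1 h2)
        rwa [← e1] at this
    · -- k < l < s
      have e1 := h.symm s k
      have e2 := h.symm s l
      refine ⟨(a s k * a s l)⁻¹, inv_mem (mul_mem mk ml), ?_, ?_⟩
      · have := g3 (h.t1 _ _ _ hkl h2) (h.t1 _ _ _ hkl h2) (h.t2 _ _ _ hkl h2)
        rwa [← e1, ← e2] at this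
      · have := g3 (h.t2 _ _ _ hkl h2) (h.t1 _ _ _ hkl h2) (h.t2 _ _ _ hkl h2)
        rwa [← e1, ← e2] at this

/-- disjoint chords which do not cross -/
theorem PB.disj (h : PB a) {s k l j : Fin n} (hsk : s ≠ k) (hsl : s ≠ l) (hkl : k < l)
    (hjs : j ≠ s) (hjk : j ≠ k) (hjl : j ≠ l)
    (hx : (k < s ∧ s < l) ↔ (k < j ∧ j < l)) : Commute (a k l) (a s j) := by
  wlog hsj : s < j generalizing s j
  · rw [h.symm s j]
    exact this hjk hjl hjs.symm hsk hsl hx.symm (lt_of_le_of_ne (not_lt.mp hsj) hjs)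
  by_cases h1 : k < s ∧ s < l
  · have h2 := hx.mp h1
    exact h.q2 k s j l h1.1 hsj h2.2
  · have h2 : ¬ (k < j ∧ j < l) := fun h' => h1 (hx.mpr h')
    rcases lt_or_gt_of_ne hsk with h3 | h3
    · -- s < k
      rcases lt_or_gt_of_ne hjk with h4 | h4
      · exact (h.q1 s j k l hsj h4 hkl).symm
      · have h5 : l < j := by
          rcases lt_or_gt_of_ne hjl with h5 | h5
          · exact absurd ⟨h4, h5⟩ h2
          · exact h5
        exact (h.q2 s k l j h3 hkl h5).symm
    · have h4 : l < s := by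
        rcases lt_or_gt_of_ne hsl with h5 | h5
        · exact absurd ⟨h3, h5⟩ h1
        · exact h5
      exact h.q1 k l s j hkl h4 hsj

/-- crossing chords, two forms -/
theorem PB.cross (h : PB a) {s k l j : Fin n} (hkl : k < l) (hjs : j ≠ s) (hsk : s ≠ k)
    (hsl : s ≠ l) (hjk : j ≠ k) (hjl : j ≠ l)
    (hx : ¬ ((k < s ∧ s < l) ↔ (k < j ∧ j < l))) :
    Commute (a k l) (a s l * a s j * (a s l)⁻¹) ∨ Commute (a k l) ((a s l)⁻¹ * a s j * a s l) := by
  by_cases h1 : k < s ∧ s < l
  · have h2 : ¬ (k < j ∧ j < l) := fun h' => hx ⟨fun _ => h', fun _ => h1⟩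
    left
    rcases lt_or_gt_of_ne hjk with h3 | h3
    · -- j < k < s < l
      have := h.q3 j k s l h3 h1.1 h1.2
      rw [h.symm j s] at this
      exact this.symm
    · have h4 : l < j := by
        rcases lt_or_gt_of_ne hjl with h5 | h5
        · exact absurd ⟨h3, h5⟩ h2
        · exact h5
      -- k < s < l < j : a l j * a k l * (a l j)⁻¹ commutes with a s j
      have q := h.q3 k s l j h1.1 h1.2 h4
      have e := g1 (h.t1 s l j h1.2 h4)
      -- a l j * a s j * (a l j)⁻¹ = (a s l * a s j)⁻¹ * a s j * ...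
      have q' : Commute (a k l) ((a l j)⁻¹ * a s j * a l j) := by
        have : a l j * a k l * (a l j)⁻¹ * a s j = a s j * (a l j * a k l * (a l j)⁻¹) := q
        show a k l * ((a l j)⁻¹ * a s j * a l j) = (a l j)⁻¹ * a s j * a l j * a k l
        calc a k l * ((a l j)⁻¹ * a s j * a l j) =
            (a l j)⁻¹ * (a l j * a k l * (a l j)⁻¹ * a s j) * a l j := by group
          _ = _ := by rw [this]; group
      have c1 := h.t1 s l j h1.2 h4
      have c2 := h.t2 s l j h1.2 h4
      obtain ⟨z, hz⟩ : ∃ z, z = a s l * a s j * a l j := ⟨_, rfl⟩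
      rw [← hz] at c1 c2
      have hlj : a l j = (a s l * a s j)⁻¹ * z := by rw [hz]; group
      have c0 : Commute z (a s l) := by rw [hz]; exact h.t0 h1.2 h4
      have e2 : (a l j)⁻¹ * a s j * a l j = a s l * a s j * (a s l)⁻¹ := by
        have c3 : Commute z ((a s l * a s j) * a s j * (a s l * a s j)⁻¹) :=
          ((c0.mul_right c1).mul_right c1).mul_right (c0.mul_right c1).inv_right
        have c4 : z * ((a s l * a s j) * a s j * (a s l * a s j)⁻¹) =
          ((a s l * a s j) * a s j * (a s l * a s j)⁻¹) * z := c3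
        rw [hlj]
        calc ((a s l * a s j)⁻¹ * z)⁻¹ * a s j * ((a s l * a s j)⁻¹ * z) =
            z⁻¹ * (((a s l * a s j) * a s j * (a s l * a s j)⁻¹) * z) := by group
          _ = _ := by rw [← c4]; group
      rwa [e2] at q'
  · have h2 : k < j ∧ j < l := by
      by_contra h'
      exact hx ⟨fun h'' => absurd h'' h1, fun h'' => absurd h'' h'⟩
    right
    rcases lt_or_gt_of_ne hsk with h3 | h3
    · -- s < k < j < l : a j l * a s j * (a j l)⁻¹ commutes with a k l
      have q := h.q3 s k j l h3 h2.1 h2.2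
      have hsj : s < j := h3.trans h2.1
      have e := g1 (h.t0 hsj h2.2)
      -- a j l * a s j * (a j l)⁻¹ = (a s j * a s l)⁻¹ * a s j * (a s j * a s l)
      have e2 : a j l * a s j * (a j l)⁻¹ = (a s l)⁻¹ * a s j * a s l := by
        rw [e]; group
      rw [e2] at q
      exact q.symm
    · have h4 : l < s := by
        rcases lt_or_gt_of_ne hsl with h5 | h5
        · exact absurd ⟨h3, h5⟩ h1
        · exact h5
      -- k < j < l < s : a l s * a k l * (a l s)⁻¹ commutes with a j s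
      have q := h.q3 k j l s h2.1 h2.2 h4
      rw [h.symm s l, h.symm s j]
      have : a l s * a k l * (a l s)⁻¹ * a j s = a j s * (a l s * a k l * (a l s)⁻¹) := q
      show a k l * ((a l s)⁻¹ * a j s * a l s) = (a l s)⁻¹ * a j s * a l s * a k l
      calc a k l * ((a l s)⁻¹ * a j s * a l s) =
          (a l s)⁻¹ * (a l s * a k l * (a l s)⁻¹ * a j s) * a l s := by group
        _ = _ := by rw [this]; group

/-- The generator `a k l` conjugates the generators on the strand `s` into conjugates by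
elements of the group generated by `a s k` and `a s l`; if these commute it centralises the
generators on the strand `s`. -/
theorem PB.conj (h : PB a) {s k l j : Fin n} (hsk : s ≠ k) (hsl : s ≠ l) (hkl : k ≠ l)
    (hjs : j ≠ s) : (∃ g ∈ Subgroup.closure {a s k, a s l},
      a k l * a s j * (a k l)⁻¹ = g * a s j * g⁻¹) ∧
    (Commute (a s k) (a s l) → Commute (a k l) (a s j)) := by
  wlog hlt : k < l generalizing k l
  · have := this hsl hsk hkl.symm (lt_of_le_of_ne (not_lt.mp hlt) hkl.symm)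
    rw [h.symm l k, Set.pair_comm] at this
    exact ⟨this.1, fun hc => this.2 hc.symm⟩
  obtain ⟨g, hg, e1, e2⟩ := h.conj0 hsk hsl hlt
  have key : ∃ g ∈ Subgroup.closure {a s k, a s l},
      a k l * a s j * (a k l)⁻¹ = g * a s j * g⁻¹ ∧
      (Commute (a s k) (a s l) → g * a s j * g⁻¹ = a s j) := by
    by_cases hjk : j = k
    · subst hjk
      refine ⟨g, hg, e1, fun hc => ?_⟩
      rw [(closure_comm hg hc).1.eq, mul_inv_cancel_right]
    by_cases hjl : j = l
    · subst hjl
      refine ⟨g, hg, e2, fun hc => ?_⟩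
      rw [(closure_comm hg hc).2.eq, mul_inv_cancel_right]
    have ml : a s l ∈ Subgroup.closure {a s k, a s l} := Subgroup.subset_closure (by simp)
    by_cases hx : (k < s ∧ s < l) ↔ (k < j ∧ j < l)
    · refine ⟨1, one_mem _, ?_, fun _ => by group⟩
      rw [(h.disj hsk hsl hlt hjs hjk hjl hx).eq]
      group
    · rcases h.cross hlt hjs hsk hsl hjk hjl hx with hc | hc
      · refine ⟨(g * a s l * g⁻¹)⁻¹ * a s l, ?_, g4 hc e2, fun hcc => ?_⟩
        · exact mul_mem (inv_mem (mul_mem (mul_mem hg ml) (inv_mem hg))) ml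
        · rw [(closure_comm hg hcc).2.eq]; group
      · refine ⟨(g * a s l * g⁻¹) * (a s l)⁻¹, ?_, g5 hc e2, fun hcc => ?_⟩
        · exact mul_mem (mul_mem (mul_mem hg ml) (inv_mem hg)) (inv_mem ml)
        · rw [(closure_comm hg hcc).2.eq]; group
  obtain ⟨g', hg', e', c'⟩ := key
  refine ⟨⟨g', hg', e'⟩, fun hc => ?_⟩
  have := e'.trans (c' hc)
  show a k l * a s j = a s j * a k l
  calc a k l * a s j = (a k l * a s j * (a k l)⁻¹) * a k l := by group
    _ = _ := by rw [this]

end Pool.Agent.Conf14
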